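import Pool.Agent.DCS.Two

/-!
# DCS-Kxy: the sizes of the intersections `kap x ∩ kap y`

On average over the independent sets `S` of size `s + 2` (`s + 2` = independence number) and over the pairs
`x, y` of vertices outside `S`, the number `|kap x ∩ kap y|` is close to `δ k`, `δ = k / (s + 3)`, in the sense of
the second moment.
-/

open Finset Pool.Agent.Helper2.DC

namespace Pool.Agent.DCS

variable {V : Type} [Fintype V] [DecidableEq V]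

omit [Fintype V] [DecidableEq V] in
private theorem kxy_mv (X Y W : Finset V) (G : V → V → V → ℝ) :
    ∑ x ∈ X, ∑ y ∈ Y, ∑ w ∈ W, G x y w = ∑ w ∈ W, ∑ x ∈ X, ∑ y ∈ Y, G x y w := by
  calc ∑ x ∈ X, ∑ y ∈ Y, ∑ w ∈ W, G x y w = ∑ x ∈ X, ∑ w ∈ W, ∑ y ∈ Y, G x y w :=
        sum_congr rfl fun x _ => sum_comm
    _ = ∑ w ∈ W, ∑ x ∈ X, ∑ y ∈ Y, G x y w := sum_comm

omit [Fintype V] [DecidableEq V] in
private theorem kxy_gram (X W : Finset V) (I : V → V → ℝ) :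
    ∑ x ∈ X, ∑ y ∈ X, (∑ w ∈ W, I x w * I y w) ^ 2 =
      ∑ w ∈ W, ∑ w' ∈ W, (∑ x ∈ X, I x w * I x w') ^ 2 := by
  have h1 : ∀ x ∈ X, ∀ y ∈ X, (∑ w ∈ W, I x w * I y w) ^ 2 =
      ∑ w ∈ W, ∑ w' ∈ W, (I x w * I y w) * (I x w' * I y w') := by
    intro x _ y _
    rw [sq, sum_mul_sum]
  have h2 : ∀ w ∈ W, ∀ w' ∈ W, (∑ x ∈ X, I x w * I x w') ^ 2 =
      ∑ x ∈ X, ∑ y ∈ X, (I x w * I y w) * (I x w' * I y w') := by
    intro w _ w' _
    rw [sq, sum_mul_sum]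
    exact sum_congr rfl fun x _ => sum_congr rfl fun y _ => by ring
  rw [sum_congr rfl fun x hx => sum_congr rfl fun y hy => h1 x hx y hy,
    sum_congr rfl fun w hw => sum_congr rfl fun w' hw' => h2 w hw w' hw']
  rw [kxy_mv X X W fun x y w => ∑ w' ∈ W, (I x w * I y w) * (I x w' * I y w')]
  exact sum_congr rfl fun w _ => kxy_mv X X W fun x y w' => (I x w * I y w) * (I x w' * I y w')

/-- the indicator of `w ∈ kap v` -/
private noncomputable def kxyI (H : Finset (Finset V)) (S : Finset V) (v w : V) : ℝ :=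
  if w ∈ kap H S v then 1 else 0

private theorem kxy_inter (H : Finset (Finset V)) (S : Finset V) (x y : V) :
    ((kap H S x ∩ kap H S y).card : ℝ) = ∑ w ∈ S, kxyI H S x w * kxyI H S y w := by
  have h1 : kap H S x ∩ kap H S y = S.filter (fun w => w ∈ kap H S x ∧ w ∈ kap H S y) := by
    ext w
    rw [mem_inter, mem_filter]
    exact ⟨fun h => ⟨kap_subset H S x h.1, h⟩, fun h => h.2⟩
  rw [h1, card_filter]
  push_cast
  refine sum_congr rfl fun w _ => ?_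
  unfold kxyI
  by_cases ha : w ∈ kap H S x <;> by_cases hb : w ∈ kap H S y <;> simp [ha, hb]

private theorem kxy_card (H : Finset (Finset V)) (S : Finset V) (x : V) :
    ((kap H S x).card : ℝ) = ∑ w ∈ S, kxyI H S x w := by
  have h1 : kap H S x = S.filter (fun w => w ∈ kap H S x) := by
    ext w
    rw [mem_filter]
    exact ⟨fun h => ⟨kap_subset H S x h, h⟩, fun h => h.2⟩
  calc ((kap H S x).card : ℝ) = ((S.filter (fun w => w ∈ kap H S x)).card : ℝ) := by rw [← h1]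
    _ = ∑ w ∈ S, kxyI H S x w := by
      rw [card_filter]
      push_cast
      rfl

private theorem kxy_binter {H : Finset (Finset V)} {S : Finset V} {w w' : V} (hw : w ∈ S)
    (hw' : w' ∈ S) : ((Bw H S w ∩ Bw H S w').card : ℝ) =
      ∑ v ∈ Sᶜ, kxyI H S v w * kxyI H S v w' := inter_card hw hw'

private theorem kxy_bcard {H : Finset (Finset V)} {S : Finset V} {w : V} (hw : w ∈ S) :
    ((Bw H S w).card : ℝ) = ∑ v ∈ Sᶜ, kxyI H S v w := by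
  have h1 : Bw H S w = Sᶜ.filter (fun v => w ∈ kap H S v) := by
    ext v
    rw [mem_Bw_kap hw, mem_filter, mem_compl]
  rw [h1, card_filter]
  push_cast
  rfl

/-- the second moment -/
theorem kxy_sq (H : Finset (Finset V)) (S : Finset V) :
    ∑ x ∈ Sᶜ, ∑ y ∈ Sᶜ, ((kap H S x ∩ kap H S y).card : ℝ) ^ 2 =
      ∑ w ∈ S, ∑ w' ∈ S, ((Bw H S w ∩ Bw H S w').card : ℝ) ^ 2 := by
  have h1 : ∀ w ∈ S, ∀ w' ∈ S, ((Bw H S w ∩ Bw H S w').card : ℝ) ^ 2 =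
      (∑ v ∈ Sᶜ, kxyI H S v w * kxyI H S v w') ^ 2 := by
    intro w hw w' hw'
    rw [kxy_binter hw hw']
  rw [sum_congr rfl fun w hw => sum_congr rfl fun w' hw' => h1 w hw w' hw',
    ← kxy_gram Sᶜ S (kxyI H S)]
  exact sum_congr rfl fun x _ => sum_congr rfl fun y _ => by rw [kxy_inter]

/-- the first moment -/
theorem kxy_fst (H : Finset (Finset V)) (S : Finset V) :
    ∑ x ∈ Sᶜ, ∑ y ∈ Sᶜ, ((kap H S x ∩ kap H S y).card : ℝ) =
      ∑ w ∈ S, ((Bw H S w).card : ℝ) ^ 2 := by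
  have h1 : ∀ w ∈ S, ((Bw H S w).card : ℝ) ^ 2 =
      ∑ x ∈ Sᶜ, ∑ y ∈ Sᶜ, kxyI H S x w * kxyI H S y w := by
    intro w hw
    rw [kxy_bcard hw, sq, sum_mul_sum]
  rw [sum_congr rfl h1, ← kxy_mv Sᶜ Sᶜ S fun x y w => kxyI H S x w * kxyI H S y w]
  exact sum_congr rfl fun x _ => sum_congr rfl fun y _ => kxy_inter H S x y

/-- the number of the exchanges -/
theorem kxy_tot (H : Finset (Finset V)) (S : Finset V) :
    ∑ w ∈ S, ((Bw H S w).card : ℝ) = ∑ v ∈ Sᶜ, ((kap H S v).card : ℝ) := by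
  rw [sum_congr rfl fun w (hw : w ∈ S) => kxy_bcard hw, sum_comm]
  exact sum_congr rfl fun v _ => (kxy_card H S v).symm

theorem bl_eq_compl {H : Finset (Finset V)} {S : Finset V} (hE : ext H S = ∅) :
    bl H S = Sᶜ := by
  ext v
  constructor
  · intro h
    rw [mem_compl]
    exact (mem_bl.1 h).1
  · exact mem_bl_of_compl hE

/-- the number of the exchanges in terms of the defect -/
theorem kxy_def {H : Finset (Finset V)} (k : ℕ) {S : Finset V} (hE : ext H S = ∅) :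
    ∑ w ∈ S, ((Bw H S w).card : ℝ) =
      ((Fintype.card V : ℝ) - S.card) * ((k : ℝ) - 1) -
        ∑ v ∈ bl H S, ((k : ℝ) - 1 - ((kap H S v).card : ℝ)) := by
  rw [kxy_tot, bl_eq_compl hE, sum_sub_distrib, sum_const, nsmul_eq_mul, card_compl,
    Nat.cast_sub (card_le_univ S)]
  ring

/-- the second moment of `|kap x ∩ kap y| - t`, one set `S` -/
theorem kxy_point {H : Finset (Finset V)} {k s : ℕ} {S : Finset V}
    (hS : S ∈ ind H (s + 2)) (hE : ext H S = ∅) {t φ : ℝ} (ht : 0 ≤ t) (hφ : 0 ≤ φ)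
    (hφn : φ ≤ (Fintype.card V : ℝ)) :
    ∑ x ∈ Sᶜ, ∑ y ∈ Sᶜ, (((kap H S x ∩ kap H S y).card : ℝ) - t) ^ 2 ≤
      ((s : ℝ) + 2) * (Fintype.card V : ℝ) ^ 2 + ((s : ℝ) + 2) * ((s : ℝ) + 1) * φ ^ 2 +
      2 * (Fintype.card V : ℝ) *
        ∑ w ∈ S, ∑ w' ∈ S.erase w, |((Bw H S w ∩ Bw H S w').card : ℝ) - φ| -
      2 * t * (((Fintype.card V : ℝ) * k) ^ 2 - 2 * ((Fintype.card V : ℝ) * k) *
        ((Fintype.card V : ℝ) + ((s : ℝ) + 2) * ((k : ℝ) - 1) +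
          ∑ v ∈ bl H S, ((k : ℝ) - 1 - ((kap H S v).card : ℝ)))) / ((s : ℝ) + 2) +
      t ^ 2 * (Fintype.card V : ℝ) ^ 2 := by
  obtain ⟨hSc, hSI⟩ := mem_ind.1 hS
  have hScR : (S.card : ℝ) = (s : ℝ) + 2 := by
    rw [hSc]
    push_cast
    ring
  have hs2 : (0 : ℝ) < (s : ℝ) + 2 := by positivity
  have hn : (0 : ℝ) ≤ (Fintype.card V : ℝ) := Nat.cast_nonneg _
  have hcard : ∀ w ∈ S, ((S.erase w).card : ℝ) = (s : ℝ) + 1 := by
    intro w hw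
    have h := card_erase_add_one hw
    rw [hSc] at h
    have h' : (S.erase w).card = s + 1 := by omega
    rw [h']
    push_cast
    ring
  -- expansion
  have e1 : ∑ x ∈ Sᶜ, ∑ y ∈ Sᶜ, (((kap H S x ∩ kap H S y).card : ℝ) - t) ^ 2 =
      ∑ w ∈ S, ∑ w' ∈ S, ((Bw H S w ∩ Bw H S w').card : ℝ) ^ 2 -
        2 * t * ∑ w ∈ S, ((Bw H S w).card : ℝ) ^ 2 + t ^ 2 * ((Sᶜ.card : ℝ) ^ 2) := by
    rw [← kxy_sq, ← kxy_fst, mul_sum]
    have e0 : t ^ 2 * ((Sᶜ.card : ℝ) ^ 2) = ∑ _x ∈ Sᶜ, ∑ _y ∈ Sᶜ, t ^ 2 := by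
      simp only [sum_const, nsmul_eq_mul]
      ring
    rw [e0, ← sum_sub_distrib, ← sum_add_distrib]
    refine sum_congr rfl fun x _ => ?_
    rw [mul_sum, ← sum_sub_distrib, ← sum_add_distrib]
    exact sum_congr rfl fun y _ => by ring
  -- the diagonal and the rest
  have hBn : ∀ A : Finset V, (A.card : ℝ) ≤ (Fintype.card V : ℝ) := fun A => by
    exact_mod_cast card_le_univ A
  have h2 : ∀ w ∈ S, ∑ w' ∈ S, ((Bw H S w ∩ Bw H S w').card : ℝ) ^ 2 ≤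
      (Fintype.card V : ℝ) ^ 2 + (((s : ℝ) + 1) * φ ^ 2 + 2 * (Fintype.card V : ℝ) *
        ∑ w' ∈ S.erase w, |((Bw H S w ∩ Bw H S w').card : ℝ) - φ|) := by
    intro w hw
    rw [← add_sum_erase S _ hw]
    have h3 : ((Bw H S w ∩ Bw H S w).card : ℝ) ^ 2 ≤ (Fintype.card V : ℝ) ^ 2 :=
      pow_le_pow_left₀ (Nat.cast_nonneg _) (hBn _) 2
    have h4 : ∑ w' ∈ S.erase w, ((Bw H S w ∩ Bw H S w').card : ℝ) ^ 2 ≤
        ∑ w' ∈ S.erase w, (φ ^ 2 + 2 * (Fintype.card V : ℝ) *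
          |((Bw H S w ∩ Bw H S w').card : ℝ) - φ|) := by
      refine sum_le_sum fun w' _ => ?_
      have h5 := hBn (Bw H S w ∩ Bw H S w')
      have h6 : (0 : ℝ) ≤ ((Bw H S w ∩ Bw H S w').card : ℝ) := Nat.cast_nonneg _
      have h7 := le_abs_self (((Bw H S w ∩ Bw H S w').card : ℝ) - φ)
      have h8 := abs_nonneg (((Bw H S w ∩ Bw H S w').card : ℝ) - φ)
      have h9 : (((Bw H S w ∩ Bw H S w').card : ℝ) - φ) *
          (((Bw H S w ∩ Bw H S w').card : ℝ) + φ) ≤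
          |((Bw H S w ∩ Bw H S w').card : ℝ) - φ| * (2 * (Fintype.card V : ℝ)) :=
        mul_le_mul h7 (by linarith) (by linarith) h8
      nlinarith
    rw [sum_add_distrib, sum_const, nsmul_eq_mul, hcard w hw, ← mul_sum] at h4
    linarith
  have h3 := sum_le_sum h2
  have e3 : ∑ w ∈ S, ((Fintype.card V : ℝ) ^ 2 + (((s : ℝ) + 1) * φ ^ 2 +
        2 * (Fintype.card V : ℝ) *
        ∑ w' ∈ S.erase w, |((Bw H S w ∩ Bw H S w').card : ℝ) - φ|)) =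
      ((s : ℝ) + 2) * (Fintype.card V : ℝ) ^ 2 + (((s : ℝ) + 2) * ((s : ℝ) + 1) * φ ^ 2 +
        2 * (Fintype.card V : ℝ) *
        ∑ w ∈ S, ∑ w' ∈ S.erase w, |((Bw H S w ∩ Bw H S w').card : ℝ) - φ|) := by
    rw [sum_add_distrib, sum_add_distrib, sum_const, nsmul_eq_mul, sum_const, nsmul_eq_mul,
      hScR, ← mul_sum]
    ring
  rw [e3] at h3
  -- the first moment from below
  have hT := kxy_def k hE
  rw [hScR] at hT
  have h4 := sq_sum_le_card_mul_sum_sq (s := S) (f := fun w => ((Bw H S w).card : ℝ))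
  rw [hT, hScR] at h4
  set d : ℝ := ∑ v ∈ bl H S, ((k : ℝ) - 1 - ((kap H S v).card : ℝ)) with hd
  set n : ℝ := (Fintype.card V : ℝ) with hn'
  set B : ℝ := ∑ w ∈ S, ((Bw H S w).card : ℝ) ^ 2 with hB
  have h5 : (n * k) ^ 2 - 2 * (n * k) * (n + ((s : ℝ) + 2) * ((k : ℝ) - 1) + d) ≤
      ((s : ℝ) + 2) * B := by
    refine le_trans ?_ h4
    have h6 := sq_nonneg (n + ((s : ℝ) + 2) * ((k : ℝ) - 1) + d)
    nlinarith
  have h6 : 2 * t * ((n * k) ^ 2 - 2 * (n * k) * (n + ((s : ℝ) + 2) * ((k : ℝ) - 1) + d)) /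
      ((s : ℝ) + 2) ≤ 2 * t * B := by
    rw [div_le_iff₀ hs2]
    have := mul_le_mul_of_nonneg_left h5 (show (0 : ℝ) ≤ 2 * t by positivity)
    linarith
  have h7 : (Sᶜ.card : ℝ) ^ 2 ≤ n ^ 2 := pow_le_pow_left₀ (Nat.cast_nonneg _) (hBn _) 2
  have h8 := mul_le_mul_of_nonneg_left h7 (sq_nonneg t)
  rw [e1]
  linarith

theorem kxy_arith {M δ n E d k : ℝ} (hM : 3 ≤ M) (hδ1 : δ ≤ 1)
    (hn : 0 ≤ n) (hk : k = δ * M) (hk0 : 1 ≤ k) (hd : 0 ≤ d) :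
    (M - 1) * n ^ 2 + (M - 1) * (M - 2) * (δ ^ 2 * n) ^ 2 + 2 * n * E -
      2 * (δ * k) * ((n * k) ^ 2 - 2 * (n * k) * (n + (M - 1) * (k - 1) + d)) / (M - 1) +
      (δ * k) ^ 2 * n ^ 2 ≤
    M * n ^ 2 + 2 * n * E + 6 * M * n * (n + M ^ 2 + d) := by
  have hM1 : 0 < M - 1 := by linarith
  have hkM : k ≤ M := by
    rw [hk]
    nlinarith
  have hL : n + (M - 1) * (k - 1) + d ≤ n + M ^ 2 + d := by nlinarith
  have hL0 : 0 ≤ n + (M - 1) * (k - 1) + d := by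
    have : 0 ≤ (M - 1) * (k - 1) := mul_nonneg hM1.le (by linarith)
    linarith
  -- main part
  have h1 : (M - 1) * (M - 2) * (δ ^ 2 * n) ^ 2 + (δ * k) ^ 2 * n ^ 2 ≤
      2 * (δ * k) * (n * k) ^ 2 / (M - 1) := by
    rw [le_div_iff₀ hM1, hk]
    have h2 : ((M - 1) * (M - 2) * (δ ^ 2 * n) ^ 2 + (δ * (δ * M)) ^ 2 * n ^ 2) * (M - 1) =
        (δ ^ 4 * n ^ 2) * (((M - 1) * (M - 2) + M ^ 2) * (M - 1)) := by ring
    have h3 : 2 * (δ * (δ * M)) * (n * (δ * M)) ^ 2 = (δ ^ 4 * n ^ 2) * (2 * M ^ 3) := by ring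
    rw [h2, h3]
    refine mul_le_mul_of_nonneg_left ?_ (by positivity)
    nlinarith [sq_nonneg M, mul_nonneg (sq_nonneg M) (show (0 : ℝ) ≤ M by linarith)]
  have h2 : 2 * (δ * k) * (2 * (n * k) * (n + (M - 1) * (k - 1) + d)) / (M - 1) ≤
      6 * M * n * (n + M ^ 2 + d) := by
    rw [div_le_iff₀ hM1]
    have h3 : 2 * (δ * k) * (2 * (n * k)) ≤ 4 * M ^ 2 * n := by
      have h4 : δ * k * k ≤ 1 * M * M := by
        have : 0 ≤ k := by linarith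
        gcongr
      nlinarith
    have h5 : 4 * M ^ 2 * n ≤ 6 * M * n * (M - 1) := by
      have : 4 * M ^ 2 ≤ 6 * M * (M - 1) := by nlinarith
      nlinarith
    have h6 : 2 * (δ * k) * (2 * (n * k)) * (n + (M - 1) * (k - 1) + d) ≤
        (6 * M * n * (M - 1)) * (n + M ^ 2 + d) :=
      mul_le_mul (h3.trans h5) hL hL0 (by positivity)
    linarith
  have e1 : 2 * (δ * k) * ((n * k) ^ 2 - 2 * (n * k) * (n + (M - 1) * (k - 1) + d)) / (M - 1) =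
      2 * (δ * k) * (n * k) ^ 2 / (M - 1) -
        2 * (δ * k) * (2 * (n * k) * (n + (M - 1) * (k - 1) + d)) / (M - 1) := by
    rw [← sub_div]
    congr 1
    ring
  rw [e1]
  have h7 : (M - 1) * n ^ 2 ≤ M * n ^ 2 := by nlinarith [sq_nonneg n]
  linarith

/-- the second moment, one set `S`: `m = s + 3`, `δ = k / m` -/
theorem kxy_point' {H : Finset (Finset V)} {k s : ℕ} (hH : ∀ e ∈ H, e.card = k) (hk : 2 ≤ k)
    (hks : k ≤ s + 3) {S : Finset V} (hS : S ∈ ind H (s + 2)) (hE : ext H S = ∅) {δ : ℝ}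
    (hδ : δ = (k : ℝ) / ((s : ℝ) + 3)) :
    ∑ x ∈ Sᶜ, ∑ y ∈ Sᶜ, (((kap H S x ∩ kap H S y).card : ℝ) - δ * k) ^ 2 ≤
      ((s : ℝ) + 3) * (Fintype.card V : ℝ) ^ 2 +
      2 * (Fintype.card V : ℝ) * ∑ w ∈ S, ∑ w' ∈ S.erase w,
        |((Bw H S w ∩ Bw H S w').card : ℝ) - δ ^ 2 * (Fintype.card V : ℝ)| +
      6 * ((s : ℝ) + 3) * (Fintype.card V : ℝ) * ((Fintype.card V : ℝ) + ((s : ℝ) + 3) ^ 2 +
        ∑ v ∈ bl H S, ((k : ℝ) - 1 - ((kap H S v).card : ℝ))) := by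
  have hk2 : (2 : ℝ) ≤ k := by exact_mod_cast hk
  have hks2 : (k : ℝ) ≤ (s : ℝ) + 3 := by exact_mod_cast hks
  have hs : (0 : ℝ) ≤ s := Nat.cast_nonneg _
  have hδ0 : 0 < δ := by rw [hδ]; positivity
  have hδ1 : δ ≤ 1 := by rw [hδ, div_le_one (by linarith)]; exact hks2
  have hn : (0 : ℝ) ≤ (Fintype.card V : ℝ) := Nat.cast_nonneg _
  have hkM : (k : ℝ) = δ * ((s : ℝ) + 3) := by rw [hδ]; field_simp
  have hd : 0 ≤ ∑ v ∈ bl H S, ((k : ℝ) - 1 - ((kap H S v).card : ℝ)) := by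
    refine sum_nonneg fun v hv => ?_
    have h := kap_card_le hH (mem_ind.1 hS).2 hv
    have h' : ((kap H S v).card : ℝ) + 1 ≤ k := by exact_mod_cast h
    linarith
  have h1 := kxy_point (k := k) hS hE (t := δ * k) (φ := δ ^ 2 * (Fintype.card V : ℝ))
    (by positivity) (by positivity) (by nlinarith [mul_nonneg hn hδ0.le])
  have h2 := kxy_arith (M := (s : ℝ) + 3) (δ := δ) (n := (Fintype.card V : ℝ))
    (E := ∑ w ∈ S, ∑ w' ∈ S.erase w,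
        |((Bw H S w ∩ Bw H S w').card : ℝ) - δ ^ 2 * (Fintype.card V : ℝ)|)
    (d := ∑ v ∈ bl H S, ((k : ℝ) - 1 - ((kap H S v).card : ℝ))) (k := (k : ℝ))
    (by linarith) hδ1 hn hkM (by linarith) hd
  have e1 : (s : ℝ) + 3 - 1 = (s : ℝ) + 2 := by ring
  have e2 : (s : ℝ) + 3 - 2 = (s : ℝ) + 1 := by ring
  rw [e1, e2] at h2
  exact h1.trans h2

/-- the second moment, summed over the independent sets of size `s + 2` -/
theorem kxy_delta {H : Finset (Finset V)} {k s : ℕ} (hH : ∀ e ∈ H, e.card = k) (hk : 2 ≤ k)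
    (hks : k ≤ s + 3) (h0 : NI H (s + 3) = 0) {δ η c : ℝ} (hδ : δ = (k : ℝ) / ((s : ℝ) + 3))
    (hη : 0 ≤ η) (hc : 0 ≤ c)
    (hV : Sq H (s + 1) ≤ η * (Fintype.card V : ℝ) ^ 2 * NI H (s + 1))
    (hV' : Sq H s ≤ η * (Fintype.card V : ℝ) ^ 2 * NI H s)
    (hA : δ / 2 * (Fintype.card V : ℝ) ≤ Av H (s + 1))
    (hA' : δ / 2 * (Fintype.card V : ℝ) ≤ Av H s)
    (hD : δ ^ 2 * (Fintype.card V : ℝ) - c * (Fintype.card V : ℝ) ≤
      2 * Av H (s + 1) - Av H s)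
    (hDf : Df H k (s + 2) ≤ η * ((s : ℝ) + 3) * (Fintype.card V : ℝ) * NI H (s + 2))
    (hM : 1 ≤ η * ((s : ℝ) + 3)) (hMn : (s : ℝ) + 3 ≤ η * (Fintype.card V : ℝ)) :
    ∑ S ∈ ind H (s + 2), ∑ x ∈ Sᶜ, ∑ y ∈ Sᶜ,
        (((kap H S x ∩ kap H S y).card : ℝ) - δ * k) ^ 2 ≤
      (19 * η + 32 / δ ^ 2 * √η + 4 * c) * ((s : ℝ) + 3) ^ 2 * (Fintype.card V : ℝ) ^ 2 *
        NI H (s + 2) := by
  have hk2 : (2 : ℝ) ≤ k := by exact_mod_cast hk
  have hs : (0 : ℝ) ≤ s := Nat.cast_nonneg _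
  have hδ0 : 0 < δ := by rw [hδ]; positivity
  have hn : (0 : ℝ) ≤ (Fintype.card V : ℝ) := Nat.cast_nonneg _
  have hN := NI_nonneg H (s + 2)
  have h1 := sum_le_sum fun S (hS : S ∈ ind H (s + 2)) =>
    kxy_point' hH hk hks hS (ext_empty h0 hS) hδ
  refine h1.trans ?_
  have e1 : ∑ S ∈ ind H (s + 2), (((s : ℝ) + 3) * (Fintype.card V : ℝ) ^ 2 +
      2 * (Fintype.card V : ℝ) * ∑ w ∈ S, ∑ w' ∈ S.erase w,
        |((Bw H S w ∩ Bw H S w').card : ℝ) - δ ^ 2 * (Fintype.card V : ℝ)| +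
      6 * ((s : ℝ) + 3) * (Fintype.card V : ℝ) * ((Fintype.card V : ℝ) + ((s : ℝ) + 3) ^ 2 +
        ∑ v ∈ bl H S, ((k : ℝ) - 1 - ((kap H S v).card : ℝ)))) =
      NI H (s + 2) * (((s : ℝ) + 3) * (Fintype.card V : ℝ) ^ 2) +
      2 * (Fintype.card V : ℝ) * ∑ S ∈ ind H (s + 2), ∑ w ∈ S, ∑ w' ∈ S.erase w,
        |((Bw H S w ∩ Bw H S w').card : ℝ) - δ ^ 2 * (Fintype.card V : ℝ)| +
      6 * ((s : ℝ) + 3) * (Fintype.card V : ℝ) *
        (NI H (s + 2) * ((Fintype.card V : ℝ) + ((s : ℝ) + 3) ^ 2) + Df H k (s + 2)) := by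
    rw [sum_add_distrib, sum_add_distrib, sum_const, nsmul_eq_mul, ← mul_sum, ← mul_sum,
      sum_add_distrib, sum_const, nsmul_eq_mul]
    rfl
  rw [e1]
  have h2 := two_delta hH hk hks h0 hδ hη hc hV hV' hA hA' hD
  set n : ℝ := (Fintype.card V : ℝ)
  set N : ℝ := NI H (s + 2)
  set M : ℝ := (s : ℝ) + 3 with hMdef
  have hM0 : 0 < M := by positivity
  have hsq : 0 ≤ √η := Real.sqrt_nonneg η
  have h3 : (16 / δ ^ 2 * √η + 2 * c) * (((s : ℝ) + 2) * ((s : ℝ) + 1)) * n * N ≤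
      (16 / δ ^ 2 * √η + 2 * c) * M ^ 2 * n * N := by
    have : ((s : ℝ) + 2) * ((s : ℝ) + 1) ≤ M ^ 2 := by
      rw [hMdef]
      nlinarith
    gcongr
  have h4 := mul_le_mul_of_nonneg_left (h2.trans h3) (show (0 : ℝ) ≤ 2 * n by positivity)
  have h5 : N * (M * n ^ 2) ≤ η * M ^ 2 * n ^ 2 * N := by
    have := mul_le_mul_of_nonneg_right hM (show (0 : ℝ) ≤ M * n ^ 2 * N by positivity)
    linarith
  have h6 : N * M ^ 2 * (M * n) ≤ η * M ^ 2 * n ^ 2 * N * 1 := by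
    have := mul_le_mul_of_nonneg_right hMn (show (0 : ℝ) ≤ N * M ^ 2 * n by positivity)
    linarith
  have h7 : 6 * M * n * Df H k (s + 2) ≤ 6 * M * n * (η * M * n * N) :=
    mul_le_mul_of_nonneg_left hDf (by positivity)
  have h8 : 6 * M * n * (N * (n + M ^ 2) + Df H k (s + 2)) =
      6 * (N * (M * n ^ 2)) + 6 * (N * M ^ 2 * (M * n)) + 6 * M * n * Df H k (s + 2) := by ring
  rw [h8]
  have h9 : (19 * η + 32 / δ ^ 2 * √η + 4 * c) * M ^ 2 * n ^ 2 * N =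
      19 * (η * M ^ 2 * n ^ 2 * N) + 2 * n * ((16 / δ ^ 2 * √η + 2 * c) * M ^ 2 * n * N) := by
    ring
  rw [h9]
  linarith

end Pool.Agent.DCS
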