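import Pool.Agent.DCS.Rel
import Pool.Agent.DCS.Kxy

/-!
# DCS-Typ: a typical pair `(J, w)`

There are an independent set `J` of size `s + 1` and `w ∈ J` such that the graph on the free vertices of `J`, `x`
related to `y` if `J - w + x + y` is not independent, has about the expected number of points, about the expected
degrees and few cherries.
-/

open Finset Pool.Agent.Helper2.DC

namespace Pool.Agent.DCS

variable {V : Type} [Fintype V] [DecidableEq V]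

theorem nb_add_nn {X : Finset V} (R : V → V → Prop) {x : V} (hx : x ∈ X) :
    (nb X R x).card + (nn X R x).card + 1 = X.card := by
  classical
  have h1 : nb X R x = (X.erase x).filter (fun y => R x y) := by
    ext y
    rw [mem_nb, mem_filter, mem_erase]
    tauto
  have h2 : nn X R x = (X.erase x).filter (fun y => ¬ R x y) := by
    ext y
    rw [mem_nn, mem_filter, mem_erase]
    tauto
  have h3 := card_filter_add_card_filter_not (s := X.erase x) (fun y => R x y)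
  have h4 := card_erase_add_one hx
  rw [h1, h2]
  omega

theorem nn_eq {H : Finset (Finset V)} {J : Finset V} {w x : V} (hw : w ∈ J)
    (hx : x ∈ ext H J) : nn (ext H J) (Rl H J w) x =
      Bw H (insert x J) x ∩ Bw H (insert x J) w := by
  obtain ⟨hxJ, _⟩ := mem_ext.1 hx
  have hxw : x ≠ w := fun h => hxJ (h ▸ hw)
  have e1 : (insert x J).erase x = J := erase_insert hxJ
  have e2 : (insert x J).erase w = insert x (J.erase w) := erase_insert_of_ne hxw
  ext y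
  rw [mem_nn, mem_inter, mem_Bw, mem_Bw, mem_ext, e1, e2, mem_insert]
  unfold Rl
  rw [not_not, Finset.insert_comm y x]
  constructor
  · rintro ⟨⟨h1, h2⟩, h3, h4⟩
    have h5 : ¬ (y = x ∨ y ∈ J) := fun h => h.elim h3 h1
    exact ⟨⟨h5, h2⟩, h5, h4⟩
  · rintro ⟨⟨h1, h2⟩, _, h4⟩
    exact ⟨⟨fun h => h1 (Or.inr h), h2⟩, fun h => h1 (Or.inl h), h4⟩

/-- the degree in terms of the exchange sets -/
theorem nb_card {H : Finset (Finset V)} {J : Finset V} {w x : V} (hw : w ∈ J)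
    (hx : x ∈ ext H J) : ((nb (ext H J) (Rl H J w) x).card : ℝ) =
      ((ext H J).card : ℝ) - 1 - ((Bw H (insert x J) x ∩ Bw H (insert x J) w).card : ℝ) := by
  have h1 := nb_add_nn (Rl H J w) hx
  rw [nn_eq hw hx] at h1
  have h2 : ((nb (ext H J) (Rl H J w) x).card : ℝ) +
      ((Bw H (insert x J) x ∩ Bw H (insert x J) w).card : ℝ) + 1 = ((ext H J).card : ℝ) := by
    exact_mod_cast h1
  linarith

/-- the deviation of the sizes of the intersections, seen from the smaller set -/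
noncomputable def Dv (H : Finset (Finset V)) (φ : ℝ) (J : Finset V) (w : V) : ℝ :=
  ∑ x ∈ ext H J, |((Bw H (insert x J) x ∩ Bw H (insert x J) w).card : ℝ) - φ|

theorem Dv_nonneg (H : Finset (Finset V)) (φ : ℝ) (J : Finset V) (w : V) : 0 ≤ Dv H φ J w :=
  sum_nonneg fun _ _ => abs_nonneg _

theorem Dv_sum (H : Finset (Finset V)) (s : ℕ) (φ : ℝ) :
    ∑ J ∈ ind H (s + 1), ∑ w ∈ J, Dv H φ J w =
      ∑ S ∈ ind H (s + 2), ∑ w ∈ S, ∑ w' ∈ S.erase w,
        |((Bw H S w ∩ Bw H S w').card : ℝ) - φ| := by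
  have h1 := sum_ext H (s + 1) (fun J x => ∑ w ∈ J,
    |((Bw H (insert x J) x ∩ Bw H (insert x J) w).card : ℝ) - φ|)
  have h2 : ∑ J ∈ ind H (s + 1), ∑ w ∈ J, Dv H φ J w =
      ∑ J ∈ ind H (s + 1), ∑ x ∈ ext H J, ∑ w ∈ J,
        |((Bw H (insert x J) x ∩ Bw H (insert x J) w).card : ℝ) - φ| :=
    sum_congr rfl fun J _ => sum_comm
  rw [h2, h1]
  refine sum_congr rfl fun S _ => sum_congr rfl fun a ha => ?_
  rw [insert_erase ha]

/-- the degrees of the graph -/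
theorem deg_dev {H : Finset (Finset V)} {J : Finset V} {w : V} (hw : w ∈ J) {δ : ℝ}
    (hδ0 : 0 ≤ δ) (hδ1 : δ ≤ 1) :
    ∑ x ∈ ext H J, |((nb (ext H J) (Rl H J w) x).card : ℝ) - (1 - δ) * ((ext H J).card : ℝ)| ≤
      Dv H (δ ^ 2 * (Fintype.card V : ℝ)) J w +
        (Fintype.card V : ℝ) * |((ext H J).card : ℝ) - δ * (Fintype.card V : ℝ)| +
        (Fintype.card V : ℝ) := by
  have hX := ext_card_le H J
  have h1 : ∀ x ∈ ext H J,
      |((nb (ext H J) (Rl H J w) x).card : ℝ) - (1 - δ) * ((ext H J).card : ℝ)| ≤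
      |((Bw H (insert x J) x ∩ Bw H (insert x J) w).card : ℝ) -
        δ ^ 2 * (Fintype.card V : ℝ)| +
      (|((ext H J).card : ℝ) - δ * (Fintype.card V : ℝ)| + 1) := by
    intro x hx
    rw [nb_card hw hx]
    have e1 : ((ext H J).card : ℝ) - 1 -
        ((Bw H (insert x J) x ∩ Bw H (insert x J) w).card : ℝ) - (1 - δ) * ((ext H J).card : ℝ) =
        -(((Bw H (insert x J) x ∩ Bw H (insert x J) w).card : ℝ) -
          δ ^ 2 * (Fintype.card V : ℝ)) +
        (δ * (((ext H J).card : ℝ) - δ * (Fintype.card V : ℝ)) - 1) := by ring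
    rw [e1]
    refine (abs_add_le _ _).trans ?_
    rw [abs_neg]
    refine add_le_add_right ?_ _
    refine (abs_sub _ _).trans ?_
    rw [abs_mul, abs_of_nonneg hδ0, abs_one]
    refine add_le_add_left ?_ _
    exact mul_le_of_le_one_left (abs_nonneg _) hδ1
  refine (sum_le_sum h1).trans ?_
  rw [sum_add_distrib, sum_const, nsmul_eq_mul]
  have h2 := mul_le_mul_of_nonneg_right hX
    (show 0 ≤ |((ext H J).card : ℝ) - δ * (Fintype.card V : ℝ)| + 1 by positivity)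
  unfold Dv
  linarith

/-- the typical pair -/
theorem typ {H : Finset (Finset V)} {s : ℕ} {δ η c A θ : ℝ} (hδ0 : 0 ≤ δ) (hδ1 : δ ≤ 1)
    (hη : 0 ≤ η) (hA : 0 ≤ A) (hn : 0 < (Fintype.card V : ℝ)) (hN : 0 < NI H (s + 1))
    (hV : Sq H (s + 1) ≤ η * (Fintype.card V : ℝ) ^ 2 * NI H (s + 1))
    (hAv : |Av H (s + 1) - δ * (Fintype.card V : ℝ)| ≤ c * (Fintype.card V : ℝ))
    (hE : ∑ S ∈ ind H (s + 2), ∑ w ∈ S, ∑ w' ∈ S.erase w,
        |((Bw H S w ∩ Bw H S w').card : ℝ) - δ ^ 2 * (Fintype.card V : ℝ)| ≤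
      A * (((s : ℝ) + 2) * ((s : ℝ) + 1)) * (Fintype.card V : ℝ) * NI H (s + 2))
    (hch : ∑ J ∈ ind H (s + 1), ∑ w ∈ J, Ch H J w ≤
      θ * ((s : ℝ) + 1) * (Fintype.card V : ℝ) ^ 3 * NI H (s + 1)) :
    ∃ J ∈ ind H (s + 1), ∃ w ∈ J,
      |((ext H J).card : ℝ) - δ * (Fintype.card V : ℝ)| ≤
        (√η + c + A + θ) * (Fintype.card V : ℝ) ∧
      ∑ x ∈ ext H J,
        |((nb (ext H J) (Rl H J w) x).card : ℝ) - (1 - δ) * ((ext H J).card : ℝ)| ≤
        (√η + c + A + θ) * (Fintype.card V : ℝ) ^ 2 + (Fintype.card V : ℝ) ∧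
      Ch H J w ≤ (√η + c + A + θ) * (Fintype.card V : ℝ) ^ 3 := by
  set n : ℝ := (Fintype.card V : ℝ) with hn'
  set N1 : ℝ := NI H (s + 1) with hN1
  -- the average of `| |X| - δ n |`
  have ha : ∑ J ∈ ind H (s + 1), |((ext H J).card : ℝ) - δ * n| ≤ (√η + c) * n * N1 := by
    have h1 : ∀ J ∈ ind H (s + 1), |((ext H J).card : ℝ) - δ * n| ≤
        |((ext H J).card : ℝ) - Av H (s + 1)| + c * n := by
      intro J _
      have e1 : ((ext H J).card : ℝ) - δ * n =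
          (((ext H J).card : ℝ) - Av H (s + 1)) + (Av H (s + 1) - δ * n) := by ring
      rw [e1]
      exact (abs_add_le _ _).trans (add_le_add_right hAv _)
    refine (sum_le_sum h1).trans ?_
    rw [sum_add_distrib, sum_const, nsmul_eq_mul]
    have h2 := var_cs H (s + 1) hη hV
    have h3 : ((ind H (s + 1)).card : ℝ) = N1 := rfl
    rw [h3]
    linarith
  -- the sum over the pairs
  have hb : ∑ J ∈ ind H (s + 1), ∑ w ∈ J, Dv H (δ ^ 2 * n) J w ≤ A * ((s : ℝ) + 1) * n ^ 2 * N1 := by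
    rw [Dv_sum]
    refine hE.trans ?_
    have h1 := Av_mul hN
    have h2 : Av H (s + 1) ≤ n := by
      unfold Av
      rw [div_le_iff₀ hN]
      calc ∑ S ∈ ind H (s + 1), ((ext H S).card : ℝ) ≤ ∑ _S ∈ ind H (s + 1), n :=
            sum_le_sum fun S _ => ext_card_le H S
        _ = n * NI H (s + 1) := by
            rw [sum_const, nsmul_eq_mul]
            unfold NI
            ring
    have h3 : ((s : ℝ) + 2) * NI H (s + 2) ≤ n * N1 := by
      have h4 := mul_le_mul_of_nonneg_right h2 hN.le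
      rw [h1] at h4
      push_cast at h4
      have e : (s : ℝ) + 1 + 1 = (s : ℝ) + 2 := by ring
      rw [e] at h4
      exact h4
    have h4 := mul_le_mul_of_nonneg_left h3 (show 0 ≤ A * ((s : ℝ) + 1) * n by positivity)
    linarith
  have hJc : ∀ J ∈ ind H (s + 1), (J.card : ℝ) = (s : ℝ) + 1 := by
    intro J hJ
    rw [(mem_ind.1 hJ).1]
    push_cast
    ring
  set g : Finset V → V → ℝ := fun J w => n ^ 2 * |((ext H J).card : ℝ) - δ * n| +
    n * Dv H (δ ^ 2 * n) J w + Ch H J w with hg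
  have hsum : ∑ J ∈ ind H (s + 1), ∑ w ∈ J, g J w ≤
      ∑ J ∈ ind H (s + 1), ∑ _w ∈ J, (√η + c + A + θ) * n ^ 3 := by
    have e1 : ∑ J ∈ ind H (s + 1), ∑ w ∈ J, g J w =
        n ^ 2 * (((s : ℝ) + 1) * ∑ J ∈ ind H (s + 1), |((ext H J).card : ℝ) - δ * n|) +
        n * ∑ J ∈ ind H (s + 1), ∑ w ∈ J, Dv H (δ ^ 2 * n) J w +
        ∑ J ∈ ind H (s + 1), ∑ w ∈ J, Ch H J w := by
      rw [hg, mul_sum, mul_sum, mul_sum, ← sum_add_distrib, ← sum_add_distrib]
      refine sum_congr rfl fun J hJ => ?_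
      rw [sum_add_distrib, sum_add_distrib, sum_const, nsmul_eq_mul, hJc J hJ, mul_sum]
      ring
    have e2 : ∑ J ∈ ind H (s + 1), ∑ _w ∈ J, (√η + c + A + θ) * n ^ 3 =
        N1 * (((s : ℝ) + 1) * ((√η + c + A + θ) * n ^ 3)) := by
      have h1 : ∀ J ∈ ind H (s + 1), ∑ _w ∈ J, (√η + c + A + θ) * n ^ 3 =
          ((s : ℝ) + 1) * ((√η + c + A + θ) * n ^ 3) := by
        intro J hJ
        rw [sum_const, nsmul_eq_mul, hJc J hJ]
      rw [sum_congr rfl h1, sum_const, nsmul_eq_mul]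
      rfl
    rw [e1, e2]
    have h1 := mul_le_mul_of_nonneg_left ha (show 0 ≤ n ^ 2 * ((s : ℝ) + 1) by positivity)
    have h2 := mul_le_mul_of_nonneg_left hb hn.le
    have e3 : N1 * (((s : ℝ) + 1) * ((√η + c + A + θ) * n ^ 3)) =
        n ^ 2 * ((s : ℝ) + 1) * ((√η + c) * n * N1) + n * (A * ((s : ℝ) + 1) * n ^ 2 * N1) +
          θ * ((s : ℝ) + 1) * n ^ 3 * N1 := by ring
    rw [e3]
    linarith
  have hne : (ind H (s + 1)).Nonempty := by
    rw [← card_pos]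
    have h0 : (0 : ℝ) < ((ind H (s + 1)).card : ℝ) := hN
    exact_mod_cast h0
  obtain ⟨J, hJ, h1⟩ := exists_le_of_sum_le hne hsum
  have hJne : J.Nonempty := by
    rw [← card_pos, (mem_ind.1 hJ).1]
    omega
  obtain ⟨w, hw, h2⟩ := exists_le_of_sum_le hJne h1
  have hg' : n ^ 2 * |((ext H J).card : ℝ) - δ * n| + n * Dv H (δ ^ 2 * n) J w + Ch H J w ≤
      (√η + c + A + θ) * n ^ 3 := h2
  have hd0 := Dv_nonneg H (δ ^ 2 * n) J w
  have hc0 := Ch_nonneg H J w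
  have ha0 := abs_nonneg (((ext H J).card : ℝ) - δ * n)
  have hn2 : 0 < n ^ 2 := by positivity
  have hp1 : 0 ≤ n * Dv H (δ ^ 2 * n) J w := mul_nonneg hn.le hd0
  have hp2 : 0 ≤ n ^ 2 * |((ext H J).card : ℝ) - δ * n| := mul_nonneg hn2.le ha0
  refine ⟨J, hJ, w, hw, ?_, ?_, ?_⟩
  · have h3 : n ^ 2 * |((ext H J).card : ℝ) - δ * n| ≤ n ^ 2 * ((√η + c + A + θ) * n) := by
      have e : n ^ 2 * ((√η + c + A + θ) * n) = (√η + c + A + θ) * n ^ 3 := by ring
      rw [e]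
      linarith
    exact le_of_mul_le_mul_left h3 hn2
  · refine (deg_dev hw hδ0 hδ1).trans ?_
    have h3 : n * (Dv H (δ ^ 2 * n) J w + n * |((ext H J).card : ℝ) - δ * n|) ≤
        n * ((√η + c + A + θ) * n ^ 2) := by
      have e : n * ((√η + c + A + θ) * n ^ 2) = (√η + c + A + θ) * n ^ 3 := by ring
      rw [e]
      linarith
    have h4 := le_of_mul_le_mul_left h3 hn
    linarith
  · linarith

/-- the first absolute moment of `|kap x ∩ kap y| - t` from the second moment -/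
theorem kxy_l1 {H : Finset (Finset V)} {s : ℕ} {t C M : ℝ} (hC : 0 < C) (hM : 0 < M)
    (h : ∑ S ∈ ind H (s + 2), ∑ x ∈ Sᶜ, ∑ y ∈ Sᶜ,
        (((kap H S x ∩ kap H S y).card : ℝ) - t) ^ 2 ≤
      C * M ^ 2 * (Fintype.card V : ℝ) ^ 2 * NI H (s + 2)) :
    ∑ S ∈ ind H (s + 2), ∑ x ∈ Sᶜ, ∑ y ∈ Sᶜ,
        |((kap H S x ∩ kap H S y).card : ℝ) - t| ≤
      √C * M * (Fintype.card V : ℝ) ^ 2 * NI H (s + 2) := by
  set n : ℝ := (Fintype.card V : ℝ) with hn'
  set lam : ℝ := √C * M with hlam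
  have hsC : 0 < √C := Real.sqrt_pos.2 hC
  have hl0 : 0 < lam := mul_pos hsC hM
  have hN := NI_nonneg H (s + 2)
  have h1 : ∀ u : ℝ, |u| ≤ 1 / (2 * lam) * u ^ 2 + lam / 2 := by
    intro u
    have h2 : |u| ≤ (u ^ 2 + lam ^ 2) / (2 * lam) := by
      rw [le_div_iff₀ (by positivity)]
      nlinarith [sq_nonneg (|u| - lam), sq_abs u]
    refine h2.trans (le_of_eq ?_)
    field_simp
  have h2 : ∑ S ∈ ind H (s + 2), ∑ x ∈ Sᶜ, ∑ y ∈ Sᶜ,
        |((kap H S x ∩ kap H S y).card : ℝ) - t| ≤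
      ∑ S ∈ ind H (s + 2), ∑ x ∈ Sᶜ, ∑ y ∈ Sᶜ,
        (1 / (2 * lam) * (((kap H S x ∩ kap H S y).card : ℝ) - t) ^ 2 + lam / 2) :=
    sum_le_sum fun S _ => sum_le_sum fun x _ => sum_le_sum fun y _ => h1 _
  refine h2.trans ?_
  have e1 : ∑ S ∈ ind H (s + 2), ∑ x ∈ Sᶜ, ∑ y ∈ Sᶜ,
        (1 / (2 * lam) * (((kap H S x ∩ kap H S y).card : ℝ) - t) ^ 2 + lam / 2) =
      1 / (2 * lam) * ∑ S ∈ ind H (s + 2), ∑ x ∈ Sᶜ, ∑ y ∈ Sᶜ,
        (((kap H S x ∩ kap H S y).card : ℝ) - t) ^ 2 +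
      ∑ S ∈ ind H (s + 2), ∑ _x ∈ Sᶜ, ∑ _y ∈ Sᶜ, lam / 2 := by
    simp only [sum_add_distrib, mul_sum]
  have h3 : ∑ S ∈ ind H (s + 2), ∑ _x ∈ Sᶜ, ∑ _y ∈ Sᶜ, lam / 2 ≤
      NI H (s + 2) * (n * (n * (lam / 2))) := by
    have h4 : ∀ S ∈ ind H (s + 2), ∑ _x ∈ Sᶜ, ∑ _y ∈ Sᶜ, lam / 2 ≤ n * (n * (lam / 2)) := by
      intro S _
      have h5 : (Sᶜ.card : ℝ) ≤ n := by
        rw [hn']
        exact_mod_cast card_le_univ Sᶜ
      simp only [sum_const, nsmul_eq_mul]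
      have h6 : (0 : ℝ) ≤ (Sᶜ.card : ℝ) := Nat.cast_nonneg _
      have h7 : (Sᶜ.card : ℝ) * (lam / 2) ≤ n * (lam / 2) :=
        mul_le_mul_of_nonneg_right h5 (by positivity)
      exact mul_le_mul h5 h7 (by positivity) (h6.trans h5)
    refine (sum_le_sum h4).trans (le_of_eq ?_)
    rw [sum_const, nsmul_eq_mul]
    rfl
  have h4 := mul_le_mul_of_nonneg_left h (show 0 ≤ 1 / (2 * lam) by positivity)
  have e2 : 1 / (2 * lam) * (C * M ^ 2 * n ^ 2 * NI H (s + 2)) =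
      lam / 2 * n ^ 2 * NI H (s + 2) := by
    have h5 : C * M ^ 2 = lam ^ 2 := by rw [hlam, mul_pow, Real.sq_sqrt hC.le]
    rw [h5]
    field_simp
  rw [e2] at h4
  rw [e1]
  have e3 : lam * n ^ 2 * NI H (s + 2) =
      lam / 2 * n ^ 2 * NI H (s + 2) + NI H (s + 2) * (n * (n * (lam / 2))) := by ring
  rw [e3]
  linarith

end Pool.Agent.DCS
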