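import Pool.Agent.DCS.Ident
import Pool.Agent.Helper1.TuranLimit

/-!
From the bound for the number of edges of the systems `H` (for all large `n`) to the Turan density.
-/

namespace Pool.Agent.DCS

open Finset Filter Pool.Agent.Helper1.Turan Pool.Agent.Helper2.DC

theorem bridge {k m : ℕ} {c : ℝ} (hk : 1 ≤ k) (hkm : k < m)
    (h : ∃ n0 : ℕ, ∀ n : ℕ, n0 ≤ n → ∀ H : Finset (Finset (Fin n)), (∀ e ∈ H, e.card = k) →
      NI H m = 0 →
      (1 + c) / ((m - 1).choose (k - 1) : ℝ) ≤ (H.card : ℝ) / (n.choose k : ℝ)) :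
    (1 + c) / ((m - 1).choose (k - 1) : ℝ) ≤ 1 - turanDensity k m := by
  obtain ⟨n0, hn0⟩ := h
  have key : turanDensity k m ≤ 1 - (1 + c) / ((m - 1).choose (k - 1) : ℝ) := by
    refine turanDensity_le_of_choose hkm.le ?_
    filter_upwards [eventually_ge_atTop (max n0 k)] with n hn G hG hfree
    have hnn0 : n0 ≤ n := (le_max_left _ _).trans hn
    have hnk : k ≤ n := (le_max_right _ _).trans hn
    set H : Finset (Finset (Fin n)) := powersetCard k univ \ G with hH
    have hGs : G ⊆ powersetCard k (univ : Finset (Fin n)) := fun e he =>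
      mem_powersetCard.2 ⟨subset_univ _, hG e he⟩
    have hHr : ∀ e ∈ H, e.card = k := fun e he => (mem_powersetCard.1 (mem_sdiff.1 he).1).2
    have hNI : NI H m = 0 := by
      unfold NI
      have : ind H m = ∅ := by
        rw [eq_empty_iff_forall_notMem]
        intro S hS
        obtain ⟨hSc, hSI⟩ := mem_ind.1 hS
        obtain ⟨e, heS, hec, heG⟩ := hfree S (by omega)
        exact hSI e (mem_sdiff.2 ⟨mem_powersetCard.2 ⟨subset_univ _, hec⟩, heG⟩) heS
      rw [this]; simp
    have h1 := hn0 n hnn0 H hHr hNI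
    have hc0 : (0:ℝ) < (n.choose k : ℝ) := by exact_mod_cast Nat.choose_pos hnk
    rw [le_div_iff₀ hc0] at h1
    have h2 : (H.card : ℝ) = (n.choose k : ℝ) - (G.card : ℝ) := by
      rw [hH, card_sdiff_of_subset hGs, card_powersetCard, card_univ, Fintype.card_fin,
        Nat.cast_sub]
      have := card_le_card hGs
      rwa [card_powersetCard, card_univ, Fintype.card_fin] at this
    rw [h2] at h1
    linarith
  linarith

end Pool.Agent.DCS
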