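import Pool.Agent.DCX.Final
import Pool.Agent.Helper2.AUniformDeCaenStatement

/-!
Assembly: bounded ratios (hypothesis `hcore`), large ratios (`DCX.final_T`) and small `k` together.
-/

namespace Pool.Agent.DCS

open Pool.Agent.Helper1.Turan

/-- a common positive lower bound of finitely many positive constants -/
private theorem Fin_min (c' : ℕ → ℝ) (hc' : ∀ k : ℕ, 3 ≤ k → 0 < c' k) (K : ℕ) :
    ∃ c : ℝ, 0 < c ∧ ∀ k : ℕ, 3 ≤ k → k < K → c ≤ c' k := by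
  induction K with
  | zero => exact ⟨1, one_pos, fun k _ hk => absurd hk (Nat.not_lt_zero _)⟩
  | succ K ih =>
    obtain ⟨c, hc, h⟩ := ih
    by_cases hK : 3 ≤ K
    · refine ⟨min c (c' K), lt_min hc (hc' K hK), fun k h3 hk => ?_⟩
      rcases Nat.lt_succ_iff_lt_or_eq.1 hk with h1 | rfl
      · exact (min_le_left _ _).trans (h k h3 h1)
      · exact min_le_right _ _
    · refine ⟨c, hc, fun k h3 hk => h k h3 ?_⟩
      omega

/-- bounded ratios and large `k` (`hcore`) together with `DCX.final_T` and the bound for fixed `k` -/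
theorem fin_of_core
    (hcore : ∀ ε α : ℝ, 0 < ε → ∃ c : ℝ, 0 < c ∧ ∃ k₀ : ℕ, ∀ k m : ℕ, k₀ ≤ k →
      (1 + ε) * (k : ℝ) ≤ (m : ℝ) → (m : ℝ) ≤ α * (k : ℝ) →
      (∀ q : ℕ, 2 ≤ q → ε ≤ |(m : ℝ) / ((m : ℝ) - (k : ℝ)) - (q : ℝ)|) →
      (1 + c) / ((m - 1).choose (k - 1) : ℝ) ≤ 1 - turanDensity k m) :
    ∀ ε : ℝ, 0 < ε → ∃ c : ℝ, 0 < c ∧ ∀ k m : ℕ, 3 ≤ k → (1 + ε) * (k : ℝ) ≤ (m : ℝ) →
      (∀ q : ℕ, 2 ≤ q → ε ≤ |(m : ℝ) / ((m : ℝ) - (k : ℝ)) - (q : ℝ)|) →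
      Filter.Tendsto (fun n : ℕ => (exNum k m n : ℝ) / (n.choose k : ℝ)) Filter.atTop
        (nhds (turanDensity k m)) ∧
      (1 + c) / ((m - 1).choose (k - 1) : ℝ) ≤ 1 - turanDensity k m := by
  intro ε hε
  obtain ⟨k₁, α, hT⟩ := Pool.Agent.DCX.final_T 2
  obtain ⟨c₁, hc₁, k₀, hS⟩ := hcore ε α hε
  have hA : ∀ k : ℕ, ∃ c₁ : ℝ, 3 ≤ k → 0 < c₁ ∧ ∀ m : ℕ, k < m →
      turanDensity k m ≤ 1 - (1 + c₁) / ((m - 1).choose (k - 1) : ℝ) := by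
    intro k
    by_cases hk : 3 ≤ k
    · obtain ⟨c₁, hc₁, h₁⟩ := Pool.Agent.Helper2.AUniformDeCaen.statement k hk
      exact ⟨c₁, fun _ => ⟨hc₁, fun m hm => (h₁ m hm).2⟩⟩
    · exact ⟨0, fun h3 => absurd h3 hk⟩
  choose c' hc' using hA
  obtain ⟨c₂, hc₂, hmin⟩ := Fin_min c' (fun k hk => (hc' k hk).1) (max k₀ k₁)
  refine ⟨min (min c₁ c₂) 1, lt_min (lt_min hc₁ hc₂) one_pos, fun k m hk hm hq => ?_⟩
  have hk0 : (3:ℝ) ≤ (k:ℝ) := by exact_mod_cast hk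
  have hkm : k < m := by
    have h1 : (k:ℝ) < (m:ℝ) := by nlinarith
    exact_mod_cast h1
  have hpos : (0:ℝ) < ((m - 1).choose (k - 1) : ℝ) := by
    exact_mod_cast Nat.choose_pos (by omega)
  refine ⟨tendsto_turanDensity hkm.le, ?_⟩
  have hmono : ∀ x : ℝ, min (min c₁ c₂) 1 ≤ x →
      (1 + x) / ((m - 1).choose (k - 1) : ℝ) ≤ 1 - turanDensity k m →
      (1 + min (min c₁ c₂) 1) / ((m - 1).choose (k - 1) : ℝ) ≤ 1 - turanDensity k m := by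
    intro x hx h
    refine le_trans ?_ h
    exact div_le_div_of_nonneg_right (by linarith) hpos.le
  by_cases hkk : k < max k₀ k₁
  · refine hmono (c' k) (le_trans ((min_le_left _ _).trans (min_le_right _ _)) (hmin k hk hkk)) ?_
    have := (hc' k hk).2 m hkm
    linarith
  · push Not at hkk
    have hk1 : k₁ ≤ k := (le_max_right _ _).trans hkk
    have hk2 : k₀ ≤ k := (le_max_left _ _).trans hkk
    rcases le_total (α * (k:ℝ)) (m:ℝ) with h1 | h1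
    · obtain ⟨-, -, -, h4, -⟩ := hT k m hk1 h1
      refine hmono 1 (min_le_right _ _) ?_
      norm_num
      exact h4
    · exact hmono c₁ ((min_le_left _ _).trans (min_le_left _ _)) (hS k m hk2 hm h1 hq)

/-- the ratios above `2` -/
theorem ratio_above_two
    (h : ∀ ε : ℝ, 0 < ε → ∃ c : ℝ, 0 < c ∧ ∀ k m : ℕ, 3 ≤ k → (1 + ε) * (k : ℝ) ≤ (m : ℝ) →
      (∀ q : ℕ, 2 ≤ q → ε ≤ |(m : ℝ) / ((m : ℝ) - (k : ℝ)) - (q : ℝ)|) →
      Filter.Tendsto (fun n : ℕ => (exNum k m n : ℝ) / (n.choose k : ℝ)) Filter.atTop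
        (nhds (turanDensity k m)) ∧
      (1 + c) / ((m - 1).choose (k - 1) : ℝ) ≤ 1 - turanDensity k m) :
    ∀ ε : ℝ, 0 < ε → ∃ c : ℝ, 0 < c ∧ ∀ k m : ℕ, 3 ≤ k → (2 + ε) * (k : ℝ) ≤ (m : ℝ) →
      Filter.Tendsto (fun n : ℕ => (exNum k m n : ℝ) / (n.choose k : ℝ)) Filter.atTop
        (nhds (turanDensity k m)) ∧
      (1 + c) / ((m - 1).choose (k - 1) : ℝ) ≤ 1 - turanDensity k m := by
  intro ε hε
  have he : 0 < ε / (1 + ε) := by positivity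
  obtain ⟨c, hc, hS⟩ := h (ε / (1 + ε)) he
  refine ⟨c, hc, fun k m hk hm => hS k m hk ?_ ?_⟩
  · have hk0 : (3:ℝ) ≤ (k:ℝ) := by exact_mod_cast hk
    have h1 : ε / (1 + ε) ≤ 1 := by rw [div_le_one (by linarith)]; linarith
    nlinarith
  · intro q hq
    have hk0 : (3:ℝ) ≤ (k:ℝ) := by exact_mod_cast hk
    have hq0 : (2:ℝ) ≤ (q:ℝ) := by exact_mod_cast hq
    have hmk : 0 < (m:ℝ) - (k:ℝ) := by nlinarith
    have h2 : (m:ℝ) / ((m:ℝ) - (k:ℝ)) ≤ 2 - ε / (1 + ε) := by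
      rw [div_le_iff₀ hmk]
      have h3 : (2 - ε / (1 + ε)) = (2 + ε) / (1 + ε) := by field_simp; ring
      rw [h3, div_mul_eq_mul_div, le_div_iff₀ (by linarith)]
      nlinarith
    rw [abs_sub_comm]
    refine le_trans ?_ (le_abs_self _)
    linarith

end Pool.Agent.DCS
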