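import Pool.Agent.DCS.Ident

/-!
If `H` has few edges then the losses at the two top levels are small: all the consequences used in the
project, with `M = s + 2`, `m = s + 3`, `δ = k / m`.
-/

namespace Pool.Agent.DCS

open Finset Pool.Agent.Helper2.DC

variable {V : Type} [Fintype V] [DecidableEq V]

/-- the output of `levels` (`m = s + 3`, no independent sets of size `m`) -/
structure Lev (V : Type) [Fintype V] [DecidableEq V] (H : Finset (Finset V)) (k s : ℕ)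
    (e : ℝ) : Prop where
  hH : ∀ f ∈ H, f.card = k
  hk : 8 ≤ k
  hks : k ≤ s + 1
  he : 0 < e
  hn : (s : ℝ) + 3 ≤ e * (Fintype.card V : ℝ)
  N3 : NI H (s + 3) = 0
  N2 : 0 < NI H (s + 2)
  N1 : 0 < NI H (s + 1)
  N0 : 0 < NI H s
  sq1 : Sq H (s + 1) ≤ 2 * e * (Fintype.card V : ℝ) ^ 2 * NI H (s + 1)
  sq0 : Sq H s ≤ 2 * e * (Fintype.card V : ℝ) ^ 2 * NI H s
  df : Df H k (s + 2) ≤ 2 * e * (Fintype.card V : ℝ) * (((s : ℝ) + 2) * NI H (s + 2))
  av1 : |Av H (s + 1) - (k : ℝ) / ((s : ℝ) + 3) * (Fintype.card V : ℝ)| ≤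
    (3 * e + 1 / ((s : ℝ) + 3)) * (Fintype.card V : ℝ)
  av1' : (k : ℝ) / ((s : ℝ) + 3) / 2 * (Fintype.card V : ℝ) ≤ Av H (s + 1)
  av0' : (k : ℝ) / ((s : ℝ) + 3) / 2 * (Fintype.card V : ℝ) ≤ Av H s
  hD : ((k : ℝ) / ((s : ℝ) + 3)) ^ 2 * (Fintype.card V : ℝ) -
    (5 * e + 3 / ((s : ℝ) + 3)) * (Fintype.card V : ℝ) ≤ 2 * Av H (s + 1) - Av H s

private theorem Levels_top {H : Finset (Finset V)} {M : ℕ} (hM : NI H (M + 1) = 0)
    {s : ℕ} (hsM : s ≤ M) (hN : 0 < NI H s) :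
    ∃ t, s ≤ t ∧ t ≤ M ∧ 0 < NI H t ∧ NI H (t + 1) = 0 := by
  obtain ⟨d, hd⟩ : ∃ d, M = s + d := ⟨M - s, by omega⟩
  induction d generalizing s with
  | zero =>
    have : M = s := by omega
    subst this
    exact ⟨M, le_rfl, le_rfl, hN, hM⟩
  | succ d ih =>
    by_cases h : 0 < NI H (s+1)
    · obtain ⟨t, h1, h2, h3, h4⟩ := ih (s := s+1) (by omega) h (by omega)
      exact ⟨t, by omega, h2, h3, h4⟩
    · exact ⟨s, le_rfl, hsM, hN, le_antisymm (not_lt.1 h) (NI_nonneg _ _)⟩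

private theorem Levels_q7 {δ a : ℝ} (h1 : δ ≤ 1) (ha : 0 ≤ a) :
    δ ^ 2 - 3 * a ≤ (δ - a) * (δ - 2 * a) := by
  have h2 : (δ - a) * (δ - 2 * a) = δ ^ 2 - 3 * (a * δ) + 2 * a ^ 2 := by ring
  have h3 : a * δ ≤ a * 1 := mul_le_mul_of_nonneg_left h1 ha
  have h4 : 0 ≤ a ^ 2 := sq_nonneg a
  rw [h2]; linarith

private theorem Levels_n16 {e n m : ℝ} (he : 0 < e) (he2 : e ≤ 1 / 16) (hm : 0 < m)
    (hn : m ≤ e * n) : 0 < n ∧ 16 * m ≤ n := by
  have hn0 : 0 < n := by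
    by_contra hcon
    push Not at hcon
    have := mul_nonpos_of_nonneg_of_nonpos he.le hcon
    linarith
  refine ⟨hn0, ?_⟩
  have : e * n ≤ 1 / 16 * n := mul_le_mul_of_nonneg_right he2 hn0.le
  linarith

/-- the level `s + 2` is empty: the bound of de Caen one level below is better -/
theorem Levels_empty {H : Finset (Finset V)} {k s : ℕ} (hH : ∀ f ∈ H, f.card = k)
    (hk : 8 ≤ k) (hks : k ≤ s + 1) {e : ℝ} (he : 0 < e)
    (he1 : e ≤ (k : ℝ) / ((s : ℝ) + 3) / 16)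
    (hn : (s : ℝ) + 3 ≤ e * (Fintype.card V : ℝ)) (h0 : NI H (s + 2) = 0) :
    (1 + e) / ((s + 2).choose (k - 1) : ℝ) ≤
      (H.card : ℝ) / ((Fintype.card V).choose k : ℝ) := by
  obtain ⟨k', rfl⟩ : ∃ k', k = k' + 1 := ⟨k - 1, by omega⟩
  have e1 : k' + 1 - 1 = k' := by omega
  rw [e1]
  obtain ⟨n, hnn⟩ : ∃ n : ℝ, n = (Fintype.card V : ℝ) := ⟨_, rfl⟩
  have hkR : (8 : ℝ) ≤ (k' : ℝ) + 1 := by exact_mod_cast hk
  have hksR : (k' : ℝ) + 1 ≤ (s : ℝ) + 1 := by exact_mod_cast hks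
  have hs3 : (0 : ℝ) < (s : ℝ) + 3 := by positivity
  push_cast at he1
  -- `e m ≤ k / 16`
  have hem : e * ((s : ℝ) + 3) ≤ ((k' : ℝ) + 1) / 16 := by
    have h := mul_le_mul_of_nonneg_right he1 hs3.le
    refine h.trans (le_of_eq ?_)
    field_simp
  rw [← hnn] at hn
  have he2 : e ≤ 1 / 16 := by
    refine he1.trans ?_
    have : ((k' : ℝ) + 1) / ((s : ℝ) + 3) ≤ 1 := by
      rw [div_le_one hs3]; linarith
    linarith
  -- `16 m ≤ n`
  obtain ⟨hn0, hn16⟩ := Levels_n16 he he2 hs3 hn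
  have hkn : k' + 1 ≤ Fintype.card V := by
    have : ((k' : ℝ) + 1) ≤ (Fintype.card V : ℝ) := by rw [← hnn]; linarith
    exact_mod_cast this
  have hNk : 0 < NI H k' := by
    rw [NI_of_lt hH (Nat.lt_succ_self k')]
    exact_mod_cast Nat.choose_pos (by omega)
  obtain ⟨t, h1, h2, h3, h4⟩ := Levels_top (M := s + 1) h0 (s := k') (by omega) hNk
  have hu := unrolled (H := H) (r := k' + 1) (by omega) (s := k') (M := t) (by simp) h1 h3
  rw [e1, Nat.choose_self, Nat.cast_one, div_one, Bl_init hH hkn, Bl_top h3 h4, ← hnn] at hu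
  have hsum : 0 ≤ ∑ j ∈ Ico k' t, Ls H (k' + 1) j / (j.choose k' : ℝ) :=
    sum_nonneg (fun i _ => div_nonneg (Ls_nonneg hH i) (Nat.cast_nonneg _))
  have hct : (0:ℝ) < (t.choose k' : ℝ) := by exact_mod_cast Nat.choose_pos h1
  have hcs1 : (0:ℝ) < ((s + 1).choose k' : ℝ) := by exact_mod_cast Nat.choose_pos (by omega)
  have hcs2 : (0:ℝ) < ((s + 2).choose k' : ℝ) := by exact_mod_cast Nat.choose_pos (by omega)
  have hcts : (t.choose k' : ℝ) ≤ ((s + 1).choose k' : ℝ) := by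
    exact_mod_cast Nat.choose_le_choose k' h2
  have htR : (t : ℝ) ≤ (s : ℝ) + 1 := by exact_mod_cast h2
  obtain ⟨d, hd⟩ : ∃ d : ℝ, d = (H.card : ℝ) / ((Fintype.card V).choose (k' + 1) : ℝ) := ⟨_, rfl⟩
  rw [← hd] at hu ⊢
  have h5 : (n - ((s : ℝ) + 1)) / ((s + 1).choose k' : ℝ) ≤ (n - k') * d := by
    have h6 : (n - ((s : ℝ) + 1)) / ((s + 1).choose k' : ℝ) ≤ (n - t) / (t.choose k' : ℝ) := by
      apply div_le_div₀ (by linarith) (by linarith) hct hcts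
    linarith
  -- `C(s+2, k') (s + 2 - k') = (s + 2) C(s + 1, k')`
  have hid : ((s + 2).choose k' : ℝ) * ((s : ℝ) + 2 - k') =
      ((s : ℝ) + 2) * ((s + 1).choose k' : ℝ) := by
    have h6 := Nat.choose_mul_succ_eq (s + 1) k'
    have h7 : ((s + 1 + 1 - k' : ℕ) : ℝ) = (s : ℝ) + 2 - k' := by
      rw [Nat.cast_sub (by omega)]; push_cast; ring
    rw [← h7]
    have h8 : (((s + 1).choose k' * (s + 1 + 1) : ℕ) : ℝ) =
        (((s + 1 + 1).choose k' * (s + 1 + 1 - k') : ℕ) : ℝ) := by rw [h6]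
    push_cast at h8 ⊢
    have h9 : ((s + 2).choose k' : ℝ) = ((s + 1 + 1).choose k' : ℝ) := by norm_num
    rw [h9]
    linarith
  rw [div_le_iff₀ hcs2]
  rw [div_le_iff₀ hcs1] at h5
  -- `h5 : n - (s+1) ≤ (n-k') d C(s+1,k')`
  have h6 : ((s : ℝ) + 2) * (n - ((s : ℝ) + 1)) ≤
      (n - k') * ((s : ℝ) + 2 - k') * (d * ((s + 2).choose k' : ℝ)) := by
    have h7 := mul_le_mul_of_nonneg_left h5 (by positivity : (0 : ℝ) ≤ (s : ℝ) + 2)
    refine h7.trans (le_of_eq ?_)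
    linear_combination ((k' : ℝ) - n) * d * hid
  have hpos : 0 < (n - k') * ((s : ℝ) + 2 - k') := by
    apply mul_pos <;> linarith
  have h8 : (1 + e) * ((n - k') * ((s : ℝ) + 2 - k')) ≤ ((s : ℝ) + 2) * (n - ((s : ℝ) + 1)) := by
    have h9 : (1 + e) * ((n - k') * ((s : ℝ) + 2 - k')) ≤ (1 + e) * (n * ((s : ℝ) + 2 - k')) := by
      apply mul_le_mul_of_nonneg_left _ (by linarith)
      apply mul_le_mul_of_nonneg_right _ (by linarith)
      have : (0 : ℝ) ≤ (k' : ℝ) := Nat.cast_nonneg _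
      linarith
    -- `n ((s+2) - (1+e)(s+2-k')) ≥ (s+1)(s+2)`
    have h10 : ((k' : ℝ) + 1) / 2 ≤ ((s : ℝ) + 2) - (1 + e) * ((s : ℝ) + 2 - k') := by
      have : e * ((s : ℝ) + 2 - k') ≤ e * ((s : ℝ) + 3) := by
        apply mul_le_mul_of_nonneg_left _ he.le
        have : (0 : ℝ) ≤ (k' : ℝ) := Nat.cast_nonneg _
        linarith
      nlinarith
    -- `n k ≥ 16 m ^ 2`
    have h11 : 16 * ((s : ℝ) + 3) ^ 2 ≤ n * ((k' : ℝ) + 1) := by
      have a1 : ((s : ℝ) + 3) * ((s : ℝ) + 3) ≤ (e * n) * ((s : ℝ) + 3) :=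
        mul_le_mul_of_nonneg_right hn hs3.le
      have a2 : (e * ((s : ℝ) + 3)) * n ≤ ((k' : ℝ) + 1) / 16 * n :=
        mul_le_mul_of_nonneg_right hem hn0.le
      nlinarith
    have h12 : n * (((k' : ℝ) + 1) / 2) ≤ n * (((s : ℝ) + 2) - (1 + e) * ((s : ℝ) + 2 - k')) :=
      mul_le_mul_of_nonneg_left h10 hn0.le
    have h13 : ((s : ℝ) + 1) * ((s : ℝ) + 2) ≤ ((s : ℝ) + 3) ^ 2 := by
      have : (0 : ℝ) ≤ (s : ℝ) := Nat.cast_nonneg _
      nlinarith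
    nlinarith
  have h14 := h8.trans h6
  have h15 : (n - k') * ((s : ℝ) + 2 - k') * (1 + e) ≤
      (n - k') * ((s : ℝ) + 2 - k') * (d * ((s + 2).choose k' : ℝ)) := by linarith
  exact le_of_mul_le_mul_left h15 hpos

/-- the two top levels -/
theorem levels {H : Finset (Finset V)} {k s : ℕ} (hH : ∀ f ∈ H, f.card = k)
    (hk : 8 ≤ k) (hks : k ≤ s + 1) {e : ℝ} (he : 0 < e)
    (he1 : e ≤ (k : ℝ) / ((s : ℝ) + 3) / 16)
    (hn : (s : ℝ) + 3 ≤ e * (Fintype.card V : ℝ)) (h0 : NI H (s + 3) = 0) :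
    (1 + e) / ((s + 2).choose (k - 1) : ℝ) ≤
      (H.card : ℝ) / ((Fintype.card V).choose k : ℝ) ∨ Lev V H k s e := by
  rcases (NI_nonneg H (s + 2)).eq_or_lt with hN | hN2
  · exact Or.inl (Levels_empty hH hk hks he he1 hn hN.symm)
  rcases le_or_gt ((1 + e) / ((s + 2).choose (k - 1) : ℝ))
    ((H.card : ℝ) / ((Fintype.card V).choose k : ℝ)) with hd | hd
  · exact Or.inl hd
  right
  obtain ⟨hN1, hV0⟩ := ind_nonempty_of_succ hN2
  obtain ⟨hN0, -⟩ := ind_nonempty_of_succ hN1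
  obtain ⟨n, hnn⟩ : ∃ n : ℝ, n = (Fintype.card V : ℝ) := ⟨_, rfl⟩
  have hs0 : (0 : ℝ) ≤ (s : ℝ) := Nat.cast_nonneg _
  have hs3 : (0 : ℝ) < (s : ℝ) + 3 := by positivity
  have hkR : (8 : ℝ) ≤ (k : ℝ) := by exact_mod_cast hk
  have hksR : (k : ℝ) ≤ (s : ℝ) + 1 := by exact_mod_cast hks
  obtain ⟨δ, hδ⟩ : ∃ δ : ℝ, δ = (k : ℝ) / ((s : ℝ) + 3) := ⟨_, rfl⟩
  have hδm : δ * ((s : ℝ) + 3) = k := by rw [hδ]; field_simp
  have hδ0 : 0 < δ := by rw [hδ]; positivity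
  have hδ1 : δ ≤ 1 := by rw [hδ, div_le_one hs3]; linarith
  have he16 : e ≤ δ / 16 := by rw [hδ]; exact he1
  have hn' : (s : ℝ) + 3 ≤ e * n := by rw [hnn]; exact hn
  obtain ⟨hn0, hn16⟩ := Levels_n16 he (by linarith) hs3 hn'
  -- the losses
  have hLs : ∀ j, k - 1 ≤ j → j < s + 2 → Ls H k j ≤ 2 * e * n := by
    intro j hj hjM
    obtain ⟨k', rfl⟩ : ∃ k', k = k' + 1 := ⟨k - 1, by omega⟩
    have e1 : k' + 1 - 1 = k' := by omega
    rw [e1] at hd hj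
    have hkn : k' + 1 ≤ Fintype.card V := by
      have : (((k' + 1 : ℕ) : ℝ)) ≤ (Fintype.card V : ℝ) := by rw [← hnn]; linarith
      exact_mod_cast this
    have h1 := Ls_le (c := e) hH hkn hN2 h0 hd.le hj hjM
    have hcM : (0:ℝ) < ((s + 2).choose k' : ℝ) := by exact_mod_cast Nat.choose_pos (by omega)
    have hcj : (j.choose k' : ℝ) ≤ ((s + 2).choose k' : ℝ) := by
      exact_mod_cast Nat.choose_le_choose k' hjM.le
    have h2 : (j.choose k' : ℝ) / ((s + 2).choose k' : ℝ) ≤ 1 := (div_le_one hcM).2 hcj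
    rw [← hnn] at h1
    push_cast at h1 hksR hkR
    have hk0 : (0 : ℝ) ≤ (k' : ℝ) := Nat.cast_nonneg _
    have h3 : 0 ≤ e * (n - (k' : ℝ)) + ((s : ℝ) + 2 - (k' : ℝ)) := by
      have : 0 ≤ e * (n - (k' : ℝ)) := mul_nonneg he.le (by linarith)
      linarith
    have h4 : (e * (n - (k' : ℝ)) + ((s : ℝ) + 2 - (k' : ℝ))) *
        ((j.choose k' : ℝ) / ((s + 2).choose k' : ℝ)) ≤
        (e * (n - (k' : ℝ)) + ((s : ℝ) + 2 - (k' : ℝ))) * 1 :=
      mul_le_mul_of_nonneg_left h2 h3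
    have h5 : 0 ≤ e * (k' : ℝ) := mul_nonneg he.le hk0
    have h6 : e * (n - (k' : ℝ)) = e * n - e * (k' : ℝ) := by ring
    linarith
  have hL1 : Ls H k (s + 1) ≤ 2 * e * n := hLs (s + 1) (by omega) (by omega)
  have hL0 : Ls H k s ≤ 2 * e * n := hLs s (by omega) (by omega)
  have hL1' := Ls_nonneg hH (s + 1)
  have hL0' := Ls_nonneg hH s
  -- definition of the losses
  have d1 : Sq H (s + 1) + Df H k (s + 2) =
      Ls H k (s + 1) * (((s : ℝ) + 2) * NI H (s + 2)) := by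
    unfold Ls
    push_cast
    have e2 : (s : ℝ) + 1 + 1 = (s : ℝ) + 2 := by ring
    have e3 : s + 1 + 1 = s + 2 := by ring
    rw [e2, e3, div_mul_cancel₀]
    positivity
  have d0 : Sq H s + Df H k (s + 1) = Ls H k s * (((s : ℝ) + 1) * NI H (s + 1)) := by
    unfold Ls
    rw [div_mul_cancel₀]
    positivity
  have hA1 := Av_mul hN1
  have hA0 := Av_mul hN0
  have e2 : ((s + 1 : ℕ) : ℝ) + 1 = (s : ℝ) + 2 := by push_cast; ring
  have e3 : s + 1 + 1 = s + 2 := by ring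
  rw [e2, e3] at hA1
  have hS1 := Sq_nonneg H (s + 1)
  have hS0 := Sq_nonneg H s
  have hD1 := Df_nonneg hH (s + 1)
  have hD2 := Df_nonneg hH (s + 2)
  have hB1 := Bl_eq hN1
  have hB0 := Bl_eq hN0
  rw [← hnn] at hB1 hB0
  push_cast at hB1
  have hB1' := Bl_nonneg H (s + 1)
  have hB0' := Bl_nonneg H s
  have hAvn1 : Av H (s + 1) ≤ n := by linarith
  have hAvn0 : Av H s ≤ n := by linarith
  -- the recursion at the two levels
  have hT := Bl_top (M := s + 2) hN2 h0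
  rw [← hnn] at hT
  push_cast at hT
  have r1 := rec_eq (H := H) k (s := s + 1) (by exact hN2)
  have r0 := rec_eq (H := H) k (s := s) hN1
  have r1' : ((s : ℝ) + 2) * Bl H (s + 1) = ((s : ℝ) + 3 - k) * (n - ((s : ℝ) + 2)) +
      ((s : ℝ) + 2) * Ls H k (s + 1) := by
    have hl : ((s : ℝ) + 2) * Ls H k (s + 1) =
        Sq H (s + 1) / NI H (s + 2) + Df H k (s + 2) / NI H (s + 2) := by
      rw [← add_div, d1]
      field_simp
    rw [hl]
    push_cast at r1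
    rw [e3] at r1
    rw [hT] at r1
    linarith
  have r0' : ((s : ℝ) + 1) * Bl H s = ((s : ℝ) + 2 - k) * Bl H (s + 1) +
      ((s : ℝ) + 1) * Ls H k s := by
    have hl : ((s : ℝ) + 1) * Ls H k s =
        Sq H s / NI H (s + 1) + Df H k (s + 1) / NI H (s + 1) := by
      rw [← add_div, d0]
      field_simp
    rw [hl]
    linarith
  -- size of `Av (s+1)`: `(s+2) Av (s+1) = (s + 2) + (k-1) (n - (s+2)) - (s+2) Ls`
  have av1e : ((s : ℝ) + 2) * Av H (s + 1) = ((s : ℝ) + 2) + ((k : ℝ) - 1) * (n - ((s : ℝ) + 2)) -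
      ((s : ℝ) + 2) * Ls H k (s + 1) := by
    have : Av H (s + 1) = n - ((s : ℝ) + 1) - Bl H (s + 1) := by linarith
    rw [this, mul_sub, r1']
    ring
  -- `Av (s+1) ≥ (δ - 1/m) n - k - 2 e n`
  have hs2 : (0 : ℝ) < (s : ℝ) + 2 := by positivity
  have hminv : 1 / ((s : ℝ) + 3) = δ / k := by
    rw [hδ]; field_simp
  have hlow : (δ - 1 / ((s : ℝ) + 3)) * n - e * n - 2 * e * n ≤ Av H (s + 1) := by
    have q1 : (δ - 1 / ((s : ℝ) + 3)) = ((k : ℝ) - 1) / ((s : ℝ) + 3) := by rw [hδ]; ring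
    have q2 : ((k : ℝ) - 1) / ((s : ℝ) + 3) ≤ ((k : ℝ) - 1) / ((s : ℝ) + 2) :=
      div_le_div_of_nonneg_left (by linarith) hs2 (by linarith)
    have q3 : Av H (s + 1) = 1 + ((k : ℝ) - 1) / ((s : ℝ) + 2) * (n - ((s : ℝ) + 2)) -
        Ls H k (s + 1) := by
      field_simp
      linarith
    have q4 : ((k : ℝ) - 1) / ((s : ℝ) + 2) * (n - ((s : ℝ) + 2)) =
        ((k : ℝ) - 1) / ((s : ℝ) + 2) * n - ((k : ℝ) - 1) := by
      field_simp
    have q5 := mul_le_mul_of_nonneg_right q2 hn0.le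
    rw [q3, q4, q1]
    linarith
  have hup : Av H (s + 1) ≤ δ * n + 1 := by
    have q3 : Av H (s + 1) = 1 + ((k : ℝ) - 1) / ((s : ℝ) + 2) * (n - ((s : ℝ) + 2)) -
        Ls H k (s + 1) := by
      field_simp
      linarith
    have q2 : ((k : ℝ) - 1) / ((s : ℝ) + 2) ≤ δ := by
      rw [hδ, div_le_div_iff₀ hs2 hs3]
      have : (k : ℝ) * ((s : ℝ) + 2) - ((k : ℝ) - 1) * ((s : ℝ) + 3) = (s : ℝ) + 3 - k := by ring
      linarith
    have q6 : ((k : ℝ) - 1) / ((s : ℝ) + 2) * (n - ((s : ℝ) + 2)) ≤ δ * n := by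
      have q7 : ((k : ℝ) - 1) / ((s : ℝ) + 2) * (n - ((s : ℝ) + 2)) ≤
          δ * (n - ((s : ℝ) + 2)) := mul_le_mul_of_nonneg_right q2 (by linarith)
      have q8 : δ * (n - ((s : ℝ) + 2)) ≤ δ * n := mul_le_mul_of_nonneg_left (by linarith) hδ0.le
      linarith
    linarith
  have hδk : 1 / ((s : ℝ) + 3) ≤ δ / 8 := by
    rw [hminv]
    exact div_le_div_of_nonneg_left hδ0.le (by norm_num) hkR
  have hen : e * n ≤ δ / 16 * n := mul_le_mul_of_nonneg_right he16 hn0.le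
  have hmn : 1 / ((s : ℝ) + 3) * n ≤ δ / 8 * n := mul_le_mul_of_nonneg_right hδk hn0.le
  have hδn : 0 < δ * n := mul_pos hδ0 hn0
  have hlow2 : δ * n - 1 / ((s : ℝ) + 3) * n - 3 * (e * n) ≤ Av H (s + 1) := by
    have q0 : (δ - 1 / ((s : ℝ) + 3)) * n - e * n - 2 * e * n =
      δ * n - 1 / ((s : ℝ) + 3) * n - 3 * (e * n) := by ring
    linarith
  have hav1' : δ / 2 * n ≤ Av H (s + 1) := by linarith
  -- `Av s ≥ Av (s+1) - 2 e n`
  have hs1 : (0 : ℝ) < (s : ℝ) + 1 := by positivity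
  have hav01 : Av H (s + 1) - 2 * e * n ≤ Av H s := by
    have q1 : ((s : ℝ) + 1) * Bl H s ≤ ((s : ℝ) + 1) * (Bl H (s + 1) + Ls H k s) := by
      rw [r0', mul_add]
      have : ((s : ℝ) + 2 - k) * Bl H (s + 1) ≤ ((s : ℝ) + 1) * Bl H (s + 1) :=
        mul_le_mul_of_nonneg_right (by linarith) hB1'
      linarith
    have q2 := le_of_mul_le_mul_left q1 hs1
    linarith
  have hav0' : δ / 2 * n ≤ Av H s := by linarith
  refine
    { hH := hH
      hk := hk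
      hks := hks
      he := he
      hn := hn
      N3 := h0
      N2 := hN2
      N1 := hN1
      N0 := hN0
      sq1 := ?_
      sq0 := ?_
      df := ?_
      av1 := ?_
      av1' := by rw [← hnn, ← hδ]; exact hav1'
      av0' := by rw [← hnn, ← hδ]; exact hav0'
      hD := ?_ }
  · rw [← hnn]
    have q1 : Sq H (s + 1) ≤ Ls H k (s + 1) * (Av H (s + 1) * NI H (s + 1)) := by
      rw [hA1, ← d1]; linarith
    have q2 : Ls H k (s + 1) * (Av H (s + 1) * NI H (s + 1)) ≤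
        2 * e * n * (n * NI H (s + 1)) := by
      apply mul_le_mul hL1 _ _ (by positivity)
      · exact mul_le_mul_of_nonneg_right hAvn1 hN1.le
      · rw [hA1]; positivity
    calc Sq H (s + 1) ≤ 2 * e * n * (n * NI H (s + 1)) := q1.trans q2
      _ = 2 * e * n ^ 2 * NI H (s + 1) := by ring
  · rw [← hnn]
    have q1 : Sq H s ≤ Ls H k s * (Av H s * NI H s) := by
      rw [hA0, ← d0]; linarith
    have q2 : Ls H k s * (Av H s * NI H s) ≤ 2 * e * n * (n * NI H s) := by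
      apply mul_le_mul hL0 _ _ (by positivity)
      · exact mul_le_mul_of_nonneg_right hAvn0 hN0.le
      · rw [hA0]; positivity
    calc Sq H s ≤ 2 * e * n * (n * NI H s) := q1.trans q2
      _ = 2 * e * n ^ 2 * NI H s := by ring
  · rw [← hnn]
    have q1 : Df H k (s + 2) ≤ Ls H k (s + 1) * (((s : ℝ) + 2) * NI H (s + 2)) := by
      rw [← d1]; linarith
    refine q1.trans ?_
    exact mul_le_mul_of_nonneg_right hL1 (by positivity)
  · rw [← hnn, ← hδ, abs_le]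
    have hmn0 : 0 ≤ 1 / ((s : ℝ) + 3) * n := by positivity
    have q0 : (3 * e + 1 / ((s : ℝ) + 3)) * n = 3 * (e * n) + 1 / ((s : ℝ) + 3) * n := by ring
    rw [q0]
    constructor <;> linarith
  · rw [← hnn, ← hδ]
    -- `2 Av (s+1) - Av s ≥ n - s - 2 - ((s+k)/(s+1)) Bl (s+1)`
    have q1 : Bl H s = ((s : ℝ) + 2 - k) / ((s : ℝ) + 1) * Bl H (s + 1) + Ls H k s := by
      field_simp
      linarith
    have q2 : Bl H (s + 1) = ((s : ℝ) + 3 - k) / ((s : ℝ) + 2) * (n - ((s : ℝ) + 2)) +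
        Ls H k (s + 1) := by
      field_simp
      linarith
    have q3 : 2 * Av H (s + 1) - Av H s = n - ((s : ℝ) + 2) - 2 * Bl H (s + 1) + Bl H s := by
      linarith
    have q4 : 2 * Av H (s + 1) - Av H s =
        (n - ((s : ℝ) + 2)) * (((k : ℝ) - 1) * ((k : ℝ) - 2) / (((s : ℝ) + 1) * ((s : ℝ) + 2))) -
          ((s : ℝ) + k) / ((s : ℝ) + 1) * Ls H k (s + 1) + Ls H k s := by
      rw [q3, q1, q2]
      field_simp
      ring
    have q5 : ((s : ℝ) + k) / ((s : ℝ) + 1) ≤ 2 := by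
      rw [div_le_iff₀ hs1]; linarith
    have q6 : ((s : ℝ) + k) / ((s : ℝ) + 1) * Ls H k (s + 1) ≤ 2 * (2 * e * n) :=
      mul_le_mul q5 hL1 hL1' (by norm_num)
    -- comparison of the ratios
    have q7 : δ ^ 2 - 3 / ((s : ℝ) + 3) ≤
        ((k : ℝ) - 1) * ((k : ℝ) - 2) / (((s : ℝ) + 1) * ((s : ℝ) + 2)) := by
      have w1 : δ - 1 / ((s : ℝ) + 3) ≤ ((k : ℝ) - 1) / ((s : ℝ) + 2) := by
        have : (δ - 1 / ((s : ℝ) + 3)) = ((k : ℝ) - 1) / ((s : ℝ) + 3) := by rw [hδ]; ring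
        rw [this]
        exact div_le_div_of_nonneg_left (by linarith) hs2 (by linarith)
      have w2 : δ - 2 / ((s : ℝ) + 3) ≤ ((k : ℝ) - 2) / ((s : ℝ) + 1) := by
        have : (δ - 2 / ((s : ℝ) + 3)) = ((k : ℝ) - 2) / ((s : ℝ) + 3) := by rw [hδ]; ring
        rw [this]
        exact div_le_div_of_nonneg_left (by linarith) hs1 (by linarith)
      have w3 : 0 ≤ δ - 2 / ((s : ℝ) + 3) := by
        have : (2 : ℝ) / ((s : ℝ) + 3) = 2 * (1 / ((s : ℝ) + 3)) := by ring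
        rw [this]; linarith
      have w4 : 0 ≤ ((k : ℝ) - 1) / ((s : ℝ) + 2) := div_nonneg (by linarith) hs2.le
      have w5 : (δ - 1 / ((s : ℝ) + 3)) * (δ - 2 / ((s : ℝ) + 3)) ≤
          ((k : ℝ) - 1) / ((s : ℝ) + 2) * (((k : ℝ) - 2) / ((s : ℝ) + 1)) :=
        mul_le_mul w1 w2 w3 w4
      have w6 : ((k : ℝ) - 1) / ((s : ℝ) + 2) * (((k : ℝ) - 2) / ((s : ℝ) + 1)) =
          ((k : ℝ) - 1) * ((k : ℝ) - 2) / (((s : ℝ) + 1) * ((s : ℝ) + 2)) := by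
        field_simp
      rw [w6] at w5
      have w7 : δ ^ 2 - 3 / ((s : ℝ) + 3) ≤
          (δ - 1 / ((s : ℝ) + 3)) * (δ - 2 / ((s : ℝ) + 3)) := by
        have y1 : (2 : ℝ) / ((s : ℝ) + 3) = 2 * (1 / ((s : ℝ) + 3)) := by ring
        have y2 : (3 : ℝ) / ((s : ℝ) + 3) = 3 * (1 / ((s : ℝ) + 3)) := by ring
        rw [y1, y2]
        exact Levels_q7 hδ1 (by positivity)
      exact w7.trans w5
    have q8 : (δ ^ 2 - 3 / ((s : ℝ) + 3)) * (n - ((s : ℝ) + 2)) ≤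
        (n - ((s : ℝ) + 2)) * (((k : ℝ) - 1) * ((k : ℝ) - 2) / (((s : ℝ) + 1) * ((s : ℝ) + 2))) := by
      rw [mul_comm]
      exact mul_le_mul_of_nonneg_left q7 (by linarith)
    have q9 : (δ ^ 2 - 3 / ((s : ℝ) + 3)) * ((s : ℝ) + 2) ≤ e * n := by
      have z1 : δ ^ 2 - 3 / ((s : ℝ) + 3) ≤ 1 := by
        have h1 : 0 ≤ 3 / ((s : ℝ) + 3) := by positivity
        have h2 : δ ^ 2 ≤ 1 := pow_le_one₀ hδ0.le hδ1
        linarith
      have z2 := mul_le_mul_of_nonneg_right z1 hs2.le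
      linarith
    have q10 : (δ ^ 2 - 3 / ((s : ℝ) + 3)) * (n - ((s : ℝ) + 2)) =
        δ ^ 2 * n - 3 / ((s : ℝ) + 3) * n - (δ ^ 2 - 3 / ((s : ℝ) + 3)) * ((s : ℝ) + 2) := by ring
    have q11 : δ ^ 2 * n - (5 * e + 3 / ((s : ℝ) + 3)) * n =
        δ ^ 2 * n - 3 / ((s : ℝ) + 3) * n - 5 * (e * n) := by ring
    rw [q4, q11]
    rw [q10] at q8
    linarith

end Pool.Agent.DCS
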