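import Mathlib

/-!
# DCS: relations with few cherries, loops allowed, no condition on the number of points

A graph on `N` points in which almost all degrees are about `p N`, and with few paths `x ~ z ~ y`, `x` and `y` not
adjacent, exists only if `1 / p` is close to an integer. Greedily choose `q + 1` pairwise non adjacent points, with
`q ≤ 1 / p < q + 1`; their neighbourhoods are almost disjoint and have together more than `N` points.
-/

set_option linter.unusedSectionVars false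
set_option linter.unusedVariables false

open Finset

namespace Pool.Agent.DCS

variable {V : Type} [Fintype V] [DecidableEq V]

/-- the neighbours of `x` in `X` -/
noncomputable def nbl (X : Finset V) (R : V → V → Prop) (x : V) : Finset V :=
  open Classical in X.filter fun y => R x y

/-- the points of `X` which are not adjacent to `x` -/
noncomputable def nnl (X : Finset V) (R : V → V → Prop) (x : V) : Finset V :=
  open Classical in X.filter fun y => ¬ R x y

private theorem grb_card_gt {ι : Type} [DecidableEq ι] (X : Finset ι) (f : ι → ℝ) (hf : ∀ x ∈ X, 0 ≤ f x) {a S : ℝ}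
    (ha : 0 < a) (hS : ∑ x ∈ X, f x ≤ S) :
    ((open Classical in X.filter fun x => a < f x).card : ℝ) * a ≤ S := by
  classical
  refine le_trans ?_ hS
  calc ((X.filter fun x => a < f x).card : ℝ) * a = ∑ x ∈ X.filter fun x => a < f x, a := by
        rw [Finset.sum_const, nsmul_eq_mul]
    _ ≤ ∑ x ∈ X.filter fun x => a < f x, f x :=
        Finset.sum_le_sum fun x hx => (Finset.mem_filter.1 hx).2.le
    _ ≤ ∑ x ∈ X, f x :=
        Finset.sum_le_sum_of_subset_of_nonneg (Finset.filter_subset _ _) fun x hx _ => hf x hx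

private theorem grb_greedy (X : Finset V) (R : V → V → Prop) (hR : ∀ x y, R x y → R y x)
    (p τ N : ℝ) (hN : N = (X.card : ℝ)) (hN0 : 0 < N) (hp : 0 ≤ p) (hτ : 0 < τ) (B : Finset V)
    (hB1 : ∀ x ∈ X, x ∉ B → |((nbl X R x).card : ℝ) - p * N| ≤ τ * N)
    (C : V → Finset V) (hC : ∀ x ∈ X, x ∉ B → ((C x).card : ℝ) ≤ τ * N)
    (hC2 : ∀ x ∈ X, x ∉ B → ∀ y ∈ nnl X R x, y ∉ C x →
      (((nbl X R x) ∩ (nbl X R y)).card : ℝ) ≤ τ * N) (q : ℕ)
    (hq : ((B.card : ℝ)) + q * ((p + 2 * τ) * N) < N) :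
    ∀ i : ℕ, i ≤ q + 1 → ∃ S : Finset V, S ⊆ X ∧ S.card ≤ i ∧ (∀ x ∈ S, x ∉ B) ∧
      (i : ℝ) * (p - τ) * N - (i : ℝ) ^ 2 * τ * N ≤ ((S.biUnion (nbl X R)).card : ℝ) := by
  classical
  intro i
  induction i with
  | zero => 
    intro _
    exact ⟨∅, by simp, by simp, by simp, by simp⟩
  | succ i ih =>
    intro hi
    obtain ⟨S, hSX, hSc, hSB, hSU⟩ := ih (by omega)
    have hiq : i ≤ q := by omega
    set E : Finset V := B ∪ S.biUnion (fun x => nbl X R x ∪ C x) with hE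
    have hEc : (E.card : ℝ) < N := by
      have h1 : (E.card : ℝ) ≤ (B.card : ℝ) + ∑ x ∈ S, ((p + 2 * τ) * N) := by
        have h2 : (E.card : ℝ) ≤ (B.card : ℝ) +
            ((S.biUnion (fun x => nbl X R x ∪ C x)).card : ℝ) := by
          exact_mod_cast Finset.card_union_le _ _
        have h3 : ((S.biUnion (fun x => nbl X R x ∪ C x)).card : ℝ) ≤
            ∑ x ∈ S, (((nbl X R x ∪ C x)).card : ℝ) := by
          exact_mod_cast Finset.card_biUnion_le
        have h4 : ∑ x ∈ S, (((nbl X R x ∪ C x)).card : ℝ) ≤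
            ∑ x ∈ S, ((p + 2 * τ) * N) := by
          refine Finset.sum_le_sum fun x hx => ?_
          have h5 : (((nbl X R x ∪ C x)).card : ℝ) ≤
              ((nbl X R x).card : ℝ) + ((C x).card : ℝ) := by
            exact_mod_cast Finset.card_union_le _ _
          have h7 := (abs_le.1 (hB1 x (hSX hx) (hSB x hx))).2
          have h8 := hC x (hSX hx) (hSB x hx)
          nlinarith
        linarith
      rw [Finset.sum_const, nsmul_eq_mul] at h1
      have h9 : (S.card : ℝ) * ((p + 2 * τ) * N) ≤ (q : ℝ) * ((p + 2 * τ) * N) := by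
        refine mul_le_mul_of_nonneg_right (by exact_mod_cast hSc.trans hiq) ?_
        positivity
      linarith
    have hex : ∃ y ∈ X, y ∉ E := by
      by_contra hcon
      push Not at hcon
      have h1 : X ⊆ E := hcon
      have h2 : (X.card : ℝ) ≤ (E.card : ℝ) := by exact_mod_cast Finset.card_le_card h1
      linarith
    obtain ⟨y, hyX, hyE⟩ := hex
    have hyB : y ∉ B := fun h => hyE (Finset.mem_union_left _ h)
    have hyS : ∀ x ∈ S, y ∉ nbl X R x ∧ y ∉ C x := by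
      intro x hx
      have h1 : y ∉ nbl X R x ∪ C x := fun h =>
        hyE (Finset.mem_union_right _ (Finset.mem_biUnion.2 ⟨x, hx, h⟩))
      exact ⟨fun h => h1 (Finset.mem_union_left _ h), fun h => h1 (Finset.mem_union_right _ h)⟩
    refine ⟨insert y S, ?_, ?_, ?_, ?_⟩
    · exact Finset.insert_subset hyX hSX
    · exact (Finset.card_insert_le _ _).trans (Nat.add_le_add_right hSc 1)
    · intro x hx
      rcases Finset.mem_insert.1 hx with h | h
      · rw [h]; exact hyB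
      · exact hSB x h
    · rw [Finset.biUnion_insert]
      have h1 : (((nbl X R y) ∪ S.biUnion (nbl X R)).card : ℝ) +
          (((nbl X R y) ∩ S.biUnion (nbl X R)).card : ℝ) =
          ((nbl X R y).card : ℝ) + ((S.biUnion (nbl X R)).card : ℝ) := by
        exact_mod_cast Finset.card_union_add_card_inter _ _
      have h2 : (((nbl X R y) ∩ S.biUnion (nbl X R)).card : ℝ) ≤ (i : ℝ) * (τ * N) := by
        rw [Finset.inter_biUnion]
        have h3 : ((S.biUnion fun x => nbl X R y ∩ nbl X R x).card : ℝ) ≤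
            ∑ x ∈ S, ((nbl X R y ∩ nbl X R x).card : ℝ) := by
          exact_mod_cast Finset.card_biUnion_le
        refine le_trans h3 ?_
        have h4 : ∑ x ∈ S, ((nbl X R y ∩ nbl X R x).card : ℝ) ≤ ∑ x ∈ S, τ * N := by
          refine Finset.sum_le_sum fun x hx => ?_
          rw [Finset.inter_comm]
          refine hC2 x (hSX hx) (hSB x hx) y ?_ (hyS x hx).2
          unfold nnl
          refine Finset.mem_filter.2 ⟨hyX, fun h => (hyS x hx).1 ?_⟩
          unfold nbl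
          exact Finset.mem_filter.2 ⟨hyX, h⟩
        rw [Finset.sum_const, nsmul_eq_mul] at h4
        refine h4.trans (mul_le_mul_of_nonneg_right (by exact_mod_cast hSc) (by positivity))
      have h5 := (abs_le.1 (hB1 y hyX hyB)).1
      push_cast
      have h6 : 0 < τ * N := mul_pos hτ hN0
      nlinarith

/-- The graph lemma. -/
theorem few_cherries_loops (ε : ℝ) (hε : 0 < ε) (hε1 : ε ≤ 1) :
    ∃ η : ℝ, 0 < η ∧ ∀ (V : Type) [Fintype V] [DecidableEq V] (X : Finset V) (R : V → V → Prop)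
      (p : ℝ), (∀ x y, R x y → R y x) → ε ≤ p → (∀ q : ℕ, ε ≤ |1 / p - q|) →
      0 < (X.card : ℝ) →
      ∑ x ∈ X, |((nbl X R x).card : ℝ) - p * X.card| ≤ η * (X.card : ℝ) ^ 2 →
      ∑ x ∈ X, ∑ y ∈ nnl X R x, (((nbl X R x) ∩ (nbl X R y)).card : ℝ) ≤ η * (X.card : ℝ) ^ 3 →
      False := by
  set τ : ℝ := ε ^ 4 / 16 with hτ
  set η : ℝ := τ ^ 2 * ε ^ 2 / 8 with hη
  have hτ0 : 0 < τ := by positivity
  have hη0 : 0 < η := by positivity
  refine ⟨η, hη0, ?_⟩
  intro V _ _ X R p hR hp hq hX hdeg hch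
  classical
  set N : ℝ := (X.card : ℝ) with hN
  have hN0 : 0 < N := hX
  have hp0 : 0 < p := lt_of_lt_of_le hε hp
  -- bad points
  set B1 : Finset V := X.filter fun x => τ * N < |((nbl X R x).card : ℝ) - p * N| with hB1
  set c : V → ℝ := fun x => ∑ y ∈ nnl X R x, (((nbl X R x) ∩ (nbl X R y)).card : ℝ) with hc
  have hc0 : ∀ x, 0 ≤ c x := fun x => Finset.sum_nonneg fun y _ => Nat.cast_nonneg _
  set B2 : Finset V := X.filter fun x => τ ^ 2 * N ^ 2 < c x with hB2
  set B : Finset V := B1 ∪ B2 with hB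
  set C : V → Finset V := fun x =>
    (nnl X R x).filter fun y => τ * N < (((nbl X R x) ∩ (nbl X R y)).card : ℝ) with hC
  have hB1c : (B1.card : ℝ) * (τ * N) ≤ η * N ^ 2 :=
    grb_card_gt X (fun x => |((nbl X R x).card : ℝ) - p * N|) (fun x _ => abs_nonneg _)
      (mul_pos hτ0 hN0) hdeg
  have hB2c : (B2.card : ℝ) * (τ ^ 2 * N ^ 2) ≤ η * N ^ 3 :=
    grb_card_gt X c (fun x _ => hc0 x) (by positivity) hch
  have hB1' : (B1.card : ℝ) ≤ η / τ * N := by
    rw [div_mul_eq_mul_div, le_div_iff₀ hτ0]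
    have h1 : (B1.card : ℝ) * τ * N ≤ η * N * N := by nlinarith
    exact le_of_mul_le_mul_right h1 hN0
  have hB2' : (B2.card : ℝ) ≤ η / τ ^ 2 * N := by
    rw [div_mul_eq_mul_div, le_div_iff₀ (by positivity)]
    have h1 : (B2.card : ℝ) * τ ^ 2 * N ^ 2 ≤ η * N * N ^ 2 := by nlinarith
    exact le_of_mul_le_mul_right h1 (by positivity)
  have hε4 : ε ^ 4 ≤ 1 := pow_le_one₀ hε.le hε1
  have hτ1 : τ ≤ 1 := by rw [hτ]; linarith
  have hBc : (B.card : ℝ) ≤ ε ^ 2 / 4 * N := by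
    have h1 : (B.card : ℝ) ≤ (B1.card : ℝ) + (B2.card : ℝ) := by
      exact_mod_cast Finset.card_union_le _ _
    have h2 : η / τ ^ 2 = ε ^ 2 / 8 := by
      rw [hη]; field_simp
    have h3 : η / τ ≤ ε ^ 2 / 8 := by
      have h4 : η / τ = τ * (ε ^ 2 / 8) := by rw [hη]; field_simp
      rw [h4]
      have : 0 ≤ ε ^ 2 / 8 := by positivity
      nlinarith
    rw [h2] at hB2'
    have h5 : η / τ * N ≤ ε ^ 2 / 8 * N := mul_le_mul_of_nonneg_right h3 hN0.le
    linarith
  -- the integer `q`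
  set q : ℕ := ⌊1 / p⌋₊ with hqdef
  have hinv0 : 0 ≤ 1 / p := by positivity
  have hq1 : (q : ℝ) ≤ 1 / p := Nat.floor_le hinv0
  have hq2 : 1 / p < (q : ℝ) + 1 := Nat.lt_floor_add_one _
  have hqa : ε ≤ 1 / p - q := by
    have := hq q
    rwa [abs_of_nonneg (by linarith)] at this
  have hqb : ε ≤ (q : ℝ) + 1 - 1 / p := by
    have h1 := hq (q + 1)
    push_cast at h1
    rw [abs_of_neg (by linarith)] at h1
    linarith
  have hpinv : p * (1 / p) = 1 := by field_simp
  have hqp : (q : ℝ) * p ≤ 1 - ε ^ 2 := by nlinarith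
  have hqp' : 1 + ε ^ 2 ≤ ((q : ℝ) + 1) * p := by nlinarith
  have hqε : (q : ℝ) * ε ≤ 1 := by nlinarith
  have hq1ε : ((q : ℝ) + 1) * ε ≤ 2 := by nlinarith
  have hqmain : (B.card : ℝ) + q * ((p + 2 * τ) * N) < N := by
    have h8 : (q : ℝ) * (2 * τ) ≤ ε ^ 2 / 8 := by
      have h9 : (q : ℝ) * (2 * τ) = ((q : ℝ) * ε) * (ε ^ 3 / 8) := by rw [hτ]; ring
      rw [h9]
      have h10 : ε ^ 3 / 8 ≤ ε ^ 2 / 8 := by
        have : ε ^ 3 ≤ ε ^ 2 := by
          calc ε ^ 3 = ε * ε ^ 2 := by ring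
            _ ≤ 1 * ε ^ 2 := mul_le_mul_of_nonneg_right hε1 (by positivity)
            _ = ε ^ 2 := one_mul _
        linarith
      have h11 : 0 ≤ ε ^ 3 / 8 := by positivity
      calc ((q : ℝ) * ε) * (ε ^ 3 / 8) ≤ 1 * (ε ^ 3 / 8) := mul_le_mul_of_nonneg_right hqε h11
        _ ≤ ε ^ 2 / 8 := by linarith
    have h12 : (q : ℝ) * ((p + 2 * τ) * N) =
        ((q : ℝ) * p) * N + ((q : ℝ) * (2 * τ)) * N := by ring
    rw [h12]
    have h13 : ((q : ℝ) * p) * N ≤ (1 - ε ^ 2) * N := mul_le_mul_of_nonneg_right hqp hN0.le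
    have h14 : ((q : ℝ) * (2 * τ)) * N ≤ ε ^ 2 / 8 * N := mul_le_mul_of_nonneg_right h8 hN0.le
    have h15 : 0 < ε ^ 2 * N := by positivity
    nlinarith
  obtain ⟨S, hSX, hSc, hSB, hSU⟩ := grb_greedy X R hR p τ N hN hN0 hp0.le hτ0 B
    (fun x hx hxB => by
      by_contra hcon
      push Not at hcon
      exact hxB (Finset.mem_union_left _ (Finset.mem_filter.2 ⟨hx, hcon⟩)))
    C
    (fun x hx hxB => by
      have h1 : c x ≤ τ ^ 2 * N ^ 2 := by
        by_contra hcon
        push Not at hcon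
        exact hxB (Finset.mem_union_right _ (Finset.mem_filter.2 ⟨hx, hcon⟩))
      have h2 : ((C x).card : ℝ) * (τ * N) ≤ τ ^ 2 * N ^ 2 :=
        grb_card_gt (nnl X R x) (fun y => (((nbl X R x) ∩ (nbl X R y)).card : ℝ))
          (fun y _ => Nat.cast_nonneg _) (mul_pos hτ0 hN0) h1
      have h3 : ((C x).card : ℝ) * (τ * N) ≤ (τ * N) * (τ * N) := by nlinarith
      exact le_of_mul_le_mul_right h3 (mul_pos hτ0 hN0))
    (fun x hx hxB y hy hyC => by
      by_contra hcon
      push Not at hcon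
      exact hyC (Finset.mem_filter.2 ⟨hy, hcon⟩))
    q hqmain (q + 1) le_rfl
  have hUX : ((S.biUnion (nbl X R)).card : ℝ) ≤ N := by
    have h1 : S.biUnion (nbl X R) ⊆ X := by
      intro y hy
      obtain ⟨x, _, h⟩ := Finset.mem_biUnion.1 hy
      unfold nbl at h
      exact (Finset.mem_filter.1 h).1
    have h2 := Finset.card_le_card h1
    rw [hN]
    exact_mod_cast h2
  push_cast at hSU
  have h1 : ((q : ℝ) + 1) * τ ≤ ε ^ 2 / 8 := by
    have h2 : ((q : ℝ) + 1) * τ = (((q : ℝ) + 1) * ε) * (ε ^ 3 / 16) := by rw [hτ]; ring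
    rw [h2]
    have h3 : ε ^ 3 ≤ ε ^ 2 := by
      calc ε ^ 3 = ε * ε ^ 2 := by ring
        _ ≤ 1 * ε ^ 2 := mul_le_mul_of_nonneg_right hε1 (by positivity)
        _ = ε ^ 2 := one_mul _
    have h4 : 0 ≤ ε ^ 3 / 16 := by positivity
    calc (((q : ℝ) + 1) * ε) * (ε ^ 3 / 16) ≤ 2 * (ε ^ 3 / 16) := mul_le_mul_of_nonneg_right hq1ε h4
      _ ≤ ε ^ 2 / 8 := by linarith
  have h2 : ((q : ℝ) + 1) ^ 2 * τ ≤ ε ^ 2 / 4 := by
    have h3 : ((q : ℝ) + 1) ^ 2 * τ = (((q : ℝ) + 1) * ε) ^ 2 * (ε ^ 2 / 16) := by rw [hτ]; ring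
    rw [h3]
    have h4 : (((q : ℝ) + 1) * ε) ^ 2 ≤ 4 := by
      have h5 : 0 ≤ ((q : ℝ) + 1) * ε := by positivity
      nlinarith
    have h6 : 0 ≤ ε ^ 2 / 16 := by positivity
    nlinarith
  have h3 : (((q : ℝ) + 1) * p) * N ≤ N + (((q : ℝ) + 1) * τ) * N + (((q : ℝ) + 1) ^ 2 * τ) * N := by
    nlinarith
  have h4 : (1 + ε ^ 2) * N ≤ (((q : ℝ) + 1) * p) * N := mul_le_mul_of_nonneg_right hqp' hN0.le
  have h5 : (((q : ℝ) + 1) * τ) * N ≤ ε ^ 2 / 8 * N := mul_le_mul_of_nonneg_right h1 hN0.le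
  have h6 : (((q : ℝ) + 1) ^ 2 * τ) * N ≤ ε ^ 2 / 4 * N := mul_le_mul_of_nonneg_right h2 hN0.le
  have h7 : 0 < ε ^ 2 * N := by positivity
  nlinarith

end Pool.Agent.DCS
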