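import Pool.Agent.DCS.Ident
import Pool.Agent.DCS.Grb

/-!
# DCS: the graph of a level

For an independent set `J` two vertices `x`, `y` of `ext H J` are related if `x = y` or `J + x + y` is not
independent. The degree of `x` is exactly `|ext J| - |ext (J + x)|`. `Cr H J` is the number of the triples
`x ~ z ~ y` with `x`, `y` not related.
-/

set_option linter.unusedSectionVars false

namespace Pool.Agent.DCS

open Finset Pool.Agent.Helper2.DC

variable {V : Type} [Fintype V] [DecidableEq V]

/-- `x = y` or `J + x + y` is not independent -/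
def Re (H : Finset (Finset V)) (J : Finset V) (x y : V) : Prop :=
  x = y ∨ ¬ Ind H (insert x (insert y J))

theorem Re_symm {H : Finset (Finset V)} {J : Finset V} {x y : V} (h : Re H J x y) :
    Re H J y x := by
  unfold Re at h ⊢
  rcases h with h | h
  · exact Or.inl h.symm
  · right
    rwa [Finset.insert_comm]

theorem mem_nbl {X : Finset V} {R : V → V → Prop} {x y : V} :
    y ∈ nbl X R x ↔ y ∈ X ∧ R x y := by
  classical
  unfold nbl
  rw [mem_filter]

theorem mem_nnl {X : Finset V} {R : V → V → Prop} {x y : V} :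
    y ∈ nnl X R x ↔ y ∈ X ∧ ¬ R x y := by
  classical
  unfold nnl
  rw [mem_filter]

/-- the number of the cherries of the graph of `J` -/
noncomputable def Cr (H : Finset (Finset V)) (J : Finset V) : ℝ :=
  ∑ x ∈ ext H J, ∑ y ∈ nnl (ext H J) (Re H J) x,
    (((nbl (ext H J) (Re H J) x) ∩ (nbl (ext H J) (Re H J) y)).card : ℝ)

theorem Cr_nonneg (H : Finset (Finset V)) (J : Finset V) : 0 ≤ Cr H J :=
  sum_nonneg fun _ _ => sum_nonneg fun _ _ => Nat.cast_nonneg _

theorem nbl_add_nnl (X : Finset V) (R : V → V → Prop) (x : V) :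
    (nbl X R x).card + (nnl X R x).card = X.card := by
  classical
  have h := card_filter_add_card_filter_not (s := X) (fun y => R x y)
  have h1 : nbl X R x = X.filter (fun y => R x y) := by
    ext y
    rw [mem_nbl, mem_filter]
  have h2 : nnl X R x = X.filter (fun y => ¬ R x y) := by
    ext y
    rw [mem_nnl, mem_filter]
  rw [h1, h2]
  exact h

/-- the vertices of `ext H J` not related to `x` -/
theorem re_nnl {H : Finset (Finset V)} {J : Finset V} {x : V} (hx : x ∈ ext H J) :
    nnl (ext H J) (Re H J) x = ext H (insert x J) := by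
  ext y
  rw [mem_nnl, mem_ext, mem_ext, mem_insert]
  unfold Re
  constructor
  · rintro ⟨⟨h1, h2⟩, h3⟩
    push Not at h3
    refine ⟨?_, ?_⟩
    · rintro (h4 | h4)
      · exact h3.1 h4.symm
      · exact h1 h4
    · rw [Finset.insert_comm]
      exact h3.2
  · rintro ⟨h1, h2⟩
    push Not at h1
    refine ⟨⟨h1.2, h2.mono (insert_subset_insert _ (subset_insert _ _))⟩, ?_⟩
    push Not
    refine ⟨fun h => h1.1 h.symm, ?_⟩
    rw [Finset.insert_comm]
    exact h2

/-- the exact degree -/
theorem re_deg {H : Finset (Finset V)} {J : Finset V} {x : V} (hx : x ∈ ext H J) :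
    ((nbl (ext H J) (Re H J) x).card : ℝ) =
      ((ext H J).card : ℝ) - ((ext H (insert x J)).card : ℝ) := by
  have h := nbl_add_nnl (ext H J) (Re H J) x
  rw [re_nnl hx] at h
  have h' : ((nbl (ext H J) (Re H J) x).card : ℝ) + ((ext H (insert x J)).card : ℝ) =
      ((ext H J).card : ℝ) := by exact_mod_cast h
  linarith

/-- the members of the level `s + 1` as extensions of the members of the level `s` -/
theorem re_sum (H : Finset (Finset V)) (s : ℕ) (f : Finset V → ℝ) :
    ∑ J ∈ ind H s, ∑ x ∈ ext H J, f (insert x J) = ((s : ℝ) + 1) * ∑ S ∈ ind H (s + 1), f S := by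
  have h := sum_ext H s (fun J x => f (insert x J))
  rw [h, mul_sum]
  refine sum_congr rfl fun S hS => ?_
  have h1 : ∀ a ∈ S, f (insert a (S.erase a)) = f S := fun a ha => by rw [insert_erase ha]
  rw [sum_congr rfl h1, sum_const, (mem_ind.1 hS).1, nsmul_eq_mul]
  push_cast
  ring

end Pool.Agent.DCS
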