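import Pool.Agent.DCS.OneEdge
import Pool.Agent.DCS.Re

/-!
The number of the cherries of the graphs of a level is at most the excess two levels above: if `x ~ z ~ y` and
`x`, `y` are not related, then `J + x + y` is independent and `J + x + y + z` contains two edges.
-/

namespace Pool.Agent.DCS

open Finset Pool.Agent.Helper2.DC

variable {V : Type} [Fintype V] [DecidableEq V]

private theorem cherry_two {H : Finset (Finset V)} {J : Finset V} {x y z : V}
    (hx : x ∈ ext H J) (hy : y ∈ ext H (insert x J)) (hz : z ∈ ext H J)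
    (hxz : Re H J x z) (hyz : Re H J y z) :
    z ∈ bl H (insert y (insert x J)) ∧ 2 ≤ nE H (insert y (insert x J)) z := by
  obtain ⟨hxJ, hxI⟩ := mem_ext.1 hx
  obtain ⟨hyJ, hyI⟩ := mem_ext.1 hy
  obtain ⟨hzJ, hzI⟩ := mem_ext.1 hz
  rw [mem_insert, not_or] at hyJ
  have hxyR : ¬ Re H J x y := by
    have h1 : y ∈ nnl (ext H J) (Re H J) x := by rw [re_nnl hx]; exact hy
    exact (mem_nnl.1 h1).2
  have hxz' : x ≠ z := by
    rintro rfl
    exact hxyR (Re_symm hyz)
  have hyz' : y ≠ z := by
    rintro rfl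
    exact hxyR hxz
  have h1 : ¬ Ind H (insert x (insert z J)) := by
    rcases hxz with h | h
    · exact absurd h hxz'
    · exact h
  have h2 : ¬ Ind H (insert y (insert z J)) := by
    rcases hyz with h | h
    · exact absurd h hyz'
    · exact h
  have hyJI : Ind H (insert y J) := hyI.mono (insert_subset_insert _ (subset_insert _ _))
  have key : ∀ w, Ind H (insert w J) → ¬ Ind H (insert w (insert z J)) →
      ∃ e ∈ H, e ⊆ insert w (insert z J) ∧ z ∈ e ∧ w ∈ e := by
    intro w hw hwn
    have : ∃ e ∈ H, e ⊆ insert w (insert z J) := by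
      by_contra hcon; exact hwn (fun e he hes => hcon ⟨e, he, hes⟩)
    obtain ⟨e, he, hes⟩ := this
    refine ⟨e, he, hes, ?_, ?_⟩
    · by_contra hze
      apply hw e he
      intro u hu
      rcases mem_insert.1 (hes hu) with h | h
      · rw [h]; exact mem_insert_self _ _
      · rcases mem_insert.1 h with h' | h'
        · rw [h'] at hu; exact absurd hu hze
        · exact mem_insert_of_mem h'
    · by_contra hwe
      apply hzI e he
      intro u hu
      rcases mem_insert.1 (hes hu) with h | h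
      · rw [h] at hu; exact absurd hu hwe
      · exact h
  obtain ⟨e1, he1, hs1, hz1, hw1⟩ := key x hxI h1
  obtain ⟨e2, he2, hs2, hz2, hw2⟩ := key y hyJI h2
  have hzS : z ∉ insert y (insert x J) := by
    rw [mem_insert, mem_insert]
    rintro (h | h | h)
    · exact hyz' h.symm
    · exact hxz' h.symm
    · exact hzJ h
  have sd : ∀ w e, (w = x ∨ w = y) → e ⊆ insert w (insert z J) → z ∈ e →
      e \ (insert y (insert x J)) = {z} := by
    intro w e hw hes hze
    ext u
    rw [mem_sdiff, mem_singleton]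
    constructor
    · rintro ⟨hu, hu2⟩
      rcases mem_insert.1 (hes hu) with h | h
      · exfalso; apply hu2; rw [h]
        rcases hw with hw | hw
        · rw [hw]; exact mem_insert_of_mem (mem_insert_self _ _)
        · rw [hw]; exact mem_insert_self _ _
      · rcases mem_insert.1 h with h' | h'
        · exact h'
        · exact absurd (mem_insert_of_mem (mem_insert_of_mem h')) hu2
    · rintro rfl
      exact ⟨hze, hzS⟩
  have hd1 := sd x e1 (Or.inl rfl) hs1 hz1
  have hd2 := sd y e2 (Or.inr rfl) hs2 hz2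
  refine ⟨mem_bl_of_edge he1 hd1, ?_⟩
  unfold nE
  have hne : e1 ≠ e2 := by
    intro h
    have : y ∈ e1 := by rw [h]; exact hw2
    rcases mem_insert.1 (hs1 this) with h3 | h3
    · exact hyJ.1 h3
    · rcases mem_insert.1 h3 with h4 | h4
      · exact hyz' h4
      · exact hyJ.2 h4
  have hsub : ({e1, e2} : Finset (Finset V)) ⊆
      H.filter (fun e => e \ (insert y (insert x J)) = {z}) := by
    intro e he
    rw [mem_insert, mem_singleton] at he
    rcases he with rfl | rfl
    · exact mem_filter.2 ⟨he1, hd1⟩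
    · exact mem_filter.2 ⟨he2, hd2⟩
  calc 2 = ({e1, e2} : Finset (Finset V)).card := (card_pair hne).symm
    _ ≤ _ := card_le_card hsub

private theorem cherry_loc {H : Finset (Finset V)} {J : Finset V} {x y : V}
    (hx : x ∈ ext H J) (hy : y ∈ ext H (insert x J)) :
    (((nbl (ext H J) (Re H J) x) ∩ (nbl (ext H J) (Re H J) y)).card : ℝ) ≤
      (ne H (insert y (insert x J)) : ℝ) - ((bl H (insert y (insert x J))).card : ℝ) := by
  classical
  obtain ⟨hyJ, hyI⟩ := mem_ext.1 hy
  obtain ⟨S, hS⟩ : ∃ S, S = insert y (insert x J) := ⟨_, rfl⟩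
  have hSI : Ind H S := by rw [hS]; exact hyI
  have h1 : (nbl (ext H J) (Re H J) x) ∩ (nbl (ext H J) (Re H J) y) ⊆
      (bl H S).filter (fun z => 2 ≤ nE H S z) := by
    intro z hz
    obtain ⟨hz1, hz2⟩ := mem_inter.1 hz
    obtain ⟨hz3, hz4⟩ := mem_nbl.1 hz1
    obtain ⟨-, hz5⟩ := mem_nbl.1 hz2
    obtain ⟨a, b⟩ := cherry_two hx hy hz3 hz4 hz5
    rw [hS]
    exact mem_filter.2 ⟨a, b⟩
  have h2 : ((bl H S).filter (fun z => 2 ≤ nE H S z)).card + (bl H S).card ≤ ne H S := by
    rw [ne_eq, card_filter, card_eq_sum_ones (bl H S), ← sum_add_distrib]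
    refine sum_le_sum (fun v hv => ?_)
    have h3 := one_le_nE hSI hv
    split_ifs with h
    · omega
    · omega
  have h3 := card_le_card h1
  have h4 : (((nbl (ext H J) (Re H J) x) ∩ (nbl (ext H J) (Re H J) y)).card : ℝ) +
      ((bl H S).card : ℝ) ≤ (ne H S : ℝ) := by
    have := (Nat.add_le_add_right h3 (bl H S).card).trans h2
    exact_mod_cast this
  rw [← hS]
  linarith

/-- **The cherries of a level.** -/
theorem cherry_le (H : Finset (Finset V)) (s : ℕ) :
    ∑ J ∈ ind H s, Cr H J ≤ ((s : ℝ) + 1) * ((s : ℝ) + 2) * Xs H (s + 2) := by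
  obtain ⟨g, hg⟩ : ∃ g : Finset V → ℝ, g = fun S => (ne H S : ℝ) - ((bl H S).card : ℝ) := ⟨_, rfl⟩
  have h1 : ∀ J ∈ ind H s, Cr H J ≤
      ∑ x ∈ ext H J, (fun S => ∑ y ∈ ext H S, g (insert y S)) (insert x J) := by
    intro J _
    unfold Cr
    refine sum_le_sum (fun x hx => ?_)
    rw [re_nnl hx]
    refine sum_le_sum (fun y hy => ?_)
    rw [hg]
    exact cherry_loc hx hy
  refine (sum_le_sum h1).trans (le_of_eq ?_)
  have h2 := re_sum H s (fun S => ∑ y ∈ ext H S, g (insert y S))
  have h3 := re_sum H (s + 1) g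
  have h4 : Xs H (s + 2) = ∑ S ∈ ind H (s + 1 + 1), g S := by
    rw [hg]
    rfl
  rw [h2, h3, h4]
  push_cast
  ring

end Pool.Agent.DCS
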