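import Pool.Agent.DCS.Lev4

/-!
# DCS-Pbd: a positive proportion of the `s`-sets is independent, for all levels `s ≤ m - 3`

`NI H (j+1) / C(n, j+1) = NI H j / C(n, j) * (1 - Bl H j / (n - j))`, and `Bl H j` is at most `b ^ (m-1-j) (1 + e) n`
with `b < 1` fixed, so the product of the factors is at least `exp (- 1 / (1 - b)²)`.
-/

namespace Pool.Agent.DCS

open Finset Pool.Agent.Helper2.DC

variable {V : Type} [Fintype V] [DecidableEq V]

/-- quotients of binomial coefficients -/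
private theorem pbd_choose {k M : ℕ} {b : ℝ} (hb0 : 0 ≤ b) (hb1 : b ≤ 1)
    (hM : 0 < M) (hb : 1 - b ≤ (k : ℝ) / M) :
    ∀ d j : ℕ, j + d = M → k ≤ j → (j.choose k : ℝ) ≤ b ^ d * (M.choose k : ℝ) := by
  have hMR : (0 : ℝ) < M := by exact_mod_cast hM
  have h6 : (1 - b) * M ≤ k := by rwa [le_div_iff₀ hMR] at hb
  intro d
  induction d with
  | zero =>
    intro j hj _
    rw [add_zero] at hj
    rw [hj, pow_zero, one_mul]
  | succ d ih =>
    intro j hj hkj
    have h1 := ih (j + 1) (by omega) (by omega)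
    have h2 : j.choose k * (j + 1) = (j + 1).choose k * (j + 1 - k) := Nat.choose_mul_succ_eq j k
    have h3 : (j.choose k : ℝ) * ((j : ℝ) + 1) = ((j + 1).choose k : ℝ) * ((j : ℝ) + 1 - k) := by
      have h4 : ((j + 1 - k : ℕ) : ℝ) = (j : ℝ) + 1 - k := by
        rw [Nat.cast_sub (by omega)]
        push_cast
        ring
      rw [← h4]
      exact_mod_cast h2
    have hjM : (j : ℝ) + 1 ≤ M := by exact_mod_cast (by omega : j + 1 ≤ M)
    have hj0 : (0 : ℝ) < (j : ℝ) + 1 := by positivity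
    have h5 : (j : ℝ) + 1 - k ≤ b * ((j : ℝ) + 1) := by
      have h7 : (1 - b) * ((j : ℝ) + 1) ≤ (1 - b) * M :=
        mul_le_mul_of_nonneg_left hjM (by linarith)
      linarith
    have h8 : (j.choose k : ℝ) ≤ b * ((j + 1).choose k : ℝ) := by
      have h9 : (j.choose k : ℝ) * ((j : ℝ) + 1) ≤
          b * ((j + 1).choose k : ℝ) * ((j : ℝ) + 1) := by
        rw [h3]
        have h10 := mul_le_mul_of_nonneg_left h5
          (Nat.cast_nonneg ((j + 1).choose k) : (0 : ℝ) ≤ _)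
        linarith
      exact le_of_mul_le_mul_right h9 hj0
    calc (j.choose k : ℝ) ≤ b * ((j + 1).choose k : ℝ) := h8
      _ ≤ b * (b ^ d * (M.choose k : ℝ)) := mul_le_mul_of_nonneg_left h1 hb0
      _ = b ^ (d + 1) * (M.choose k : ℝ) := by ring

/-- `1 - x ≥ exp (- x / (1 - b))` for `0 ≤ x ≤ b < 1` -/
private theorem pbd_exp {x b : ℝ} (hx : 0 ≤ x) (hxb : x ≤ b) (hb : b < 1) :
    Real.exp (-(x / (1 - b))) ≤ 1 - x := by
  have h1 : 0 < 1 - x := by linarith
  have h2 : 0 < 1 - b := by linarith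
  have h3 : x / (1 - x) ≤ x / (1 - b) := div_le_div_of_nonneg_left hx h2 (by linarith)
  have h4 := Real.add_one_le_exp (x / (1 - x))
  have h5 : x / (1 - x) + 1 = 1 / (1 - x) := by
    field_simp
    ring
  have h6 : Real.exp (x / (1 - x)) ≤ Real.exp (x / (1 - b)) := Real.exp_le_exp.2 h3
  rw [h5] at h4
  rw [Real.exp_neg]
  have h7 : 1 / (1 - x) ≤ Real.exp (x / (1 - b)) := h4.trans h6
  rw [inv_le_comm₀ (Real.exp_pos _) h1, ← one_div]
  exact h7

/-- one level after the other -/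
private theorem pbd_level {H : Finset (Finset V)} {k M : ℕ} (hH : ∀ f ∈ H, f.card = k + 1)
    {e b : ℝ} (he : 0 < e) (he1 : e ≤ 1) (hb0 : 0 < b) (hb1 : b < 1)
    (heb : b * (1 + e) ≤ 1 - e) (hM : 0 < M) (hbk : 1 - b ≤ (k : ℝ) / M)
    (hn : (M : ℝ) + 1 ≤ e * (Fintype.card V : ℝ)) (hN : 0 < NI H M) (h0 : NI H (M + 1) = 0)
    (hd : (H.card : ℝ) / ((Fintype.card V).choose (k + 1) : ℝ) ≤ (1 + e) / (M.choose k : ℝ))
    {j : ℕ} (hkj : k ≤ j) : j + 2 ≤ M →
      Real.exp (-(b ^ (M - j) / (1 - b) ^ 2)) * ((Fintype.card V).choose j : ℝ) ≤ NI H j := by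
  have hb2 : 0 < 1 - b := by linarith
  have hn0 : (0 : ℝ) < (Fintype.card V : ℝ) := by
    by_contra hcon
    push Not at hcon
    have h1 := mul_nonpos_of_nonneg_of_nonpos he.le hcon
    have h2 : (0 : ℝ) ≤ (M : ℝ) := Nat.cast_nonneg _
    linarith
  induction j, hkj using Nat.le_induction with
  | base =>
    intro _
    rw [NI_of_lt hH (Nat.lt_succ_self k)]
    have h1 : Real.exp (-(b ^ (M - k) / (1 - b) ^ 2)) ≤ 1 := by
      rw [Real.exp_le_one_iff]
      have h2 : 0 ≤ b ^ (M - k) / (1 - b) ^ 2 := by positivity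
      linarith
    have h3 := mul_le_mul_of_nonneg_right h1
      (Nat.cast_nonneg ((Fintype.card V).choose k) : (0 : ℝ) ≤ _)
    linarith
  | succ j hkj ih =>
    intro hjM
    have hIH := ih (by omega)
    obtain ⟨hNj, hBl, -, -, -⟩ := lev4_av hH he hn he1 hN h0 hd hkj (by omega : j ≤ M)
    have hAv := Av_mul hNj
    have hBe := Bl_eq hNj
    obtain ⟨n, hnn⟩ : ∃ n : ℝ, n = (Fintype.card V : ℝ) := ⟨_, rfl⟩
    rw [← hnn] at hn hn0 hBl hBe
    obtain ⟨d, hdd⟩ : ∃ d, M = j + (d + 3) := ⟨M - j - 3, by omega⟩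
    have e1 : M - j = d + 3 := by omega
    have e2 : M - (j + 1) = d + 2 := by omega
    rw [e1] at hIH
    rw [e2]
    obtain ⟨x, hx⟩ : ∃ x : ℝ, x = b ^ (d + 2) := ⟨_, rfl⟩
    have hx0 : 0 < x := by rw [hx]; positivity
    have hxb : x ≤ b := by
      rw [hx]
      calc b ^ (d + 2) ≤ b ^ 1 := pow_le_pow_of_le_one hb0.le hb1.le (by omega)
        _ = b := pow_one b
    have ebx : b ^ (d + 3) = b * x := by rw [hx]; ring
    rw [ebx] at hIH
    rw [← hx]
    -- the factor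
    have hcM : (0 : ℝ) < (M.choose k : ℝ) := by exact_mod_cast Nat.choose_pos (by omega)
    have hch := pbd_choose hb0.le hb1.le hM hbk (d + 3) j (by omega) hkj
    have hbe : (j.choose k : ℝ) / (M.choose k : ℝ) ≤ b * x := by
      rw [div_le_iff₀ hcM, ← ebx]
      exact hch
    have hjM' : (j : ℝ) ≤ (M : ℝ) := by exact_mod_cast (by omega : j ≤ M)
    have hB2 : Bl H j ≤ x * (n - j) := by
      have h1 : (j.choose k : ℝ) / (M.choose k : ℝ) * ((1 + e) * n) ≤ b * x * ((1 + e) * n) :=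
        mul_le_mul_of_nonneg_right hbe (by positivity)
      have h2 : b * x * ((1 + e) * n) = x * (b * (1 + e) * n) := by ring
      have h3 : b * (1 + e) * n ≤ (1 - e) * n := mul_le_mul_of_nonneg_right heb hn0.le
      have h4 : (1 - e) * n ≤ n - j := by linarith
      have h5 : x * (b * (1 + e) * n) ≤ x * (n - j) :=
        mul_le_mul_of_nonneg_left (h3.trans h4) hx0.le
      linarith
    have hAv2 : (n - j) * (1 - x) ≤ Av H j := by linarith
    have hnj : 0 ≤ n - j := by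
      have h1 : e * n ≤ n := by
        have := mul_le_mul_of_nonneg_right he1 hn0.le
        linarith
      linarith
    have hexp := pbd_exp hx0.le hxb hb1
    have hjn : j ≤ Fintype.card V := by
      have h1 : (j : ℝ) ≤ (Fintype.card V : ℝ) := by rw [← hnn]; linarith
      exact_mod_cast h1
    have hC : ((Fintype.card V).choose (j + 1) : ℝ) * ((j : ℝ) + 1) =
        ((Fintype.card V).choose j : ℝ) * (n - j) := by
      have h1 := Nat.choose_succ_right_eq (Fintype.card V) j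
      have h2 : ((Fintype.card V - j : ℕ) : ℝ) = n - j := by
        rw [Nat.cast_sub hjn, hnn]
      rw [← h2]
      exact_mod_cast h1
    have hj0 : (0 : ℝ) < (j : ℝ) + 1 := by positivity
    have hE : Real.exp (-(x / (1 - b) ^ 2)) =
        Real.exp (-(b * x / (1 - b) ^ 2)) * Real.exp (-(x / (1 - b))) := by
      rw [← Real.exp_add]
      congr 1
      field_simp
      ring
    have hcj : (0 : ℝ) ≤ ((Fintype.card V).choose j : ℝ) := Nat.cast_nonneg _
    have hfin : Real.exp (-(x / (1 - b) ^ 2)) * ((Fintype.card V).choose (j + 1) : ℝ) *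
        ((j : ℝ) + 1) ≤ NI H (j + 1) * ((j : ℝ) + 1) := by
      calc Real.exp (-(x / (1 - b) ^ 2)) * ((Fintype.card V).choose (j + 1) : ℝ) * ((j : ℝ) + 1)
          = Real.exp (-(b * x / (1 - b) ^ 2)) * ((Fintype.card V).choose j : ℝ) *
              ((n - j) * Real.exp (-(x / (1 - b)))) := by
            rw [mul_assoc, hC, hE]
            ring
        _ ≤ Real.exp (-(b * x / (1 - b) ^ 2)) * ((Fintype.card V).choose j : ℝ) *
              ((n - j) * (1 - x)) := by
            apply mul_le_mul_of_nonneg_left _ (mul_nonneg (Real.exp_pos _).le hcj)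
            exact mul_le_mul_of_nonneg_left hexp hnj
        _ ≤ NI H j * ((n - j) * (1 - x)) := by
            apply mul_le_mul_of_nonneg_right hIH
            exact mul_nonneg hnj (by linarith)
        _ ≤ NI H j * Av H j := mul_le_mul_of_nonneg_left hAv2 hNj.le
        _ = NI H (j + 1) * ((j : ℝ) + 1) := by rw [mul_comm, hAv, mul_comm]
    exact le_of_mul_le_mul_right hfin hj0

/-- a positive proportion of the `s`-sets is independent -/
theorem p_low (ε α : ℝ) (hε : 0 < ε) :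
    ∃ p0 e0 : ℝ, 0 < p0 ∧ 0 < e0 ∧ ∃ k0 : ℕ, ∀ k m : ℕ, k0 ≤ k →
      (1 + ε) * (k : ℝ) ≤ m → (m : ℝ) ≤ α * k →
      ∀ {V : Type} [Fintype V] [DecidableEq V] (H : Finset (Finset V)), (∀ f ∈ H, f.card = k) →
      (m : ℝ) ≤ e0 * (Fintype.card V : ℝ) → NI H m = 0 → 0 < NI H (m - 1) →
      (H.card : ℝ) / ((Fintype.card V).choose k : ℝ) ≤ (1 + e0) / ((m - 1).choose (k - 1) : ℝ) →
      ∀ s : ℕ, s ≤ m - 3 → p0 * ((Fintype.card V).choose s : ℝ) ≤ NI H s := by
  obtain ⟨α', hα'⟩ : ∃ α' : ℝ, α' = max α 1 := ⟨_, rfl⟩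
  have hα1 : 1 ≤ α' := by rw [hα']; exact le_max_right _ _
  have hαα : α ≤ α' := by rw [hα']; exact le_max_left _ _
  have hα0 : 0 < α' := by linarith
  obtain ⟨b, hb⟩ : ∃ b : ℝ, b = 1 - 1 / (2 * α') := ⟨_, rfl⟩
  have hq : 0 < 1 / (2 * α') := by positivity
  have hq1 : 1 / (2 * α') ≤ 1 / 2 := by
    rw [div_le_div_iff₀ (by positivity) (by norm_num)]
    linarith
  have hb0 : 0 < b := by linarith
  have hb1 : b < 1 := by linarith
  have hb2 : 0 < 1 - b := by linarith
  refine ⟨Real.exp (-(1 / (1 - b) ^ 2)), (1 - b) / 2, Real.exp_pos _, by linarith, 8, ?_⟩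
  intro k m hk hkm hmk V _ _ H hH hn h0 hN hd s hs
  obtain ⟨k', rfl⟩ : ∃ k', k = k' + 1 := ⟨k - 1, by omega⟩
  have hkR : (8 : ℝ) ≤ ((k' + 1 : ℕ) : ℝ) := by exact_mod_cast hk
  have hkm' : k' + 1 < m := by
    have h1 : ((k' + 1 : ℕ) : ℝ) < (m : ℝ) := by
      have h2 : 0 < ε * ((k' + 1 : ℕ) : ℝ) := by positivity
      linarith
    exact_mod_cast h1
  obtain ⟨M, rfl⟩ : ∃ M, m = M + 1 := ⟨m - 1, by omega⟩
  simp only [Nat.add_sub_cancel] at hN hd
  have hC0 : (0 : ℝ) ≤ ((Fintype.card V).choose s : ℝ) := Nat.cast_nonneg _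
  have hp1 : Real.exp (-(1 / (1 - b) ^ 2)) ≤ 1 := by
    rw [Real.exp_le_one_iff]
    have : 0 ≤ 1 / (1 - b) ^ 2 := by positivity
    linarith
  rcases Nat.lt_or_ge s (k' + 1) with hsk | hsk
  · rw [NI_of_lt hH hsk]
    have := mul_le_mul_of_nonneg_right hp1 hC0
    linarith
  · have hMk : 0 < M := by omega
    have hMR : (0 : ℝ) < (M : ℝ) := by exact_mod_cast hMk
    have hbk : 1 - b ≤ (k' : ℝ) / M := by
      have e1 : 1 - b = 1 / (2 * α') := by rw [hb]; ring
      rw [e1, div_le_div_iff₀ (by positivity) hMR]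
      push_cast at hmk hkR
      have h1 : (M : ℝ) + 1 ≤ α' * ((k' : ℝ) + 1) :=
        hmk.trans (mul_le_mul_of_nonneg_right hαα (by linarith))
      have h2 : α' * ((k' : ℝ) + 1) ≤ α' * (2 * (k' : ℝ)) :=
        mul_le_mul_of_nonneg_left (by linarith) hα0.le
      linarith
    have hn' : (M : ℝ) + 1 ≤ (1 - b) / 2 * (Fintype.card V : ℝ) := by
      push_cast at hn
      exact hn
    have heb : b * (1 + (1 - b) / 2) ≤ 1 - (1 - b) / 2 := by nlinarith
    have h1 := pbd_level hH (by linarith : 0 < (1 - b) / 2) (by linarith) hb0 hb1 heb hMk hbk hn'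
      hN h0 hd (j := s) (by omega) (by omega)
    have h2 : Real.exp (-(1 / (1 - b) ^ 2)) ≤ Real.exp (-(b ^ (M - s) / (1 - b) ^ 2)) := by
      rw [Real.exp_le_exp, neg_le_neg_iff]
      apply div_le_div_of_nonneg_right _ (by positivity)
      exact pow_le_one₀ hb0.le hb1.le
    exact (mul_le_mul_of_nonneg_right h2 hC0).trans h1

end Pool.Agent.DCS
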