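import Pool.Agent.DCS.OneEdge

/-!
The excess at the levels `m - 1` and `m - 2` in terms of the number of edges.
-/

namespace Pool.Agent.DCS

open Finset Pool.Agent.Helper2.DC

variable {V : Type} [Fintype V] [DecidableEq V]

private theorem xbd_down {H : Finset (Finset V)} {M : ℕ} (d : ℕ) (h : 0 < NI H (M + d)) :
    0 < NI H M := by
  induction d with
  | zero => exact h
  | succ d ih => exact ih (ind_nonempty_of_succ h).1

/-- the excess at the level `M ≤ m - 1` -/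
theorem Xs_le {H : Finset (Finset V)} {k m : ℕ} (hH : ∀ f ∈ H, f.card = k) (hk : 1 ≤ k)
    {e : ℝ} (he : 0 ≤ e) (hn : (m : ℝ) ≤ e * (Fintype.card V : ℝ))
    (hkn : k ≤ Fintype.card V)
    (h0 : NI H m = 0) (hN : 0 < NI H (m - 1)) (hm : 1 ≤ m)
    (hd : (H.card : ℝ) / ((Fintype.card V).choose k : ℝ) ≤ (1 + e) / ((m - 1).choose (k - 1) : ℝ))
    {M : ℕ} (hkM : k - 1 ≤ M) (hM : M ≤ m - 1) :
    Xs H M ≤ 2 * e * (Fintype.card V : ℝ) * ((Fintype.card V).choose M : ℝ) := by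
  obtain ⟨k', rfl⟩ : ∃ k', k = k' + 1 := ⟨k - 1, by omega⟩
  obtain ⟨m', rfl⟩ : ∃ m', m = m' + 1 := ⟨m - 1, by omega⟩
  simp only [Nat.add_sub_cancel] at hN hd hkM hM
  obtain ⟨n, hnn⟩ : ∃ n : ℝ, n = (Fintype.card V : ℝ) := ⟨_, rfl⟩
  have hNM : 0 < NI H M := by
    obtain ⟨d, hd⟩ : ∃ d, m' = M + d := ⟨m' - M, by omega⟩
    rw [hd] at hN
    exact xbd_down d hN
  have h1 := one_edge (H := H) (r := k' + 1) (by omega) hH (M := M) (by simpa using hkM) hNM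
  have e1 : k' + 1 - 1 = k' := by omega
  rw [e1] at h1
  have h2 := unrolled (H := H) (r := k' + 1) (by omega) (s := M) (M := m') (by simpa using hkM) hM hN
  rw [e1, Bl_top hN h0, ← hnn] at h2
  have hsum : 0 ≤ ∑ j ∈ Ico M m', Ls H (k' + 1) j / (j.choose k' : ℝ) :=
    sum_nonneg (fun i _ => div_nonneg (Ls_nonneg hH i) (Nat.cast_nonneg _))
  have h3 := Bl_init hH hkn
  rw [← hnn] at h3
  have hcm : (0:ℝ) < (m'.choose k' : ℝ) := by exact_mod_cast Nat.choose_pos (by omega)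
  have hcM : (0:ℝ) < (M.choose k' : ℝ) := by exact_mod_cast Nat.choose_pos hkM
  have hcc : (M.choose k' : ℝ) ≤ (m'.choose k' : ℝ) := by exact_mod_cast Nat.choose_le_choose k' hM
  have hkn' : (k' : ℝ) + 1 ≤ n := by rw [hnn]; exact_mod_cast hkn
  have h4 : Bl H k' ≤ (n - k') * ((1 + e) / (m'.choose k' : ℝ)) := by
    rw [h3]
    exact mul_le_mul_of_nonneg_left hd (by linarith)
  have hkm : (k' : ℝ) ≤ (m' : ℝ) := by exact_mod_cast (hkM.trans hM)
  rw [← hnn] at hn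
  push_cast at hn
  -- the bracket
  have h5 : Bl H k' - Bl H M / (M.choose k' : ℝ) ≤ (2 * e * n) / (m'.choose k' : ℝ) := by
    have h6 : Bl H k' - Bl H M / (M.choose k' : ℝ) ≤
        ((n - k') * (1 + e) - (n - m')) / (m'.choose k' : ℝ) := by
      rw [sub_div, mul_div_assoc]
      linarith
    refine h6.trans (div_le_div_of_nonneg_right ?_ hcm.le)
    have h7 : (n - k') * (1 + e) - (n - m') = e * n + m' - k' - e * k' := by ring
    rw [h7]
    have h8 : (0:ℝ) ≤ (k' : ℝ) := Nat.cast_nonneg _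
    have h9 : 0 ≤ e * k' := mul_nonneg he h8
    linarith
  have hn0 : 0 ≤ n := by rw [hnn]; exact Nat.cast_nonneg _
  have h6 : (M.choose k' : ℝ) * (Bl H k' - Bl H M / (M.choose k' : ℝ)) ≤ 2 * e * n := by
    have h7 := mul_le_mul_of_nonneg_left h5 hcM.le
    refine h7.trans ?_
    rw [mul_div_assoc', div_le_iff₀ hcm, mul_comm]
    exact mul_le_mul_of_nonneg_left hcc (by positivity)
  have hcn : (0:ℝ) ≤ ((Fintype.card V).choose M : ℝ) := Nat.cast_nonneg _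
  calc Xs H M ≤ ((Fintype.card V).choose M : ℝ) *
        ((M.choose k' : ℝ) * (Bl H k' - Bl H M / (M.choose k' : ℝ))) := by
        rw [← mul_assoc]; exact h1
    _ ≤ ((Fintype.card V).choose M : ℝ) * (2 * e * n) := mul_le_mul_of_nonneg_left h6 hcn
    _ = 2 * e * (Fintype.card V : ℝ) * ((Fintype.card V).choose M : ℝ) := by rw [hnn]; ring

private theorem xbd_choose {n s : ℕ} (h : s + 2 ≤ n) :
    ((s : ℝ) + 1) * ((s : ℝ) + 2) * (n.choose (s + 2) : ℝ) ≤ (n : ℝ) ^ 2 * (n.choose s : ℝ) := by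
  have h2 := Nat.choose_succ_right_eq n (s + 1)
  have h1 := Nat.choose_succ_right_eq n s
  have h3 : ((n.choose (s + 1 + 1) * (s + 1 + 1) : ℕ) : ℝ) =
      ((n.choose (s + 1) * (n - (s + 1)) : ℕ) : ℝ) := by rw [h2]
  have h4 : ((n.choose (s + 1) * (s + 1) : ℕ) : ℝ) =
      ((n.choose s * (n - s) : ℕ) : ℝ) := by rw [h1]
  push_cast [Nat.cast_sub (show s + 1 ≤ n by omega)] at h3
  push_cast [Nat.cast_sub (show s ≤ n by omega)] at h4
  have hs : (0:ℝ) ≤ (s:ℝ) := Nat.cast_nonneg _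
  have hn : ((s:ℝ) + 2) ≤ (n:ℝ) := by exact_mod_cast h
  have h5 : ((s : ℝ) + 1) * ((s : ℝ) + 2) * (n.choose (s + 2) : ℝ) =
      ((n:ℝ) - s) * ((n:ℝ) - (s + 1)) * (n.choose s : ℝ) := by
    have h6 : (n.choose (s + 2) : ℝ) * ((s:ℝ) + 1 + 1) =
        (n.choose (s + 1) : ℝ) * ((n:ℝ) - ((s:ℝ) + 1)) := h3
    linear_combination ((s:ℝ) + 1) * h6 + ((n:ℝ) - ((s:ℝ) + 1)) * h4
  rw [h5]
  apply mul_le_mul_of_nonneg_right _ (Nat.cast_nonneg _)
  nlinarith

/-- the form used for the cherries -/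
theorem Xs_le_NI {H : Finset (Finset V)} {k m : ℕ} (hH : ∀ f ∈ H, f.card = k) (hk : 1 ≤ k)
    {e p0 : ℝ} (he : 0 ≤ e) (hp : 0 < p0) (hn : (m : ℝ) ≤ e * (Fintype.card V : ℝ))
    (hmn : m ≤ Fintype.card V)
    (h0 : NI H m = 0) (hN : 0 < NI H (m - 1))
    (hd : (H.card : ℝ) / ((Fintype.card V).choose k : ℝ) ≤ (1 + e) / ((m - 1).choose (k - 1) : ℝ))
    {s : ℕ} (hks : k ≤ s + 1) (hs : s + 3 ≤ m)
    (hpl : p0 * ((Fintype.card V).choose s : ℝ) ≤ NI H s) :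
    ((s : ℝ) + 1) * ((s : ℝ) + 2) * Xs H (s + 2) ≤
      2 / p0 * e * (Fintype.card V : ℝ) ^ 3 * NI H s := by
  have h1 := Xs_le hH hk he hn (by omega) h0 hN (by omega) hd (M := s + 2) (by omega) (by omega)
  have h2 := xbd_choose (n := Fintype.card V) (s := s) (by omega)
  obtain ⟨n, hnn⟩ : ∃ n : ℝ, n = (Fintype.card V : ℝ) := ⟨_, rfl⟩
  rw [← hnn] at h1 h2 ⊢
  have hn0 : 0 ≤ n := by rw [hnn]; exact Nat.cast_nonneg _
  have hs0 : (0:ℝ) ≤ (s:ℝ) := Nat.cast_nonneg _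
  have h3 : ((s : ℝ) + 1) * ((s : ℝ) + 2) * Xs H (s + 2) ≤
      2 * e * n * (n ^ 2 * ((Fintype.card V).choose s : ℝ)) := by
    calc ((s : ℝ) + 1) * ((s : ℝ) + 2) * Xs H (s + 2) ≤
        ((s : ℝ) + 1) * ((s : ℝ) + 2) *
          (2 * e * n * ((Fintype.card V).choose (s + 2) : ℝ)) :=
          mul_le_mul_of_nonneg_left h1 (by positivity)
      _ = 2 * e * n * (((s : ℝ) + 1) * ((s : ℝ) + 2) * ((Fintype.card V).choose (s + 2) : ℝ)) := by
          ring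
      _ ≤ 2 * e * n * (n ^ 2 * ((Fintype.card V).choose s : ℝ)) :=
          mul_le_mul_of_nonneg_left h2 (by positivity)
  have h4 : ((Fintype.card V).choose s : ℝ) ≤ NI H s / p0 := by
    rw [le_div_iff₀ hp, mul_comm]; exact hpl
  refine h3.trans ?_
  calc 2 * e * n * (n ^ 2 * ((Fintype.card V).choose s : ℝ)) ≤
      2 * e * n * (n ^ 2 * (NI H s / p0)) := by
        apply mul_le_mul_of_nonneg_left _ (by positivity)
        exact mul_le_mul_of_nonneg_left h4 (by positivity)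
    _ = 2 / p0 * e * n ^ 3 * NI H s := by
        field_simp

end Pool.Agent.DCS
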