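import Pool.Agent.DCX.Final
import Pool.Agent.Helper2.AUniformDeCaenStatement

/-!
Assembly of the theorem without exceptional ratios: bounded ratios and large `k` (hypothesis `hcore`),
large ratios (`DCX.final_T`) and small `k` together.
-/

namespace Pool.Agent.DCS

open Pool.Agent.Helper1.Turan

/-- a common positive lower bound of finitely many positive constants -/
private theorem Fin4_min (c' : ℕ → ℝ) (hc' : ∀ k : ℕ, 3 ≤ k → 0 < c' k) (K : ℕ) :
    ∃ c : ℝ, 0 < c ∧ ∀ k : ℕ, 3 ≤ k → k < K → c ≤ c' k := by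
  induction K with
  | zero => exact ⟨1, one_pos, fun k _ hk => absurd hk (Nat.not_lt_zero _)⟩
  | succ K ih =>
    obtain ⟨c, hc, h⟩ := ih
    by_cases hK : 3 ≤ K
    · refine ⟨min c (c' K), lt_min hc (hc' K hK), fun k h3 hk => ?_⟩
      rcases Nat.lt_succ_iff_lt_or_eq.1 hk with h1 | rfl
      · exact (min_le_left _ _).trans (h k h3 h1)
      · exact min_le_right _ _
    · refine ⟨c, hc, fun k h3 hk => h k h3 ?_⟩
      omega

/-- the distance to the integers `q ≥ 2` against the distance to the nearest integer -/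
private theorem Fin4_dist {x d A : ℝ} (hx : 1 < x) (hA : 1 ≤ A) (hxA : 1 / A ≤ x - 1)
    (hd : ∀ q : ℕ, 2 ≤ q → d ≤ |x - (q : ℝ)|) : d ≤ A * |x - (round x : ℝ)| := by
  have hA0 : (0:ℝ) < A := by linarith
  by_cases h : x < 3 / 2
  · have hr : round x = 1 := by
      rw [round_eq, Int.floor_eq_iff]
      push_cast
      constructor <;> linarith
    have h1 := hd 2 le_rfl
    rw [hr]
    push_cast at h1 ⊢
    rw [abs_of_neg (by linarith)] at h1
    rw [abs_of_pos (by linarith)]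
    have h2 : 1 ≤ A * (x - 1) := by
      rw [div_le_iff₀ hA0] at hxA
      linarith
    linarith
  · push Not at h
    have hr : 2 ≤ round x := by
      rw [round_eq, Int.le_floor]
      push_cast
      linarith
    obtain ⟨q, hq⟩ : ∃ q : ℕ, round x = (q : ℤ) := ⟨(round x).toNat, by
      rw [Int.toNat_of_nonneg (by omega)]⟩
    have hq2 : 2 ≤ q := by
      rw [hq] at hr
      exact_mod_cast hr
    have h1 := hd q hq2
    rw [hq]
    push_cast
    have h2 : (0:ℝ) ≤ |x - (q:ℝ)| := abs_nonneg _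
    nlinarith

/-- the final form from the theorem for bounded ratios -/
theorem fin4_of_core
    (hcore : ∀ ε α : ℝ, 0 < ε → ∃ c : ℝ, 0 < c ∧ ∃ k₀ : ℕ, ∀ k m : ℕ, k₀ ≤ k →
      (1 + ε) * (k : ℝ) ≤ (m : ℝ) → (m : ℝ) ≤ α * (k : ℝ) →
      (1 + c * max (1 / (k : ℝ)) |(m : ℝ) / ((m : ℝ) - (k : ℝ)) -
        (round ((m : ℝ) / ((m : ℝ) - (k : ℝ))) : ℝ)|) / ((m - 1).choose (k - 1) : ℝ) ≤
          1 - turanDensity k m) :
    ∀ ε : ℝ, 0 < ε → ∃ c : ℝ, 0 < c ∧ ∀ k m : ℕ, 3 ≤ k → (1 + ε) * (k : ℝ) ≤ (m : ℝ) →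
      Filter.Tendsto (fun n : ℕ => (exNum k m n : ℝ) / (n.choose k : ℝ)) Filter.atTop
        (nhds (turanDensity k m)) ∧
      ∀ d : ℝ, (∀ q : ℕ, 2 ≤ q → d ≤ |(m : ℝ) / ((m : ℝ) - (k : ℝ)) - (q : ℝ)|) →
        (1 + c * max (1 / (k : ℝ)) d) / ((m - 1).choose (k - 1) : ℝ) ≤ 1 - turanDensity k m := by
  intro ε hε
  obtain ⟨k₁, α₀, hT⟩ := Pool.Agent.DCX.final_T 2
  set α : ℝ := max α₀ 1 with hα
  have hα1 : 1 ≤ α := le_max_right _ _
  obtain ⟨c₁, hc₁, k₀, hS⟩ := hcore ε α hε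
  have hA : ∀ k : ℕ, ∃ c₁ : ℝ, 3 ≤ k → 0 < c₁ ∧ ∀ m : ℕ, k < m →
      turanDensity k m ≤ 1 - (1 + c₁) / ((m - 1).choose (k - 1) : ℝ) := by
    intro k
    by_cases hk : 3 ≤ k
    · obtain ⟨c₁, hc₁, h₁⟩ := Pool.Agent.Helper2.AUniformDeCaen.statement k hk
      exact ⟨c₁, fun _ => ⟨hc₁, fun m hm => (h₁ m hm).2⟩⟩
    · exact ⟨0, fun h3 => absurd h3 hk⟩
  choose c' hc' using hA
  obtain ⟨c₂, hc₂, hmin⟩ := Fin4_min c' (fun k hk => (hc' k hk).1) (max k₀ k₁)
  -- the maximum is at most `M₀`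
  set M₀ : ℝ := max 1 (1 / ε) with hM₀
  have hM₀1 : 1 ≤ M₀ := le_max_left _ _
  have hM₀0 : 0 < M₀ := by linarith
  refine ⟨min (min (c₁ / α) (c₂ / M₀)) (1 / M₀),
    lt_min (lt_min (by positivity) (by positivity)) (by positivity), fun k m hk hm => ?_⟩
  have hk0 : (3:ℝ) ≤ (k:ℝ) := by exact_mod_cast hk
  have hkm : k < m := by
    have h1 : (k:ℝ) < (m:ℝ) := by nlinarith
    exact_mod_cast h1
  have hkm' : (k:ℝ) < (m:ℝ) := by exact_mod_cast hkm
  have hmk : 0 < (m:ℝ) - (k:ℝ) := by linarith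
  have hpos : (0:ℝ) < ((m - 1).choose (k - 1) : ℝ) := by
    exact_mod_cast Nat.choose_pos (by omega)
  refine ⟨tendsto_turanDensity hkm.le, fun d hd => ?_⟩
  set x : ℝ := (m : ℝ) / ((m : ℝ) - (k : ℝ)) with hx
  have hx1 : x - 1 = (k:ℝ) / ((m:ℝ) - (k:ℝ)) := by
    rw [hx]; field_simp; ring
  have hx0 : 1 < x := by
    have : 0 < x - 1 := by rw [hx1]; positivity
    linarith
  have hxle : x - 1 ≤ 1 / ε := by
    rw [hx1, div_le_div_iff₀ hmk hε]
    nlinarith
  -- `d ≤ M₀`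
  have hdM : d ≤ M₀ := by
    have h1 := hd 2 le_rfl
    push_cast at h1
    rcases le_total x 2 with h2 | h2
    · rw [abs_of_nonpos (by linarith)] at h1
      linarith
    · rw [abs_of_nonneg (by linarith)] at h1
      have := le_max_right (1:ℝ) (1/ε)
      linarith
  have hkM : 1 / (k:ℝ) ≤ M₀ := by
    have : 1 / (k:ℝ) ≤ 1 := by
      rw [div_le_one (by linarith)]; linarith
    linarith
  have hmaxM : max (1 / (k:ℝ)) d ≤ M₀ := max_le hkM hdM
  have hmax0 : 0 ≤ max (1 / (k:ℝ)) d := le_trans (by positivity) (le_max_left _ _)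
  have hmono : ∀ y : ℝ, min (min (c₁ / α) (c₂ / M₀)) (1 / M₀) * max (1 / (k:ℝ)) d ≤ y →
      (1 + y) / ((m - 1).choose (k - 1) : ℝ) ≤ 1 - turanDensity k m →
      (1 + min (min (c₁ / α) (c₂ / M₀)) (1 / M₀) * max (1 / (k:ℝ)) d) /
        ((m - 1).choose (k - 1) : ℝ) ≤ 1 - turanDensity k m := by
    intro y hy h
    refine le_trans ?_ h
    exact div_le_div_of_nonneg_right (by linarith) hpos.le
  by_cases hkk : k < max k₀ k₁
  · refine hmono (c' k) ?_ ?_
    · have h1 : min (min (c₁ / α) (c₂ / M₀)) (1 / M₀) ≤ c₂ / M₀ :=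
        (min_le_left _ _).trans (min_le_right _ _)
      calc min (min (c₁ / α) (c₂ / M₀)) (1 / M₀) * max (1 / (k:ℝ)) d
          ≤ c₂ / M₀ * M₀ := mul_le_mul h1 hmaxM hmax0 (by positivity)
        _ = c₂ := by field_simp
        _ ≤ c' k := hmin k hk hkk
    · have := (hc' k hk).2 m hkm
      linarith
  · push Not at hkk
    have hk1 : k₁ ≤ k := (le_max_right _ _).trans hkk
    have hk2 : k₀ ≤ k := (le_max_left _ _).trans hkk
    rcases le_total (α * (k:ℝ)) (m:ℝ) with h1 | h1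
    · have h1' : α₀ * (k:ℝ) ≤ (m:ℝ) :=
        le_trans (mul_le_mul_of_nonneg_right (le_max_left _ _) (by linarith)) h1
      obtain ⟨-, -, -, h4, -⟩ := hT k m hk1 h1'
      refine hmono 1 ?_ ?_
      · calc min (min (c₁ / α) (c₂ / M₀)) (1 / M₀) * max (1 / (k:ℝ)) d
            ≤ 1 / M₀ * M₀ := mul_le_mul (min_le_right _ _) hmaxM hmax0 (by positivity)
          _ = 1 := by field_simp
      · norm_num
        exact h4
    · refine hmono _ ?_ (hS k m hk2 hm h1)
      have hxA : 1 / α ≤ x - 1 := by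
        rw [hx1, div_le_div_iff₀ (by linarith) hmk]
        linarith
      have h2 := Fin4_dist hx0 hα1 hxA hd
      have h3 : max (1 / (k:ℝ)) d ≤ α * max (1 / (k:ℝ)) |x - (round x : ℝ)| := by
        refine max_le ?_ (h2.trans ?_)
        · have h4 : (0:ℝ) ≤ max (1 / (k:ℝ)) |x - (round x : ℝ)| :=
            le_trans (by positivity) (le_max_left _ _)
          have h5 := le_max_left (1 / (k:ℝ)) |x - (round x : ℝ)|
          nlinarith
        · exact mul_le_mul_of_nonneg_left (le_max_right _ _) (by linarith)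
      calc min (min (c₁ / α) (c₂ / M₀)) (1 / M₀) * max (1 / (k:ℝ)) d
          ≤ c₁ / α * (α * max (1 / (k:ℝ)) |x - (round x : ℝ)|) :=
            mul_le_mul ((min_le_left _ _).trans (min_le_left _ _)) h3 hmax0 (by positivity)
        _ = c₁ * max (1 / (k:ℝ)) |x - (round x : ℝ)| := by field_simp

end Pool.Agent.DCS
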