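import Pool.Agent.DCS.Cor4
import Pool.Agent.DCS.Bridge
import Pool.Agent.DCS.Fin4

/-!
De Caen's bound is off by the factor `1 + c max(1/k, D)`, `D` the distance of `m / (m - k)` from `{2, 3, 4, ...}`, for
all `k ≥ 3` and all `m ≥ (1 + ε) k`.
-/

namespace Pool.Agent.DCS

open Pool.Agent.Helper1.Turan

theorem final_V4 :
    ∀ ε : ℝ, 0 < ε → ∃ c : ℝ, 0 < c ∧ ∀ k m : ℕ, 3 ≤ k → (1 + ε) * (k : ℝ) ≤ (m : ℝ) →
      Filter.Tendsto (fun n : ℕ => (exNum k m n : ℝ) / (n.choose k : ℝ)) Filter.atTop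
        (nhds (turanDensity k m)) ∧
      ∀ D : ℝ, (∀ q : ℕ, 2 ≤ q → D ≤ |(m : ℝ) / ((m : ℝ) - (k : ℝ)) - (q : ℝ)|) →
        (1 + c * max (1 / (k : ℝ)) D) / ((m - 1).choose (k - 1) : ℝ) ≤ 1 - turanDensity k m := by
  refine fin4_of_core (fun ε α hε => ?_)
  obtain ⟨c, hc, k₀, h⟩ := core4 ε α hε
  refine ⟨c, hc, max k₀ 2, fun k m hk hm hα => ?_⟩
  have hk2 : 2 ≤ k := (le_max_right _ _).trans hk
  have hkm : k < m := by
    have h0 : (2:ℝ) ≤ (k:ℝ) := by exact_mod_cast hk2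
    have h1 : (k:ℝ) < (m:ℝ) := by nlinarith
    exact_mod_cast h1
  exact bridge (by omega) hkm (h k m ((le_max_left _ _).trans hk) hm hα)

end Pool.Agent.DCS
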