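import Mathlib

/-!
# DCS-Ari: the two exact ratios

At level `m - 3` the ratio `D_s / (D_s - D_(s+1))` is `r3 = 1 + (m - 2) / (m - k)`, at level `m - 4` it is `r4`. They
are never both integers, and the larger of the two distances from the integers is at least a constant times the
maximum of `1 / k` and the distance of `m / (m - k)` from the integers.
-/

namespace Pool.Agent.DCS

/-- the ratio at level `m - 3` -/
noncomputable def r3 (k m : ℕ) : ℝ := 1 + ((m : ℝ) - 2) / ((m : ℝ) - k)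

/-- the ratio at level `m - 4` -/
noncomputable def r4 (k m : ℕ) : ℝ :=
  (((m : ℝ) - 1) ^ 2 + ((m : ℝ) - 1) * ((m : ℝ) - k) + ((m : ℝ) - k) ^ 2 - 3 * ((m : ℝ) - 1) -
    3 * ((m : ℝ) - k) + 2) / (((m : ℝ) - k) * ((m : ℝ) - k - 1))

/-- the expected proportion of blocked vertices at level `j` -/
noncomputable def be (k m j : ℕ) : ℝ := (j.choose (k - 1) : ℝ) / ((m - 1).choose (k - 1) : ℝ)

private theorem ari_step {k j : ℕ} (hk : 1 ≤ k) :
    ((j.choose (k - 1) : ℕ) : ℝ) * ((j : ℝ) + 1) =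
      (((j + 1).choose (k - 1) : ℕ) : ℝ) * ((j : ℝ) + 2 - k) ∨ j + 1 < k - 1 := by
  rcases Nat.lt_or_ge (j + 1) (k - 1) with h | h
  · exact Or.inr h
  · left
    have h1 := Nat.choose_mul_succ_eq j (k - 1)
    have h2 : ((j + 1 - (k - 1) : ℕ) : ℝ) = (j : ℝ) + 2 - k := by
      rw [Nat.cast_sub h, Nat.cast_sub hk]
      push_cast
      ring
    rw [← h2]
    exact_mod_cast h1

theorem be_top {k m : ℕ} (hkm : k ≤ m) (hm : 1 ≤ m) : be k m (m - 1) = 1 := by
  unfold be
  have : 0 < (m - 1).choose (k - 1) := Nat.choose_pos (by omega)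
  have h : (0 : ℝ) < ((m - 1).choose (k - 1) : ℝ) := by exact_mod_cast this
  exact div_self h.ne'

theorem be_step {k m j : ℕ} (hk : 1 ≤ k) (hj : k ≤ j + 2) :
    be k m j = be k m (j + 1) * (((j : ℝ) + 2 - k) / ((j : ℝ) + 1)) := by
  unfold be
  rcases ari_step (j := j) hk with h | h
  · have hj1 : (0 : ℝ) < (j : ℝ) + 1 := by positivity
    have h2 : (j.choose (k - 1) : ℝ) =
        ((j + 1).choose (k - 1) : ℝ) * (((j : ℝ) + 2 - k) / ((j : ℝ) + 1)) := by
      rw [mul_div_assoc', eq_div_iff hj1.ne']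
      exact h
    rw [h2]
    ring
  · omega

theorem be_two {k m : ℕ} (hk : 1 ≤ k) (hkm : k ≤ m) (hm : 4 ≤ m) :
    be k m (m - 2) = ((m : ℝ) - k) / ((m : ℝ) - 1) := by
  have h := be_step (k := k) (m := m) (j := m - 2) hk (by omega)
  have e1 : m - 2 + 1 = m - 1 := by omega
  have e2 : ((m - 2 : ℕ) : ℝ) = (m : ℝ) - 2 := by
    rw [Nat.cast_sub (by omega)]
    push_cast
    ring
  rw [e1, be_top hkm (by omega), e2, one_mul] at h
  rw [h]
  congr 1 <;> ring

theorem be_three {k m : ℕ} (hk : 1 ≤ k) (hkm : k + 1 ≤ m) (hm : 4 ≤ m) :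
    be k m (m - 3) = ((m : ℝ) - k) * ((m : ℝ) - k - 1) / (((m : ℝ) - 1) * ((m : ℝ) - 2)) := by
  have h := be_step (k := k) (m := m) (j := m - 3) hk (by omega)
  have e1 : m - 3 + 1 = m - 2 := by omega
  have e2 : ((m - 3 : ℕ) : ℝ) = (m : ℝ) - 3 := by
    rw [Nat.cast_sub (by omega)]
    push_cast
    ring
  rw [e1, be_two hk (by omega) hm, e2] at h
  rw [h, div_mul_div_comm]
  congr 1 <;> ring

theorem be_four {k m : ℕ} (hk : 1 ≤ k) (hkm : k + 2 ≤ m) (hm : 5 ≤ m) :
    be k m (m - 4) = ((m : ℝ) - k) * ((m : ℝ) - k - 1) * ((m : ℝ) - k - 2) /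
      (((m : ℝ) - 1) * ((m : ℝ) - 2) * ((m : ℝ) - 3)) := by
  have h := be_step (k := k) (m := m) (j := m - 4) hk (by omega)
  have e1 : m - 4 + 1 = m - 3 := by omega
  have e2 : ((m - 4 : ℕ) : ℝ) = (m : ℝ) - 4 := by
    rw [Nat.cast_sub (by omega)]
    push_cast
    ring
  rw [e1, be_three hk (by omega) (by omega), e2] at h
  rw [h, div_mul_div_comm]
  congr 1 <;> ring

/-- the exact value of the ratio at level `m - 3` -/
theorem r3_eq {k m : ℕ} (hk : 2 ≤ k) (hkm : k + 1 ≤ m) (hm : 4 ≤ m) :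
    (1 - be k m (m - 3)) / (be k m (m - 2) - be k m (m - 3)) = r3 k m := by
  rw [be_two (by omega) (by omega) hm, be_three (by omega) hkm hm]
  unfold r3
  have hm4 : (4 : ℝ) ≤ m := by exact_mod_cast hm
  have hk2 : (2 : ℝ) ≤ k := by exact_mod_cast hk
  have hkm' : (k : ℝ) + 1 ≤ m := by exact_mod_cast hkm
  have h1 : (m : ℝ) - 1 ≠ 0 := by linarith
  have h2 : (m : ℝ) - 2 ≠ 0 := by linarith
  have h3 : (m : ℝ) - k ≠ 0 := by linarith
  have h4 : (k : ℝ) - 1 ≠ 0 := by linarith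
  have e1 : ((m : ℝ) - k) / ((m : ℝ) - 1) -
      ((m : ℝ) - k) * ((m : ℝ) - k - 1) / (((m : ℝ) - 1) * ((m : ℝ) - 2)) =
      ((m : ℝ) - k) * ((k : ℝ) - 1) / (((m : ℝ) - 1) * ((m : ℝ) - 2)) := by
    field_simp
    ring
  have e2 : 1 - ((m : ℝ) - k) * ((m : ℝ) - k - 1) / (((m : ℝ) - 1) * ((m : ℝ) - 2)) =
      ((k : ℝ) - 1) * (2 * (m : ℝ) - k - 2) / (((m : ℝ) - 1) * ((m : ℝ) - 2)) := by
    field_simp
    ring
  rw [e1, e2]
  field_simp
  ring

/-- the exact value of the ratio at level `m - 4` -/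
theorem r4_eq {k m : ℕ} (hk : 2 ≤ k) (hkm : k + 2 ≤ m) (hm : 5 ≤ m) :
    (1 - be k m (m - 4)) / (be k m (m - 3) - be k m (m - 4)) = r4 k m := by
  rw [be_three (by omega) (by omega) (by omega), be_four (by omega) hkm hm]
  unfold r4
  have hm4 : (5 : ℝ) ≤ m := by exact_mod_cast hm
  have hk2 : (2 : ℝ) ≤ k := by exact_mod_cast hk
  have hkm' : (k : ℝ) + 2 ≤ m := by exact_mod_cast hkm
  have h1 : (m : ℝ) - 1 ≠ 0 := by linarith
  have h2 : (m : ℝ) - 2 ≠ 0 := by linarith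
  have h22 : (m : ℝ) - 3 ≠ 0 := by linarith
  have h3 : (m : ℝ) - k ≠ 0 := by linarith
  have h33 : (m : ℝ) - k - 1 ≠ 0 := by linarith
  have h4 : (k : ℝ) - 1 ≠ 0 := by linarith
  have e1 : ((m : ℝ) - k) * ((m : ℝ) - k - 1) / (((m : ℝ) - 1) * ((m : ℝ) - 2)) -
      ((m : ℝ) - k) * ((m : ℝ) - k - 1) * ((m : ℝ) - k - 2) /
        (((m : ℝ) - 1) * ((m : ℝ) - 2) * ((m : ℝ) - 3)) =
      ((m : ℝ) - k) * ((m : ℝ) - k - 1) * ((k : ℝ) - 1) /
        (((m : ℝ) - 1) * ((m : ℝ) - 2) * ((m : ℝ) - 3)) := by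
    field_simp
    ring
  have e2 : 1 - ((m : ℝ) - k) * ((m : ℝ) - k - 1) * ((m : ℝ) - k - 2) /
        (((m : ℝ) - 1) * ((m : ℝ) - 2) * ((m : ℝ) - 3)) =
      ((k : ℝ) - 1) * (((m : ℝ) - 1) ^ 2 + ((m : ℝ) - 1) * ((m : ℝ) - k) + ((m : ℝ) - k) ^ 2 -
        3 * ((m : ℝ) - 1) - 3 * ((m : ℝ) - k) + 2) /
        (((m : ℝ) - 1) * ((m : ℝ) - 2) * ((m : ℝ) - 3)) := by
    field_simp
    ring
  rw [e1, e2]
  field_simp

/-- if `m - 2 = q (m - k)` then the second ratio is `q² + q + 1 + (q² - 1) / (m - k - 1)` -/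
theorem r4_of_mul {k m q : ℕ} (hkm : k + 2 ≤ m) (hq : m - 2 = q * (m - k)) (hk : 2 ≤ k) :
    r4 k m = ((q : ℝ) ^ 2 + q + 1) + ((q : ℝ) ^ 2 - 1) / ((m : ℝ) - k - 1) := by
  have hkm' : (k : ℝ) + 2 ≤ m := by exact_mod_cast hkm
  have hq' : (m : ℝ) - 2 = q * ((m : ℝ) - k) := by
    have h1 : ((m - 2 : ℕ) : ℝ) = (m : ℝ) - 2 := by
      rw [Nat.cast_sub (by omega)]
      push_cast
      ring
    have h2 : ((m - k : ℕ) : ℝ) = (m : ℝ) - k := by
      rw [Nat.cast_sub (by omega)]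
    rw [← h1, ← h2]
    exact_mod_cast hq
  unfold r4
  have hg : (m : ℝ) - k ≠ 0 := by linarith
  have hg1 : (m : ℝ) - k - 1 ≠ 0 := by linarith
  have hm : (m : ℝ) = q * ((m : ℝ) - k) + 2 := by linarith
  generalize hgg : (m : ℝ) - k = g at *
  rw [hm]
  field_simp
  ring

private theorem round_dist_le (x : ℝ) (z : ℤ) : |x - round x| ≤ |x - z| := round_le x z

/-- an integer divided by a natural number is an integer or at distance at least `1 / g` -/
private theorem ari_div {a g : ℕ} (hg : 0 < g) (h : ¬ g ∣ a) (z : ℤ) :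
    1 / (g : ℝ) ≤ |(a : ℝ) / g - z| := by
  have hg0 : (0 : ℝ) < g := by exact_mod_cast hg
  have h1 : (a : ℤ) - z * g ≠ 0 := by
    intro h2
    apply h
    have h3 : (g : ℤ) ∣ (a : ℤ) := ⟨z, by linarith⟩
    exact_mod_cast h3
  have h2 : (1 : ℤ) ≤ |(a : ℤ) - z * g| := Int.one_le_abs h1
  have h3 : (1 : ℝ) ≤ |(a : ℝ) - z * g| := by exact_mod_cast h2
  have e : (a : ℝ) / g - z = ((a : ℝ) - z * g) / g := by field_simp
  rw [e, abs_div, abs_of_pos hg0]
  gcongr

/-- The two ratios are not both near integers. -/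
theorem ari (ε α : ℝ) (hε : 0 < ε) :
    ∃ C : ℝ, 0 < C ∧ ∃ k0 : ℕ, ∀ k m : ℕ, k0 ≤ k → (1 + ε) * k ≤ m → (m : ℝ) ≤ α * k →
      ∀ e : ℝ, |r3 k m - round (r3 k m)| ≤ e → |r4 k m - round (r4 k m)| ≤ e →
        1 / (k : ℝ) ≤ C * e ∧
        |(m : ℝ) / ((m : ℝ) - k) - round ((m : ℝ) / ((m : ℝ) - k))| ≤ C * e := by
  set α' : ℝ := max α 1 with hα'
  have hα1 : 1 ≤ α' := le_max_right _ _
  set C0 : ℝ := α' with hC0
  set C : ℝ := C0 * (1 + 2 / ε) + 1 with hC
  have hCpos : 0 < C := by positivity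
  set Q : ℝ := 1 + 1 / ε with hQ
  obtain ⟨k0, hk0⟩ := exists_nat_gt ((2 * Q ^ 2 + 4) / ε)
  refine ⟨C, hCpos, k0 + 4, ?_⟩
  intro k m hk hm1 hm2 e h3 h4
  have hk4 : 4 ≤ k := by omega
  have hkR : (4 : ℝ) ≤ k := by exact_mod_cast hk4
  have hkk0 : (2 * Q ^ 2 + 4) / ε < k := by
    refine hk0.trans_le ?_
    exact_mod_cast (show k0 ≤ k by omega)
  have hεk : 2 * Q ^ 2 + 4 < ε * k := by
    rw [div_lt_iff₀ hε] at hkk0
    linarith
  have hgε : ε * k ≤ (m : ℝ) - k := by linarith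
  have hQ1 : 1 < Q := by
    rw [hQ]
    have : 0 < 1 / ε := by positivity
    linarith
  have hg4 : 4 < (m : ℝ) - k := by nlinarith
  have hkm : k + 4 ≤ m := by
    have : (k : ℝ) + 4 < m := by linarith
    exact_mod_cast this.le
  have hg0 : 0 < m - k := by omega
  have hgR : ((m - k : ℕ) : ℝ) = (m : ℝ) - k := by rw [Nat.cast_sub (by omega)]
  have hgpos : (0 : ℝ) < (m : ℝ) - k := by linarith
  have hm2R : ((m - 2 : ℕ) : ℝ) = (m : ℝ) - 2 := by
    rw [Nat.cast_sub (by omega)]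
    push_cast
    ring
  have hmα : (m : ℝ) ≤ α' * k := by
    refine hm2.trans ?_
    exact mul_le_mul_of_nonneg_right (le_max_left _ _) (by positivity)
  have hk0' : (0 : ℝ) < k := by linarith
  have hgm : (m : ℝ) - k ≤ α' * k := by linarith
  -- `1 / k ≤ C0 e`
  have hmain : 1 / (k : ℝ) ≤ C0 * e := by
    have hgk : 1 / (k : ℝ) ≤ C0 * (1 / ((m : ℝ) - k)) := by
      rw [hC0, mul_one_div, div_le_div_iff₀ hk0' hgpos]
      linarith
    by_cases hdiv : (m - k) ∣ (m - 2)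
    · obtain ⟨q, hq⟩ := hdiv
      have hq' : m - 2 = q * (m - k) := by rw [hq]; ring
      have h5 := r4_of_mul (by omega) hq' (by omega : 2 ≤ k)
      have hq2 : 2 ≤ q := by
        by_contra hcon
        have h6 : q ≤ 1 := by omega
        have h7 : m - 2 ≤ 1 * (m - k) := by
          rw [hq']
          exact Nat.mul_le_mul_right _ h6
        omega
      have hq2R : (2 : ℝ) ≤ q := by exact_mod_cast hq2
      have hqQ : (q : ℝ) ≤ Q := by
        have h6 : (q : ℝ) * ((m : ℝ) - k) = (m : ℝ) - 2 := by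
          rw [← hgR, ← hm2R, hq']
          push_cast
          ring
        have h7 : (m : ℝ) - 2 ≤ Q * ((m : ℝ) - k) := by
          rw [hQ, add_mul, one_mul]
          have h8 : (k : ℝ) ≤ 1 / ε * ((m : ℝ) - k) := by
            rw [one_div, inv_mul_eq_div, le_div_iff₀ hε]
            linarith
          linarith
        have h8 : (q : ℝ) * ((m : ℝ) - k) ≤ Q * ((m : ℝ) - k) := by linarith
        exact le_of_mul_le_mul_right h8 hgpos
      have hq2Q : (q : ℝ) ^ 2 ≤ Q ^ 2 := pow_le_pow_left₀ (by positivity) hqQ 2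
      have hg1 : 0 < (m : ℝ) - k - 1 := by linarith
      set t : ℝ := ((q : ℝ) ^ 2 - 1) / ((m : ℝ) - k - 1) with ht
      have ht0 : 1 / ((m : ℝ) - k) ≤ t := by
        rw [ht, div_le_div_iff₀ hgpos hg1]
        have h6 : (3 : ℝ) ≤ (q : ℝ) ^ 2 - 1 := by nlinarith
        have h7 := mul_le_mul_of_nonneg_right h6 hgpos.le
        linarith
      have ht1 : t ≤ 1 / 2 := by
        rw [ht, div_le_iff₀ hg1]
        linarith
      have h6 : t ≤ |r4 k m - round (r4 k m)| := by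
        have h7 : round (r4 k m) = round t + (q ^ 2 + q + 1 : ℤ) := by
          rw [h5]
          have : ((q : ℝ) ^ 2 + q + 1) + t = t + ((q ^ 2 + q + 1 : ℤ) : ℝ) := by
            push_cast
            ring
          rw [this, round_add_intCast]
        rcases ht1.lt_or_eq with hlt | heq
        · have h8 : round t = 0 := by
            rw [round_eq_zero_iff]
            exact ⟨by have : 0 < 1 / ((m : ℝ) - k) := by positivity
                      linarith, hlt⟩
          rw [h7, h8, h5]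
          push_cast
          have e1 : (q : ℝ) ^ 2 + q + 1 + t - (0 + ((q : ℝ) ^ 2 + q + 1)) = t := by ring
          rw [e1]
          exact le_abs_self t
        · rw [h7, h5]
          push_cast
          have e1 : (q : ℝ) ^ 2 + q + 1 + t - ((round t : ℝ) + ((q : ℝ) ^ 2 + q + 1)) =
              t - round t := by ring
          rw [e1, heq]
          have h9 : ∀ z : ℤ, (1 / 2 : ℝ) ≤ |(1 / 2 : ℝ) - z| := by
            intro z
            rcases le_or_gt z 0 with hz | hz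
            · have : (z : ℝ) ≤ 0 := by exact_mod_cast hz
              rw [abs_of_nonneg (by linarith)]
              linarith
            · have : (1 : ℝ) ≤ z := by exact_mod_cast hz
              rw [abs_of_nonpos (by linarith)]
              linarith
          exact h9 _
      have h7 : 1 / ((m : ℝ) - k) ≤ e := ht0.trans (h6.trans h4)
      exact hgk.trans (mul_le_mul_of_nonneg_left h7 (by positivity))
    · have h5 := ari_div hg0 hdiv (round (r3 k m) - 1)
      rw [hgR, hm2R] at h5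
      have h6 : ((m : ℝ) - 2) / ((m : ℝ) - k) - ((round (r3 k m) - 1 : ℤ) : ℝ) =
          r3 k m - round (r3 k m) := by
        unfold r3
        push_cast
        ring
      rw [h6] at h5
      exact hgk.trans (mul_le_mul_of_nonneg_left (h5.trans h3) (by positivity))
  have he0 : 0 ≤ e := (abs_nonneg _).trans h3
  refine ⟨hmain.trans (mul_le_mul_of_nonneg_right ?_ he0), ?_⟩
  · rw [hC]
    have : 0 < C0 * (2 / ε) := by positivity
    nlinarith
  · have h5 := round_dist_le ((m : ℝ) / ((m : ℝ) - k)) (round (r3 k m) - 1)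
    refine h5.trans ?_
    have h6 : (m : ℝ) / ((m : ℝ) - k) - ((round (r3 k m) - 1 : ℤ) : ℝ) =
        (r3 k m - round (r3 k m)) + 2 / ((m : ℝ) - k) := by
      unfold r3
      push_cast
      ring
    rw [h6]
    refine (abs_add_le _ _).trans ?_
    rw [abs_of_pos (show 0 < 2 / ((m : ℝ) - k) by positivity)]
    have h7 : 2 / ((m : ℝ) - k) ≤ 2 / ε * (1 / k) := by
      rw [mul_one_div, div_div]
      apply div_le_div_of_nonneg_left (by norm_num) (by positivity) hgε
    have h8 := mul_le_mul_of_nonneg_left hmain (show 0 ≤ 2 / ε by positivity)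
    have h9 : C * e = e + 2 / ε * (C0 * e) + C0 * e := by
      rw [hC]
      ring
    have h10 : 0 ≤ C0 * e := by positivity
    rw [h9]
    linarith

end Pool.Agent.DCS
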