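import Pool.Agent.DCS.Two

/-!
# DCS: the pointwise inequality for two exchanges

`S` independent, `x`, `y` outside, `z` in every edge of `S + x` and of `S + y`, `w` not. Let `e1` be an edge in
`S - w + x` and `e2` one in `S - w + y`. Both lie in `S - w + x + y`, so the kernel of `z` in `S - z - w + x + y` lies in
`e1 ∩ e2`, and `e1` is the kernel of `x` up to its defect.
-/

set_option linter.unusedSectionVars false
set_option linter.unusedVariables false

namespace Pool.Agent.DCS

open Finset Pool.Agent.Helper2.DC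

variable {V : Type} [Fintype V] [DecidableEq V]

private theorem bad_edge {H : Finset (Finset V)} {S : Finset V} (hS : Ind H S) {x w : V} (hx : x ∉ S)
    (hw : w ∈ S) (hwx : w ∉ kap H S x) :
    ∃ e ∈ H, e ⊆ insert x (S.erase w) ∧ x ∈ e ∧ kap H S x ⊆ e.erase x := by
  have h1 : ¬ Ind H (insert x (S.erase w)) := fun h => hwx (mem_kap.2 ⟨hw, h⟩)
  have h2 : ∃ e ∈ H, e ⊆ insert x (S.erase w) := by
    by_contra hcon
    exact h1 fun e he hes => hcon ⟨e, he, hes⟩
  obtain ⟨e, he, hes⟩ := h2
  refine ⟨e, he, hes, ?_, ?_⟩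
  · by_contra hxe
    apply hS e he
    intro a ha
    rcases mem_insert.1 (hes ha) with h | h
    · exact absurd (h ▸ ha) hxe
    · exact mem_of_mem_erase h
  · intro a ha
    rw [mem_kap_iff hx] at ha
    refine mem_erase.2 ⟨?_, ha.2 e he (hes.trans (insert_subset_insert _ (erase_subset _ _)))⟩
    rintro rfl
    exact hx ha.1

/-- The pointwise inequality. -/
theorem bad_point {H : Finset (Finset V)} {k : ℕ} (hH : ∀ e ∈ H, e.card = k) {S : Finset V}
    (hS : Ind H S) {x y z w : V} (hx : x ∉ S) (hy : y ∉ S) (hxy : x ≠ y) (hz : z ∈ S) (hw : w ∈ S)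
    (hzx : z ∈ kap H S x) (hzy : z ∈ kap H S y) (hwx : w ∉ kap H S x) (hwy : w ∉ kap H S y) :
    (k : ℝ) ≤ ((k : ℝ) - 1 - ((kap H (insert x (insert y ((S.erase z).erase w))) z).card : ℝ)) +
      ((kap H S x ∩ kap H S y).card : ℝ) + ((k : ℝ) - 1 - ((kap H S x).card : ℝ)) +
      ((k : ℝ) - 1 - ((kap H S y).card : ℝ)) := by
  obtain ⟨e1, he1, hs1, hx1, hk1⟩ := bad_edge hS hx hw hwx
  obtain ⟨e2, he2, hs2, hy2, hk2⟩ := bad_edge hS hy hw hwy
  have hz1 : z ∈ e1 := ((mem_kap_iff hx).1 hzx).2 e1 he1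
    (hs1.trans (insert_subset_insert _ (erase_subset _ _)))
  have hz2 : z ∈ e2 := ((mem_kap_iff hy).1 hzy).2 e2 he2
    (hs2.trans (insert_subset_insert _ (erase_subset _ _)))
  have hzx' : z ≠ x := fun h => hx (h ▸ hz)
  have hzy' : z ≠ y := fun h => hy (h ▸ hz)
  set S1 : Finset V := insert x (insert y ((S.erase z).erase w)) with hS1
  have hzS1 : z ∉ S1 := by
    rw [hS1, mem_insert, mem_insert, mem_erase, mem_erase]
    rintro (h | h | h)
    · exact hzx' h
    · exact hzy' h
    · exact h.2.1 rfl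
  have hsub1 : e1 ⊆ insert z S1 := by
    intro a ha
    rcases mem_insert.1 (hs1 ha) with h | h
    · rw [hS1, h]; simp
    · by_cases haz : a = z
      · rw [haz]; exact mem_insert_self _ _
      · obtain ⟨h1, h2⟩ := mem_erase.1 h
        rw [hS1]
        simp [haz, h1, h2]
  have hsub2 : e2 ⊆ insert z S1 := by
    intro a ha
    rcases mem_insert.1 (hs2 ha) with h | h
    · rw [hS1, h]; simp
    · by_cases haz : a = z
      · rw [haz]; exact mem_insert_self _ _
      · obtain ⟨h1, h2⟩ := mem_erase.1 h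
        rw [hS1]
        simp [haz, h1, h2]
  have hK1 : kap H S1 z ⊆ (e1 ∩ e2).erase z := by
    intro a ha
    rw [mem_kap_iff hzS1] at ha
    refine mem_erase.2 ⟨?_, mem_inter.2 ⟨ha.2 e1 he1 hsub1, ha.2 e2 he2 hsub2⟩⟩
    rintro rfl
    exact hzS1 ha.1
  have hye1 : y ∉ e1 := by
    intro h
    rcases mem_insert.1 (hs1 h) with h1 | h1
    · exact hxy h1.symm
    · exact hy (mem_of_mem_erase h1)
  have hxe2 : x ∉ e2 := by
    intro h
    rcases mem_insert.1 (hs2 h) with h1 | h1
    · exact hxy h1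
    · exact hx (mem_of_mem_erase h1)
  have hA : (e1.erase x).card + 1 = k := by
    rw [card_erase_add_one hx1, hH e1 he1]
  have hB : (e2.erase y).card + 1 = k := by
    rw [card_erase_add_one hy2, hH e2 he2]
  have hint : e1 ∩ e2 ⊆ (kap H S x ∩ kap H S y) ∪
      (((e1.erase x) \ (kap H S x)) ∪ ((e2.erase y) \ (kap H S y))) := by
    intro a ha
    obtain ⟨h1, h2⟩ := mem_inter.1 ha
    have hax : a ≠ x := fun h => hxe2 (h ▸ h2)
    have hay : a ≠ y := fun h => hye1 (h ▸ h1)
    rw [mem_union, mem_union, mem_inter, mem_sdiff, mem_sdiff, mem_erase, mem_erase]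
    tauto
  have c1 : ((e1.erase x) \ (kap H S x)).card + (kap H S x).card = (e1.erase x).card :=
    card_sdiff_add_card_eq_card hk1
  have c2 : ((e2.erase y) \ (kap H S y)).card + (kap H S y).card = (e2.erase y).card :=
    card_sdiff_add_card_eq_card hk2
  have c3 : (e1 ∩ e2).card ≤ (kap H S x ∩ kap H S y).card +
      (((e1.erase x) \ (kap H S x)).card + ((e2.erase y) \ (kap H S y)).card) :=
    (card_le_card hint).trans ((card_union_le _ _).trans
      (Nat.add_le_add_left (card_union_le _ _) _))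
  have c4 : (kap H S1 z).card + 1 ≤ (e1 ∩ e2).card := by
    have h1 := card_le_card hK1
    have h2 : ((e1 ∩ e2).erase z).card + 1 = (e1 ∩ e2).card :=
      card_erase_add_one (mem_inter.2 ⟨hz1, hz2⟩)
    omega
  have c5 : (kap H S1 z).card + (kap H S x).card + (kap H S y).card + 3 ≤
      (kap H S x ∩ kap H S y).card + 2 * k := by omega
  have c6 : ((kap H S1 z).card : ℝ) + ((kap H S x).card : ℝ) + ((kap H S y).card : ℝ) + 3 ≤
      ((kap H S x ∩ kap H S y).card : ℝ) + 2 * (k : ℝ) := by exact_mod_cast c5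
  linarith

end Pool.Agent.DCS
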