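import Pool.Agent.DCS.Rel
import Pool.Agent.DCS.Bad

/-!
# DCS: the number of the cherries is small

Every cherry gives a pair of exchanges as in `bad_point`; the map to the new independent set is injective if the
exchanged vertices are remembered, so the defects of the new sets add up to at most `(s + 2)^2 n` times the total
defect.
-/

set_option linter.unusedSectionVars false
set_option linter.unusedVariables false

namespace Pool.Agent.DCS

open Finset Pool.Agent.Helper2.DC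

variable {V : Type} [Fintype V] [DecidableEq V]

/-- the new independent set -/
def bcnS (S : Finset V) (x y z w : V) : Finset V := insert x (insert y ((S.erase z).erase w))

/-- the conditions of `bad_point` -/
def BcnP (H : Finset (Finset V)) (t : Σ _ : Finset V, V × V × V × V) : Prop :=
  t.2.1 ≠ t.2.2.1 ∧ t.2.2.2.1 ≠ t.2.2.2.2 ∧ t.2.2.2.1 ∈ kap H t.1 t.2.1 ∧
    t.2.2.2.1 ∈ kap H t.1 t.2.2.1 ∧ t.2.2.2.2 ∉ kap H t.1 t.2.1 ∧ t.2.2.2.2 ∉ kap H t.1 t.2.2.1 ∧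
    Ind H (bcnS t.1 t.2.1 t.2.2.1 t.2.2.2.1 t.2.2.2.2)

def bcnT (H : Finset (Finset V)) (M : ℕ) : Finset (Σ _ : Finset V, V × V × V × V) :=
  (ind H M).sigma fun S => Sᶜ ×ˢ Sᶜ ×ˢ S ×ˢ S

noncomputable def bcnB (H : Finset (Finset V)) (M : ℕ) :
    Finset (Σ _ : Finset V, V × V × V × V) :=
  open Classical in (bcnT H M).filter (BcnP H)

theorem bcn_mem {H : Finset (Finset V)} {M : ℕ} {S : Finset V} {x y z w : V} :
    (⟨S, (x, y, z, w)⟩ : Σ _ : Finset V, V × V × V × V) ∈ bcnB H M ↔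
      (S ∈ ind H M ∧ x ∉ S ∧ y ∉ S ∧ z ∈ S ∧ w ∈ S) ∧ x ≠ y ∧ z ≠ w ∧ z ∈ kap H S x ∧
        z ∈ kap H S y ∧ w ∉ kap H S x ∧ w ∉ kap H S y ∧ Ind H (bcnS S x y z w) := by
  classical
  unfold bcnB
  rw [mem_filter]
  unfold bcnT BcnP
  rw [mem_sigma]
  simp only [mem_product, mem_compl]

theorem bcn_bl {H : Finset (Finset V)} {S : Finset V} (hE : ext H S = ∅) :
    bl H S = Sᶜ := by
  ext v
  rw [mem_compl]
  exact ⟨fun h => (mem_bl.1 h).1, fun h => mem_bl_of_compl hE (mem_compl.2 h)⟩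

/-- the sum over the big set of a function of `S`, `x`, `y` -/
theorem bcn_sumT (H : Finset (Finset V)) (M : ℕ) (g : Finset V → V → V → ℝ) :
    ∑ t ∈ bcnT H M, g t.1 t.2.1 t.2.2.1 =
      (M : ℝ) ^ 2 * ∑ S ∈ ind H M, ∑ x ∈ Sᶜ, ∑ y ∈ Sᶜ, g S x y := by
  unfold bcnT
  rw [sum_sigma, mul_sum]
  refine sum_congr rfl fun S hS => ?_
  rw [sum_product, mul_sum]
  refine sum_congr rfl fun x _ => ?_
  rw [sum_product, mul_sum]
  refine sum_congr rfl fun y _ => ?_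
  dsimp only
  rw [sum_const, card_product, (mem_ind.1 hS).1, nsmul_eq_mul]
  push_cast
  ring

/-- the sum over the images -/
theorem bcn_sum1 {H : Finset (Finset V)} {k M : ℕ} (hH : ∀ e ∈ H, e.card = k)
    (hE : ∀ S ∈ ind H M, ext H S = ∅) :
    ∑ t ∈ bcnB H M, ((k : ℝ) - 1 -
        ((kap H (bcnS t.1 t.2.1 t.2.2.1 t.2.2.2.1 t.2.2.2.2) t.2.2.2.1).card : ℝ)) ≤
      (M : ℝ) ^ 2 * (Fintype.card V : ℝ) * Df H k M := by
  classical
  let T1 : Finset (Σ _ : Finset V, V × V × V × V) :=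
    (ind H M).sigma fun S => Sᶜ ×ˢ S ×ˢ S ×ˢ univ
  let φ : (Σ _ : Finset V, V × V × V × V) → (Σ _ : Finset V, V × V × V × V) :=
    fun t => ⟨bcnS t.1 t.2.1 t.2.2.1 t.2.2.2.1 t.2.2.2.2, (t.2.2.2.1, t.2.1, t.2.2.1, t.2.2.2.2)⟩
  let f : (Σ _ : Finset V, V × V × V × V) → ℝ :=
    fun t => (k : ℝ) - 1 - ((kap H t.1 t.2.1).card : ℝ)
  have hmap : ∀ t ∈ bcnB H M, φ t ∈ T1 := by
    rintro ⟨S, x, y, z, w⟩ ht
    rw [bcn_mem] at ht
    obtain ⟨⟨hS, hx, hy, hz, hw⟩, hxy, hzw, -, -, -, -, hI⟩ := ht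
    have hzx : z ≠ x := fun h => hx (h ▸ hz)
    have hzy : z ≠ y := fun h => hy (h ▸ hz)
    show (⟨bcnS S x y z w, (z, x, y, w)⟩ : Σ _ : Finset V, V × V × V × V) ∈ T1
    rw [mem_sigma]
    simp only [mem_product, mem_compl, mem_univ, and_true]
    refine ⟨?_, ?_, ?_, ?_⟩
    · rw [mem_ind]
      refine ⟨?_, hI⟩
      have h1 : w ∈ S.erase z := mem_erase.2 ⟨hzw.symm, hw⟩
      have h2 : y ∉ (S.erase z).erase w := fun h => hy (mem_of_mem_erase (mem_of_mem_erase h))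
      have h3 : x ∉ insert y ((S.erase z).erase w) := by
        rw [mem_insert]
        rintro (h | h)
        · exact hxy h
        · exact hx (mem_of_mem_erase (mem_of_mem_erase h))
      unfold bcnS
      rw [card_insert_of_notMem h3, card_insert_of_notMem h2]
      have h4 := card_erase_add_one h1
      have h5 := card_erase_add_one hz
      rw [(mem_ind.1 hS).1] at h5
      omega
    · unfold bcnS
      rw [mem_insert, mem_insert, mem_erase, mem_erase]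
      rintro (h | h | h)
      · exact hzx h
      · exact hzy h
      · exact h.2.1 rfl
    · unfold bcnS; simp
    · unfold bcnS; simp
  have hinj : Set.InjOn φ (bcnB H M : Set (Σ _ : Finset V, V × V × V × V)) := by
    rintro ⟨S, x, y, z, w⟩ ht ⟨S', x', y', z', w'⟩ ht' heq
    have ht := bcn_mem.1 (mem_coe.1 ht)
    have ht' := bcn_mem.1 (mem_coe.1 ht')
    have heq' : (⟨bcnS S x y z w, (z, x, y, w)⟩ : Σ _ : Finset V, V × V × V × V) =
      ⟨bcnS S' x' y' z' w', (z', x', y', w')⟩ := heq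
    rw [Sigma.mk.injEq] at heq'
    obtain ⟨h1, h2⟩ := heq'
    have h2' := eq_of_heq h2
    rw [Prod.mk.injEq, Prod.mk.injEq, Prod.mk.injEq] at h2'
    obtain ⟨rfl, rfl, rfl, rfl⟩ := h2'
    have hrec : ∀ A : Finset V, x ∉ A → y ∉ A → z ∈ A → w ∈ A → z ≠ w → x ≠ y →
        insert z (insert w (((bcnS A x y z w).erase x).erase y)) = A := by
      intro A hxA hyA hzA hwA hzw hxy
      ext a
      unfold bcnS
      simp only [mem_insert, mem_erase]
      constructor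
      · rintro (h | h | h)
        · rw [h]; exact hzA
        · rw [h]; exact hwA
        · obtain ⟨h3, h4, h5 | h5 | h5⟩ := h
          · exact absurd h5 h4
          · exact absurd h5 h3
          · exact h5.2.2
      · intro ha
        by_cases haz : a = z
        · exact Or.inl haz
        · by_cases haw : a = w
          · exact Or.inr (Or.inl haw)
          · refine Or.inr (Or.inr ⟨?_, ?_, Or.inr (Or.inr ⟨haw, haz, ha⟩)⟩)
            · rintro rfl; exact hyA ha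
            · rintro rfl; exact hxA ha
    obtain ⟨⟨-, a1, a2, a3, a4⟩, a5, a6, -⟩ := ht
    obtain ⟨⟨-, b1, b2, b3, b4⟩, -⟩ := ht'
    have e1 := hrec S a1 a2 a3 a4 a6 a5
    have e2 := hrec S' b1 b2 b3 b4 a6 a5
    rw [h1] at e1
    rw [e1] at e2
    rw [e2]
  have h1 : ∑ t ∈ bcnB H M, ((k : ℝ) - 1 -
        ((kap H (bcnS t.1 t.2.1 t.2.2.1 t.2.2.2.1 t.2.2.2.2) t.2.2.2.1).card : ℝ)) =
      ∑ t ∈ (bcnB H M).image φ, f t := by
    rw [sum_image hinj]
  have h2 : ∑ t ∈ (bcnB H M).image φ, f t ≤ ∑ t ∈ T1, f t := by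
    refine sum_le_sum_of_subset_of_nonneg (image_subset_iff.2 hmap) ?_
    rintro ⟨S, z, x, y, w⟩ ht _
    rw [mem_sigma] at ht
    simp only [mem_product, mem_compl, mem_univ, and_true] at ht
    have h3 := kap_card_le hH (mem_ind.1 ht.1).2 (mem_bl_of_compl (hE S ht.1) (mem_compl.2 ht.2.1))
    have h4 : ((kap H S z).card : ℝ) + 1 ≤ (k : ℝ) := by exact_mod_cast h3
    show 0 ≤ (k : ℝ) - 1 - ((kap H S z).card : ℝ)
    linarith
  have h3 : ∑ t ∈ T1, f t = (M : ℝ) ^ 2 * (Fintype.card V : ℝ) * Df H k M := by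
    unfold Df
    rw [sum_sigma, mul_sum]
    refine sum_congr rfl fun S hS => ?_
    rw [sum_product, mul_sum, bcn_bl (hE S hS)]
    refine sum_congr rfl fun z _ => ?_
    show ∑ p ∈ S ×ˢ S ×ˢ univ, ((k : ℝ) - 1 - ((kap H S z).card : ℝ)) = _
    rw [sum_const, card_product, card_product, (mem_ind.1 hS).1, nsmul_eq_mul, card_univ]
    push_cast
    ring
  rw [h1, ← h3]
  exact h2

/-- the cherries are among the pairs of exchanges -/
theorem bcn_ch (H : Finset (Finset V)) (M : ℕ) :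
    ∑ J ∈ ind H M, ∑ w ∈ J, Ch H J w ≤ ((bcnB H (M + 1)).card : ℝ) := by
  classical
  let P : Finset V → V × V × V × V → Prop := fun J t =>
    t.2.2.1 ∈ nn (ext H J) (Rl H J t.1) t.2.1 ∧ t.2.2.2 ∈ nb (ext H J) (Rl H J t.1) t.2.1 ∧
      t.2.2.2 ∈ nb (ext H J) (Rl H J t.1) t.2.2.1
  let C0 : Finset (Σ _ : Finset V, V × V × V × V) :=
    (ind H M).sigma fun J => (J ×ˢ ext H J ×ˢ ext H J ×ˢ ext H J).filter (P J)
  have h1 : ∑ J ∈ ind H M, ∑ w ∈ J, Ch H J w = (C0.card : ℝ) := by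
    have h2 : C0.card = ∑ J ∈ ind H M, ((J ×ˢ ext H J ×ˢ ext H J ×ˢ ext H J).filter (P J)).card :=
      card_sigma _ _
    rw [h2]
    push_cast
    refine sum_congr rfl fun J _ => ?_
    rw [card_filter]
    push_cast
    rw [sum_product]
    refine sum_congr rfl fun w _ => ?_
    unfold Ch
    rw [sum_product]
    refine sum_congr rfl fun x _ => ?_
    rw [sum_product]
    have hnn : nn (ext H J) (Rl H J w) x =
        (ext H J).filter (fun y => y ∈ nn (ext H J) (Rl H J w) x) := by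
      ext y
      rw [mem_filter]
      exact ⟨fun h => ⟨(mem_nn.1 h).1, h⟩, fun h => h.2⟩
    rw [hnn, sum_filter]
    refine sum_congr rfl fun y _ => ?_
    by_cases hy : y ∈ nn (ext H J) (Rl H J w) x
    · rw [if_pos hy]
      have h3 : (nb (ext H J) (Rl H J w) x) ∩ (nb (ext H J) (Rl H J w) y) =
          (ext H J).filter (fun z => z ∈ nb (ext H J) (Rl H J w) x ∧
            z ∈ nb (ext H J) (Rl H J w) y) := by
        ext z
        rw [mem_inter, mem_filter]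
        exact ⟨fun h => ⟨(mem_nb.1 h.1).1, h⟩, fun h => h.2⟩
      rw [h3, card_filter]
      push_cast
      refine sum_congr rfl fun z _ => ?_
      by_cases hz : z ∈ nb (ext H J) (Rl H J w) x ∧ z ∈ nb (ext H J) (Rl H J w) y
      · rw [if_pos hz, if_pos (show P J (w, x, y, z) from ⟨hy, hz.1, hz.2⟩)]
      · rw [if_neg hz, if_neg (fun h : P J (w, x, y, z) => hz ⟨h.2.1, h.2.2⟩)]
    · rw [if_neg hy]
      symm
      apply sum_eq_zero
      intro z _
      exact if_neg (fun h : P J (w, x, y, z) => hy h.1)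
  rw [h1]
  have h4 : C0.card ≤ (bcnB H (M + 1)).card := by
    refine card_le_card_of_injOn
      (fun t => (⟨insert t.2.2.2.2 t.1, (t.2.2.1, t.2.2.2.1, t.2.2.2.2, t.2.1)⟩ :
        Σ _ : Finset V, V × V × V × V)) ?_ ?_
    · rintro ⟨J, w, x, y, z⟩ ht
      have ht := mem_sigma.1 (mem_coe.1 ht)
      obtain ⟨hJ, ht⟩ := ht
      obtain ⟨ht, hP⟩ := mem_filter.1 ht
      simp only [mem_product] at ht
      obtain ⟨hw, hx, hy, hz⟩ := ht
      have hJ : J ∈ ind H M := hJ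
      obtain ⟨hyn, hzx, hzy⟩ : y ∈ nn (ext H J) (Rl H J w) x ∧ z ∈ nb (ext H J) (Rl H J w) x ∧
        z ∈ nb (ext H J) (Rl H J w) y := hP
      obtain ⟨-, hyx, hRxy⟩ := mem_nn.1 hyn
      obtain ⟨-, hzx', hRxz⟩ := mem_nb.1 hzx
      obtain ⟨-, hzy', hRyz⟩ := mem_nb.1 hzy
      obtain ⟨hx1, hx2⟩ := mem_ext.1 hx
      obtain ⟨hy1, hy2⟩ := mem_ext.1 hy
      obtain ⟨hz1, hz2⟩ := mem_ext.1 hz
      obtain ⟨hJc, hJI⟩ := mem_ind.1 hJ
      have hzw : z ≠ w := fun h => hz1 (h ▸ hw)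
      have her : (insert z J).erase z = J := erase_insert hz1
      have hew : (insert z J).erase w = insert z (J.erase w) := erase_insert_of_ne hzw
      show (⟨insert z J, (x, y, z, w)⟩ : Σ _ : Finset V, V × V × V × V) ∈
        (bcnB H (M + 1) : Set (Σ _ : Finset V, V × V × V × V))
      rw [mem_coe, bcn_mem]
      refine ⟨⟨?_, ?_, ?_, ?_, ?_⟩, hyx.symm, hzw, ?_, ?_, ?_, ?_, ?_⟩
      · rw [mem_ind, card_insert_of_notMem hz1, hJc]
        exact ⟨rfl, hz2⟩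
      · rw [mem_insert]
        rintro (h | h)
        · exact hzx' h.symm
        · exact hx1 h
      · rw [mem_insert]
        rintro (h | h)
        · exact hzy' h.symm
        · exact hy1 h
      · exact mem_insert_self _ _
      · exact mem_insert_of_mem hw
      · rw [mem_kap, her]
        exact ⟨mem_insert_self _ _, hx2⟩
      · rw [mem_kap, her]
        exact ⟨mem_insert_self _ _, hy2⟩
      · rw [mem_kap, hew]
        exact fun h => hRxz h.2
      · rw [mem_kap, hew]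
        exact fun h => hRyz h.2
      · unfold bcnS
        rw [her]
        by_contra hcon
        exact hRxy hcon
    · rintro ⟨J, w, x, y, z⟩ ht ⟨J', w', x', y', z'⟩ ht' heq
      have heq' : (⟨insert z J, (x, y, z, w)⟩ : Σ _ : Finset V, V × V × V × V) =
        ⟨insert z' J', (x', y', z', w')⟩ := heq
      rw [Sigma.mk.injEq] at heq'
      obtain ⟨h5, h6⟩ := heq'
      have h6' := eq_of_heq h6
      rw [Prod.mk.injEq, Prod.mk.injEq, Prod.mk.injEq] at h6'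
      obtain ⟨rfl, rfl, rfl, rfl⟩ := h6'
      have hz : z ∉ J := by
        have h7 := (mem_filter.1 (mem_sigma.1 (mem_coe.1 ht)).2).1
        simp only [mem_product] at h7
        exact (mem_ext.1 h7.2.2.2).1
      have hz' : z ∉ J' := by
        have h7 := (mem_filter.1 (mem_sigma.1 (mem_coe.1 ht')).2).1
        simp only [mem_product] at h7
        exact (mem_ext.1 h7.2.2.2).1
      have h8 := congrArg (fun A => A.erase z) h5
      simp only [erase_insert hz, erase_insert hz'] at h8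
      rw [h8]
  exact_mod_cast h4

/-- The number of cherries. -/
theorem bad_count {H : Finset (Finset V)} {k s : ℕ} (hH : ∀ e ∈ H, e.card = k)
    (h0 : NI H (s + 3) = 0) {t : ℝ} (ht : t ≤ k) :
    ((k : ℝ) - t) * ∑ J ∈ ind H (s + 1), ∑ w ∈ J, Ch H J w ≤
      ((s : ℝ) + 2) ^ 2 * (3 * (Fintype.card V : ℝ) * Df H k (s + 2) +
        ∑ S ∈ ind H (s + 2), ∑ x ∈ Sᶜ, ∑ y ∈ Sᶜ, |((kap H S x ∩ kap H S y).card : ℝ) - t|) := by
  classical
  have hE : ∀ S ∈ ind H (s + 2), ext H S = ∅ := fun S hS => ext_empty h0 hS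
  have hch := bcn_ch H (s + 1)
  have hkt : 0 ≤ (k : ℝ) - t := by linarith
  -- the defects
  have hnu : ∀ S ∈ ind H (s + 2), ∀ v ∈ Sᶜ, 0 ≤ (k : ℝ) - 1 - ((kap H S v).card : ℝ) := by
    intro S hS v hv
    have h3 := kap_card_le hH (mem_ind.1 hS).2 (mem_bl_of_compl (hE S hS) hv)
    have h4 : ((kap H S v).card : ℝ) + 1 ≤ (k : ℝ) := by exact_mod_cast h3
    linarith
  set g : Finset V → V → V → ℝ := fun S x y =>
    |((kap H S x ∩ kap H S y).card : ℝ) - t| + ((k : ℝ) - 1 - ((kap H S x).card : ℝ)) +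
      ((k : ℝ) - 1 - ((kap H S y).card : ℝ)) with hg
  have hpt : ∀ u ∈ bcnB H (s + 2), (k : ℝ) - t ≤ ((k : ℝ) - 1 -
      ((kap H (bcnS u.1 u.2.1 u.2.2.1 u.2.2.2.1 u.2.2.2.2) u.2.2.2.1).card : ℝ)) +
        g u.1 u.2.1 u.2.2.1 := by
    rintro ⟨S, x, y, z, w⟩ hu
    obtain ⟨⟨hS, hx, hy, hz, hw⟩, hxy, hzw, hzx, hzy, hwx, hwy, hI⟩ := bcn_mem.1 hu
    have h1 := bad_point hH (mem_ind.1 hS).2 hx hy hxy hz hw hzx hzy hwx hwy
    have h2 := le_abs_self (((kap H S x ∩ kap H S y).card : ℝ) - t)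
    show (k : ℝ) - t ≤ ((k : ℝ) - 1 - ((kap H (bcnS S x y z w) z).card : ℝ)) +
      (|((kap H S x ∩ kap H S y).card : ℝ) - t| + ((k : ℝ) - 1 - ((kap H S x).card : ℝ)) +
      ((k : ℝ) - 1 - ((kap H S y).card : ℝ)))
    unfold bcnS
    linarith
  have h1 : ((k : ℝ) - t) * ((bcnB H (s + 2)).card : ℝ) ≤
      ∑ u ∈ bcnB H (s + 2), (((k : ℝ) - 1 -
        ((kap H (bcnS u.1 u.2.1 u.2.2.1 u.2.2.2.1 u.2.2.2.2) u.2.2.2.1).card : ℝ)) +
          g u.1 u.2.1 u.2.2.1) := by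
    rw [mul_comm, ← nsmul_eq_mul, ← sum_const]
    exact sum_le_sum hpt
  rw [sum_add_distrib] at h1
  have h2 := bcn_sum1 (M := s + 2) hH hE
  have h3 : ∑ u ∈ bcnB H (s + 2), g u.1 u.2.1 u.2.2.1 ≤
      ∑ u ∈ bcnT H (s + 2), g u.1 u.2.1 u.2.2.1 := by
    refine sum_le_sum_of_subset_of_nonneg (filter_subset _ _) ?_
    rintro ⟨S, x, y, z, w⟩ hu _
    unfold bcnT at hu
    rw [mem_sigma] at hu
    simp only [mem_product] at hu
    have h4 := hnu S hu.1 x hu.2.1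
    have h5 := hnu S hu.1 y hu.2.2.1
    have h6 := abs_nonneg (((kap H S x ∩ kap H S y).card : ℝ) - t)
    show 0 ≤ |((kap H S x ∩ kap H S y).card : ℝ) - t| + ((k : ℝ) - 1 - ((kap H S x).card : ℝ)) +
      ((k : ℝ) - 1 - ((kap H S y).card : ℝ))
    linarith
  rw [bcn_sumT] at h3
  have h4 : ∑ S ∈ ind H (s + 2), ∑ x ∈ Sᶜ, ∑ y ∈ Sᶜ, g S x y ≤
      2 * (Fintype.card V : ℝ) * Df H k (s + 2) +
        ∑ S ∈ ind H (s + 2), ∑ x ∈ Sᶜ, ∑ y ∈ Sᶜ, |((kap H S x ∩ kap H S y).card : ℝ) - t| := by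
    unfold Df
    rw [mul_sum, ← sum_add_distrib]
    refine sum_le_sum fun S hS => ?_
    rw [bcn_bl (hE S hS)]
    have hc : ((Sᶜ).card : ℝ) ≤ (Fintype.card V : ℝ) := by exact_mod_cast card_le_univ _
    have hs0 : 0 ≤ ∑ v ∈ Sᶜ, ((k : ℝ) - 1 - ((kap H S v).card : ℝ)) := sum_nonneg (hnu S hS)
    have e1 : ∑ x ∈ Sᶜ, ∑ y ∈ Sᶜ, g S x y =
        ∑ x ∈ Sᶜ, ∑ y ∈ Sᶜ, |((kap H S x ∩ kap H S y).card : ℝ) - t| +
          ((Sᶜ).card : ℝ) * ∑ v ∈ Sᶜ, ((k : ℝ) - 1 - ((kap H S v).card : ℝ)) +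
          ((Sᶜ).card : ℝ) * ∑ v ∈ Sᶜ, ((k : ℝ) - 1 - ((kap H S v).card : ℝ)) := by
      simp only [hg]
      have e2 : ∀ x ∈ Sᶜ, ∑ y ∈ Sᶜ, (|((kap H S x ∩ kap H S y).card : ℝ) - t| +
          ((k : ℝ) - 1 - ((kap H S x).card : ℝ)) + ((k : ℝ) - 1 - ((kap H S y).card : ℝ))) =
          ∑ y ∈ Sᶜ, |((kap H S x ∩ kap H S y).card : ℝ) - t| +
            ((Sᶜ).card : ℝ) * ((k : ℝ) - 1 - ((kap H S x).card : ℝ)) +
            ∑ v ∈ Sᶜ, ((k : ℝ) - 1 - ((kap H S v).card : ℝ)) := by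
        intro x _
        rw [sum_add_distrib, sum_add_distrib, sum_const, nsmul_eq_mul]
      rw [sum_congr rfl e2, sum_add_distrib, sum_add_distrib, ← mul_sum, sum_const, nsmul_eq_mul]
    rw [e1]
    have h5 := mul_le_mul_of_nonneg_right hc hs0
    nlinarith
  have hM : (((s + 2 : ℕ) : ℝ)) = (s : ℝ) + 2 := by push_cast; ring
  rw [hM] at h2 h3
  have hM2 : (0 : ℝ) ≤ ((s : ℝ) + 2) ^ 2 := by positivity
  have h5 := mul_le_mul_of_nonneg_left h4 hM2
  have h6 := mul_le_mul_of_nonneg_left hch hkt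
  calc ((k : ℝ) - t) * ∑ J ∈ ind H (s + 1), ∑ w ∈ J, Ch H J w
      ≤ ((k : ℝ) - t) * ((bcnB H (s + 2)).card : ℝ) := h6
    _ ≤ _ := by nlinarith

end Pool.Agent.DCS
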