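import Pool.Agent.DCS.Typ
import Pool.Agent.DCS.Bcn

/-!
# DCS-Chr: all the estimates together

From the smallness of the variances and of the defect at the last levels: there is a typical pair `(J, w)`, with
the explicit error `eT δ η c`, which tends to `0` with `η` and `c`.
-/

open Finset Pool.Agent.Helper2.DC

namespace Pool.Agent.DCS

variable {V : Type} [Fintype V] [DecidableEq V]

theorem level_up {H : Finset (Finset V)} {s : ℕ} (hN : 0 < NI H (s + 1)) :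
    ((s : ℝ) + 2) * NI H (s + 2) ≤ (Fintype.card V : ℝ) * NI H (s + 1) := by
  have h1 := Av_mul hN
  have h2 : Av H (s + 1) ≤ (Fintype.card V : ℝ) := by
    unfold Av
    rw [div_le_iff₀ hN]
    calc ∑ S ∈ ind H (s + 1), ((ext H S).card : ℝ) ≤
          ∑ _S ∈ ind H (s + 1), (Fintype.card V : ℝ) := sum_le_sum fun S _ => ext_card_le H S
      _ = (Fintype.card V : ℝ) * NI H (s + 1) := by
          rw [sum_const, nsmul_eq_mul]
          unfold NI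
          ring
  have h4 := mul_le_mul_of_nonneg_right h2 hN.le
  rw [h1] at h4
  push_cast at h4
  have e : (s : ℝ) + 1 + 1 = (s : ℝ) + 2 := by ring
  rw [e] at h4
  exact h4

/-- the number of cherries -/
theorem cherries_le {H : Finset (Finset V)} {k s : ℕ} (hH : ∀ e ∈ H, e.card = k) (hk : 2 ≤ k)
    (hks : k < s + 3) (h0 : NI H (s + 3) = 0) {δ η C : ℝ} (hδ : δ = (k : ℝ) / ((s : ℝ) + 3))
    (hη : 0 ≤ η) (hN : 0 < NI H (s + 1))
    (hDf : Df H k (s + 2) ≤ η * ((s : ℝ) + 3) * (Fintype.card V : ℝ) * NI H (s + 2))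
    (hL : ∑ S ∈ ind H (s + 2), ∑ x ∈ Sᶜ, ∑ y ∈ Sᶜ,
        |((kap H S x ∩ kap H S y).card : ℝ) - δ * k| ≤
      √C * ((s : ℝ) + 3) * (Fintype.card V : ℝ) ^ 2 * NI H (s + 2)) :
    ∑ J ∈ ind H (s + 1), ∑ w ∈ J, Ch H J w ≤
      2 * (3 * η + √C) / ((1 - δ) * δ) * ((s : ℝ) + 1) * (Fintype.card V : ℝ) ^ 3 *
        NI H (s + 1) := by
  have hk2 : (2 : ℝ) ≤ k := by exact_mod_cast hk
  have hks2 : (k : ℝ) < (s : ℝ) + 3 := by exact_mod_cast hks
  have hs : (0 : ℝ) ≤ s := Nat.cast_nonneg _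
  have hδ0 : 0 < δ := by rw [hδ]; positivity
  have hδ1 : δ < 1 := by rw [hδ, div_lt_one (by linarith)]; exact hks2
  have hkM : (k : ℝ) = δ * ((s : ℝ) + 3) := by rw [hδ]; field_simp
  have hn : (0 : ℝ) ≤ (Fintype.card V : ℝ) := Nat.cast_nonneg _
  have hN2 := NI_nonneg H (s + 2)
  have hsC : 0 ≤ √C := Real.sqrt_nonneg C
  have h1 := bad_count hH h0 (t := δ * k) (by nlinarith)
  have h2 := level_up hN
  set n : ℝ := (Fintype.card V : ℝ) with hn'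
  set M : ℝ := (s : ℝ) + 3 with hM
  set N1 : ℝ := NI H (s + 1)
  set N2 : ℝ := NI H (s + 2)
  set T : ℝ := ∑ J ∈ ind H (s + 1), ∑ w ∈ J, Ch H J w
  have hM0 : 0 < M := by positivity
  have h3 : ((k : ℝ) - δ * k) * T ≤ ((s : ℝ) + 2) ^ 2 * (M * n ^ 2 * N2 * (3 * η + √C)) := by
    refine h1.trans (mul_le_mul_of_nonneg_left ?_ (by positivity))
    have h4 := mul_le_mul_of_nonneg_left hDf (show 0 ≤ 3 * n by positivity)
    linarith
  have h4 : M * ((1 - δ) * δ * T) ≤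
      M * (((s : ℝ) + 2) ^ 2 * (n ^ 2 * N2 * (3 * η + √C))) := by
    have e : (k : ℝ) - δ * k = M * ((1 - δ) * δ) := by rw [hkM]; ring
    rw [e] at h3
    linarith
  have h5 := le_of_mul_le_mul_left h4 hM0
  have h6 : ((s : ℝ) + 2) ^ 2 * (n ^ 2 * N2 * (3 * η + √C)) ≤
      2 * ((s : ℝ) + 1) * (n ^ 3 * N1 * (3 * η + √C)) := by
    have h7 := mul_le_mul_of_nonneg_left h2
      (show 0 ≤ ((s : ℝ) + 2) * n ^ 2 * (3 * η + √C) by positivity)
    have h8 : ((s : ℝ) + 2) * (n ^ 3 * N1 * (3 * η + √C)) ≤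
        2 * ((s : ℝ) + 1) * (n ^ 3 * N1 * (3 * η + √C)) :=
      mul_le_mul_of_nonneg_right (by linarith) (by positivity)
    linarith
  have h7 : 0 < (1 - δ) * δ := mul_pos (by linarith) hδ0
  have h8 : T ≤ 2 * ((s : ℝ) + 1) * (n ^ 3 * N1 * (3 * η + √C)) / ((1 - δ) * δ) := by
    rw [le_div_iff₀ h7]
    linarith
  refine h8.trans (le_of_eq ?_)
  field_simp

/-- the error -/
noncomputable def eT (δ η c : ℝ) : ℝ :=
  √η + c + (16 / δ ^ 2 * √η + 2 * c) +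
    2 * (3 * η + √(19 * η + 32 / δ ^ 2 * √η + 4 * c)) / ((1 - δ) * δ)

theorem eT_nonneg {δ η c : ℝ} (hδ0 : 0 < δ) (hδ1 : δ < 1) (hη : 0 ≤ η) (hc : 0 ≤ c) :
    0 ≤ eT δ η c := by
  have : 0 < 1 - δ := by linarith
  unfold eT
  positivity

/-- the typical pair, from the estimates at the last levels -/
theorem typ_all {H : Finset (Finset V)} {k s : ℕ} (hH : ∀ e ∈ H, e.card = k) (hk : 2 ≤ k)
    (hks : k < s + 3) (h0 : NI H (s + 3) = 0) (hN : 0 < NI H (s + 2)) {δ η c : ℝ}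
    (hδ : δ = (k : ℝ) / ((s : ℝ) + 3)) (hη : 0 < η) (hc : 0 ≤ c)
    (hV : Sq H (s + 1) ≤ η * (Fintype.card V : ℝ) ^ 2 * NI H (s + 1))
    (hV' : Sq H s ≤ η * (Fintype.card V : ℝ) ^ 2 * NI H s)
    (hA : δ / 2 * (Fintype.card V : ℝ) ≤ Av H (s + 1))
    (hA' : δ / 2 * (Fintype.card V : ℝ) ≤ Av H s)
    (hAv : |Av H (s + 1) - δ * (Fintype.card V : ℝ)| ≤ c * (Fintype.card V : ℝ))
    (hD : δ ^ 2 * (Fintype.card V : ℝ) - c * (Fintype.card V : ℝ) ≤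
      2 * Av H (s + 1) - Av H s)
    (hDf : Df H k (s + 2) ≤ η * ((s : ℝ) + 3) * (Fintype.card V : ℝ) * NI H (s + 2))
    (hM : 1 ≤ η * ((s : ℝ) + 3)) (hMn : (s : ℝ) + 3 ≤ η * (Fintype.card V : ℝ)) :
    ∃ J ∈ ind H (s + 1), ∃ w ∈ J,
      |((ext H J).card : ℝ) - δ * (Fintype.card V : ℝ)| ≤ eT δ η c * (Fintype.card V : ℝ) ∧
      ∑ x ∈ ext H J,
        |((nb (ext H J) (Rl H J w) x).card : ℝ) - (1 - δ) * ((ext H J).card : ℝ)| ≤
        eT δ η c * (Fintype.card V : ℝ) ^ 2 + (Fintype.card V : ℝ) ∧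
      Ch H J w ≤ eT δ η c * (Fintype.card V : ℝ) ^ 3 := by
  have hk2 : (2 : ℝ) ≤ k := by exact_mod_cast hk
  have hks2 : (k : ℝ) < (s : ℝ) + 3 := by exact_mod_cast hks
  have hs : (0 : ℝ) ≤ s := Nat.cast_nonneg _
  have hδ0 : 0 < δ := by rw [hδ]; positivity
  have hδ1 : δ < 1 := by rw [hδ, div_lt_one (by linarith)]; exact hks2
  have hN1 : 0 < NI H (s + 1) := (ind_nonempty_of_succ hN).1
  have hn0 : (0 : ℝ) < (Fintype.card V : ℝ) := by
    by_contra hcon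
    have h1 : (Fintype.card V : ℝ) ≤ 0 := not_lt.1 hcon
    have h2 : η * (Fintype.card V : ℝ) ≤ 0 := mul_nonpos_of_nonneg_of_nonpos hη.le h1
    linarith
  have hC : 0 < 19 * η + 32 / δ ^ 2 * √η + 4 * c := by
    have := Real.sqrt_nonneg η
    positivity
  have hE := two_delta hH hk hks.le h0 hδ hη.le hc hV hV' hA hA' hD
  have hK := kxy_delta hH hk hks.le h0 hδ hη.le hc hV hV' hA hA' hD hDf hM hMn
  have hL := kxy_l1 hC (by positivity) hK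
  have hch := cherries_le hH hk hks h0 hδ hη.le hN1 hDf hL
  exact typ hδ0.le hδ1.le hη.le (by positivity) hn0 hN1 hV hAv hE hch

/-- the error tends to `0` -/
theorem eT_small {κ ε : ℝ} (hκ : 0 < κ) (hε : 0 < ε) :
    ∃ η0 : ℝ, 0 < η0 ∧ η0 ≤ 1 ∧ ∀ δ η c : ℝ, κ ≤ δ → κ ≤ 1 - δ → 0 ≤ η → η ≤ η0 → 0 ≤ c →
      c ≤ η0 → eT δ η c ≤ ε := by
  by_cases hκ1 : κ ≤ 1
  swap
  · exact ⟨1, one_pos, le_rfl, fun δ η c h1 h2 _ _ _ _ => by linarith⟩
  set r : ℝ := min 1 (ε * κ ^ 3 / 42) with hr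
  have hr0 : 0 < r := lt_min one_pos (by positivity)
  have hr1 : r ≤ 1 := min_le_left _ _
  have hr2 : r ≤ ε * κ ^ 3 / 42 := min_le_right _ _
  have hr42 : r ^ 4 ≤ r ^ 2 := pow_le_pow_of_le_one hr0.le hr1 (by norm_num)
  have hr21 : r ^ 2 ≤ r := by nlinarith
  refine ⟨r ^ 4, by positivity, pow_le_one₀ hr0.le hr1, ?_⟩
  intro δ η c h1 h2 h3 h4 h5 h6
  have hδ0 : 0 < δ := lt_of_lt_of_le hκ h1
  have hs : √η ≤ r ^ 2 := by
    rw [show r ^ 2 = √(r ^ 4) by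
      rw [show r ^ 4 = (r ^ 2) ^ 2 by ring, Real.sqrt_sq (by positivity)]]
    exact Real.sqrt_le_sqrt h4
  have hs0 := Real.sqrt_nonneg η
  have hκ2 : 1 ≤ 1 / κ ^ 2 := by
    rw [le_div_iff₀ (by positivity), one_mul]
    exact pow_le_one₀ hκ.le hκ1
  have hδ2 : 1 / δ ^ 2 ≤ 1 / κ ^ 2 :=
    one_div_le_one_div_of_le (by positivity) (pow_le_pow_left₀ hκ.le h1 2)
  have hq : 1 / δ ^ 2 * √η ≤ 1 / κ ^ 2 * r ^ 2 := mul_le_mul hδ2 hs hs0 (by positivity)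
  have hr2κ : r ^ 2 ≤ 1 / κ ^ 2 * r ^ 2 := le_mul_of_one_le_left (by positivity) hκ2
  have hC : 19 * η + 32 / δ ^ 2 * √η + 4 * c ≤ (8 / κ * r) ^ 2 := by
    have e1 : 32 / δ ^ 2 * √η = 32 * (1 / δ ^ 2 * √η) := by ring
    have e2 : (8 / κ * r) ^ 2 = 64 * (1 / κ ^ 2 * r ^ 2) := by ring
    rw [e1, e2]
    linarith
  have hsC : √(19 * η + 32 / δ ^ 2 * √η + 4 * c) ≤ 8 / κ * r := by
    rw [show 8 / κ * r = √((8 / κ * r) ^ 2) by rw [Real.sqrt_sq (by positivity)]]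
    exact Real.sqrt_le_sqrt hC
  have hprod : κ ^ 2 ≤ (1 - δ) * δ := by nlinarith
  have hκi : 1 ≤ 1 / κ := by
    rw [le_div_iff₀ hκ, one_mul]
    exact hκ1
  have hnum : 3 * η + √(19 * η + 32 / δ ^ 2 * √η + 4 * c) ≤ 11 / κ * r := by
    have h7 : 3 * η ≤ 3 / κ * r := by
      have h8 : η ≤ r := by linarith
      have h9 : r ≤ 1 / κ * r := le_mul_of_one_le_left hr0.le hκi
      have e : 3 / κ * r = 3 * (1 / κ * r) := by ring
      rw [e]
      linarith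
    have e : 11 / κ * r = 3 / κ * r + 8 / κ * r := by ring
    rw [e]
    linarith
  have hθ : 2 * (3 * η + √(19 * η + 32 / δ ^ 2 * √η + 4 * c)) / ((1 - δ) * δ) ≤
      2 * (11 / κ * r) / κ ^ 2 := by
    apply div_le_div₀ (by positivity) (by linarith) (by positivity) hprod
  have hA : 16 / δ ^ 2 * √η + 2 * c ≤ 18 * (1 / κ ^ 2 * r ^ 2) := by
    have e1 : 16 / δ ^ 2 * √η = 16 * (1 / δ ^ 2 * √η) := by ring
    rw [e1]
    linarith
  have hκ3 : 1 / κ ^ 2 * r ^ 2 ≤ 1 / κ ^ 3 * r := by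
    have h7 : 1 / κ ^ 2 ≤ 1 / κ ^ 3 :=
      one_div_le_one_div_of_le (by positivity) (pow_le_pow_of_le_one hκ.le hκ1 (by norm_num))
    exact mul_le_mul h7 hr21 (by positivity) (by positivity)
  have e3 : 2 * (11 / κ * r) / κ ^ 2 = 22 * (1 / κ ^ 3 * r) := by
    field_simp
    ring
  rw [e3] at hθ
  have hfin : 42 * (1 / κ ^ 3 * r) ≤ ε := by
    have e4 : 42 * (1 / κ ^ 3 * r) = 42 * r / κ ^ 3 := by ring
    rw [e4, div_le_iff₀ (by positivity)]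
    linarith
  unfold eT
  linarith

end Pool.Agent.DCS
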