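import Pool.Agent.DCS.Levels
import Pool.Agent.DCS.Ari

/-!
# DCS-Lev4: the averages at the levels `m - 4`, `m - 3`, `m - 2`

If `H` has few edges then the average number of extensions of the independent `j`-sets is `(1 - be k m j) n` up to
`2 e n`, for every level `j ≥ k - 1`.
-/

namespace Pool.Agent.DCS

open Finset Pool.Agent.Helper2.DC

variable {V : Type} [Fintype V] [DecidableEq V]

/-- blocked vertices and extensions at every level (`M = m - 1`, edges of size `k + 1`) -/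
theorem lev4_av {H : Finset (Finset V)} {k M : ℕ} (hH : ∀ f ∈ H, f.card = k + 1) {e : ℝ}
    (he : 0 < e) (hn : (M : ℝ) + 1 ≤ e * (Fintype.card V : ℝ)) (he1 : e ≤ 1) (hN : 0 < NI H M)
    (h0 : NI H (M + 1) = 0)
    (hd : (H.card : ℝ) / ((Fintype.card V).choose (k + 1) : ℝ) ≤ (1 + e) / (M.choose k : ℝ))
    {j : ℕ} (hj : k ≤ j) (hjM : j ≤ M) :
    0 < NI H j ∧
    Bl H j ≤ (j.choose k : ℝ) / (M.choose k : ℝ) * ((1 + e) * (Fintype.card V : ℝ)) ∧
    |Av H j - (1 - (j.choose k : ℝ) / (M.choose k : ℝ)) * (Fintype.card V : ℝ)| ≤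
      2 * e * (Fintype.card V : ℝ) ∧
    Av H j ≤ (Fintype.card V : ℝ) ∧
    (j < M → Sq H j ≤ 2 * e * (Fintype.card V : ℝ) ^ 2 * NI H j) := by
  obtain ⟨n, hnn⟩ : ∃ n : ℝ, n = (Fintype.card V : ℝ) := ⟨_, rfl⟩
  rw [← hnn] at hn ⊢
  have hM0 : (0 : ℝ) ≤ (M : ℝ) := Nat.cast_nonneg _
  have hn0 : 0 < n := by
    by_contra hcon
    push Not at hcon
    have := mul_nonpos_of_nonneg_of_nonpos he.le hcon
    linarith
  have hen : e * n ≤ n := by
    have := mul_le_mul_of_nonneg_right he1 hn0.le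
    linarith
  have hkM : k ≤ M := hj.trans hjM
  have hkMr : (k : ℝ) ≤ (M : ℝ) := by exact_mod_cast hkM
  have hjMr : (j : ℝ) ≤ (M : ℝ) := by exact_mod_cast hjM
  have hk0 : (0 : ℝ) ≤ (k : ℝ) := Nat.cast_nonneg _
  have hj0 : (0 : ℝ) ≤ (j : ℝ) := Nat.cast_nonneg _
  have hkn : k + 1 ≤ Fintype.card V := by
    have : (((k + 1 : ℕ) : ℝ)) ≤ (Fintype.card V : ℝ) := by rw [← hnn]; push_cast; linarith
    exact_mod_cast this
  -- positivity of the levels
  have hNpos : ∀ d : ℕ, ∀ t : ℕ, t + d = M → 0 < NI H t := by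
    intro d
    induction d with
    | zero => intro t ht; rw [add_zero] at ht; rw [ht]; exact hN
    | succ d ih => intro t ht; exact (ind_nonempty_of_succ (ih (t + 1) (by omega))).1
  have hNj : 0 < NI H j := hNpos (M - j) j (by omega)
  have hcM : (0:ℝ) < (M.choose k : ℝ) := by exact_mod_cast Nat.choose_pos hkM
  have hcj : (0:ℝ) < (j.choose k : ℝ) := by exact_mod_cast Nat.choose_pos hj
  have hcjM : (j.choose k : ℝ) ≤ (M.choose k : ℝ) := by
    exact_mod_cast Nat.choose_le_choose k hjM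
  obtain ⟨β, hβ⟩ : ∃ β : ℝ, β = (j.choose k : ℝ) / (M.choose k : ℝ) := ⟨_, rfl⟩
  have hβ0 : 0 < β := by rw [hβ]; positivity
  have hβ1 : β ≤ 1 := by rw [hβ]; exact (div_le_one hcM).2 hcjM
  have hβM : β * (M.choose k : ℝ) = (j.choose k : ℝ) := by rw [hβ]; field_simp
  rw [← hβ]
  have e1 : k + 1 - 1 = k := by omega
  -- the two bounds for the blocked vertices
  have hu1 := unrolled (H := H) (r := k + 1) (by omega) (s := k) (M := j) (by simp) hj hNj
  have hu2 := unrolled (H := H) (r := k + 1) (by omega) (s := j) (M := M) (by omega) hjM hN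
  rw [e1, Nat.choose_self, Nat.cast_one, div_one, Bl_init hH hkn, ← hnn] at hu1
  rw [e1, Bl_top hN h0, ← hnn] at hu2
  have hs1 : 0 ≤ ∑ i ∈ Ico k j, Ls H (k + 1) i / (i.choose k : ℝ) :=
    sum_nonneg (fun i _ => div_nonneg (Ls_nonneg hH i) (Nat.cast_nonneg _))
  have hs2 : 0 ≤ ∑ i ∈ Ico j M, Ls H (k + 1) i / (i.choose k : ℝ) :=
    sum_nonneg (fun i _ => div_nonneg (Ls_nonneg hH i) (Nat.cast_nonneg _))
  have hnk : 0 ≤ n - k := by linarith
  have hup : Bl H j ≤ β * ((1 + e) * n) := by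
    have h1 : Bl H j / (j.choose k : ℝ) ≤ (n - k) * ((1 + e) / (M.choose k : ℝ)) := by
      have := mul_le_mul_of_nonneg_left hd hnk
      linarith
    rw [div_le_iff₀ hcj] at h1
    refine h1.trans ?_
    have h2 : (n - k) * ((1 + e) / (M.choose k : ℝ)) * (j.choose k : ℝ) =
        β * ((1 + e) * (n - k)) := by
      rw [← hβM]
      field_simp
    rw [h2]
    apply mul_le_mul_of_nonneg_left _ hβ0.le
    apply mul_le_mul_of_nonneg_left _ (by linarith)
    linarith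
  have hlow : β * (n - M) ≤ Bl H j := by
    have h1 : (n - M) / (M.choose k : ℝ) ≤ Bl H j / (j.choose k : ℝ) := by linarith
    rw [le_div_iff₀ hcj] at h1
    refine le_trans (le_of_eq ?_) h1
    rw [← hβM]
    field_simp
  have hBj := Bl_eq hNj
  rw [← hnn] at hBj
  have hBl0 := Bl_nonneg H j
  have hAvn : Av H j ≤ n := by linarith
  refine ⟨hNj, hup, ?_, hAvn, ?_⟩
  · have h1 : Av H j = n - j - Bl H j := by linarith
    have h2 : β * (e * n) ≤ 1 * (e * n) :=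
      mul_le_mul_of_nonneg_right hβ1 (mul_nonneg he.le hn0.le)
    have h3 : β * (M : ℝ) ≤ 1 * M := mul_le_mul_of_nonneg_right hβ1 hM0
    have e2 : β * ((1 + e) * n) = β * n + β * (e * n) := by ring
    have e3 : β * (n - M) = β * n - β * M := by ring
    rw [e2] at hup
    rw [e3] at hlow
    have e4 : (1 - β) * n = n - β * n := by ring
    rw [h1, e4, abs_le]
    have e5 : 2 * e * n = 2 * (e * n) := by ring
    rw [e5]
    constructor <;> linarith
  · intro hlt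
    have h1 := Ls_le (c := e) hH hkn hN h0 hd hj hlt
    rw [← hnn, ← hβ] at h1
    have h3 : 0 ≤ e * (n - (k : ℝ)) + ((M : ℝ) - (k : ℝ)) := by
      have : 0 ≤ e * (n - (k : ℝ)) := mul_nonneg he.le hnk
      linarith
    have h4 := mul_le_mul_of_nonneg_left hβ1 h3
    have h5 : 0 ≤ e * (k : ℝ) := mul_nonneg he.le hk0
    have h6 : e * (n - (k : ℝ)) = e * n - e * (k : ℝ) := by ring
    have hLs : Ls H (k + 1) j ≤ 2 * e * n := by linarith
    have hN1 : 0 < NI H (j + 1) := hNpos (M - (j + 1)) (j + 1) (by omega)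
    have d0 : Sq H j + Df H (k + 1) (j + 1) =
        Ls H (k + 1) j * (((j : ℝ) + 1) * NI H (j + 1)) := by
      unfold Ls
      rw [div_mul_cancel₀]
      positivity
    have hA0 := Av_mul hNj
    have hD := Df_nonneg hH (j + 1)
    have hAv0 : 0 ≤ Av H j * NI H j := by rw [hA0]; positivity
    calc Sq H j ≤ Ls H (k + 1) j * (Av H j * NI H j) := by rw [hA0, ← d0]; linarith
      _ ≤ 2 * e * n * (Av H j * NI H j) := mul_le_mul_of_nonneg_right hLs hAv0
      _ ≤ 2 * e * n * (n * NI H j) := by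
          apply mul_le_mul_of_nonneg_left _ (by positivity)
          exact mul_le_mul_of_nonneg_right hAvn hNj.le
      _ = 2 * e * n ^ 2 * NI H j := by ring

/-- quotients of nearby numbers -/
private theorem lev4_quot {a b A B τ e : ℝ} (he : 0 < e) (hτ : 0 < τ) (_hτ1 : τ ≤ 1)
    (heτ : e ≤ τ / 8) (hA1 : A ≤ 1) (hB0 : 0 ≤ B) (hB1 : B ≤ 1) (ha1 : a ≤ 1)
    (hAB : τ ≤ A - B) (ha : |a - A| ≤ 2 * e) (hb : |b - B| ≤ 2 * e) :
    τ / 2 ≤ a ∧ τ / 2 ≤ 1 - b / a ∧ |1 / (1 - b / a) - A / (A - B)| ≤ 8 / τ ^ 2 * e := by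
  have ha' := abs_le.1 ha
  have hb' := abs_le.1 hb
  have hA0 : τ ≤ A := by linarith
  have hab : τ / 2 ≤ a - b := by linarith
  have ha2 : τ / 2 ≤ a := by linarith
  have ha0 : 0 < a := by linarith
  have hAB0 : 0 < A - B := by linarith
  have hab0 : 0 < a - b := by linarith
  have e1 : 1 - b / a = (a - b) / a := by field_simp
  refine ⟨ha2, ?_, ?_⟩
  · rw [e1, le_div_iff₀ ha0]
    calc τ / 2 * a ≤ τ / 2 * 1 := mul_le_mul_of_nonneg_left ha1 (by linarith)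
      _ ≤ a - b := by linarith
  · rw [e1, one_div_div]
    have e2 : a / (a - b) - A / (A - B) = (A * (b - B) - B * (a - A)) / ((a - b) * (A - B)) := by
      rw [div_sub_div _ _ hab0.ne' hAB0.ne']
      congr 1
      ring
    rw [e2, abs_div, abs_of_pos (mul_pos hab0 hAB0), div_le_iff₀ (mul_pos hab0 hAB0)]
    have h1 : |A * (b - B) - B * (a - A)| ≤ 4 * e := by
      calc |A * (b - B) - B * (a - A)| ≤ |A * (b - B)| + |B * (a - A)| := abs_sub _ _
        _ = A * |b - B| + B * |a - A| := by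
            rw [abs_mul, abs_mul, abs_of_nonneg (by linarith : (0:ℝ) ≤ A), abs_of_nonneg hB0]
        _ ≤ 1 * (2 * e) + 1 * (2 * e) := by gcongr
        _ = 4 * e := by ring
    have h2 : τ / 2 * τ ≤ (a - b) * (A - B) := mul_le_mul hab hAB hτ.le hab0.le
    calc |A * (b - B) - B * (a - A)| ≤ 4 * e := h1
      _ = 8 / τ ^ 2 * e * (τ / 2 * τ) := by
          field_simp
          ring
      _ ≤ 8 / τ ^ 2 * e * ((a - b) * (A - B)) := by gcongr

/-- the increments of `be` -/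
private theorem lev4_be {ρ σ K m : ℝ} (hρ : 0 < ρ) (hσ : 0 < σ) (hK : 1 < K) (hKm : ρ * m ≤ m - K)
    (h4 : 4 ≤ ρ * m) (hσm : σ * m ≤ K - 1) (_hm : 4 < m) (hρ1 : ρ ≤ 1) :
    ρ ^ 2 / 2 * σ ≤ (m - K) / (m - 1) - (m - K) * (m - K - 1) / ((m - 1) * (m - 2)) ∧
    ρ ^ 2 / 2 * σ ≤ (m - K) * (m - K - 1) / ((m - 1) * (m - 2)) -
      (m - K) * (m - K - 1) * (m - K - 2) / ((m - 1) * (m - 2) * (m - 3)) := by
  have hm1 : 0 < m - 1 := by linarith
  have hm2 : 0 < m - 2 := by linarith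
  have hm3 : 0 < m - 3 := by linarith
  have hm0 : 0 < m := by linarith
  have x1 : ρ ≤ (m - K) / (m - 1) := by
    rw [le_div_iff₀ hm1]
    have : ρ * (m - 1) ≤ ρ * m := mul_le_mul_of_nonneg_left (by linarith) hρ.le
    linarith
  have x2 : ρ / 2 ≤ (m - K - 1) / (m - 2) := by
    rw [le_div_iff₀ hm2]
    have : ρ / 2 * (m - 2) ≤ ρ / 2 * m := mul_le_mul_of_nonneg_left (by linarith) (by linarith)
    linarith
  have x3 : σ ≤ (K - 1) / (m - 2) := by
    rw [le_div_iff₀ hm2]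
    have : σ * (m - 2) ≤ σ * m := mul_le_mul_of_nonneg_left (by linarith) hσ.le
    linarith
  have x4 : σ ≤ (K - 1) / (m - 3) := by
    rw [le_div_iff₀ hm3]
    have : σ * (m - 3) ≤ σ * m := mul_le_mul_of_nonneg_left (by linarith) hσ.le
    linarith
  have y1 : (m - K) / (m - 1) - (m - K) * (m - K - 1) / ((m - 1) * (m - 2)) =
      (m - K) / (m - 1) * ((K - 1) / (m - 2)) := by
    field_simp
    ring
  have y2 : (m - K) * (m - K - 1) / ((m - 1) * (m - 2)) -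
      (m - K) * (m - K - 1) * (m - K - 2) / ((m - 1) * (m - 2) * (m - 3)) =
      (m - K) / (m - 1) * ((m - K - 1) / (m - 2)) * ((K - 1) / (m - 3)) := by
    field_simp
    ring
  have x12 : ρ * (ρ / 2) ≤ (m - K) / (m - 1) * ((m - K - 1) / (m - 2)) :=
    mul_le_mul x1 x2 (by linarith) (by linarith)
  rw [y1, y2]
  constructor
  · have z1 : ρ ^ 2 / 2 ≤ ρ := by nlinarith
    exact mul_le_mul (z1.trans x1) x3 hσ.le (by linarith)
  · have z1 : ρ ^ 2 / 2 = ρ * (ρ / 2) := by ring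
    rw [z1]
    exact mul_le_mul x12 x4 hσ.le (le_trans (by positivity) x12)

theorem lev4 (ε α : ℝ) (hε : 0 < ε) :
    ∃ C κ e0 : ℝ, 0 < C ∧ 0 < κ ∧ 0 < e0 ∧ ∃ k0 : ℕ, ∀ k m : ℕ, k0 ≤ k →
      (1 + ε) * (k : ℝ) ≤ m → (m : ℝ) ≤ α * k → ∀ e : ℝ, 0 < e → e ≤ e0 →
      ∀ {V : Type} [Fintype V] [DecidableEq V] (H : Finset (Finset V)), (∀ f ∈ H, f.card = k) →
      (m : ℝ) ≤ e * (Fintype.card V : ℝ) → NI H m = 0 → 0 < NI H (m - 1) →
      (H.card : ℝ) / ((Fintype.card V).choose k : ℝ) ≤ (1 + e) / ((m - 1).choose (k - 1) : ℝ) →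
      ∀ s : ℕ, (s + 3 = m ∨ s + 4 = m) →
        0 < NI H s ∧ κ * (Fintype.card V : ℝ) ≤ Av H s ∧ κ ≤ 1 - Av H (s + 1) / Av H s ∧
        Sq H s ≤ C * e * (Fintype.card V : ℝ) ^ 2 * NI H s ∧
        Sq H (s + 1) ≤ C * e * (Fintype.card V : ℝ) ^ 2 * NI H (s + 1) ∧
        |1 / (1 - Av H (s + 1) / Av H s) - (1 - be k m s) / (be k m (s + 1) - be k m s)| ≤
          C * e := by
  obtain ⟨ρ, hρ⟩ : ∃ ρ : ℝ, ρ = ε / (1 + ε) := ⟨_, rfl⟩
  have hρ0 : 0 < ρ := by rw [hρ]; positivity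
  have hρ1 : ρ ≤ 1 := by rw [hρ, div_le_one (by linarith)]; linarith
  obtain ⟨α', hα'⟩ : ∃ α' : ℝ, α' = max α 1 := ⟨_, rfl⟩
  have hα1 : 1 ≤ α' := by rw [hα']; exact le_max_right _ _
  have hαα : α ≤ α' := by rw [hα']; exact le_max_left _ _
  obtain ⟨σ, hσ⟩ : ∃ σ : ℝ, σ = 1 / (2 * α') := ⟨_, rfl⟩
  have hσ0 : 0 < σ := by rw [hσ]; positivity
  have hσ1 : σ ≤ 1 := by
    rw [hσ, div_le_one (by linarith)]
    linarith
  obtain ⟨τ, hτ⟩ : ∃ τ : ℝ, τ = ρ ^ 2 / 2 * σ := ⟨_, rfl⟩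
  have hτ0 : 0 < τ := by rw [hτ]; positivity
  have hρ2 : ρ ^ 2 / 2 ≤ 1 := by nlinarith
  have hτ1 : τ ≤ 1 := by
    rw [hτ]
    calc ρ ^ 2 / 2 * σ ≤ 1 * 1 := mul_le_mul hρ2 hσ1 hσ0.le (by norm_num)
      _ = 1 := by norm_num
  obtain ⟨C, hC⟩ : ∃ C : ℝ, C = 8 / τ ^ 2 := ⟨_, rfl⟩
  have hC8 : 8 ≤ C := by
    rw [hC, le_div_iff₀ (by positivity)]
    have : τ ^ 2 ≤ 1 := by nlinarith
    linarith
  refine ⟨C, τ / 2, τ / 8, by linarith, by linarith, by linarith, ⌈4 / ρ⌉₊ + 8, ?_⟩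
  intro k m hk hkm hmk e he he0 V _ _ H hH hn h0 hN hd s hs
  obtain ⟨k', rfl⟩ : ∃ k', k = k' + 1 := ⟨k - 1, by omega⟩
  have ek : k' + 1 - 1 = k' := by omega
  have hk8 : 8 ≤ k' + 1 := by omega
  have hkR : (4 : ℝ) / ρ + 8 ≤ ((k' + 1 : ℕ) : ℝ) := by
    have h1 : (4 : ℝ) / ρ ≤ ⌈4 / ρ⌉₊ := Nat.le_ceil _
    have h2 : ((⌈4 / ρ⌉₊ + 8 : ℕ) : ℝ) ≤ ((k' + 1 : ℕ) : ℝ) := by exact_mod_cast hk
    push_cast at h2 ⊢
    linarith
  obtain ⟨K, hK⟩ : ∃ K : ℝ, K = ((k' + 1 : ℕ) : ℝ) := ⟨_, rfl⟩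
  rw [← hK] at hkR hkm hmk
  have h4ρ : 0 < 4 / ρ := by positivity
  have hK8 : 8 ≤ K := by linarith
  have hmK : K < m := by
    have : (1 + ε) * K = K + ε * K := by ring
    have : 0 < ε * K := by positivity
    linarith
  have hm0 : (0 : ℝ) < m := by linarith
  have hρm : ρ * m ≤ m - K := by
    have h1 : K ≤ m / (1 + ε) := by
      rw [le_div_iff₀ (by linarith)]
      linarith
    have h2 : (m : ℝ) - m / (1 + ε) = ρ * m := by
      rw [hρ]
      field_simp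
      ring
    linarith
  have h4 : 4 ≤ ρ * m := by
    have h1 : ρ * (4 / ρ) ≤ ρ * m := mul_le_mul_of_nonneg_left (by linarith) hρ0.le
    have h2 : ρ * (4 / ρ) = 4 := by field_simp
    linarith
  have hσm : σ * m ≤ K - 1 := by
    have h1 : (m : ℝ) ≤ α' * K := hmk.trans (mul_le_mul_of_nonneg_right hαα (by linarith))
    have h2 : σ * m ≤ σ * (α' * K) := mul_le_mul_of_nonneg_left h1 hσ0.le
    have h3 : σ * (α' * K) = K / 2 := by
      rw [hσ]
      field_simp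
    linarith
  have hkm4 : k' + 1 + 4 ≤ m := by
    have : K + 4 ≤ m := by linarith
    rw [hK] at this
    exact_mod_cast this
  obtain ⟨M, rfl⟩ : ∃ M, m = M + 1 := ⟨m - 1, by omega⟩
  have eM : M + 1 - 1 = M := by omega
  rw [eM] at hN
  have hd' : (H.card : ℝ) / ((Fintype.card V).choose (k' + 1) : ℝ) ≤
      (1 + e) / (M.choose k' : ℝ) := by
    rw [ek, eM] at hd
    exact hd
  have hn' : (M : ℝ) + 1 ≤ e * (Fintype.card V : ℝ) := by push_cast at hn; exact hn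
  have he1 : e ≤ 1 := by linarith
  have hbe : ∀ j, be (k' + 1) (M + 1) j = (j.choose k' : ℝ) / (M.choose k' : ℝ) := fun j => rfl
  have hlev := fun (j : ℕ) (hj : k' ≤ j) (hjM : j ≤ M) =>
    lev4_av hH he hn' he1 hN h0 hd' hj hjM
  obtain ⟨a1, -, a3, a4, a5⟩ := hlev s (by omega) (by omega)
  obtain ⟨b1, -, b3, b4, b5⟩ := hlev (s + 1) (by omega) (by omega)
  rw [← hbe] at a3 b3
  have a5' := a5 (by omega)
  have b5' := b5 (by omega)
  obtain ⟨n, hnn⟩ : ∃ n : ℝ, n = (Fintype.card V : ℝ) := ⟨_, rfl⟩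
  rw [← hnn] at hn' a3 a4 a5' b3 b4 b5' ⊢
  have hM0 : (0 : ℝ) ≤ (M : ℝ) := Nat.cast_nonneg _
  have hn0 : 0 < n := by
    by_contra hcon
    push Not at hcon
    have := mul_nonpos_of_nonneg_of_nonpos he.le hcon
    linarith
  have hinc : τ ≤ be (k' + 1) (M + 1) (s + 1) - be (k' + 1) (M + 1) s := by
    have hm4 : (4 : ℝ) < ((M + 1 : ℕ) : ℝ) := by linarith
    have hKm := hρm
    obtain ⟨w1, w2⟩ := lev4_be (K := K) (m := ((M + 1 : ℕ) : ℝ)) hρ0 hσ0 (by linarith) hKm h4 hσm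
      hm4 hρ1
    rw [hK] at w1 w2
    rcases hs with hs | hs
    · have e1 : s + 1 = M + 1 - 2 := by omega
      have e2 : s = M + 1 - 3 := by omega
      rw [e1, be_two (by omega) (by omega) (by omega), e2,
        be_three (by omega) (by omega) (by omega), hτ]
      exact w1
    · have e1 : s + 1 = M + 1 - 3 := by omega
      have e2 : s = M + 1 - 4 := by omega
      rw [e1, be_three (by omega) (by omega) (by omega), e2,
        be_four (by omega) (by omega) (by omega), hτ]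
      exact w2
  have hbs0 : 0 ≤ be (k' + 1) (M + 1) s := by rw [hbe]; positivity
  have hbs1 : be (k' + 1) (M + 1) (s + 1) ≤ 1 := by
    rw [hbe]
    have hcM : (0:ℝ) < (M.choose k' : ℝ) := by exact_mod_cast Nat.choose_pos (by omega)
    rw [div_le_one hcM]
    exact_mod_cast Nat.choose_le_choose k' (by omega)
  have a3' : |Av H s / n - (1 - be (k' + 1) (M + 1) s)| ≤ 2 * e := by
    have h1 : Av H s / n - (1 - be (k' + 1) (M + 1) s) =
        (Av H s - (1 - be (k' + 1) (M + 1) s) * n) / n := by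
      field_simp
    rw [h1, abs_div, abs_of_pos hn0, div_le_iff₀ hn0]
    exact a3
  have b3' : |Av H (s + 1) / n - (1 - be (k' + 1) (M + 1) (s + 1))| ≤ 2 * e := by
    have h1 : Av H (s + 1) / n - (1 - be (k' + 1) (M + 1) (s + 1)) =
        (Av H (s + 1) - (1 - be (k' + 1) (M + 1) (s + 1)) * n) / n := by
      field_simp
    rw [h1, abs_div, abs_of_pos hn0, div_le_iff₀ hn0]
    exact b3
  obtain ⟨q1, q2, q3⟩ := lev4_quot (a := Av H s / n) (b := Av H (s + 1) / n)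
    (A := 1 - be (k' + 1) (M + 1) s) (B := 1 - be (k' + 1) (M + 1) (s + 1)) he hτ0 hτ1 he0
    (by linarith) (by linarith) (by linarith) ((div_le_one hn0).2 a4) (by linarith) a3' b3'
  have hquot : Av H (s + 1) / n / (Av H s / n) = Av H (s + 1) / Av H s := by
    rw [div_div_div_cancel_right₀ hn0.ne']
  rw [hquot] at q2 q3
  have hsub : 1 - be (k' + 1) (M + 1) s - (1 - be (k' + 1) (M + 1) (s + 1)) =
      be (k' + 1) (M + 1) (s + 1) - be (k' + 1) (M + 1) s := by ring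
  rw [hsub] at q3
  refine ⟨a1, ?_, q2, ?_, ?_, ?_⟩
  · rwa [le_div_iff₀ hn0] at q1
  · refine a5'.trans ?_
    have : 0 ≤ e * n ^ 2 * NI H s := by positivity
    nlinarith
  · refine b5'.trans ?_
    have : 0 ≤ e * n ^ 2 * NI H (s + 1) := by positivity
    nlinarith
  · rw [hC]
    exact q3

end Pool.Agent.DCS
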