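import Pool.Agent.DCS.Grb

/-!
# DCS: the linear graph lemma

A symmetric relation of density `p` on `N` points, with variance `v` of the degrees (normalised by `N`) and density
`κ` of paths `x ~ z ~ y`, `x` and `y` not adjacent: `1 / p` differs from an integer by at most `26 (v + κ) / p ^ 4`.

Proof. Let `t_i` be the eigenvalues of the adjacency matrix divided by `p N`. Then `∑ t_i ^ 2 = 1 / p`,
`∑ t_i ^ 3` is given by the triangles and `∑ t_i ^ 4` by the codegrees, and both are close to `1 / p`. So every `t_i`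
is close to `0` or `1`, and `∑ t_i ^ 2` is close to the number of those which are close to `1`.
-/

set_option linter.unusedSectionVars false
set_option linter.unusedVariables false

open Finset

namespace Pool.Agent.DCS

private theorem spec_pt (t : ℝ) :
    |t ^ 2 - (if 1 / 2 ≤ t then (1 : ℝ) else 0) - 2 * (t ^ 3 - t ^ 2)| ≤
      8 * (t ^ 4 - 2 * t ^ 3 + t ^ 2) := by
  split_ifs with h
  · rw [abs_le]
    constructor
    · nlinarith [mul_nonneg (sq_nonneg (t - 1)) (by nlinarith : (0 : ℝ) ≤ 8 * t ^ 2 - (2 * t + 1))]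
    · nlinarith [mul_nonneg (sq_nonneg (t - 1)) (by nlinarith : (0 : ℝ) ≤ 8 * t ^ 2 + (2 * t + 1))]
  · have h' : t < 1 / 2 := not_le.1 h
    rw [abs_le]
    constructor
    · nlinarith [mul_nonneg (sq_nonneg t) (by nlinarith : (0 : ℝ) ≤ 8 * (t - 1) ^ 2 + (3 - 2 * t))]
    · nlinarith [mul_nonneg (sq_nonneg t) (by nlinarith : (0 : ℝ) ≤ 8 * (t - 1) ^ 2 - (3 - 2 * t))]

private theorem spec_fam {ι : Type} [Fintype ι] (t : ι → ℝ) :
    ∃ r : ℕ, |∑ i, t i ^ 2 - r - 2 * (∑ i, t i ^ 3 - ∑ i, t i ^ 2)| ≤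
      8 * (∑ i, t i ^ 4 - 2 * ∑ i, t i ^ 3 + ∑ i, t i ^ 2) := by
  classical
  refine ⟨(univ.filter fun i => 1 / 2 ≤ t i).card, ?_⟩
  have h1 : ((univ.filter fun i => 1 / 2 ≤ t i).card : ℝ) = ∑ i, if 1 / 2 ≤ t i then (1 : ℝ) else 0 := by
    rw [Finset.sum_boole]
  have h2 : ∑ i, t i ^ 2 - ((univ.filter fun i => 1 / 2 ≤ t i).card : ℝ) -
      2 * (∑ i, t i ^ 3 - ∑ i, t i ^ 2) =
      ∑ i, (t i ^ 2 - (if 1 / 2 ≤ t i then (1 : ℝ) else 0) - 2 * (t i ^ 3 - t i ^ 2)) := by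
    rw [h1, Finset.sum_sub_distrib, Finset.sum_sub_distrib, ← Finset.mul_sum, Finset.sum_sub_distrib]
  have h3 : 8 * (∑ i, t i ^ 4 - 2 * ∑ i, t i ^ 3 + ∑ i, t i ^ 2) =
      ∑ i, 8 * (t i ^ 4 - 2 * t i ^ 3 + t i ^ 2) := by
    rw [← Finset.mul_sum, Finset.sum_add_distrib, Finset.sum_sub_distrib, ← Finset.mul_sum]
  rw [h2, h3]
  exact (Finset.abs_sum_le_sum_abs _ _).trans (Finset.sum_le_sum fun i _ => spec_pt (t i))

private theorem spec_trace {n : Type} [Fintype n] [DecidableEq n] {A : Matrix n n ℝ}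
    (hA : A.IsHermitian) (k : ℕ) : (A ^ k).trace = ∑ i, hA.eigenvalues i ^ k := by
  have h1 := hA.spectral_theorem
  have h2 : A ^ k = Unitary.conjStarAlgAut ℝ _ hA.eigenvectorUnitary
      ((Matrix.diagonal (RCLike.ofReal ∘ hA.eigenvalues)) ^ k) := by
    rw [map_pow, ← h1]
  rw [h2, Unitary.conjStarAlgAut_apply, Matrix.trace_mul_comm, ← mul_assoc, Unitary.coe_star_mul_self, one_mul,
    Matrix.diagonal_pow, Matrix.trace_diagonal]
  rfl

/-- the traces of the powers of a symmetric matrix with entries `0`, `1` -/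
private theorem spec_count {n : Type} [Fintype n] [DecidableEq n] (a : n → n → ℝ)
    (h01 : ∀ x y, a x y * a x y = a x y) (h0 : ∀ x y, 0 ≤ a x y) (h1 : ∀ x y, a x y ≤ 1)
    (hs : ∀ x y, a x y = a y x) (d : n → ℝ) (hd : ∀ x, d x = ∑ y, a x y)
    (c : n → n → ℝ) (hc : ∀ x y, c x y = ∑ z, a x z * a z y) (K : ℝ)
    (hK : K = ∑ x, ∑ y, (1 - a x y) * c x y) :
    ((Matrix.of a) ^ 2).trace = ∑ x, d x ∧
    ((Matrix.of a) ^ 3).trace = ∑ x, d x ^ 2 - K ∧
    ((Matrix.of a) ^ 4).trace ≤ ∑ x, d x ^ 3 + (Fintype.card n : ℝ) * K := by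
  have hcc : ∀ x y, ((Matrix.of a) ^ 2) x y = c x y := by
    intro x y
    rw [pow_two, Matrix.mul_apply, hc]
    rfl
  have hc0 : ∀ x y, 0 ≤ c x y := fun x y => by
    rw [hc]
    exact Finset.sum_nonneg fun z _ => mul_nonneg (h0 _ _) (h0 _ _)
  have hcs : ∀ x y, c x y = c y x := fun x y => by
    rw [hc, hc]
    exact Finset.sum_congr rfl fun z _ => by rw [hs x z, hs z y, mul_comm]
  have hcd : ∀ x y, c x y ≤ d x := fun x y => by
    rw [hc, hd]
    exact Finset.sum_le_sum fun z _ => mul_le_of_le_one_right (h0 _ _) (h1 _ _)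
  have hdn : ∀ x, d x ≤ (Fintype.card n : ℝ) := fun x => by
    rw [hd]
    calc ∑ y, a x y ≤ ∑ y : n, (1 : ℝ) := Finset.sum_le_sum fun y _ => h1 _ _
      _ = (Fintype.card n : ℝ) := by
        rw [Finset.sum_const, Finset.card_univ, nsmul_eq_mul, mul_one]
  refine ⟨?_, ?_, ?_⟩
  · unfold Matrix.trace
    refine Finset.sum_congr rfl fun x _ => ?_
    rw [Matrix.diag_apply, hcc, hc, hd]
    exact Finset.sum_congr rfl fun z _ => by rw [hs z x, h01]
  · have e1 : ((Matrix.of a) ^ 3).trace = ∑ x, ∑ y, c x y * a x y := by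
      unfold Matrix.trace
      refine Finset.sum_congr rfl fun x _ => ?_
      rw [Matrix.diag_apply, pow_succ, Matrix.mul_apply]
      refine Finset.sum_congr rfl fun y _ => ?_
      rw [hcc, Matrix.of_apply, hs y x]
    have e2 : ∑ x, ∑ y, c x y = ∑ z, d z ^ 2 := by
      calc ∑ x, ∑ y, c x y = ∑ x, ∑ y, ∑ z, a x z * a z y :=
            Finset.sum_congr rfl fun x _ => Finset.sum_congr rfl fun y _ => hc x y
        _ = ∑ x, ∑ z, ∑ y, a x z * a z y :=
            Finset.sum_congr rfl fun x _ => Finset.sum_comm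
        _ = ∑ z, ∑ x, ∑ y, a x z * a z y := Finset.sum_comm
        _ = ∑ z, d z ^ 2 := by
            refine Finset.sum_congr rfl fun z _ => ?_
            rw [pow_two, hd]
            rw [Finset.sum_mul_sum]
            exact Finset.sum_congr rfl fun x _ => Finset.sum_congr rfl fun y _ => by rw [hs x z]
    rw [e1, ← e2, hK, ← Finset.sum_sub_distrib]
    refine Finset.sum_congr rfl fun x _ => ?_
    rw [← Finset.sum_sub_distrib]
    exact Finset.sum_congr rfl fun y _ => by ring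
  · have e1 : ((Matrix.of a) ^ 4).trace = ∑ x, ∑ y, c x y ^ 2 := by
      unfold Matrix.trace
      refine Finset.sum_congr rfl fun x _ => ?_
      rw [Matrix.diag_apply, show (4 : ℕ) = 2 + 2 from rfl, pow_add, Matrix.mul_apply]
      refine Finset.sum_congr rfl fun y _ => ?_
      rw [hcc, hcc, hcs y x, pow_two]
    have e2 : ∑ x, d x ^ 3 = ∑ x, ∑ y, a x y * d x ^ 2 := by
      refine Finset.sum_congr rfl fun x _ => ?_
      rw [← Finset.sum_mul, ← hd]
      ring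
    rw [e1, e2, hK, Finset.mul_sum, ← Finset.sum_add_distrib]
    refine Finset.sum_le_sum fun x _ => ?_
    rw [Finset.mul_sum, ← Finset.sum_add_distrib]
    refine Finset.sum_le_sum fun y _ => ?_
    have f1 : c x y ^ 2 ≤ d x ^ 2 := by
      have := hcd x y
      have := hc0 x y
      nlinarith
    have f2 : c x y ^ 2 ≤ (Fintype.card n : ℝ) * c x y := by
      have := (hcd x y).trans (hdn x)
      have := hc0 x y
      nlinarith
    have f3 : c x y ^ 2 = a x y * c x y ^ 2 + (1 - a x y) * c x y ^ 2 := by ring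
    rw [f3]
    have f4 := mul_le_mul_of_nonneg_left f1 (h0 x y)
    have f5 := mul_le_mul_of_nonneg_left f2 (sub_nonneg.2 (h1 x y))
    nlinarith

/-- the numerical part -/
private theorem spec_num {p v κ κ' v' S2 S3 S4 : ℝ} (hp : 0 < p) (hp1 : p ≤ 1) (hv0 : 0 ≤ v') (hv : v' ≤ v)
    (hk0 : 0 ≤ κ') (hk : κ' ≤ κ) (h2 : S2 = 1 / p) (h3 : S3 = (p ^ 2 + v' - κ') / p ^ 3)
    (h4 : S4 ≤ (p ^ 3 + 3 * v' + κ') / p ^ 4) (r : ℝ)
    (hr : |S2 - r - 2 * (S3 - S2)| ≤ 8 * (S4 - 2 * S3 + S2)) :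
    |1 / p - r| ≤ 26 * (v + κ) / p ^ 4 := by
  have hp4 : 0 < p ^ 4 := by positivity
  have e3 : S3 - S2 = (v' - κ') * p / p ^ 4 := by
    rw [h2, h3]
    field_simp
    ring
  have e4 : S4 - 2 * S3 + S2 ≤ 3 * (v' + κ') / p ^ 4 := by
    have e5 : (p ^ 3 + 3 * v' + κ') / p ^ 4 - 2 * ((p ^ 2 + v' - κ') / p ^ 3) + 1 / p =
        (3 * v' + κ' - 2 * p * (v' - κ')) / p ^ 4 := by
      field_simp
      ring
    have e6 : (3 * v' + κ' - 2 * p * (v' - κ')) / p ^ 4 ≤ 3 * (v' + κ') / p ^ 4 := by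
      refine div_le_div_of_nonneg_right ?_ hp4.le
      nlinarith [mul_nonneg hp.le hv0, mul_nonneg (sub_nonneg.2 hp1) hk0]
    rw [h2, h3] at *
    linarith
  have e7 : |S3 - S2| ≤ (v' + κ') / p ^ 4 := by
    rw [e3, abs_div, abs_of_pos hp4]
    refine div_le_div_of_nonneg_right ?_ hp4.le
    rw [abs_le]
    constructor
    · nlinarith [mul_nonneg hp.le hv0, mul_nonneg (sub_nonneg.2 hp1) hk0, mul_nonneg hp.le hk0]
    · nlinarith [mul_nonneg hp.le hk0, mul_nonneg (sub_nonneg.2 hp1) hv0]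
  have e8 : (v' + κ') / p ^ 4 ≤ (v + κ) / p ^ 4 :=
    div_le_div_of_nonneg_right (by linarith) hp4.le
  have e9 : 26 * (v + κ) / p ^ 4 = 26 * ((v + κ) / p ^ 4) := by ring
  have e10 : 3 * (v' + κ') / p ^ 4 = 3 * ((v' + κ') / p ^ 4) := by ring
  rw [e9, ← h2]
  rw [e10] at e4
  rw [abs_le] at hr e7 ⊢
  constructor
  · linarith [hr.1, e7.1, e7.2]
  · linarith [hr.2, e7.1, e7.2]

variable {V : Type} [Fintype V] [DecidableEq V]

/-- The linear graph lemma. -/
theorem linear_graph (X : Finset V) (R : V → V → Prop) (hR : ∀ x y, R x y → R y x)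
    {N p v κ : ℝ} (hN : N = (X.card : ℝ)) (hN0 : 0 < N) (hp : 0 < p)
    (hdeg : ∑ x ∈ X, ((nbl X R x).card : ℝ) = p * N ^ 2)
    (hv : ∑ x ∈ X, (((nbl X R x).card : ℝ) - p * N) ^ 2 ≤ v * N ^ 3)
    (hκ : ∑ x ∈ X, ∑ y ∈ nnl X R x, (((nbl X R x) ∩ (nbl X R y)).card : ℝ) ≤ κ * N ^ 3) :
    ∃ r : ℕ, |1 / p - r| ≤ 26 * (v + κ) / p ^ 4 := by
  classical
  set a : ↥X → ↥X → ℝ := fun x y => if R x y then 1 else 0 with ha
  have h01 : ∀ x y, a x y * a x y = a x y := fun x y => by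
    simp only [ha]
    split_ifs <;> norm_num
  have h0 : ∀ x y, 0 ≤ a x y := fun x y => by
    simp only [ha]
    split_ifs <;> norm_num
  have h1 : ∀ x y, a x y ≤ 1 := fun x y => by
    simp only [ha]
    split_ifs <;> norm_num
  have hs : ∀ x y, a x y = a y x := fun x y => by
    simp only [ha]
    by_cases h : R x y
    · rw [if_pos h, if_pos (hR _ _ h)]
    · rw [if_neg h, if_neg fun h' => h (hR _ _ h')]
  set d : ↥X → ℝ := fun x => ((nbl X R x).card : ℝ) with hdd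
  have hd : ∀ x, d x = ∑ y, a x y := by
    intro x
    simp only [hdd, ha]
    rw [Finset.sum_coe_sort X (fun y => if R x y then (1 : ℝ) else 0), Finset.sum_boole]
    unfold nbl
    congr!
  set c : ↥X → ↥X → ℝ := fun x y => ∑ z, a x z * a z y with hc
  have hcc : ∀ x y : ↥X, c x y = (((nbl X R x) ∩ (nbl X R y)).card : ℝ) := by
    intro x y
    have e1 : c x y = ∑ z : ↥X, if (R x z ∧ R y z) then (1 : ℝ) else 0 := by
      simp only [hc]
      refine Finset.sum_congr rfl fun z _ => ?_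
      rw [hs z y]
      simp only [ha]
      by_cases h : R x z
      · by_cases h' : R y z
        · simp [h, h']
        · simp [h, h']
      · simp [h]
    rw [e1, Finset.sum_coe_sort X (fun z => if (R x z ∧ R y z) then (1 : ℝ) else 0),
      Finset.sum_boole]
    unfold nbl
    rw [← Finset.filter_and]
  set K : ℝ := ∑ x, ∑ y, (1 - a x y) * c x y with hK
  have hKe : K = ∑ x ∈ X, ∑ y ∈ nnl X R x, (((nbl X R x) ∩ (nbl X R y)).card : ℝ) := by
    rw [hK, ← Finset.sum_coe_sort X (fun x => ∑ y ∈ nnl X R x,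
      (((nbl X R x) ∩ (nbl X R y)).card : ℝ))]
    refine Finset.sum_congr rfl fun x _ => ?_
    have e1 : ∑ y ∈ nnl X R x, (((nbl X R x) ∩ (nbl X R y)).card : ℝ) =
        ∑ y ∈ X, if ¬ R x y then (((nbl X R x) ∩ (nbl X R y)).card : ℝ) else 0 := by
      rw [← Finset.sum_filter]
      unfold nnl
      congr!
    rw [e1, ← Finset.sum_coe_sort X (fun y => if ¬ R x y then
      (((nbl X R x) ∩ (nbl X R y)).card : ℝ) else 0)]
    refine Finset.sum_congr rfl fun y _ => ?_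
    rw [hcc]
    simp only [ha]
    by_cases h : R x y
    · rw [if_pos h, if_neg (not_not.2 h), sub_self, zero_mul]
    · rw [if_neg h, if_pos h, sub_zero, one_mul]
  obtain ⟨t2, t3, t4⟩ := spec_count a h01 h0 h1 hs d hd c (fun x y => rfl) K hK
  have hH : (Matrix.of a).IsHermitian := by
    ext x y
    rw [Matrix.conjTranspose_apply, Matrix.of_apply, Matrix.of_apply, hs]
    rfl
  have hcard : (Fintype.card ↥X : ℝ) = N := by
    rw [hN, Fintype.card_coe]
  have d1 : ∑ x, d x = p * N ^ 2 := by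
    rw [← hdeg, ← Finset.sum_coe_sort X (fun x => ((nbl X R x).card : ℝ))]
  have d2 : ∑ x, (d x - p * N) ^ 2 ≤ v * N ^ 3 := by
    refine le_trans (le_of_eq ?_) hv
    rw [← Finset.sum_coe_sort X (fun x => (((nbl X R x).card : ℝ) - p * N) ^ 2)]
  have hK0 : 0 ≤ K := by
    rw [hKe]
    exact Finset.sum_nonneg fun x _ => Finset.sum_nonneg fun y _ => Nat.cast_nonneg _
  have dn : ∀ x, d x ≤ N := fun x => by
    rw [hN]
    simp only [hdd]
    exact_mod_cast Finset.card_le_card (Finset.filter_subset _ _)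
  have hd0 : ∀ x, 0 ≤ d x := fun x => Nat.cast_nonneg _
  -- the moments of the degrees
  set W : ℝ := ∑ x, (d x - p * N) ^ 2 with hW
  have hW0 : 0 ≤ W := Finset.sum_nonneg fun x _ => sq_nonneg _
  have m0 : ∑ x : ↥X, (1 : ℝ) = N := by
    rw [Finset.sum_const, Finset.card_univ, nsmul_eq_mul, mul_one, hcard]
  have m2 : ∑ x, d x ^ 2 = W + p ^ 2 * N ^ 3 := by
    have e1 : ∑ x, d x ^ 2 = W + 2 * p * N * ∑ x, d x - p ^ 2 * N ^ 2 * ∑ x : ↥X, (1 : ℝ) := by
      rw [hW, Finset.mul_sum, Finset.mul_sum, ← Finset.sum_add_distrib, ← Finset.sum_sub_distrib]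
      exact Finset.sum_congr rfl fun x _ => by ring
    rw [e1, d1, m0]
    ring
  have m3 : ∑ x, d x ^ 3 ≤ N * W + 2 * p * N * (W + p ^ 2 * N ^ 3) - p ^ 2 * N ^ 2 * (p * N ^ 2) := by
    rw [← m2, ← d1, hW, Finset.mul_sum, Finset.mul_sum, Finset.mul_sum, ← Finset.sum_add_distrib,
      ← Finset.sum_sub_distrib]
    refine Finset.sum_le_sum fun x _ => ?_
    have e1 : d x ^ 3 = d x * (d x - p * N) ^ 2 + 2 * p * N * d x ^ 2 - p ^ 2 * N ^ 2 * d x := by ring
    rw [e1]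
    have e2 := mul_le_mul_of_nonneg_right (dn x) (sq_nonneg (d x - p * N))
    linarith
  have hp1 : p ≤ 1 := by
    have e1 : p * N ^ 2 ≤ 1 * N ^ 2 := by
      rw [← d1]
      calc ∑ x, d x ≤ ∑ x : ↥X, N := Finset.sum_le_sum fun x _ => dn x
        _ = 1 * N ^ 2 := by
          rw [Finset.sum_const, Finset.card_univ, nsmul_eq_mul, hcard]
          ring
    exact le_of_mul_le_mul_right e1 (by positivity)
  -- the eigenvalues
  have s2 := spec_trace hH 2
  have s3 := spec_trace hH 3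
  have s4 := spec_trace hH 4
  obtain ⟨r, hr⟩ := spec_fam (fun i => hH.eigenvalues i / (p * N))
  have hpN : p * N ≠ 0 := (mul_pos hp hN0).ne'
  have q : ∀ k : ℕ, ∑ i, (hH.eigenvalues i / (p * N)) ^ k = (∑ i, hH.eigenvalues i ^ k) / (p * N) ^ k := by
    intro k
    rw [Finset.sum_div]
    exact Finset.sum_congr rfl fun i _ => div_pow _ _ _
  refine ⟨r, ?_⟩
  refine spec_num (v' := W / N ^ 3) (κ' := K / N ^ 3) hp hp1 (by positivity) ?_ (by positivity) ?_
    ?_ ?_ ?_ r hr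
  · rw [div_le_iff₀ (by positivity)]
    exact d2
  · rw [div_le_iff₀ (by positivity), hKe]
    exact hκ
  · rw [q, ← s2, t2, d1]
    field_simp
  · rw [q, ← s3, t3, m2]
    field_simp
    ring
  · rw [q, ← s4]
    have e1 : ((Matrix.of a) ^ 4).trace ≤ (p ^ 3 + 3 * (W / N ^ 3) + K / N ^ 3) * N ^ 4 := by
      refine (t4.trans (add_le_add_left m3 _)).trans ?_
      rw [hcard]
      have e2 : (p ^ 3 + 3 * (W / N ^ 3) + K / N ^ 3) * N ^ 4 = p ^ 3 * N ^ 4 + 3 * N * W + N * K := by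
        field_simp
      rw [e2]
      nlinarith [mul_nonneg (mul_nonneg hN0.le hW0) (sub_nonneg.2 hp1)]
    have e3 : (p ^ 3 + 3 * (W / N ^ 3) + K / N ^ 3) / p ^ 4 =
        ((p ^ 3 + 3 * (W / N ^ 3) + K / N ^ 3) * N ^ 4) / (p * N) ^ 4 := by
      field_simp
    rw [e3]
    exact div_le_div_of_nonneg_right e1 (by positivity)

private theorem spec_q_num {ε p p0 u : ℝ} {q : ℕ} (hε : 0 < ε) (hεp : ε ≤ p) (hp1 : p ≤ 1)
    (hq : |1 / p - q| ≤ 1 / 2) (hp00 : 0 ≤ p0) (hp01 : p0 ≤ 1) (hu0 : 0 ≤ u) (hdu : (p - p0) ^ 2 ≤ u)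
    (hr0 : 0 < p0 → ∃ r : ℕ, |1 / p0 - r| ≤ 26 * u / p0 ^ 4) :
    |1 - q * p0| ≤ 5000 / ε ^ 5 * u := by
  have hp : 0 < p := lt_of_lt_of_le hε hεp
  have hε1 : ε ≤ 1 := hεp.trans hp1
  have hC : 0 < 5000 / ε ^ 5 := by positivity
  have hpinv : 1 / p ≤ 1 / ε := one_div_le_one_div_of_le hε hεp
  have hinv1 : 1 ≤ 1 / ε := by
    rw [le_div_iff₀ hε]
    linarith
  have hqb : (q : ℝ) ≤ 2 / ε := by
    have e1 := (abs_le.1 hq).1
    have e3 : 2 / ε = 1 / ε + 1 / ε := by ring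
    rw [e3]
    linarith
  have hq0 : (0 : ℝ) ≤ q := Nat.cast_nonneg _
  have htriv : |1 - q * p0| ≤ 3 / ε := by
    have e3 : 3 / ε = 1 / ε + 2 / ε := by ring
    have e4 : (q : ℝ) * p0 ≤ 2 / ε := by
      calc (q : ℝ) * p0 ≤ q * 1 := mul_le_mul_of_nonneg_left hp01 hq0
        _ ≤ 2 / ε := by linarith
    have e5 : 0 ≤ (q : ℝ) * p0 := by positivity
    rw [e3, abs_le]
    constructor
    · linarith
    · have : 0 ≤ 2 / ε := by positivity
      linarith
  have hbig : ∀ {w : ℝ}, w ≤ u → 3 / ε ≤ 5000 / ε ^ 5 * w → |1 - q * p0| ≤ 5000 / ε ^ 5 * u := by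
    intro w h1 h2
    exact htriv.trans (h2.trans (mul_le_mul_of_nonneg_left h1 hC.le))
  have hpow : ∀ {c : ℝ}, 3 ≤ 5000 * c → 3 / ε ≤ 5000 / ε ^ 5 * (c * ε ^ 4) := by
    intro c hc
    have e1 : 5000 / ε ^ 5 * (c * ε ^ 4) = (5000 * c) / ε := by
      field_simp
    rw [e1]
    exact div_le_div_of_nonneg_right hc hε.le
  by_cases hcase : p0 < p / 2
  · refine hbig (w := 1 / 4 * ε ^ 4) ?_ (hpow (by norm_num))
    refine le_trans ?_ hdu
    have e1 : ε / 2 ≤ p - p0 := by linarith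
    have e2 : (ε / 2) ^ 2 ≤ (p - p0) ^ 2 := pow_le_pow_left₀ (by positivity) e1 2
    have e3 : ε ^ 4 ≤ ε ^ 2 := pow_le_pow_of_le_one hε.le hε1 (by norm_num)
    have e4 : (ε / 2) ^ 2 = 1 / 4 * ε ^ 2 := by ring
    rw [e4] at e2
    linarith
  · have hp0l : ε / 2 ≤ p0 := by
      have := not_lt.1 hcase
      linarith
    have hp0p : 0 < p0 := by linarith [half_pos hε]
    obtain ⟨r, hr'⟩ := hr0 hp0p
    have hp4 : ε ^ 4 / 16 ≤ p0 ^ 4 := by
      have e1 : (ε / 2) ^ 4 ≤ p0 ^ 4 := pow_le_pow_left₀ (by positivity) hp0l 4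
      have e2 : (ε / 2) ^ 4 = ε ^ 4 / 16 := by ring
      linarith
    by_cases hrq : r = q
    · subst hrq
      have e1 : |1 - r * p0| = p0 * |1 / p0 - r| := by
        have e0 : 1 - r * p0 = p0 * (1 / p0 - r) := by
          rw [mul_sub, mul_one_div_cancel hp0p.ne']
          ring
        rw [e0, abs_mul, abs_of_pos hp0p]
      rw [e1]
      have e2 : p0 * |1 / p0 - r| ≤ 1 * |1 / p0 - r| := mul_le_mul_of_nonneg_right hp01 (abs_nonneg _)
      have e3 : 26 * u / p0 ^ 4 ≤ 5000 / ε ^ 5 * u := by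
        rw [div_le_iff₀ (by positivity)]
        have e4 : 5000 / ε ^ 5 * u * p0 ^ 4 = (5000 * p0 ^ 4 / ε ^ 5) * u := by ring
        rw [e4]
        refine mul_le_mul_of_nonneg_right ?_ hu0
        rw [le_div_iff₀ (by positivity)]
        have e5 : ε ^ 5 ≤ ε ^ 4 := pow_le_pow_of_le_one hε.le hε1 (by norm_num)
        linarith [pow_pos hε 4]
      linarith
    · have hne : (1 : ℝ) ≤ |(r : ℝ) - q| := by
        have e1 : (1 : ℤ) ≤ |(r : ℤ) - q| := by
          apply Int.one_le_abs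
          intro h
          apply hrq
          have : (r : ℤ) = q := by linarith
          exact_mod_cast this
        exact_mod_cast e1
      by_cases h4 : (1 : ℝ) / 4 ≤ |1 / p0 - r|
      · refine hbig (w := 1 / 1664 * ε ^ 4) ?_ (hpow (by norm_num))
        have e1 := h4.trans hr'
        rw [le_div_iff₀ (by positivity)] at e1
        linarith
      · have h4' : |1 / p0 - r| < 1 / 4 := not_le.1 h4
        refine hbig (w := 1 / 64 * ε ^ 4) ?_ (hpow (by norm_num))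
        refine le_trans ?_ hdu
        have e1 : 1 / 4 ≤ |1 / p - 1 / p0| := by
          by_contra hcon
          have hcon' := not_le.1 hcon
          have f1 := abs_lt.1 hcon'
          have f2 := abs_lt.1 h4'
          have f3 := abs_le.1 hq
          have f4 : |(r : ℝ) - q| < 1 := by
            rw [abs_lt]
            constructor <;> linarith [f1.1, f1.2, f2.1, f2.2, f3.1, f3.2]
          linarith
        have e4 : |p - p0| = p * p0 * |1 / p - 1 / p0| := by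
          have e5 : p * p0 * (1 / p - 1 / p0) = p0 - p := by
            field_simp
          rw [abs_sub_comm, ← e5, abs_mul, abs_of_pos (mul_pos hp hp0p)]
        have e6 : ε ^ 2 / 8 ≤ |p - p0| := by
          rw [e4]
          have e7 : ε * (ε / 2) ≤ p * p0 := mul_le_mul hεp hp0l (by positivity) hp.le
          have e8 : 0 ≤ p * p0 := by positivity
          have e9 := mul_le_mul_of_nonneg_left e1 e8
          have e10 : ε * (ε / 2) = ε ^ 2 / 2 := by ring
          linarith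
        have e9 : (ε ^ 2 / 8) ^ 2 ≤ |p - p0| ^ 2 := pow_le_pow_left₀ (by positivity) e6 2
        rw [sq_abs] at e9
        have e10 : (ε ^ 2 / 8) ^ 2 = 1 / 64 * ε ^ 4 := by ring
        linarith

private theorem spec_q_var (X : Finset V) (f : V → ℝ) (p p0 N : ℝ) (hN : N = (X.card : ℝ))
    (hD : ∑ x ∈ X, f x = p0 * N ^ 2) :
    ∑ x ∈ X, (f x - p * N) ^ 2 = ∑ x ∈ X, (f x - p0 * N) ^ 2 + (p - p0) ^ 2 * N ^ 3 := by
  have e1 : ∑ x ∈ X, ((f x - p * N) ^ 2 - (f x - p0 * N) ^ 2) = (p - p0) ^ 2 * N ^ 3 := by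
    have e2 : ∀ x ∈ X, (f x - p * N) ^ 2 - (f x - p0 * N) ^ 2 =
        (2 * (p0 - p) * N) * f x + (p ^ 2 - p0 ^ 2) * N ^ 2 := by
      intro x _
      ring
    rw [Finset.sum_congr rfl e2, Finset.sum_add_distrib, ← Finset.mul_sum, hD,
      Finset.sum_const, nsmul_eq_mul, ← hN]
    ring
  rw [Finset.sum_sub_distrib] at e1
  linarith

/-- The linear graph lemma with a reference density `p` and the nearest integer `q` to `1 / p`. -/
theorem linear_graph_q (X : Finset V) (R : V → V → Prop) (hR : ∀ x y, R x y → R y x)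
    {ε p : ℝ} (hε : 0 < ε) (hεp : ε ≤ p) (hp1 : p ≤ 1) {q : ℕ} (hq : |1 / p - q| ≤ 1 / 2) :
    |(X.card : ℝ) ^ 2 - q * ∑ x ∈ X, ((nbl X R x).card : ℝ)| * (X.card : ℝ) ≤
      5000 / ε ^ 5 * (∑ x ∈ X, (((nbl X R x).card : ℝ) - p * (X.card : ℝ)) ^ 2 +
        ∑ x ∈ X, ∑ y ∈ nnl X R x, (((nbl X R x) ∩ (nbl X R y)).card : ℝ)) := by
  classical
  obtain ⟨N, hN⟩ : ∃ N : ℝ, N = (X.card : ℝ) := ⟨_, rfl⟩
  obtain ⟨D, hD⟩ : ∃ D : ℝ, D = ∑ x ∈ X, ((nbl X R x).card : ℝ) := ⟨_, rfl⟩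
  obtain ⟨b, hb⟩ : ∃ b : ℝ, b = ∑ x ∈ X, ∑ y ∈ nnl X R x, (((nbl X R x) ∩ (nbl X R y)).card : ℝ) :=
    ⟨_, rfl⟩
  obtain ⟨a, ha⟩ : ∃ a : ℝ, a = ∑ x ∈ X, (((nbl X R x).card : ℝ) - p * N) ^ 2 := ⟨_, rfl⟩
  have ha0 : 0 ≤ a := by
    rw [ha]
    exact Finset.sum_nonneg fun x _ => sq_nonneg _
  have hb0 : 0 ≤ b := by
    rw [hb]
    exact Finset.sum_nonneg fun x _ => Finset.sum_nonneg fun y _ => Nat.cast_nonneg _
  rw [← hN, ← hD, ← hb, ← ha]
  have hC : 0 < 5000 / ε ^ 5 := by positivity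
  have hN0 : 0 ≤ N := by
    rw [hN]
    exact Nat.cast_nonneg _
  rcases hN0.eq_or_lt with hz | hNp
  · rw [← hz, mul_zero]
    positivity
  have hN2 : (0 : ℝ) < N ^ 2 := by positivity
  have hN3 : (0 : ℝ) < N ^ 3 := by positivity
  have hDp : D = D / N ^ 2 * N ^ 2 := (div_mul_cancel₀ D hN2.ne').symm
  have hD0 : 0 ≤ D := by
    rw [hD]
    exact Finset.sum_nonneg fun x _ => Nat.cast_nonneg _
  have hDN : D ≤ N ^ 2 := by
    rw [hD]
    calc ∑ x ∈ X, ((nbl X R x).card : ℝ) ≤ ∑ x ∈ X, N := Finset.sum_le_sum fun x _ => by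
          rw [hN]
          exact_mod_cast Finset.card_le_card (Finset.filter_subset _ _)
      _ = N ^ 2 := by
          rw [Finset.sum_const, nsmul_eq_mul, ← hN]
          ring
  obtain ⟨p0, hp0⟩ : ∃ p0 : ℝ, p0 = D / N ^ 2 := ⟨_, rfl⟩
  rw [← hp0] at hDp
  have hp00 : 0 ≤ p0 := by
    rw [hp0]
    positivity
  have hp01 : p0 ≤ 1 := by
    rw [hp0, div_le_one hN2]
    exact hDN
  have hvar := spec_q_var X (fun x => ((nbl X R x).card : ℝ)) p p0 N hN (hD.symm.trans hDp)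
  rw [← ha] at hvar
  have hV00 : 0 ≤ ∑ x ∈ X, (((nbl X R x).card : ℝ) - p0 * N) ^ 2 :=
    Finset.sum_nonneg fun x _ => sq_nonneg _
  have hab : a + b = (a + b) / N ^ 3 * N ^ 3 := (div_mul_cancel₀ _ hN3.ne').symm
  have hL : |N ^ 2 - q * D| * N = |1 - q * p0| * N ^ 3 := by
    rw [hDp, show N ^ 2 - q * (p0 * N ^ 2) = (1 - q * p0) * N ^ 2 by ring, abs_mul, abs_of_pos hN2]
    ring
  rw [hL, hab, ← mul_assoc]
  refine mul_le_mul_of_nonneg_right ?_ hN3.le
  refine spec_q_num hε hεp hp1 hq hp00 hp01 (by positivity) ?_ ?_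
  · rw [le_div_iff₀ hN3]
    linarith
  · intro hp0p
    obtain ⟨r, hr⟩ := linear_graph X R hR (N := N) (p := p0) (v := a / N ^ 3) (κ := b / N ^ 3) hN hNp
      hp0p (hD.symm.trans hDp) (by
        rw [div_mul_cancel₀ _ hN3.ne', hvar]
        have : 0 ≤ (p - p0) ^ 2 * N ^ 3 := by positivity
        linarith) (by
        rw [div_mul_cancel₀ _ hN3.ne', hb])
    refine ⟨r, ?_⟩
    rw [add_div]
    exact hr

end Pool.Agent.DCS
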