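import Pool.Agent.DCS.Re
import Pool.Agent.DCS.Spec

/-!
# DCS: the average of the graph lemma over a level

If the numbers of extensions of the members of the levels `s` and `s + 1` have small variances and the graphs of the
members of the level `s` have few cherries, then `1 / (1 - D' / D)` is close to an integer, `D` and `D'` the averages
of the numbers of extensions; the error is linear.
-/

set_option linter.unusedSectionVars false
set_option linter.unusedVariables false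

namespace Pool.Agent.DCS

open Finset Pool.Agent.Helper2.DC

variable {V : Type} [Fintype V] [DecidableEq V]

private theorem lvl3_ext_le (H : Finset (Finset V)) (J : Finset V) :
    ((ext H J).card : ℝ) ≤ (Fintype.card V : ℝ) := by
  exact_mod_cast card_le_univ _

private theorem lvl3_av (H : Finset (Finset V)) (s : ℕ) :
    ∑ J ∈ ind H s, ((ext H J).card : ℝ) = Av H s * NI H s := by
  rcases (NI_nonneg H s).eq_or_lt with h | h
  · have h1 : ind H s = ∅ := by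
      have h2 : ((ind H s).card : ℝ) = 0 := h.symm
      exact card_eq_zero.1 (by exact_mod_cast h2)
    rw [h1, sum_empty, ← h, mul_zero]
  · unfold Av
    rw [div_mul_cancel₀ _ h.ne']

private theorem lvl3_sq (H : Finset (Finset V)) (s : ℕ) :
    ∑ J ∈ ind H s, ((ext H J).card : ℝ) ^ 2 = Sq H s + Av H s ^ 2 * NI H s := by
  unfold Sq
  have h1 : ∀ J ∈ ind H s, (((ext H J).card : ℝ) - Av H s) ^ 2 =
      ((ext H J).card : ℝ) ^ 2 - 2 * Av H s * ((ext H J).card : ℝ) + Av H s ^ 2 := by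
    intro J _
    ring
  have h2 : NI H s = ((ind H s).card : ℝ) := rfl
  rw [sum_congr rfl h1, sum_add_distrib, sum_sub_distrib, ← mul_sum, lvl3_av, sum_const,
    nsmul_eq_mul, ← h2]
  ring

/-- the second moments of the degrees -/
private theorem lvl3_deg {H : Finset (Finset V)} {s : ℕ} {D D' : ℝ} (hD : D = Av H s)
    (hD' : D' = Av H (s + 1)) (hD0 : 0 < D) (hD'0 : 0 ≤ D') (hle : D' ≤ D) {e : ℝ} (he : 0 ≤ e)
    (hN : 0 < NI H s)
    (hS0 : Sq H s ≤ e * (Fintype.card V : ℝ) ^ 2 * NI H s)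
    (hS1 : Sq H (s + 1) ≤ e * (Fintype.card V : ℝ) ^ 2 * NI H (s + 1)) :
    ∑ J ∈ ind H s, ∑ x ∈ ext H J,
      (((nbl (ext H J) (Re H J) x).card : ℝ) - (1 - D' / D) * (ext H J).card) ^ 2 ≤
      4 * e * (Fintype.card V : ℝ) ^ 3 * NI H s := by
  set n : ℝ := (Fintype.card V : ℝ) with hn
  have hn0 : 0 ≤ n := Nat.cast_nonneg _
  have hr0 : 0 ≤ D' / D := div_nonneg hD'0 hD0.le
  have hr1 : D' / D ≤ 1 := by rw [div_le_one hD0]; exact hle
  have h1 : ∀ J ∈ ind H s, ∑ x ∈ ext H J,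
      (((nbl (ext H J) (Re H J) x).card : ℝ) - (1 - D' / D) * (ext H J).card) ^ 2 ≤
      2 * n * (((ext H J).card : ℝ) - D) ^ 2 +
        2 * ∑ x ∈ ext H J, (((ext H (insert x J)).card : ℝ) - D') ^ 2 := by
    intro J _
    have h2 : ∀ x ∈ ext H J,
        (((nbl (ext H J) (Re H J) x).card : ℝ) - (1 - D' / D) * (ext H J).card) ^ 2 ≤
        2 * (((ext H J).card : ℝ) - D) ^ 2 + 2 * (((ext H (insert x J)).card : ℝ) - D') ^ 2 := by
      intro x hx
      rw [re_deg hx]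
      set d : ℝ := ((ext H J).card : ℝ)
      set d' : ℝ := ((ext H (insert x J)).card : ℝ)
      have h3 : d - d' - (1 - D' / D) * d = D' / D * (d - D) - (d' - D') := by
        have h4 : D' / D * D = D' := by field_simp
        have h5 : D' / D * (d - D) = D' / D * d - D' := by rw [mul_sub, h4]
        rw [h5]; ring
      rw [h3]
      have h6 : (D' / D * (d - D)) ^ 2 ≤ (d - D) ^ 2 := by
        rw [mul_pow]
        have h7 : (D' / D) ^ 2 ≤ 1 := pow_le_one₀ hr0 hr1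
        have h8 : 0 ≤ (d - D) ^ 2 := sq_nonneg _
        nlinarith
      nlinarith [sq_nonneg (D' / D * (d - D) + (d' - D'))]
    refine le_trans (sum_le_sum h2) ?_
    rw [sum_add_distrib, sum_const, nsmul_eq_mul, ← mul_sum]
    have h3 := lvl3_ext_le H J
    have h4 : 0 ≤ (((ext H J).card : ℝ) - D) ^ 2 := sq_nonneg _
    nlinarith
  have h2 := sum_le_sum h1
  rw [sum_add_distrib, ← mul_sum, ← mul_sum,
    re_sum H s (fun S => (((ext H S).card : ℝ) - D') ^ 2)] at h2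
  have h3 : ∑ J ∈ ind H s, (((ext H J).card : ℝ) - D) ^ 2 = Sq H s := by rw [hD]; rfl
  have h4 : ∑ J ∈ ind H (s + 1), (((ext H J).card : ℝ) - D') ^ 2 = Sq H (s + 1) := by
    rw [hD']; rfl
  rw [h3, h4] at h2
  have h5 : ((s : ℝ) + 1) * Sq H (s + 1) ≤ e * n ^ 3 * NI H s := by
    have h6 : ((s : ℝ) + 1) * NI H (s + 1) = D * NI H s := by
      rw [hD, Av_mul hN]
    have h7 : D * NI H s ≤ n * NI H s := by
      rw [hD, ← lvl3_av]
      calc ∑ J ∈ ind H s, ((ext H J).card : ℝ) ≤ ∑ J ∈ ind H s, n :=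
            sum_le_sum fun J _ => lvl3_ext_le H J
        _ = n * NI H s := by
            rw [sum_const, nsmul_eq_mul, mul_comm]
            rfl
    calc ((s : ℝ) + 1) * Sq H (s + 1) ≤ ((s : ℝ) + 1) * (e * n ^ 2 * NI H (s + 1)) :=
          mul_le_mul_of_nonneg_left hS1 (by positivity)
      _ = e * n ^ 2 * (((s : ℝ) + 1) * NI H (s + 1)) := by ring
      _ ≤ e * n ^ 2 * (n * NI H s) := by
          rw [h6]
          exact mul_le_mul_of_nonneg_left h7 (by positivity)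
      _ = e * n ^ 3 * NI H s := by ring
  have h6 : 2 * n * Sq H s ≤ 2 * n * (e * n ^ 2 * NI H s) :=
    mul_le_mul_of_nonneg_left hS0 (by positivity)
  nlinarith

/-- the first order sum is exact -/
private theorem lvl3_first {H : Finset (Finset V)} {s : ℕ} {D D' : ℝ} (hD : D = Av H s)
    (hD' : D' = Av H (s + 1)) (hD0 : 0 < D) (hN : 0 < NI H s) (q : ℝ) :
    ∑ J ∈ ind H s, (((ext H J).card : ℝ) ^ 2 -
      q * ∑ x ∈ ext H J, ((nbl (ext H J) (Re H J) x).card : ℝ)) =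
      NI H s * D ^ 2 * (1 - q * (1 - D' / D)) - (q - 1) * Sq H s := by
  have h1 : ∀ J ∈ ind H s, (((ext H J).card : ℝ) ^ 2 -
      q * ∑ x ∈ ext H J, ((nbl (ext H J) (Re H J) x).card : ℝ)) =
      (1 - q) * ((ext H J).card : ℝ) ^ 2 +
        q * ∑ x ∈ ext H J, ((ext H (insert x J)).card : ℝ) := by
    intro J _
    have h2 : ∑ x ∈ ext H J, ((nbl (ext H J) (Re H J) x).card : ℝ) =
        ((ext H J).card : ℝ) ^ 2 - ∑ x ∈ ext H J, ((ext H (insert x J)).card : ℝ) := by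
      rw [sum_congr rfl (fun x hx => re_deg hx), sum_sub_distrib, sum_const, nsmul_eq_mul]
      ring
    rw [h2]
    ring
  rw [sum_congr rfl h1, sum_add_distrib, ← mul_sum, ← mul_sum, lvl3_sq,
    re_sum H s (fun S => ((ext H S).card : ℝ)), lvl3_av]
  have h2 : ((s : ℝ) + 1) * (Av H (s + 1) * NI H (s + 1)) = D' * (D * NI H s) := by
    rw [← hD', hD, Av_mul hN]
    ring
  have h3 : D ^ 2 * (D' / D) = D * D' := by field_simp
  rw [h2, ← hD]
  have h4 : NI H s * D ^ 2 * (1 - q * (1 - D' / D)) =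
      NI H s * D ^ 2 * (1 - q) + q * NI H s * (D ^ 2 * (D' / D)) := by ring
  rw [h4, h3]
  ring

/-- the deviation of one member, numbers only -/
private theorem lvl3_pt {κ n K D d S W C q : ℝ} (hκ : 0 < κ) (hn : 0 < n) (hK0 : 0 < K) (hD0 : 0 < D)
    (hD : κ * n ≤ D) (hW0 : 0 ≤ W) (hC0 : 0 ≤ C) (hS0 : 0 ≤ S) (hd0 : 0 ≤ d) (hSd : S ≤ d ^ 2)
    (hq0 : 0 ≤ q) (hq1 : q + 1 ≤ 3 / κ) (hlin : |d ^ 2 - q * S| * d ≤ K * (W + C)) :
    |d ^ 2 - q * S| ≤ 2 * K / (κ * n) * (W + C) + 3 / κ * (d - D) ^ 2 := by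
  rcases le_or_gt (D / 2) d with h1 | h1
  · have h2 : κ * n / 2 ≤ d := by linarith
    have h3 : |d ^ 2 - q * S| * (κ * n / 2) ≤ K * (W + C) :=
      le_trans (mul_le_mul_of_nonneg_left h2 (abs_nonneg _)) hlin
    have h4 : |d ^ 2 - q * S| ≤ K * (W + C) / (κ * n / 2) := by
      rw [le_div_iff₀ (by positivity)]
      exact h3
    have h5 : K * (W + C) / (κ * n / 2) = 2 * K / (κ * n) * (W + C) := by
      field_simp
    have h6 : 0 ≤ 3 / κ * (d - D) ^ 2 := by positivity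
    linarith
  · have h2 : |d ^ 2 - q * S| ≤ (q + 1) * d ^ 2 := by
      have h3 : q * S ≤ q * d ^ 2 := mul_le_mul_of_nonneg_left hSd hq0
      have h4 : 0 ≤ q * S := mul_nonneg hq0 hS0
      have h6 : (q + 1) * d ^ 2 = q * d ^ 2 + d ^ 2 := by ring
      have h7 : 0 ≤ d ^ 2 := sq_nonneg d
      rw [abs_le]
      constructor <;> linarith
    have h3 : d ^ 2 ≤ (d - D) ^ 2 := by
      have h8 : (d - D) ^ 2 = d ^ 2 + D * (D - 2 * d) := by ring
      have h9 : 0 ≤ D * (D - 2 * d) := mul_nonneg hD0.le (by linarith)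
      linarith
    have h4 : (q + 1) * d ^ 2 ≤ 3 / κ * (d - D) ^ 2 :=
      mul_le_mul hq1 h3 (sq_nonneg _) (by positivity)
    have h5 : 0 ≤ 2 * K / (κ * n) * (W + C) := by positivity
    linarith

/-- the last step, numbers only -/
private theorem lvl3_end {κ n K D N Q e p q : ℝ} (hκ : 0 < κ) (hn : 0 < n) (hK0 : 0 < K)
    (hD : κ * n ≤ D) (hN : 0 < N) (hQ0 : 0 ≤ Q) (he : 0 ≤ e) (hQ : Q ≤ e * n ^ 2 * N)
    (hp : κ ≤ p) (hq0 : 0 ≤ q) (hq1 : q + 1 ≤ 3 / κ) (hκ1 : 1 ≤ 3 / κ)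
    (hsum : |N * D ^ 2 * (1 - q * p) - (q - 1) * Q| ≤
      2 * K / (κ * n) * (5 * e * n ^ 3 * N) + 3 / κ * (e * n ^ 2 * N)) :
    |1 / p - q| ≤ (10 * K + 6) / κ ^ 4 * e := by
  have hp0 : 0 < p := lt_of_lt_of_le hκ hp
  have h1 : N * D ^ 2 * |1 - q * p| ≤ (10 * K + 6) / κ * (e * n ^ 2 * N) := by
    have h2 : |N * D ^ 2 * (1 - q * p)| ≤ |N * D ^ 2 * (1 - q * p) - (q - 1) * Q| +
        |(q - 1) * Q| := by
      have h3 := abs_add_le (N * D ^ 2 * (1 - q * p) - (q - 1) * Q) ((q - 1) * Q)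
      rwa [sub_add_cancel] at h3
    have h3 : |(q - 1) * Q| ≤ 3 / κ * (e * n ^ 2 * N) := by
      rw [abs_mul, abs_of_nonneg hQ0]
      have h4 : |q - 1| ≤ 3 / κ := by
        rw [abs_le]
        constructor <;> linarith
      exact mul_le_mul h4 hQ hQ0 (by positivity)
    have h4 : |N * D ^ 2 * (1 - q * p)| = N * D ^ 2 * |1 - q * p| := by
      rw [abs_mul, abs_of_nonneg (by positivity : 0 ≤ N * D ^ 2)]
    rw [← h4]
    have h5 : 2 * K / (κ * n) * (5 * e * n ^ 3 * N) = 10 * K / κ * (e * n ^ 2 * N) := by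
      field_simp
      ring
    rw [h5] at hsum
    have h6 : (10 * K + 6) / κ * (e * n ^ 2 * N) =
        10 * K / κ * (e * n ^ 2 * N) + 3 / κ * (e * n ^ 2 * N) + 3 / κ * (e * n ^ 2 * N) := by
      ring
    linarith
  have h2 : (κ * n) ^ 2 ≤ D ^ 2 := pow_le_pow_left₀ (by positivity) hD 2
  have h3 : (N * n ^ 2) * (κ ^ 2 * |1 - q * p|) ≤ (N * n ^ 2) * ((10 * K + 6) / κ * e) := by
    calc (N * n ^ 2) * (κ ^ 2 * |1 - q * p|) = N * (κ * n) ^ 2 * |1 - q * p| := by ring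
      _ ≤ N * D ^ 2 * |1 - q * p| :=
          mul_le_mul_of_nonneg_right (mul_le_mul_of_nonneg_left h2 hN.le) (abs_nonneg _)
      _ ≤ (10 * K + 6) / κ * (e * n ^ 2 * N) := h1
      _ = (N * n ^ 2) * ((10 * K + 6) / κ * e) := by ring
  have h4 : κ ^ 2 * |1 - q * p| ≤ (10 * K + 6) / κ * e :=
    le_of_mul_le_mul_left h3 (by positivity)
  have h5 : |1 / p - q| = |1 - q * p| / p := by
    have h6 : 1 / p - q = (1 - q * p) / p := by field_simp
    rw [h6, abs_div, abs_of_pos hp0]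
  rw [h5]
  calc |1 - q * p| / p ≤ |1 - q * p| / κ :=
        div_le_div_of_nonneg_left (abs_nonneg _) hκ hp
    _ = (κ ^ 2 * |1 - q * p|) / κ ^ 3 := by field_simp
    _ ≤ ((10 * K + 6) / κ * e) / κ ^ 3 := div_le_div_of_nonneg_right h4 (by positivity)
    _ = (10 * K + 6) / κ ^ 4 * e := by field_simp

theorem level_int (κ : ℝ) (hκ : 0 < κ) (hκ1 : κ ≤ 1) :
    ∃ C : ℝ, 0 < C ∧ ∀ (V : Type) [Fintype V] [DecidableEq V] (H : Finset (Finset V)) (s q : ℕ)
      (e : ℝ), 0 ≤ e → 0 < (Fintype.card V : ℝ) → 0 < NI H s →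
      κ * (Fintype.card V : ℝ) ≤ Av H s →
      κ ≤ 1 - Av H (s + 1) / Av H s →
      Sq H s ≤ e * (Fintype.card V : ℝ) ^ 2 * NI H s →
      Sq H (s + 1) ≤ e * (Fintype.card V : ℝ) ^ 2 * NI H (s + 1) →
      ∑ J ∈ ind H s, Cr H J ≤ e * (Fintype.card V : ℝ) ^ 3 * NI H s →
      |1 / (1 - Av H (s + 1) / Av H s) - q| ≤ 1 / 2 →
      |1 / (1 - Av H (s + 1) / Av H s) - q| ≤ C * e := by
  set K : ℝ := 5000 / κ ^ 5 with hK
  have hK0 : 0 < K := by positivity
  refine ⟨(10 * K + 6) / κ ^ 4, by positivity, ?_⟩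
  intro V _ _ H s q e he hn hN hD hp hS0 hS1 hC hq
  set n : ℝ := (Fintype.card V : ℝ) with hn'
  set D : ℝ := Av H s with hDdef
  set D' : ℝ := Av H (s + 1) with hD'def
  have hD0 : 0 < D := lt_of_lt_of_le (by positivity) hD
  have hD'0 : 0 ≤ D' := by
    rw [hD'def]
    unfold Av
    exact div_nonneg (sum_nonneg fun _ _ => Nat.cast_nonneg _) (NI_nonneg H (s + 1))
  have hle : D' ≤ D := by
    have h1 : D' / D ≤ 1 := by linarith
    rwa [div_le_one hD0] at h1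
  set p : ℝ := 1 - D' / D with hpdef
  have hp0 : 0 < p := lt_of_lt_of_le hκ hp
  have hp1 : p ≤ 1 := by
    have : 0 ≤ D' / D := div_nonneg hD'0 hD0.le
    linarith
  have hq0 : (0 : ℝ) ≤ q := Nat.cast_nonneg _
  have hq1 : (q : ℝ) + 1 ≤ 3 / κ := by
    have h1 := (abs_le.1 hq).1
    have h2 : 1 / p ≤ 1 / κ := one_div_le_one_div_of_le hκ hp
    have h3 : 1 ≤ 1 / κ := by rw [le_div_iff₀ hκ]; linarith
    have h4 : 3 / κ = 3 * (1 / κ) := by ring
    rw [h4]
    linarith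
  -- the deviation of one member
  have hpt : ∀ J ∈ ind H s, |((ext H J).card : ℝ) ^ 2 -
      q * ∑ x ∈ ext H J, ((nbl (ext H J) (Re H J) x).card : ℝ)| ≤
      2 * K / (κ * n) * (∑ x ∈ ext H J,
        (((nbl (ext H J) (Re H J) x).card : ℝ) - p * (ext H J).card) ^ 2 + Cr H J) +
      3 / κ * (((ext H J).card : ℝ) - D) ^ 2 := by
    intro J _
    have hlin := linear_graph_q (ext H J) (Re H J) (fun x y h => Re_symm h) hκ hp hp1 hq
    have hSd : ∑ x ∈ ext H J, ((nbl (ext H J) (Re H J) x).card : ℝ) ≤ ((ext H J).card : ℝ) ^ 2 := by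
      have h2 : ∀ x ∈ ext H J, ((nbl (ext H J) (Re H J) x).card : ℝ) ≤ ((ext H J).card : ℝ) := by
        intro x _
        have h4 := nbl_add_nnl (ext H J) (Re H J) x
        have h3 : (nbl (ext H J) (Re H J) x).card ≤ (ext H J).card := by omega
        exact_mod_cast h3
      refine le_trans (sum_le_sum h2) (le_of_eq ?_)
      rw [sum_const, nsmul_eq_mul]
      ring
    exact lvl3_pt hκ hn hK0 hD0 hD (sum_nonneg fun _ _ => sq_nonneg _) (Cr_nonneg H J)
      (sum_nonneg fun _ _ => Nat.cast_nonneg _) (Nat.cast_nonneg _) hSd hq0 hq1 hlin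
  have hdeg := lvl3_deg hDdef hD'def hD0 hD'0 hle he hN hS0 hS1
  have hfirst := lvl3_first hDdef hD'def hD0 hN (q : ℝ)
  have hsum : |∑ J ∈ ind H s, (((ext H J).card : ℝ) ^ 2 -
      q * ∑ x ∈ ext H J, ((nbl (ext H J) (Re H J) x).card : ℝ))| ≤
      2 * K / (κ * n) * (5 * e * n ^ 3 * NI H s) + 3 / κ * (e * n ^ 2 * NI H s) := by
    refine le_trans (abs_sum_le_sum_abs _ _) (le_trans (sum_le_sum hpt) ?_)
    rw [sum_add_distrib, ← mul_sum, ← mul_sum, sum_add_distrib]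
    have h1 : ∑ J ∈ ind H s, (((ext H J).card : ℝ) - D) ^ 2 = Sq H s := by rw [hDdef]; rfl
    rw [h1]
    have h2 : 3 / κ * Sq H s ≤ 3 / κ * (e * n ^ 2 * NI H s) :=
      mul_le_mul_of_nonneg_left hS0 (by positivity)
    have h3 : 2 * K / (κ * n) * (∑ J ∈ ind H s, ∑ x ∈ ext H J,
        (((nbl (ext H J) (Re H J) x).card : ℝ) - p * (ext H J).card) ^ 2 +
          ∑ J ∈ ind H s, Cr H J) ≤ 2 * K / (κ * n) * (5 * e * n ^ 3 * NI H s) := by
      refine mul_le_mul_of_nonneg_left ?_ (by positivity)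
      linarith
    linarith
  rw [hfirst] at hsum
  have hκ3 : 1 ≤ 3 / κ := by
    rw [le_div_iff₀ hκ]
    linarith
  exact lvl3_end hκ hn hK0 hD hN (Sq_nonneg H s) he hS0 hp hq0 hq1 hκ3 hsum

end Pool.Agent.DCS
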