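import Pool.Agent.DCS.Ari
import Pool.Agent.DCS.Cherry
import Pool.Agent.DCS.Lev4
import Pool.Agent.DCS.Lvl3
import Pool.Agent.DCS.Pbd
import Pool.Agent.DCS.Xbd

/-!
# DCS: the core of the theorem on the bounded ratios, from the results on the levels `m - 3` and `m - 4`

If the density is less than `(1 + c e) / C(m - 1, k - 1)`, `e = max (1 / k) |x - round x|`, `x = m / (m - k)`,
then the ratios `Av s / (Av s - Av (s + 1))`, `s = m - 3` and `s = m - 4`, are near `r3` and `r4` and near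
integers, with errors `C c e`; by `ari` this is impossible for small `c`.
-/

set_option linter.unusedSectionVars false
set_option linter.unusedVariables false

namespace Pool.Agent.DCS

open Finset Pool.Agent.Helper2.DC

/-- the two levels, for one hypergraph -/
private theorem Cor4_dist {p R C1 C2 e : ℝ} (hp : 0 < p) (hp1 : p ≤ 1)
    (h1 : |1 / p - R| ≤ C1 * e)
    (h2 : ∀ q : ℕ, |1 / p - (q : ℝ)| ≤ 1 / 2 → |1 / p - (q : ℝ)| ≤ C2 * e) :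
    |R - round R| ≤ (C1 + C2) * e := by
  have h3 : 1 ≤ 1 / p := by
    rw [le_div_iff₀ hp]
    linarith
  have h4 : 0 ≤ round (1 / p) := by
    have h5 := abs_le.1 (abs_sub_round (1 / p))
    have h6 : (0 : ℝ) < (round (1 / p) : ℝ) := by linarith [h5.2]
    exact_mod_cast h6.le
  obtain ⟨q, hq⟩ := Int.eq_ofNat_of_zero_le h4
  have h5 : |1 / p - (q : ℝ)| ≤ 1 / 2 := by
    have h6 := abs_sub_round (1 / p)
    rw [hq] at h6
    exact_mod_cast h6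
  have h6 := h2 q h5
  have h7 : |R - round R| ≤ |R - ((q : ℤ) : ℝ)| := round_le R q
  refine h7.trans ?_
  have h8 : R - ((q : ℤ) : ℝ) = (1 / p - (q : ℝ)) - (1 / p - R) := by
    push_cast
    ring
  rw [h8]
  refine (abs_sub _ _).trans ?_
  linarith

/-- the statement on one level -/
private theorem Cor4_key {V : Type} [Fintype V] [DecidableEq V] {H : Finset (Finset V)} {t : ℕ}
    {κ CL CX CI e R : ℝ} (hκ : 0 < κ) (hCL : 0 < CL) (hCX : 0 < CX) (he0 : 0 < e)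
    (hn : 0 < (Fintype.card V : ℝ)) (b1 : 0 < NI H t) (b2 : κ * (Fintype.card V : ℝ) ≤ Av H t)
    (b3 : κ ≤ 1 - Av H (t + 1) / Av H t)
    (b4 : Sq H t ≤ CL * e * (Fintype.card V : ℝ) ^ 2 * NI H t)
    (b5 : Sq H (t + 1) ≤ CL * e * (Fintype.card V : ℝ) ^ 2 * NI H (t + 1))
    (b6 : |1 / (1 - Av H (t + 1) / Av H t) - R| ≤ CL * e)
    (b8 : ∑ J ∈ ind H t, Cr H J ≤ CX * e * (Fintype.card V : ℝ) ^ 3 * NI H t)
    (hI : ∀ (q : ℕ) (e : ℝ), 0 ≤ e →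
      Sq H t ≤ e * (Fintype.card V : ℝ) ^ 2 * NI H t →
      Sq H (t + 1) ≤ e * (Fintype.card V : ℝ) ^ 2 * NI H (t + 1) →
      ∑ J ∈ ind H t, Cr H J ≤ e * (Fintype.card V : ℝ) ^ 3 * NI H t →
      |1 / (1 - Av H (t + 1) / Av H t) - (q : ℝ)| ≤ 1 / 2 →
      |1 / (1 - Av H (t + 1) / Av H t) - (q : ℝ)| ≤ CI * e) :
    |R - round R| ≤ (CL + CI * (CL + CX)) * e := by
  have hAv0 : 0 < Av H t := lt_of_lt_of_le (mul_pos hκ hn) b2
  have hAv1 : 0 ≤ Av H (t + 1) := by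
    unfold Av
    exact div_nonneg (sum_nonneg fun _ _ => Nat.cast_nonneg _) (NI_nonneg _ _)
  have hp1 : 1 - Av H (t + 1) / Av H t ≤ 1 := by
    have : 0 ≤ Av H (t + 1) / Av H t := div_nonneg hAv1 hAv0.le
    linarith
  have hN1 := NI_nonneg H (t + 1)
  refine Cor4_dist (hκ.trans_le b3) hp1 b6 fun q hq => ?_
  have hup : ∀ C' N : ℝ, ∀ i : ℕ, 0 ≤ N → C' ≤ CL + CX →
      C' * e * (Fintype.card V : ℝ) ^ i * N ≤ ((CL + CX) * e) * (Fintype.card V : ℝ) ^ i * N := by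
    intro C' N i hN' hC'
    have h3 : 0 ≤ (Fintype.card V : ℝ) ^ i := pow_nonneg hn.le i
    exact mul_le_mul_of_nonneg_right (mul_le_mul_of_nonneg_right
      (mul_le_mul_of_nonneg_right hC' he0.le) h3) hN'
  have h3 := hI q ((CL + CX) * e) (mul_nonneg (add_nonneg hCL.le hCX.le) he0.le)
    (b4.trans (hup CL _ 2 b1.le (by linarith)))
    (b5.trans (hup CL _ 2 hN1 (by linarith)))
    (b8.trans (hup CX _ 3 b1.le (by linarith))) hq
  calc |1 / (1 - Av H (t + 1) / Av H t) - (q : ℝ)| ≤ CI * ((CL + CX) * e) := h3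
    _ = CI * (CL + CX) * e := by ring

private theorem Cor4_n {m k n c E : ℝ} (hc : 0 < c) (hk : 0 < k) (hn0 : 0 ≤ n) (hE : 1 / k ≤ E)
    (hn : m * k / c ≤ n) : m ≤ (c * E) * n := by
  rw [div_le_iff₀ hc] at hn
  rw [div_le_iff₀ hk] at hE
  have h6 : 0 ≤ n * c := mul_nonneg hn0 hc.le
  have h4 : m * k ≤ ((c * E) * n) * k := by
    calc m * k ≤ n * c := hn
      _ = n * c * 1 := by ring
      _ ≤ n * c * (E * k) := mul_le_mul_of_nonneg_left hE h6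
      _ = ((c * E) * n) * k := by ring
  exact le_of_mul_le_mul_right h4 hk

private theorem Cor4_a {a α k s e : ℝ} (hk : 0 < k) (hs : 0 ≤ s) (ha : 1 ≤ a) (haα : α ≤ a)
    (h2 : s + 4 ≤ α * k) (he : e ≤ 1 / (16 * a)) : e ≤ k / (s + 1 + 3) / 16 := by
  refine he.trans ?_
  have h4 : s + 4 ≤ a * k := h2.trans (mul_le_mul_of_nonneg_right haα hk.le)
  have e1 : s + 1 + 3 = s + 4 := by ring
  rw [e1, div_div, div_le_div_iff₀ (by positivity) (by positivity)]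
  linarith

private theorem Cor4_end {E e c CA C2 : ℝ} (hE : 0 < E) (hCA : 0 < CA) (hC2 : 0 < C2)
    (hc1 : c ≤ 1 / (2 * (CA * C2))) (he : e = c * E) (f : E ≤ CA * (C2 * e)) : False := by
  have hpos : 0 < 2 * (CA * C2) := by positivity
  rw [le_div_iff₀ hpos] at hc1
  have h3 : CA * C2 * c ≤ 1 / 2 := by linarith
  have h4 : CA * (C2 * (c * E)) = (CA * C2 * c) * E := by ring
  rw [he, h4] at f
  have := mul_le_mul_of_nonneg_right h3 hE.le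
  linarith

private theorem core4_of (ε α : ℝ) (hε : 0 < ε)
    (hlev : ∃ C κ e0 : ℝ, 0 < C ∧ 0 < κ ∧ 0 < e0 ∧ ∃ k0 : ℕ, ∀ k m : ℕ, k0 ≤ k →
      (1 + ε) * (k : ℝ) ≤ (m : ℝ) → (m : ℝ) ≤ α * (k : ℝ) → ∀ e : ℝ, 0 < e → e ≤ e0 →
      ∀ (V : Type) [Fintype V] [DecidableEq V] (H : Finset (Finset V)), (∀ f ∈ H, f.card = k) →
      (m : ℝ) ≤ e * (Fintype.card V : ℝ) → NI H m = 0 → 0 < NI H (m - 1) →
      (H.card : ℝ) / ((Fintype.card V).choose k : ℝ) ≤ (1 + e) / ((m - 1).choose (k - 1) : ℝ) →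
      ∀ s : ℕ, (s + 3 = m ∨ s + 4 = m) →
        0 < NI H s ∧ κ * (Fintype.card V : ℝ) ≤ Av H s ∧ κ ≤ 1 - Av H (s + 1) / Av H s ∧
        Sq H s ≤ C * e * (Fintype.card V : ℝ) ^ 2 * NI H s ∧
        Sq H (s + 1) ≤ C * e * (Fintype.card V : ℝ) ^ 2 * NI H (s + 1) ∧
        |1 / (1 - Av H (s + 1) / Av H s) - (1 - be k m s) / (be k m (s + 1) - be k m s)| ≤ C * e)
    (hX : ∃ C e0 : ℝ, 0 < C ∧ 0 < e0 ∧ ∃ k0 : ℕ, ∀ k m : ℕ, k0 ≤ k →
      (1 + ε) * (k : ℝ) ≤ (m : ℝ) → (m : ℝ) ≤ α * (k : ℝ) → ∀ e : ℝ, 0 < e → e ≤ e0 →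
      ∀ (V : Type) [Fintype V] [DecidableEq V] (H : Finset (Finset V)), (∀ f ∈ H, f.card = k) →
      (m : ℝ) ≤ e * (Fintype.card V : ℝ) → NI H m = 0 → 0 < NI H (m - 1) →
      (H.card : ℝ) / ((Fintype.card V).choose k : ℝ) ≤ (1 + e) / ((m - 1).choose (k - 1) : ℝ) →
      ∀ s : ℕ, (s + 3 = m ∨ s + 4 = m) →
        ((s : ℝ) + 1) * ((s : ℝ) + 2) * Xs H (s + 2) ≤ C * e * (Fintype.card V : ℝ) ^ 3 * NI H s)
    (hint : ∀ κ : ℝ, 0 < κ → ∃ C : ℝ, 0 < C ∧ ∀ (V : Type) [Fintype V] [DecidableEq V]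
      (H : Finset (Finset V)) (s q : ℕ) (e : ℝ), 0 ≤ e → 0 < (Fintype.card V : ℝ) → 0 < NI H s →
      κ * (Fintype.card V : ℝ) ≤ Av H s → κ ≤ 1 - Av H (s + 1) / Av H s →
      Sq H s ≤ e * (Fintype.card V : ℝ) ^ 2 * NI H s →
      Sq H (s + 1) ≤ e * (Fintype.card V : ℝ) ^ 2 * NI H (s + 1) →
      ∑ J ∈ ind H s, Cr H J ≤ e * (Fintype.card V : ℝ) ^ 3 * NI H s →
      |1 / (1 - Av H (s + 1) / Av H s) - (q : ℝ)| ≤ 1 / 2 →
      |1 / (1 - Av H (s + 1) / Av H s) - (q : ℝ)| ≤ C * e)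
    (hE : ∀ (V : Type) [Fintype V] [DecidableEq V] (H : Finset (Finset V)) (k s : ℕ),
      (∀ f ∈ H, f.card = k) → 8 ≤ k → k ≤ s + 1 → ∀ e : ℝ, 0 < e →
      e ≤ (k : ℝ) / ((s : ℝ) + 3) / 16 → (s : ℝ) + 3 ≤ e * (Fintype.card V : ℝ) →
      NI H (s + 2) = 0 → (1 + e) / ((s + 2).choose (k - 1) : ℝ) ≤
        (H.card : ℝ) / ((Fintype.card V).choose k : ℝ)) :
    ∃ c : ℝ, 0 < c ∧ ∃ k0 : ℕ, ∀ k m : ℕ, k0 ≤ k → (1 + ε) * (k : ℝ) ≤ (m : ℝ) →
      (m : ℝ) ≤ α * (k : ℝ) → ∃ n0 : ℕ, ∀ n : ℕ, n0 ≤ n →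
      ∀ H : Finset (Finset (Fin n)), (∀ f ∈ H, f.card = k) → NI H m = 0 →
        (1 + c * max (1 / (k : ℝ)) |(m : ℝ) / ((m : ℝ) - (k : ℝ)) -
          (round ((m : ℝ) / ((m : ℝ) - (k : ℝ))) : ℝ)|) /
          ((m - 1).choose (k - 1) : ℝ) ≤ (H.card : ℝ) / (n.choose k : ℝ) := by
  obtain ⟨CL, κ, eL, hCL, hκ, heL, kL, hL⟩ := hlev
  obtain ⟨CX, eX, hCX, heX, kX, hX⟩ := hX
  obtain ⟨CI, hCI, hI⟩ := hint κ hκ
  obtain ⟨CA, hCA, kA, hA⟩ := ari ε α hε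
  obtain ⟨a, ha1, haα⟩ : ∃ a : ℝ, 1 ≤ a ∧ α ≤ a := ⟨max α 1, le_max_right _ _, le_max_left _ _⟩
  obtain ⟨C2, hC2⟩ : ∃ C2 : ℝ, C2 = CL + CI * (CL + CX) := ⟨_, rfl⟩
  have hC20 : 0 < C2 := by
    rw [hC2]
    positivity
  obtain ⟨c, hc0, hc1, hc2, hc3, hc4⟩ : ∃ c : ℝ, 0 < c ∧ c ≤ 1 / (2 * (CA * C2)) ∧ c ≤ eL ∧
      c ≤ eX ∧ c ≤ 1 / (16 * a) := by
    refine ⟨min (1 / (2 * (CA * C2))) (min eL (min eX (1 / (16 * a)))),
      lt_min (by positivity) (lt_min heL (lt_min heX (by positivity))), min_le_left _ _,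
      (min_le_right _ _).trans (min_le_left _ _),
      (min_le_right _ _).trans ((min_le_right _ _).trans (min_le_left _ _)),
      (min_le_right _ _).trans ((min_le_right _ _).trans (min_le_right _ _))⟩
  refine ⟨c, hc0, max 8 (max ⌈3 / ε⌉₊ (max kL (max kX kA))), ?_⟩
  intro k m hk h1 h2
  have hk8 : 8 ≤ k := le_trans (le_max_left _ _) hk
  have hk' : max ⌈3 / ε⌉₊ (max kL (max kX kA)) ≤ k := le_trans (le_max_right _ _) hk
  have hkε : 3 / ε ≤ (k : ℝ) := le_trans (Nat.le_ceil _) (by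
    exact_mod_cast le_trans (le_max_left _ _) hk')
  have hk'' : max kL (max kX kA) ≤ k := le_trans (le_max_right _ _) hk'
  have hkL : kL ≤ k := le_trans (le_max_left _ _) hk''
  have hkX : kX ≤ k := le_trans (le_max_left _ _) (le_trans (le_max_right _ _) hk'')
  have hkA : kA ≤ k := le_trans (le_max_right _ _) (le_trans (le_max_right _ _) hk'')
  have hk8R : (8 : ℝ) ≤ k := by exact_mod_cast hk8
  have hk0 : (0 : ℝ) < k := by linarith
  have h3ε : 3 ≤ ε * k := by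
    rw [div_le_iff₀ hε] at hkε
    linarith
  have hm3 : (k : ℝ) + 3 ≤ m := by linarith
  have hm3' : k + 3 ≤ m := by exact_mod_cast hm3
  obtain ⟨D, hD⟩ : ∃ D : ℝ, D =
      |(m : ℝ) / ((m : ℝ) - k) - round ((m : ℝ) / ((m : ℝ) - k))| := ⟨_, rfl⟩
  have hD1 : D ≤ 1 := by
    rw [hD]
    exact (abs_sub_round _).trans (by norm_num)
  rw [← hD]
  obtain ⟨E, hEE⟩ : ∃ E : ℝ, E = max (1 / (k : ℝ)) D := ⟨_, rfl⟩
  rw [← hEE]
  have hE0 : 1 / (k : ℝ) ≤ E := by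
    rw [hEE]
    exact le_max_left _ _
  have hE00 : 0 < E := lt_of_lt_of_le (div_pos one_pos hk0) hE0
  have hE1 : E ≤ 1 := by
    rw [hEE]
    refine max_le ?_ hD1
    rw [div_le_one hk0]
    linarith
  refine ⟨⌈(m : ℝ) * k / c⌉₊, ?_⟩
  intro n hn H hH h0
  obtain ⟨e, he⟩ : ∃ e : ℝ, e = c * E := ⟨_, rfl⟩
  rw [← he]
  have he0 : 0 < e := by
    rw [he]
    exact mul_pos hc0 hE00
  have hec : e ≤ c := by
    rw [he]
    exact mul_le_of_le_one_right hc0.le hE1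
  have hcard : (Fintype.card (Fin n) : ℝ) = (n : ℝ) := by rw [Fintype.card_fin]
  have hne : (m : ℝ) ≤ e * (Fintype.card (Fin n) : ℝ) := by
    rw [hcard, he]
    exact Cor4_n hc0 hk0 (Nat.cast_nonneg n) hE0 (le_trans (Nat.le_ceil _) (by exact_mod_cast hn))
  have hm0 : (0 : ℝ) < m := by linarith
  have hn0 : 0 < (Fintype.card (Fin n) : ℝ) := by
    rcases (Nat.cast_nonneg (α := ℝ) (Fintype.card (Fin n))).lt_or_eq with h | h
    · exact h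
    · rw [← h, mul_zero] at hne
      linarith
  obtain ⟨s, rfl⟩ : ∃ s, m = s + 4 := ⟨m - 4, by omega⟩
  by_cases hN : NI H (s + 4 - 1) = 0
  · have e1 : s + 1 + 2 = s + 4 - 1 := by omega
    have h3 := hE (Fin n) H k (s + 1) hH hk8 (by omega) e he0 ?_ ?_ (by rw [e1]; exact hN)
    · rw [Fintype.card_fin] at h3
      exact h3
    · have h4 : ((s + 4 : ℕ) : ℝ) = (s : ℝ) + 4 := by push_cast; ring
      have h5 : ((s + 1 : ℕ) : ℝ) = (s : ℝ) + 1 := by push_cast; ring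
      rw [h5]
      rw [h4] at h2
      exact Cor4_a hk0 (Nat.cast_nonneg s) ha1 haα h2 (hec.trans hc4)
    · have h4 : ((s + 4 : ℕ) : ℝ) = (s : ℝ) + 4 := by push_cast; ring
      have h5 : ((s + 1 : ℕ) : ℝ) = (s : ℝ) + 1 := by push_cast; ring
      rw [h5]
      rw [h4] at hne
      linarith
  have hNpos : 0 < NI H (s + 4 - 1) := lt_of_le_of_ne (NI_nonneg _ _) (Ne.symm hN)
  by_contra hcon
  push Not at hcon
  have hden : (H.card : ℝ) / ((Fintype.card (Fin n)).choose k : ℝ) ≤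
      (1 + e) / ((s + 4 - 1).choose (k - 1) : ℝ) := by
    rw [Fintype.card_fin]
    exact hcon.le
  -- one level
  have key : ∀ t : ℕ, (t + 3 = s + 4 ∨ t + 4 = s + 4) →
      |(1 - be k (s + 4) t) / (be k (s + 4) (t + 1) - be k (s + 4) t) -
        round ((1 - be k (s + 4) t) / (be k (s + 4) (t + 1) - be k (s + 4) t))| ≤ C2 * e := by
    intro t ht
    obtain ⟨b1, b2, b3, b4, b5, b6⟩ :=
      hL k (s + 4) hkL h1 h2 e he0 (hec.trans hc2) (Fin n) H hH hne h0 hNpos hden t ht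
    have b7 := hX k (s + 4) hkX h1 h2 e he0 (hec.trans hc3) (Fin n) H hH hne h0 hNpos hden t ht
    have b8 := (cherry_le H t).trans b7
    rw [hC2]
    exact Cor4_key hκ hCL hCX he0 hn0 b1 b2 b3 b4 b5 b6 b8
      fun q e' he' => hI (Fin n) H t q e' he' hn0 b1 b2 b3
  have hk2 : 2 ≤ k := by omega
  have g3 : |r3 k (s + 4) - round (r3 k (s + 4))| ≤ C2 * e := by
    have h3 := key (s + 1) (Or.inl (by omega))
    have h4 := r3_eq (k := k) (m := s + 4) hk2 (by omega) (by omega)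
    have e1 : s + 4 - 3 = s + 1 := by omega
    have e2 : s + 4 - 2 = s + 1 + 1 := by omega
    rw [e1, e2] at h4
    rw [h4] at h3
    exact h3
  have g4 : |r4 k (s + 4) - round (r4 k (s + 4))| ≤ C2 * e := by
    have h3 := key s (Or.inr rfl)
    have h4 := r4_eq (k := k) (m := s + 4) hk2 (by omega) (by omega)
    have e1 : s + 4 - 4 = s := by omega
    have e2 : s + 4 - 3 = s + 1 := by omega
    rw [e1, e2] at h4
    rw [h4] at h3
    exact h3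
  obtain ⟨f1, f2⟩ := hA k (s + 4) hkA h1 h2 (C2 * e) g3 g4
  rw [← hD] at f2
  have f3 : E ≤ CA * (C2 * e) := by
    rw [hEE]
    exact max_le f1 f2
  exact Cor4_end hE00 hCA hC20 hc1 he f3

private theorem Cor4_X (ε α : ℝ) (hε : 0 < ε) :
    ∃ C e0 : ℝ, 0 < C ∧ 0 < e0 ∧ ∃ k0 : ℕ, ∀ k m : ℕ, k0 ≤ k →
      (1 + ε) * (k : ℝ) ≤ (m : ℝ) → (m : ℝ) ≤ α * (k : ℝ) → ∀ e : ℝ, 0 < e → e ≤ e0 →
      ∀ (V : Type) [Fintype V] [DecidableEq V] (H : Finset (Finset V)), (∀ f ∈ H, f.card = k) →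
      (m : ℝ) ≤ e * (Fintype.card V : ℝ) → NI H m = 0 → 0 < NI H (m - 1) →
      (H.card : ℝ) / ((Fintype.card V).choose k : ℝ) ≤ (1 + e) / ((m - 1).choose (k - 1) : ℝ) →
      ∀ s : ℕ, (s + 3 = m ∨ s + 4 = m) →
        ((s : ℝ) + 1) * ((s : ℝ) + 2) * Xs H (s + 2) ≤
          C * e * (Fintype.card V : ℝ) ^ 3 * NI H s := by
  obtain ⟨p0, e0, hp0, he0, k0, hP⟩ := p_low ε α hε
  refine ⟨2 / p0, min e0 1, by positivity, lt_min he0 one_pos, max 1 (max k0 ⌈3 / ε⌉₊), ?_⟩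
  intro k m hk h1 h2 e he hee V _ _ H hH hn h0 hN hd s hs
  have hk1 : 1 ≤ k := le_trans (le_max_left _ _) hk
  have hk' : max k0 ⌈3 / ε⌉₊ ≤ k := le_trans (le_max_right _ _) hk
  have hk2 : k0 ≤ k := le_trans (le_max_left _ _) hk'
  have hkε : 3 / ε ≤ (k : ℝ) := le_trans (Nat.le_ceil _) (by
    exact_mod_cast le_trans (le_max_right _ _) hk')
  have h3ε : 3 ≤ ε * k := by
    rw [div_le_iff₀ hε] at hkε
    linarith
  have hm3 : (k : ℝ) + 3 ≤ m := by linarith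
  have hm3' : k + 3 ≤ m := by exact_mod_cast hm3
  have hee0 : e ≤ e0 := hee.trans (min_le_left _ _)
  have hee1 : e ≤ 1 := hee.trans (min_le_right _ _)
  have hc0 : (0 : ℝ) ≤ (Fintype.card V : ℝ) := Nat.cast_nonneg _
  have hmn : m ≤ Fintype.card V := by
    have h3 : (m : ℝ) ≤ (Fintype.card V : ℝ) := hn.trans (mul_le_of_le_one_left hc0 hee1)
    exact_mod_cast h3
  have hpl := hP k m hk2 h1 h2 H hH (hn.trans (mul_le_mul_of_nonneg_right hee0 hc0)) h0 hN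
    (hd.trans (div_le_div_of_nonneg_right (by linarith) (Nat.cast_nonneg _))) s (by omega)
  exact Xs_le_NI hH hk1 he.le hp0 hn hmn h0 hN hd (by omega) (by omega) hpl

/-- **The core.** -/
theorem core4 (ε α : ℝ) (hε : 0 < ε) :
    ∃ c : ℝ, 0 < c ∧ ∃ k0 : ℕ, ∀ k m : ℕ, k0 ≤ k → (1 + ε) * (k : ℝ) ≤ (m : ℝ) →
      (m : ℝ) ≤ α * (k : ℝ) → ∃ n0 : ℕ, ∀ n : ℕ, n0 ≤ n →
      ∀ H : Finset (Finset (Fin n)), (∀ e ∈ H, e.card = k) → NI H m = 0 →
        (1 + c * max (1 / (k : ℝ)) |(m : ℝ) / ((m : ℝ) - (k : ℝ)) -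
          (round ((m : ℝ) / ((m : ℝ) - (k : ℝ))) : ℝ)|) /
          ((m - 1).choose (k - 1) : ℝ) ≤ (H.card : ℝ) / (n.choose k : ℝ) := by
  refine core4_of ε α hε ?_ (Cor4_X ε α hε) ?_ ?_
  · obtain ⟨C, κ, e0, h1, h2, h3, k0, h4⟩ := lev4 ε α hε
    exact ⟨C, κ, e0, h1, h2, h3, k0, fun k m hk hm hm' e he he' V _ _ H => h4 k m hk hm hm' e he he' H⟩
  · intro κ hκ
    obtain ⟨C, hC, h⟩ := level_int (min κ 1) (lt_min hκ one_pos) (min_le_right _ _)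
    refine ⟨C, hC, fun V _ _ H s q e he hn hN h1 h2 => h V H s q e he hn hN ?_ ?_⟩
    · exact (mul_le_mul_of_nonneg_right (min_le_left _ _) hn.le).trans h1
    · exact (min_le_left _ _).trans h2
  · intro V _ _ H k s hH hk hks e he he1 hn h0
    exact Levels_empty hH hk hks he he1 hn h0

end Pool.Agent.DCS
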