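import Pool.Agent.DCS.Ctop
import Pool.Agent.DCS.Levels

/-!
# DCS: the core of the theorem on the fixed ratios

If `m / (m - k)` is at distance at least `ε` from the integers `2, 3, ...` and `(1 + ε) k ≤ m ≤ α k`, then a system of
`k`-sets with no independent `m`-set has density at least `(1 + c) / C(m - 1, k - 1)`.
-/

set_option linter.unusedSectionVars false
set_option linter.unusedVariables false

namespace Pool.Agent.DCS

open Finset Pool.Agent.Helper2.DC

theorem core (ε α : ℝ) (hε : 0 < ε) :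
    ∃ c : ℝ, 0 < c ∧ ∃ k0 : ℕ, ∀ k m : ℕ, k0 ≤ k → (1 + ε) * (k : ℝ) ≤ (m : ℝ) →
      (m : ℝ) ≤ α * (k : ℝ) →
      (∀ q : ℕ, 2 ≤ q → ε ≤ |(m : ℝ) / ((m : ℝ) - (k : ℝ)) - (q : ℝ)|) →
      ∃ n0 : ℕ, ∀ n : ℕ, n0 ≤ n → ∀ H : Finset (Finset (Fin n)), (∀ e ∈ H, e.card = k) →
        NI H m = 0 →
        (1 + c) / ((m - 1).choose (k - 1) : ℝ) ≤ (H.card : ℝ) / (n.choose k : ℝ) := by
  set a : ℝ := max α 1 with ha
  have ha1 : 1 ≤ a := le_max_right _ _
  have haα : α ≤ a := le_max_left _ _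
  obtain ⟨η, hη0, hη1, hT⟩ := core_top ε a hε ha1
  set c : ℝ := min (η / 10) (1 / (16 * a)) with hc
  have hc0 : 0 < c := lt_min (by positivity) (by positivity)
  have hcη : c ≤ η / 10 := min_le_left _ _
  have hca : c ≤ 1 / (16 * a) := min_le_right _ _
  refine ⟨c, hc0, max 8 (max ⌈10 / η⌉₊ ⌈2 / ε⌉₊), ?_⟩
  intro k m hk h1 h2 hq
  have hk8 : 8 ≤ k := le_trans (le_max_left _ _) hk
  have hkη : 10 / η ≤ (k : ℝ) := le_trans (Nat.le_ceil _) (by
    exact_mod_cast le_trans (le_trans (le_max_left _ _) (le_max_right _ _)) hk)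
  have hkε : 2 / ε ≤ (k : ℝ) := le_trans (Nat.le_ceil _) (by
    exact_mod_cast le_trans (le_trans (le_max_right _ _) (le_max_right _ _)) hk)
  have hk8R : (8 : ℝ) ≤ k := by exact_mod_cast hk8
  have h2ε : 2 ≤ ε * k := by
    rw [div_le_iff₀ hε] at hkε
    linarith
  have hm2 : (k : ℝ) + 2 ≤ m := by linarith
  have hm2' : k + 2 ≤ m := by exact_mod_cast hm2
  obtain ⟨s, rfl⟩ : ∃ s, m = s + 3 := ⟨m - 3, by omega⟩
  push_cast at h1 h2 hq
  have hs3 : (0 : ℝ) < (s : ℝ) + 3 := by positivity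
  have hks : k ≤ s + 1 := by omega
  have hkm : (k : ℝ) ≤ (s : ℝ) + 3 := by
    push_cast at hm2
    linarith
  have h2a : (s : ℝ) + 3 ≤ a * k := le_trans h2 (mul_le_mul_of_nonneg_right haα (by linarith))
  have hδa : 1 / a ≤ (k : ℝ) / ((s : ℝ) + 3) := by
    rw [div_le_div_iff₀ (by linarith) hs3]
    linarith
  have hcδ : c ≤ (k : ℝ) / ((s : ℝ) + 3) / 16 := by
    refine le_trans hca ?_
    calc 1 / (16 * a) = 1 / a / 16 := by rw [div_div, mul_comm]
      _ ≤ (k : ℝ) / ((s : ℝ) + 3) / 16 := by linarith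
  have hsη : 10 / η ≤ (s : ℝ) + 3 := le_trans hkη hkm
  have hinv : 1 / ((s : ℝ) + 3) ≤ η / 10 := by
    rw [div_le_div_iff₀ hs3 (by norm_num)]
    rw [div_le_iff₀ hη0] at hsη
    linarith
  have hinv3 : 3 / ((s : ℝ) + 3) ≤ 3 * (η / 10) := by
    have : 3 / ((s : ℝ) + 3) = 3 * (1 / ((s : ℝ) + 3)) := by ring
    rw [this]
    linarith
  refine ⟨⌈((s : ℝ) + 3) / c⌉₊, ?_⟩
  intro n hn H hH h0
  have hnc : (s : ℝ) + 3 ≤ c * (n : ℝ) := by
    have h3 : ((s : ℝ) + 3) / c ≤ (n : ℝ) := le_trans (Nat.le_ceil _) (by exact_mod_cast hn)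
    rw [div_le_iff₀ hc0] at h3
    linarith
  have hn0 : 0 < (n : ℝ) := by
    by_contra hcon
    push Not at hcon
    have : c * (n : ℝ) ≤ 0 := mul_nonpos_of_nonneg_of_nonpos hc0.le hcon
    linarith
  have hcard : (Fintype.card (Fin n) : ℝ) = (n : ℝ) := by rw [Fintype.card_fin]
  have hm1 : s + 3 - 1 = s + 2 := by omega
  rw [hm1]
  rcases levels hH hk8 hks hc0 hcδ (by rw [hcard]; exact hnc) h0 with hL | L
  · rw [Fintype.card_fin] at hL
    exact hL
  exfalso
  have hN2 := NI_nonneg H (s + 2)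
  have hN1 := NI_nonneg H (s + 1)
  have hN0 := NI_nonneg H s
  refine hT (Fin n) H k s hH (by omega) h1 h2a hq L.N3 L.N1 ?_ ?_ ?_ ?_ ?_ ?_ L.av1' L.av0' ?_
  · rw [div_le_iff₀ hη0] at hsη
    linarith
  · rw [hcard]
    refine le_trans hnc (mul_le_mul_of_nonneg_right ?_ hn0.le)
    linarith
  · refine le_trans L.df ?_
    rw [hcard]
    have h3 : 2 * c * (n : ℝ) * (((s : ℝ) + 2) * NI H (s + 2)) ≤
        η * (n : ℝ) * (((s : ℝ) + 3) * NI H (s + 2)) := by
      apply mul_le_mul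
      · exact mul_le_mul_of_nonneg_right (by linarith) hn0.le
      · exact mul_le_mul_of_nonneg_right (by linarith) hN2
      · positivity
      · positivity
    linarith
  · refine le_trans L.sq1 ?_
    rw [hcard]
    exact mul_le_mul_of_nonneg_right (mul_le_mul_of_nonneg_right (by linarith) (by positivity)) hN1
  · refine le_trans L.sq0 ?_
    rw [hcard]
    exact mul_le_mul_of_nonneg_right (mul_le_mul_of_nonneg_right (by linarith) (by positivity)) hN0
  · refine le_trans L.av1 ?_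
    rw [hcard]
    exact mul_le_mul_of_nonneg_right (by linarith) hn0.le
  · refine le_trans ?_ L.hD
    rw [hcard]
    have h3 : (5 * c + 3 / ((s : ℝ) + 3)) * (n : ℝ) ≤ η * (n : ℝ) :=
      mul_le_mul_of_nonneg_right (by linarith) hn0.le
    linarith

end Pool.Agent.DCS
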