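import Pool.Agent.DCS.Typ
import Pool.Agent.DCS.Gra
import Pool.Agent.DCS.Kxy
import Pool.Agent.DCS.Bcn

/-!
# DCS: the contradiction

With the data of the last levels and a ratio `m / (m - k)` away from the integers, the graph of a typical pair
`J`, `w` has few cherries and all degrees about `(1 - δ) |X|`, which is impossible.
-/

set_option linter.unusedSectionVars false
set_option linter.unusedVariables false

namespace Pool.Agent.DCS

open Finset Pool.Agent.Helper2.DC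

private theorem ctop_num (d p e : ℝ) (hd : 0 < d) (hp : 0 < p) (he : 0 < e) :
    ∃ η : ℝ, 0 < η ∧ η ≤ 1 ∧ η ≤ e ∧ ∀ δ : ℝ, d ≤ δ → δ ≤ 1 → p ≤ 1 - δ →
      √η + η + (16 / δ ^ 2 * √η + 2 * η) +
        5 * (3 * η + √(19 * η + 32 / δ ^ 2 * √η + 4 * η)) / ((1 - δ) * δ) ≤ e := by
  set K1 : ℝ := 23 + 32 / d ^ 2 with hK1
  set K2 : ℝ := 4 + 16 / d ^ 2 + 5 * (3 + √K1) / (p * d) with hK2
  have hK10 : 0 < K1 := by positivity
  have hK20 : 0 < K2 := by positivity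
  set r : ℝ := min 1 (min e (e / K2)) with hr
  have hr0 : 0 < r := by
    rw [hr]
    exact lt_min one_pos (lt_min he (div_pos he hK20))
  have hr1 : r ≤ 1 := min_le_left _ _
  have hre : r ≤ e := le_trans (min_le_right _ _) (min_le_left _ _)
  have hrK : K2 * r ≤ e := by
    have h : r ≤ e / K2 := le_trans (min_le_right _ _) (min_le_right _ _)
    rw [le_div_iff₀ hK20] at h
    linarith
  have hr2 : r ^ 2 ≤ r := by nlinarith
  have hr4 : r ^ 4 ≤ r ^ 2 := by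
    have h : r ^ 4 = r ^ 2 * r ^ 2 := by ring
    rw [h]
    have h1 : r ^ 2 ≤ 1 := by linarith
    have h2 : 0 ≤ r ^ 2 := by positivity
    nlinarith
  have hsq : √(r ^ 4) = r ^ 2 := by
    have h : r ^ 4 = (r ^ 2) ^ 2 := by ring
    rw [h]
    exact Real.sqrt_sq (by positivity)
  refine ⟨r ^ 4, by positivity, by linarith, by linarith, ?_⟩
  intro δ hδd hδ1 hδp
  have hδ0 : 0 < δ := lt_of_lt_of_le hd hδd
  rw [hsq]
  have hinv : ∀ c : ℝ, 0 ≤ c → c / δ ^ 2 ≤ c / d ^ 2 := fun c hc =>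
    div_le_div_of_nonneg_left hc (by positivity) (pow_le_pow_left₀ hd.le hδd 2)
  have h16 := hinv 16 (by norm_num)
  have h32 := hinv 32 (by norm_num)
  have hr20 : 0 ≤ r ^ 2 := by positivity
  have hC : 19 * r ^ 4 + 32 / δ ^ 2 * r ^ 2 + 4 * r ^ 4 ≤ K1 * r ^ 2 := by
    have h1 : 32 / δ ^ 2 * r ^ 2 ≤ 32 / d ^ 2 * r ^ 2 := mul_le_mul_of_nonneg_right h32 hr20
    rw [hK1]
    nlinarith
  have hsC : √(19 * r ^ 4 + 32 / δ ^ 2 * r ^ 2 + 4 * r ^ 4) ≤ √K1 * r := by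
    calc √(19 * r ^ 4 + 32 / δ ^ 2 * r ^ 2 + 4 * r ^ 4) ≤ √(K1 * r ^ 2) := Real.sqrt_le_sqrt hC
      _ = √K1 * r := by
        rw [Real.sqrt_mul hK10.le, Real.sqrt_sq hr0.le]
  have hden : p * d ≤ (1 - δ) * δ := mul_le_mul hδp hδd hd.le (le_trans hp.le hδp)
  have hnum : 5 * (3 * r ^ 4 + √(19 * r ^ 4 + 32 / δ ^ 2 * r ^ 2 + 4 * r ^ 4)) ≤
      5 * (3 + √K1) * r := by
    have h1 : r ^ 4 ≤ r := by linarith
    nlinarith
  have hnum0 : 0 ≤ 5 * (3 * r ^ 4 + √(19 * r ^ 4 + 32 / δ ^ 2 * r ^ 2 + 4 * r ^ 4)) := by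
    positivity
  have hfr : 5 * (3 * r ^ 4 + √(19 * r ^ 4 + 32 / δ ^ 2 * r ^ 2 + 4 * r ^ 4)) / ((1 - δ) * δ) ≤
      5 * (3 + √K1) / (p * d) * r := by
    calc 5 * (3 * r ^ 4 + √(19 * r ^ 4 + 32 / δ ^ 2 * r ^ 2 + 4 * r ^ 4)) / ((1 - δ) * δ)
        ≤ 5 * (3 + √K1) * r / (p * d) :=
          div_le_div₀ (by positivity) hnum (by positivity) hden
      _ = 5 * (3 + √K1) / (p * d) * r := by ring
  have h16' : 16 / δ ^ 2 * r ^ 2 ≤ 16 / d ^ 2 * r := by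
    calc 16 / δ ^ 2 * r ^ 2 ≤ 16 / d ^ 2 * r ^ 2 := mul_le_mul_of_nonneg_right h16 hr20
      _ ≤ 16 / d ^ 2 * r := mul_le_mul_of_nonneg_left hr2 (by positivity)
  have hsum : K2 * r = 4 * r + 16 / d ^ 2 * r + 5 * (3 + √K1) / (p * d) * r := by
    rw [hK2]; ring
  nlinarith

/-- the contradiction for the graph of a typical pair -/
private theorem ctop_graph (ε α : ℝ) (hε : 0 < ε) (hα : 1 ≤ α) :
    ∃ e : ℝ, 0 < e ∧ ∀ (V : Type) [Fintype V] [DecidableEq V] (X : Finset V) (R : V → V → Prop)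
      (k m : ℕ), (∀ x y, R x y → R y x) → 0 < k → (1 + ε) * k ≤ (m : ℝ) → (m : ℝ) ≤ α * k →
      (∀ q : ℕ, 2 ≤ q → ε ≤ |(m : ℝ) / ((m : ℝ) - k) - q|) →
      1 / e ≤ (Fintype.card V : ℝ) →
      |(X.card : ℝ) - (k : ℝ) / m * (Fintype.card V : ℝ)| ≤ e * (Fintype.card V : ℝ) →
      ∑ x ∈ X, |((nb X R x).card : ℝ) - (1 - (k : ℝ) / m) * X.card| ≤
        e * (Fintype.card V : ℝ) ^ 2 + (Fintype.card V : ℝ) →
      ∑ x ∈ X, ∑ y ∈ nn X R x, (((nb X R x) ∩ (nb X R y)).card : ℝ) ≤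
        e * (Fintype.card V : ℝ) ^ 3 →
      False := by
  set ε1 : ℝ := min (ε / (1 + ε)) (1 / α) with hε1
  have hε10 : 0 < ε1 := lt_min (by positivity) (by positivity)
  have hε11 : ε1 ≤ 1 := le_trans (min_le_right _ _) (by rw [div_le_one (by linarith)]; exact hα)
  have hε1ε : ε1 ≤ ε := le_trans (min_le_left _ _) (by rw [div_le_iff₀ (by linarith)]; nlinarith)
  obtain ⟨g, hg, hG⟩ := few_cherries ε1 hε10 hε11
  set d : ℝ := 1 / α with hd
  have hd0 : 0 < d := by positivity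
  have hd1 : d ≤ 1 := by rw [hd, div_le_one (by linarith)]; exact hα
  set e : ℝ := min (d / 2) (min (g * d ^ 2 / 8) (g * d ^ 3 / 8)) with he
  have he0 : 0 < e := lt_min (by positivity) (lt_min (by positivity) (by positivity))
  have he1 : e ≤ d / 2 := min_le_left _ _
  have he2 : e ≤ g * d ^ 2 / 8 := le_trans (min_le_right _ _) (min_le_left _ _)
  have he3 : e ≤ g * d ^ 3 / 8 := le_trans (min_le_right _ _) (min_le_right _ _)
  refine ⟨e, he0, ?_⟩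
  intro V _ _ X R k m hR hk h1 h2 hq hn hX hdeg hch
  have hkR : (0 : ℝ) < k := by exact_mod_cast hk
  have hm : (0 : ℝ) < m := lt_of_lt_of_le (by positivity) h1
  have hkm : (k : ℝ) < m := by nlinarith
  set δ : ℝ := (k : ℝ) / m with hδ
  have hδd : d ≤ δ := by
    rw [hd, hδ, div_le_div_iff₀ (by linarith) hm]
    linarith
  have hδp : ε / (1 + ε) ≤ 1 - δ := by
    have h3 : δ ≤ 1 / (1 + ε) := by
      rw [hδ, div_le_div_iff₀ hm (by linarith)]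
      linarith
    have h4 : ε / (1 + ε) = 1 - 1 / (1 + ε) := by field_simp; ring
    linarith
  have hδ1 : δ < 1 := by
    have : 0 < ε / (1 + ε) := by positivity
    linarith
  have hδ0 : 0 < δ := lt_of_lt_of_le hd0 hδd
  set n : ℝ := (Fintype.card V : ℝ) with hn'
  have hn0 : 0 < n := lt_of_lt_of_le (by positivity) hn
  have hen : 1 ≤ e * n := by
    rw [div_le_iff₀ he0] at hn
    linarith
  have hXl : d / 2 * n ≤ (X.card : ℝ) := by
    have h3 := (abs_le.1 hX).1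
    have h4 : d * n ≤ δ * n := mul_le_mul_of_nonneg_right hδd hn0.le
    have h5 : e * n ≤ d / 2 * n := mul_le_mul_of_nonneg_right he1 hn0.le
    linarith
  have hX0 : 0 < (X.card : ℝ) := lt_of_lt_of_le (by positivity) hXl
  have hp1 : 1 / (1 - δ) = (m : ℝ) / ((m : ℝ) - k) := by
    rw [hδ]
    have h3 : (m : ℝ) - k ≠ 0 := by linarith
    field_simp
  refine hG V X R (1 - δ) hR (le_trans (min_le_left _ _) hδp) ?_ ?_ ?_ ?_
  · intro q
    rcases Nat.lt_or_ge q 2 with h3 | h3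
    · have h4 : (q : ℝ) ≤ 1 := by
        have : q ≤ 1 := by omega
        exact_mod_cast this
      have h5 : 1 + δ ≤ 1 / (1 - δ) := by
        rw [le_div_iff₀ (by linarith)]
        nlinarith
      have h6 : ε1 ≤ δ := le_trans (min_le_right _ _) hδd
      refine le_trans ?_ (le_abs_self _)
      linarith
    · rw [hp1]
      exact le_trans hε1ε (hq q h3)
  · have h3 : e ≤ g * (d / 2) := by
      have h4 : d ^ 2 ≤ d := by nlinarith
      nlinarith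
    rw [div_le_iff₀ hg]
    calc (1 : ℝ) ≤ e * n := hen
      _ ≤ g * (d / 2) * n := mul_le_mul_of_nonneg_right h3 hn0.le
      _ = (d / 2 * n) * g := by ring
      _ ≤ (X.card : ℝ) * g := mul_le_mul_of_nonneg_right hXl hg.le
  · refine le_trans hdeg ?_
    have h3 : n ≤ e * n ^ 2 := by nlinarith
    have h4 : e * n ^ 2 ≤ g * d ^ 2 / 8 * n ^ 2 := mul_le_mul_of_nonneg_right he2 (by positivity)
    have h5 : (d / 2 * n) ^ 2 ≤ (X.card : ℝ) ^ 2 := pow_le_pow_left₀ (by positivity) hXl 2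
    have h6 : g * (d / 2 * n) ^ 2 ≤ g * (X.card : ℝ) ^ 2 := mul_le_mul_of_nonneg_left h5 hg.le
    nlinarith
  · refine le_trans hch ?_
    have h5 : (d / 2 * n) ^ 3 ≤ (X.card : ℝ) ^ 3 := pow_le_pow_left₀ (by positivity) hXl 3
    have h6 : g * (d / 2 * n) ^ 3 ≤ g * (X.card : ℝ) ^ 3 := mul_le_mul_of_nonneg_left h5 hg.le
    have h4 : e * n ^ 3 ≤ g * d ^ 3 / 8 * n ^ 3 := mul_le_mul_of_nonneg_right he3 (by positivity)
    nlinarith

/-- the number of the cherries, all pairs together -/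
private theorem ctop_ch {V : Type} [Fintype V] [DecidableEq V] {H : Finset (Finset V)} {k s : ℕ}
    (hH : ∀ e ∈ H, e.card = k) (hk : 2 ≤ k)
    (h0 : NI H (s + 3) = 0) {δ η D : ℝ} (hδ : δ = (k : ℝ) / ((s : ℝ) + 3)) (hδ1 : δ < 1)
    (hη : 0 ≤ η) (hD : 0 ≤ D)
    (hDf : Df H k (s + 2) ≤ η * ((s : ℝ) + 3) * (Fintype.card V : ℝ) * NI H (s + 2))
    (hK : ∑ S ∈ ind H (s + 2), ∑ x ∈ Sᶜ, ∑ y ∈ Sᶜ, |((kap H S x ∩ kap H S y).card : ℝ) - δ * k| ≤
      D * ((s : ℝ) + 3) * (Fintype.card V : ℝ) ^ 2 * NI H (s + 2)) :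
    ∑ J ∈ ind H (s + 1), ∑ w ∈ J, Ch H J w ≤
      5 * (3 * η + D) / ((1 - δ) * δ) * ((s : ℝ) + 1) * (Fintype.card V : ℝ) ^ 3 *
        NI H (s + 1) := by
  have hk2 : (2 : ℝ) ≤ k := by exact_mod_cast hk
  have hs : (0 : ℝ) ≤ s := Nat.cast_nonneg _
  have hs3 : (0 : ℝ) < (s : ℝ) + 3 := by linarith
  have hδ0 : 0 < δ := by rw [hδ]; positivity
  have hkδ : (k : ℝ) = δ * ((s : ℝ) + 3) := by rw [hδ]; field_simp
  have hn : (0 : ℝ) ≤ (Fintype.card V : ℝ) := Nat.cast_nonneg _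
  have h1 := bad_count hH h0 (t := δ * k) (by nlinarith)
  set n : ℝ := (Fintype.card V : ℝ) with hn'
  set T : ℝ := ∑ J ∈ ind H (s + 1), ∑ w ∈ J, Ch H J w with hT
  have hN2 : 0 ≤ NI H (s + 2) := NI_nonneg H (s + 2)
  have hN1 : 0 ≤ NI H (s + 1) := NI_nonneg H (s + 1)
  have h2 : ((s : ℝ) + 2) * NI H (s + 2) ≤ n * NI H (s + 1) := by
    have h3 := sum_ext_real H (s + 1)
    have h4 : ∑ S ∈ ind H (s + 1), ((ext H S).card : ℝ) ≤ ∑ S ∈ ind H (s + 1), n := by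
      refine sum_le_sum fun S _ => ?_
      have := card_le_univ (ext H S)
      rw [hn']
      exact_mod_cast this
    rw [h3, sum_const, nsmul_eq_mul] at h4
    push_cast at h4
    have h5 : NI H (s + 1) = ((ind H (s + 1)).card : ℝ) := rfl
    rw [← h5] at h4
    have h6 : ((s : ℝ) + 2) * NI H (s + 2) = ((s : ℝ) + 1 + 1) * NI H (s + 1 + 1) := by
      ring_nf
    rw [h6]
    linarith
  have h3 : ((s : ℝ) + 2) ^ 2 * (3 * n * Df H k (s + 2) + ∑ S ∈ ind H (s + 2), ∑ x ∈ Sᶜ,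
      ∑ y ∈ Sᶜ, |((kap H S x ∩ kap H S y).card : ℝ) - δ * k|) ≤
      ((s : ℝ) + 2) * ((s : ℝ) + 3) * (3 * η + D) * n ^ 3 * NI H (s + 1) := by
    have h4 : 3 * n * Df H k (s + 2) ≤ 3 * n * (η * ((s : ℝ) + 3) * n * NI H (s + 2)) :=
      mul_le_mul_of_nonneg_left hDf (by positivity)
    calc ((s : ℝ) + 2) ^ 2 * (3 * n * Df H k (s + 2) + ∑ S ∈ ind H (s + 2), ∑ x ∈ Sᶜ,
          ∑ y ∈ Sᶜ, |((kap H S x ∩ kap H S y).card : ℝ) - δ * k|)
        ≤ ((s : ℝ) + 2) ^ 2 * (3 * n * (η * ((s : ℝ) + 3) * n * NI H (s + 2)) +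
          D * ((s : ℝ) + 3) * n ^ 2 * NI H (s + 2)) :=
          mul_le_mul_of_nonneg_left (by linarith) (by positivity)
      _ = (((s : ℝ) + 2) * ((s : ℝ) + 3) * (3 * η + D) * n ^ 2) *
          (((s : ℝ) + 2) * NI H (s + 2)) := by ring
      _ ≤ (((s : ℝ) + 2) * ((s : ℝ) + 3) * (3 * η + D) * n ^ 2) * (n * NI H (s + 1)) :=
          mul_le_mul_of_nonneg_left h2 (by positivity)
      _ = _ := by ring
  have h4 : (k : ℝ) - δ * k = ((1 - δ) * δ) * ((s : ℝ) + 3) := by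
    rw [hkδ]; ring
  have hden : 0 < (1 - δ) * δ := mul_pos (by linarith) hδ0
  have h5 : (((1 - δ) * δ) * T) * ((s : ℝ) + 3) ≤
      (((s : ℝ) + 2) * (3 * η + D) * n ^ 3 * NI H (s + 1)) * ((s : ℝ) + 3) := by
    calc (((1 - δ) * δ) * T) * ((s : ℝ) + 3) = ((k : ℝ) - δ * k) * T := by rw [h4]; ring
      _ ≤ _ := le_trans h1 h3
      _ = _ := by ring
  have h6 : ((1 - δ) * δ) * T ≤ ((s : ℝ) + 2) * (3 * η + D) * n ^ 3 * NI H (s + 1) :=
    le_of_mul_le_mul_right h5 hs3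
  have h7 : ((s : ℝ) + 2) * (3 * η + D) * n ^ 3 * NI H (s + 1) ≤
      (5 * ((s : ℝ) + 1)) * (3 * η + D) * n ^ 3 * NI H (s + 1) := by
    have h8 : (s : ℝ) + 2 ≤ 5 * ((s : ℝ) + 1) := by linarith
    have h9 : 0 ≤ (3 * η + D) * n ^ 3 * NI H (s + 1) := by positivity
    nlinarith
  calc T = (((1 - δ) * δ) * T) / ((1 - δ) * δ) := by rw [mul_div_cancel_left₀ _ hden.ne']
    _ ≤ ((5 * ((s : ℝ) + 1)) * (3 * η + D) * n ^ 3 * NI H (s + 1)) / ((1 - δ) * δ) :=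
        div_le_div_of_nonneg_right (le_trans h6 h7) hden.le
    _ = _ := by ring

/-- the data of the last levels are contradictory -/
theorem core_top (ε α : ℝ) (hε : 0 < ε) (hα : 1 ≤ α) :
    ∃ η : ℝ, 0 < η ∧ η ≤ 1 ∧ ∀ (V : Type) [Fintype V] [DecidableEq V] (H : Finset (Finset V))
      (k s : ℕ), (∀ e ∈ H, e.card = k) → 2 ≤ k → (1 + ε) * k ≤ (s : ℝ) + 3 →
      (s : ℝ) + 3 ≤ α * k →
      (∀ q : ℕ, 2 ≤ q → ε ≤ |((s : ℝ) + 3) / ((s : ℝ) + 3 - k) - q|) →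
      NI H (s + 3) = 0 → 0 < NI H (s + 1) →
      1 ≤ η * ((s : ℝ) + 3) → (s : ℝ) + 3 ≤ η * (Fintype.card V : ℝ) →
      Df H k (s + 2) ≤ η * ((s : ℝ) + 3) * (Fintype.card V : ℝ) * NI H (s + 2) →
      Sq H (s + 1) ≤ η * (Fintype.card V : ℝ) ^ 2 * NI H (s + 1) →
      Sq H s ≤ η * (Fintype.card V : ℝ) ^ 2 * NI H s →
      |Av H (s + 1) - (k : ℝ) / ((s : ℝ) + 3) * (Fintype.card V : ℝ)| ≤
        η * (Fintype.card V : ℝ) →
      (k : ℝ) / ((s : ℝ) + 3) / 2 * (Fintype.card V : ℝ) ≤ Av H (s + 1) →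
      (k : ℝ) / ((s : ℝ) + 3) / 2 * (Fintype.card V : ℝ) ≤ Av H s →
      ((k : ℝ) / ((s : ℝ) + 3)) ^ 2 * (Fintype.card V : ℝ) - η * (Fintype.card V : ℝ) ≤
        2 * Av H (s + 1) - Av H s →
      False := by
  obtain ⟨e, he, hG⟩ := ctop_graph ε α hε hα
  obtain ⟨η, hη0, hη1, hηe, hN⟩ := ctop_num (1 / α) (ε / (1 + ε)) e (by positivity) (by positivity) he
  refine ⟨η, hη0, hη1, ?_⟩
  intro V _ _ H k s hH hk h1 h2 hq h0 hN1 hM hMn hDf hS1 hS0 hAv hA1 hA0 hD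
  have hk2 : (2 : ℝ) ≤ k := by exact_mod_cast hk
  have hs : (0 : ℝ) ≤ s := Nat.cast_nonneg _
  have hs3 : (0 : ℝ) < (s : ℝ) + 3 := by linarith
  set δ : ℝ := (k : ℝ) / ((s : ℝ) + 3) with hδ
  set n : ℝ := (Fintype.card V : ℝ) with hn'
  have hkm : (k : ℝ) < (s : ℝ) + 3 := by nlinarith
  have hks : k ≤ s + 3 := by
    have : (k : ℝ) ≤ ((s + 3 : ℕ) : ℝ) := by push_cast; linarith
    exact_mod_cast this
  have hδ0 : 0 < δ := by positivity
  have hδd : 1 / α ≤ δ := by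
    rw [hδ, div_le_div_iff₀ (by linarith) hs3]
    linarith
  have hδp : ε / (1 + ε) ≤ 1 - δ := by
    have h3 : δ ≤ 1 / (1 + ε) := by
      rw [hδ, div_le_div_iff₀ hs3 (by linarith)]
      linarith
    have h4 : ε / (1 + ε) = 1 - 1 / (1 + ε) := by field_simp; ring
    linarith
  have hδ1 : δ < 1 := by
    have : 0 < ε / (1 + ε) := by positivity
    linarith
  have hnη : 1 / η ≤ n := by
    rw [div_le_iff₀ hη0]
    linarith
  have hn0 : 0 < n := lt_of_lt_of_le (by positivity) hnη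
  have hA := two_delta hH hk hks h0 hδ hη0.le hη0.le hS1 hS0 hA1 hA0 hD
  have hB := kxy_delta hH hk hks h0 hδ hη0.le hη0.le hS1 hS0 hA1 hA0 hD hDf hM hMn
  set C : ℝ := 19 * η + 32 / δ ^ 2 * √η + 4 * η with hC
  have hC0 : 0 < C := by positivity
  have hB1 := kxy_l1 hC0 hs3 hB
  have hch := ctop_ch hH hk h0 hδ hδ1 hη0.le (Real.sqrt_nonneg C) hDf hB1
  obtain ⟨J, hJ, w, hw, h3, h4, h5⟩ := typ hδ0.le hδ1.le hη0.le
    (by positivity : 0 ≤ 16 / δ ^ 2 * √η + 2 * η) hn0 hN1 hS1 hAv hA hch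
  have hle := hN δ hδd hδ1.le hδp
  rw [← hC] at hle
  have hm : (((s + 3 : ℕ) : ℝ)) = (s : ℝ) + 3 := by push_cast; ring
  refine hG V (ext H J) (Rl H J w) k (s + 3) (fun x y h => Rl_symm h) (by omega) ?_ ?_ ?_ ?_ ?_ ?_ ?_
  · rw [hm]; exact h1
  · rw [hm]; exact h2
  · rw [hm]; exact hq
  · exact le_trans (one_div_le_one_div_of_le hη0 hηe) hnη
  · rw [hm]
    exact le_trans h3 (mul_le_mul_of_nonneg_right hle hn0.le)
  · rw [hm]
    refine le_trans h4 ?_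
    have := mul_le_mul_of_nonneg_right hle (by positivity : 0 ≤ n ^ 2)
    linarith
  · exact le_trans h5 (mul_le_mul_of_nonneg_right hle (by positivity))

end Pool.Agent.DCS
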