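import Pool.Agent.Helper2.DC3

/-!
The exact form of the recursion of de Caen.

`kap H S v` is the set of the `a ∈ S` which lie in every edge contained in `insert v S`. `Bl H s` is the average
number of blocked vertices of an independent `s`-set, `Va H s` the variance of the number of extensions of the
independent `s`-sets divided by the average, `De H r s` the average of `∑ v (r - 1 - |kap v|)`.
-/

namespace Pool.Agent.DCS

open Finset Pool.Agent.Helper2.DC

variable {V : Type} [Fintype V] [DecidableEq V]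

/-- the vertices of `S` which can be exchanged for `v` -/
def kap (H : Finset (Finset V)) (S : Finset V) (v : V) : Finset V :=
  S.filter (fun a => Ind H (insert v (S.erase a)))

theorem mem_kap {H : Finset (Finset V)} {S : Finset V} {v a : V} :
    a ∈ kap H S v ↔ a ∈ S ∧ Ind H (insert v (S.erase a)) := by simp [kap]

theorem mem_kap_iff {H : Finset (Finset V)} {S : Finset V} {v a : V} (hv : v ∉ S) :
    a ∈ kap H S v ↔ a ∈ S ∧ ∀ e ∈ H, e ⊆ insert v S → a ∈ e := by
  rw [mem_kap]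
  constructor
  · rintro ⟨h1, h2⟩
    refine ⟨h1, fun e he hes => ?_⟩
    by_contra hae
    apply h2 e he
    intro y hy
    rcases mem_insert.1 (hes hy) with rfl | hyS
    · exact mem_insert_self _ _
    · exact mem_insert_of_mem (mem_erase.2 ⟨fun h => hae (h ▸ hy), hyS⟩)
  · rintro ⟨h1, h2⟩
    refine ⟨h1, fun e he hes => ?_⟩
    have h3 := h2 e he (hes.trans (insert_subset_insert _ (erase_subset _ _)))
    rcases mem_insert.1 (hes h3) with rfl | h4
    · exact hv h1
    · exact notMem_erase _ _ h4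

theorem kap_card_le {H : Finset (Finset V)} {r : ℕ} (hH : ∀ e ∈ H, e.card = r) {S : Finset V}
    (hS : Ind H S) {v : V} (hv : v ∈ bl H S) : (kap H S v).card + 1 ≤ r := by
  obtain ⟨hvS, hnI⟩ := mem_bl.1 hv
  have : ∃ e ∈ H, e ⊆ insert v S := by
    by_contra hcon; exact hnI (fun e he hes => hcon ⟨e, he, hes⟩)
  obtain ⟨e, he, hes⟩ := this
  have hve : v ∈ e := by
    by_contra hne
    apply hS e he
    intro y hy
    rcases mem_insert.1 (hes hy) with rfl | hyS
    · exact absurd hy hne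
    · exact hyS
  have hsub : kap H S v ⊆ e.erase v := by
    intro a ha
    rw [mem_kap_iff hvS] at ha
    rw [mem_erase]
    exact ⟨fun h => hvS (h ▸ ha.1), ha.2 e he hes⟩
  have h := card_le_card hsub
  rw [card_erase_of_mem hve, hH e he] at h
  have : 0 < e.card := card_pos.2 ⟨v, hve⟩
  rw [hH e he] at this
  omega

/-- the exact local identity -/
theorem local_eq (H : Finset (Finset V)) {S : Finset V} (hS : Ind H S) :
    ∑ a ∈ S, (ext H (S.erase a)).card =
      S.card + S.card * (ext H S).card + ∑ v ∈ bl H S, (kap H S v).card := by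
  classical
  have h1 : ∀ a ∈ S, (ext H (S.erase a)).card =
      1 + (ext H S).card + ((bl H S).filter (fun x => Ind H (insert x (S.erase a)))).card := by
    intro a ha
    have heq : ext H (S.erase a) = insert a (ext H S ∪
        (bl H S).filter (fun x => Ind H (insert x (S.erase a)))) := by
      ext x
      simp only [mem_ext, mem_insert, mem_union, mem_filter, mem_bl]
      constructor
      · rintro ⟨h2, h3⟩
        by_cases hxa : x = a
        · exact Or.inl hxa
        · have hxS : x ∉ S := fun h => h2 (mem_erase.2 ⟨hxa, h⟩)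
          by_cases hI : Ind H (insert x S)
          · exact Or.inr (Or.inl ⟨hxS, hI⟩)
          · exact Or.inr (Or.inr ⟨⟨hxS, hI⟩, h3⟩)
      · rintro (rfl | ⟨h2, h3⟩ | ⟨⟨h2, h3⟩, h4⟩)
        · refine ⟨notMem_erase _ _, ?_⟩
          rw [insert_erase ha]; exact hS
        · exact ⟨fun h => h2 (mem_of_mem_erase h),
            h3.mono (insert_subset_insert _ (erase_subset _ _))⟩
        · exact ⟨fun h => h2 (mem_of_mem_erase h), h4⟩
    have hdis : Disjoint (ext H S) ((bl H S).filter (fun x => Ind H (insert x (S.erase a)))) := by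
      rw [disjoint_left]; intro x hx hx'
      exact (mem_bl.1 (mem_filter.1 hx').1).2 (mem_ext.1 hx).2
    have hna : a ∉ ext H S ∪ (bl H S).filter (fun x => Ind H (insert x (S.erase a))) := by
      rw [mem_union, mem_filter]
      rintro (h | h)
      · exact (mem_ext.1 h).1 ha
      · exact (mem_bl.1 h.1).1 ha
    rw [heq, card_insert_of_notMem hna, card_union_of_disjoint hdis]
    ring
  rw [sum_congr rfl h1, sum_add_distrib, sum_add_distrib]
  simp only [sum_const, smul_eq_mul, mul_one]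
  congr 1
  have h2 : ∑ a ∈ S, ((bl H S).filter (fun x => Ind H (insert x (S.erase a)))).card
      = ∑ x ∈ bl H S, (kap H S x).card := by
    simp only [kap, card_filter]
    rw [sum_comm]
  exact h2

/-- average number of blocked vertices of an independent `s`-set -/
noncomputable def Bl (H : Finset (Finset V)) (s : ℕ) : ℝ :=
  (∑ S ∈ ind H s, ((bl H S).card : ℝ)) / NI H s

/-- average number of extensions of an independent `s`-set -/
noncomputable def Av (H : Finset (Finset V)) (s : ℕ) : ℝ :=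
  (∑ S ∈ ind H s, ((ext H S).card : ℝ)) / NI H s

/-- sum of the squares of the deviations of the number of extensions -/
noncomputable def Sq (H : Finset (Finset V)) (s : ℕ) : ℝ :=
  ∑ Q ∈ ind H s, (((ext H Q).card : ℝ) - Av H s) ^ 2

/-- total defect of the independent `s`-sets -/
noncomputable def Df (H : Finset (Finset V)) (r s : ℕ) : ℝ :=
  ∑ S ∈ ind H s, ∑ v ∈ bl H S, ((r : ℝ) - 1 - ((kap H S v).card : ℝ))

theorem Sq_nonneg (H : Finset (Finset V)) (s : ℕ) : 0 ≤ Sq H s :=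
  sum_nonneg (fun _ _ => sq_nonneg _)

theorem Df_nonneg {H : Finset (Finset V)} {r : ℕ} (hH : ∀ e ∈ H, e.card = r) (s : ℕ) :
    0 ≤ Df H r s := by
  refine sum_nonneg (fun S hS => sum_nonneg (fun v hv => ?_))
  have h := kap_card_le hH (mem_ind.1 hS).2 hv
  have h' : ((kap H S v).card : ℝ) + 1 ≤ (r : ℝ) := by exact_mod_cast h
  linarith

theorem Av_mul {H : Finset (Finset V)} {s : ℕ} (h : 0 < NI H s) :
    Av H s * NI H s = ((s : ℝ) + 1) * NI H (s + 1) := by
  unfold Av
  rw [div_mul_cancel₀ _ h.ne', sum_ext_real]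

theorem Bl_eq {H : Finset (Finset V)} {s : ℕ} (h : 0 < NI H s) :
    Bl H s = (Fintype.card V : ℝ) - s - Av H s := by
  unfold Bl Av
  have h1 : ∑ S ∈ ind H s, ((bl H S).card : ℝ) =
      ∑ S ∈ ind H s, ((Fintype.card V : ℝ) - s - ((ext H S).card : ℝ)) := by
    refine sum_congr rfl (fun S hS => ?_)
    have h2 := card_split H S
    rw [(mem_ind.1 hS).1] at h2
    rw [← h2]; push_cast; ring
  rw [h1, sum_sub_distrib, sum_const, nsmul_eq_mul]
  change (NI H s * _ - _) / _ = _
  field_simp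

theorem Bl_nonneg (H : Finset (Finset V)) (s : ℕ) : 0 ≤ Bl H s :=
  div_nonneg (sum_nonneg (fun _ _ => Nat.cast_nonneg _)) (NI_nonneg H s)

/-- the sum of the squares of the numbers of extensions -/
theorem sum_sq_eq (H : Finset (Finset V)) (r s : ℕ) :
    ∑ Q ∈ ind H s, ((ext H Q).card : ℝ) ^ 2 =
      ((s : ℝ) + 1) * NI H (s + 1) + ((s : ℝ) + 1) * ∑ S ∈ ind H (s + 1), ((ext H S).card : ℝ) +
        (((r : ℝ) - 1) * ∑ S ∈ ind H (s + 1), ((bl H S).card : ℝ) - Df H r (s + 1)) := by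
  have e2 : ∑ Q ∈ ind H s, ((ext H Q).card : ℝ)^2
      = ∑ S ∈ ind H (s+1), ∑ a ∈ S, ((ext H (S.erase a)).card : ℝ) := by
    rw [← sum_ext H s (fun Q _ => ((ext H Q).card : ℝ))]
    refine sum_congr rfl (fun Q _ => ?_)
    rw [sum_const, nsmul_eq_mul, sq]
  have e3 : ∀ S ∈ ind H (s+1), ∑ a ∈ S, ((ext H (S.erase a)).card : ℝ) =
      ((s:ℝ)+1) + ((s:ℝ)+1) * ((ext H S).card : ℝ) + (((r:ℝ)-1) * ((bl H S).card : ℝ) -
        ∑ v ∈ bl H S, ((r : ℝ) - 1 - ((kap H S v).card : ℝ))) := by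
    intro S hS
    obtain ⟨h1, h2⟩ := mem_ind.1 hS
    have h3 := local_eq H h2
    rw [h1] at h3
    have h4 : ∑ a ∈ S, ((ext H (S.erase a)).card : ℝ) =
        ((s:ℝ)+1) + ((s:ℝ)+1) * ((ext H S).card : ℝ) + ∑ v ∈ bl H S, ((kap H S v).card : ℝ) := by
      exact_mod_cast h3
    rw [h4, sum_sub_distrib, sum_const, nsmul_eq_mul]
    ring
  rw [e2, sum_congr rfl e3]
  unfold Df NI
  rw [sum_add_distrib, sum_add_distrib, sum_sub_distrib, ← mul_sum, ← mul_sum]
  simp only [sum_const, nsmul_eq_mul]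
  ring

/-- the exact recursion: `V_j = Sq / (Av N)`, `Def_j = Df / N_j`, `j = s + 1` -/
theorem rec_eq {H : Finset (Finset V)} (r : ℕ) {s : ℕ} (hN : 0 < NI H (s + 1)) :
    ((s : ℝ) + 1) * Bl H s = ((s : ℝ) + 2 - r) * Bl H (s + 1) +
      Sq H s / NI H (s + 1) + Df H r (s + 1) / NI H (s + 1) := by
  obtain ⟨hN0, hn⟩ := ind_nonempty_of_succ hN
  have hA := Av_mul hN0
  have hA1 : ∑ S ∈ ind H (s + 1), ((ext H S).card : ℝ) = Av H (s + 1) * NI H (s + 1) := by
    unfold Av; rw [div_mul_cancel₀ _ hN.ne']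
  have hB1 : ∑ S ∈ ind H (s + 1), ((bl H S).card : ℝ) = Bl H (s + 1) * NI H (s + 1) := by
    unfold Bl; rw [div_mul_cancel₀ _ hN.ne']
  have hsq := sum_sq_eq H r s
  rw [hA1, hB1] at hsq
  have hS : Sq H s = ∑ Q ∈ ind H s, ((ext H Q).card : ℝ) ^ 2 - NI H s * Av H s ^ 2 := by
    unfold Sq
    have h0 : ∑ Q ∈ ind H s, ((ext H Q).card : ℝ) = Av H s * NI H s := by
      unfold Av; rw [div_mul_cancel₀ _ hN0.ne']
    have h1 : ∑ Q ∈ ind H s, (((ext H Q).card : ℝ) - Av H s) ^ 2 =
        ∑ Q ∈ ind H s, ((ext H Q).card : ℝ) ^ 2 -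
          2 * Av H s * ∑ Q ∈ ind H s, ((ext H Q).card : ℝ) + NI H s * Av H s ^ 2 := by
      have h2 : NI H s * Av H s ^ 2 = ∑ Q ∈ ind H s, Av H s ^ 2 := by
        rw [sum_const, nsmul_eq_mul]; rfl
      rw [h2, mul_sum, ← sum_sub_distrib, ← sum_add_distrib]
      exact sum_congr rfl (fun Q _ => by ring)
    rw [h1, h0]; ring
  have e1 : NI H s * Av H s ^ 2 = ((s : ℝ) + 1) * NI H (s + 1) * Av H s := by
    rw [← hA]; ring
  have hb0 := Bl_eq hN0
  have hb1 := Bl_eq hN
  push_cast at hb1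
  have hAv0 : Av H s = (Fintype.card V : ℝ) - s - Bl H s := by linarith
  have hAv1 : Av H (s + 1) = (Fintype.card V : ℝ) - ((s : ℝ) + 1) - Bl H (s + 1) := by linarith
  rw [e1, hsq, hAv0, hAv1] at hS
  rw [← sub_eq_zero]
  have key : NI H (s + 1) * (((s : ℝ) + 1) * Bl H s - (((s : ℝ) + 2 - r) * Bl H (s + 1) +
      Sq H s / NI H (s + 1) + Df H r (s + 1) / NI H (s + 1))) = 0 := by
    have : NI H (s + 1) * (((s : ℝ) + 1) * Bl H s - (((s : ℝ) + 2 - r) * Bl H (s + 1) +
      Sq H s / NI H (s + 1) + Df H r (s + 1) / NI H (s + 1))) =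
      NI H (s + 1) * (((s : ℝ) + 1) * Bl H s - ((s : ℝ) + 2 - r) * Bl H (s + 1)) -
        Sq H s - Df H r (s + 1) := by
      field_simp
      ring
    rw [this, hS]
    ring
  exact (mul_eq_zero.1 key).resolve_left hN.ne'

/-- the loss at the step from `s` to `s + 1` -/
noncomputable def Ls (H : Finset (Finset V)) (r s : ℕ) : ℝ :=
  (Sq H s + Df H r (s + 1)) / (((s : ℝ) + 1) * NI H (s + 1))

theorem Ls_nonneg {H : Finset (Finset V)} {r : ℕ} (hH : ∀ e ∈ H, e.card = r) (s : ℕ) :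
    0 ≤ Ls H r s := by
  have h1 := Sq_nonneg H s
  have h2 := Df_nonneg hH (s + 1)
  have h3 := NI_nonneg H (s + 1)
  unfold Ls
  positivity

/-- one step, normalised -/
theorem step_eq {H : Finset (Finset V)} {r s : ℕ} (hr : 1 ≤ r) (hs : r - 1 ≤ s)
    (hN : 0 < NI H (s + 1)) :
    Bl H s / (s.choose (r - 1) : ℝ) = Bl H (s + 1) / ((s + 1).choose (r - 1) : ℝ) +
      Ls H r s / (s.choose (r - 1) : ℝ) := by
  have h := rec_eq r hN
  have hc0 : (0:ℝ) < (s.choose (r-1) : ℝ) := by exact_mod_cast Nat.choose_pos hs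
  have hc1 : (0:ℝ) < ((s+1).choose (r-1) : ℝ) := by exact_mod_cast Nat.choose_pos (by omega)
  have hs1 : (0:ℝ) < (s:ℝ) + 1 := by positivity
  have hid : ((s+1).choose (r-1) : ℝ) * ((s:ℝ)+2-r) = ((s:ℝ)+1) * (s.choose (r-1) : ℝ) := by
    have h1 := Nat.choose_mul_succ_eq s (r-1)
    have h2 : ((s + 1 - (r-1) : ℕ) : ℝ) = (s:ℝ)+2-r := by
      rw [Nat.cast_sub (by omega), Nat.cast_sub hr]; push_cast; ring
    rw [← h2]
    have h3 : ((s.choose (r-1) * (s+1) : ℕ) : ℝ) = (((s+1).choose (r-1) * (s+1-(r-1)) : ℕ) : ℝ) := by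
      rw [h1]
    push_cast at h3 ⊢
    linarith
  have hL : Ls H r s = (Sq H s / NI H (s + 1) + Df H r (s + 1) / NI H (s + 1)) / ((s : ℝ) + 1) := by
    unfold Ls
    field_simp
  have hB : Bl H s = ((s : ℝ) + 2 - r) / ((s : ℝ) + 1) * Bl H (s + 1) + Ls H r s := by
    rw [hL, div_mul_eq_mul_div, ← add_div, eq_div_iff hs1.ne']
    linarith
  rw [hB, add_div]
  congr 1
  rw [div_eq_div_iff hc0.ne' hc1.ne']
  have h5 : ((s : ℝ) + 2 - r) / ((s : ℝ) + 1) * Bl H (s + 1) * ((s+1).choose (r-1) : ℝ) =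
      Bl H (s + 1) * (((s+1).choose (r-1) : ℝ) * ((s:ℝ)+2-r)) / ((s : ℝ) + 1) := by
    field_simp
  rw [h5, hid]
  field_simp

/-- the exact bound of de Caen: for `M ≥ r - 1` with `N_M > 0` -/
theorem unrolled {H : Finset (Finset V)} {r : ℕ} (hr : 1 ≤ r) {s M : ℕ} (hs : r - 1 ≤ s)
    (hsM : s ≤ M) (hN : 0 < NI H M) :
    Bl H s / (s.choose (r - 1) : ℝ) = Bl H M / (M.choose (r - 1) : ℝ) +
      ∑ j ∈ Ico s M, Ls H r j / (j.choose (r - 1) : ℝ) := by
  induction M, hsM using Nat.le_induction with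
  | base => simp
  | succ M hsM ih =>
    have h1 := ih (ind_nonempty_of_succ hN).1
    rw [h1, step_eq hr (hs.trans hsM) hN, sum_Ico_succ_top hsM]
    ring

/-- the first term -/
theorem Bl_init {H : Finset (Finset V)} {k : ℕ} (hH : ∀ e ∈ H, e.card = k + 1)
    (hn : k + 1 ≤ Fintype.card V) :
    Bl H k = ((Fintype.card V : ℝ) - k) * ((H.card : ℝ) / ((Fintype.card V).choose (k + 1) : ℝ)) := by
  have h1 := NI_of_lt hH (Nat.lt_succ_self k)
  have h2 := NI_r hH
  have hN : 0 < NI H k := by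
    rw [h1]; exact_mod_cast Nat.choose_pos (by omega)
  have hc1 : (0:ℝ) < ((Fintype.card V).choose (k+1) : ℝ) := by
    exact_mod_cast Nat.choose_pos hn
  have hA := Av_mul hN
  rw [Bl_eq hN]
  have h3 : ((k:ℝ)+1) * ((Fintype.card V).choose (k+1) : ℝ) =
      ((Fintype.card V : ℝ) - k) * ((Fintype.card V).choose k : ℝ) := by
    have := Nat.choose_succ_right_eq (Fintype.card V) k
    have h4 : (((Fintype.card V).choose (k+1) * (k+1) : ℕ) : ℝ) =
        (((Fintype.card V).choose k * (Fintype.card V-k) : ℕ) : ℝ) := by rw [this]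
    push_cast [Nat.cast_sub (show k ≤ Fintype.card V by omega)] at h4
    linarith
  rw [h1] at hN hA
  rw [h2] at hA
  have hAv : Av H k = ((k:ℝ)+1) * (((Fintype.card V).choose (k+1) : ℝ) - (H.card : ℝ)) /
      ((Fintype.card V).choose k : ℝ) := by
    rw [eq_div_iff hN.ne']; exact hA
  rw [hAv]
  rw [mul_sub, h3, sub_div, mul_div_assoc, div_self hN.ne', mul_one]
  have h5 : ((k:ℝ)+1) * (H.card : ℝ) / ((Fintype.card V).choose k : ℝ) =
      ((Fintype.card V : ℝ) - k) * ((H.card : ℝ) / ((Fintype.card V).choose (k + 1) : ℝ)) := by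
    rw [mul_div_assoc', div_eq_div_iff hN.ne' hc1.ne']
    linear_combination (H.card : ℝ) * h3
  linarith

/-- if there is no independent set of size `M + 1` then every vertex is blocked -/
theorem Bl_top {H : Finset (Finset V)} {M : ℕ} (hN : 0 < NI H M) (h0 : NI H (M + 1) = 0) :
    Bl H M = (Fintype.card V : ℝ) - M := by
  rw [Bl_eq hN]
  have h := Av_mul hN
  rw [h0, mul_zero] at h
  rcases mul_eq_zero.1 h with h1 | h1
  · rw [h1]; ring
  · exact absurd h1 hN.ne'

/-- the loss of every step is small if `H` has few edges -/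
theorem Ls_le {H : Finset (Finset V)} {k M : ℕ} (hH : ∀ e ∈ H, e.card = k + 1) {c : ℝ}
    (hn : k + 1 ≤ Fintype.card V) (hN : 0 < NI H M) (h0 : NI H (M + 1) = 0)
    (hd : (H.card : ℝ) / ((Fintype.card V).choose (k + 1) : ℝ) ≤ (1 + c) / (M.choose k : ℝ))
    {j : ℕ} (hj : k ≤ j) (hjM : j < M) :
    Ls H (k + 1) j ≤ (c * ((Fintype.card V : ℝ) - k) + ((M : ℝ) - k)) *
      ((j.choose k : ℝ) / (M.choose k : ℝ)) := by
  have hkM : k ≤ M := hj.trans hjM.le
  have hu := unrolled (H := H) (r := k + 1) (by omega) (s := k) (M := M) (by simp) hkM hN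
  have e : k + 1 - 1 = k := by omega
  rw [e, Nat.choose_self, Nat.cast_one, div_one, Bl_init hH hn, Bl_top hN h0] at hu
  have hcM : (0:ℝ) < (M.choose k : ℝ) := by exact_mod_cast Nat.choose_pos hkM
  have hcj : (0:ℝ) < (j.choose k : ℝ) := by exact_mod_cast Nat.choose_pos hj
  have hterm : Ls H (k + 1) j / (j.choose k : ℝ) ≤
      ∑ i ∈ Ico k M, Ls H (k + 1) i / (i.choose k : ℝ) :=
    single_le_sum (f := fun i => Ls H (k + 1) i / (i.choose k : ℝ))
      (fun i _ => div_nonneg (Ls_nonneg hH i) (Nat.cast_nonneg _)) (mem_Ico.2 ⟨hj, hjM⟩)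
  have hnk : (0:ℝ) ≤ (Fintype.card V : ℝ) - k := by
    have : (k:ℝ) + 1 ≤ (Fintype.card V : ℝ) := by exact_mod_cast hn
    linarith
  have h1 := mul_le_mul_of_nonneg_left hd hnk
  have h2 : Ls H (k + 1) j / (j.choose k : ℝ) ≤
      (c * ((Fintype.card V : ℝ) - k) + ((M : ℝ) - k)) / (M.choose k : ℝ) := by
    have h3 : ((Fintype.card V : ℝ) - k) * ((1 + c) / (M.choose k : ℝ)) -
        ((Fintype.card V : ℝ) - M) / (M.choose k : ℝ) =
        (c * ((Fintype.card V : ℝ) - k) + ((M : ℝ) - k)) / (M.choose k : ℝ) := by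
      field_simp
      ring
    linarith
  rw [div_le_iff₀ hcj] at h2
  refine h2.trans (le_of_eq ?_)
  ring

end Pool.Agent.DCS
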