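import Pool.Agent.DCS.Sqr
import Pool.Agent.DCS.Kxy

/-!
# DCS-Kxl: linear bound for the second moment of `|kap x ∩ kap y|`
-/

open Finset Pool.Agent.Helper2.DC

namespace Pool.Agent.DCS

variable {V : Type} [Fintype V] [DecidableEq V]

/-- the second moment of `|kap x ∩ kap y| - t`, one set `S`, in terms of the second moment of `f - φ` -/
theorem kxl_point {H : Finset (Finset V)} {k s : ℕ} (hH : ∀ e ∈ H, e.card = k) (hk : 2 ≤ k)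
    {S : Finset V} (hS : S ∈ ind H (s + 2)) (hE : ext H S = ∅) {t φ : ℝ} (ht : 0 ≤ t)
    (hφ : 0 ≤ φ)
    (hφP : (Fintype.card V : ℝ) * (((k : ℝ) - 1) * ((k : ℝ) - 2)) ≤
      ((s : ℝ) + 2) * ((s : ℝ) + 1) * φ) :
    ∑ x ∈ Sᶜ, ∑ y ∈ Sᶜ, (((kap H S x ∩ kap H S y).card : ℝ) - t) ^ 2 ≤
      ((s : ℝ) + 2) * (Fintype.card V : ℝ) ^ 2 + ((s : ℝ) + 2) * ((s : ℝ) + 1) * φ ^ 2 +
      ∑ w ∈ S, ∑ w' ∈ S.erase w, (((Bw H S w ∩ Bw H S w').card : ℝ) - φ) ^ 2 -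
      2 * t * (((Fintype.card V : ℝ) * k) ^ 2 - 2 * ((Fintype.card V : ℝ) * k) *
        ((Fintype.card V : ℝ) + ((s : ℝ) + 2) * ((k : ℝ) - 1) +
          ∑ v ∈ bl H S, ((k : ℝ) - 1 - ((kap H S v).card : ℝ)))) / ((s : ℝ) + 2) +
      t ^ 2 * (Fintype.card V : ℝ) ^ 2 := by
  obtain ⟨hSc, hSI⟩ := mem_ind.1 hS
  have hScR : (S.card : ℝ) = (s : ℝ) + 2 := by
    rw [hSc]
    push_cast
    ring
  have hs2 : (0 : ℝ) < (s : ℝ) + 2 := by positivity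
  have hn : (0 : ℝ) ≤ (Fintype.card V : ℝ) := Nat.cast_nonneg _
  have hcard : ∀ w ∈ S, ((S.erase w).card : ℝ) = (s : ℝ) + 1 := by
    intro w hw
    have h := card_erase_add_one hw
    rw [hSc] at h
    have h' : (S.erase w).card = s + 1 := by omega
    rw [h']
    push_cast
    ring
  -- expansion
  have e1 : ∑ x ∈ Sᶜ, ∑ y ∈ Sᶜ, (((kap H S x ∩ kap H S y).card : ℝ) - t) ^ 2 =
      ∑ w ∈ S, ∑ w' ∈ S, ((Bw H S w ∩ Bw H S w').card : ℝ) ^ 2 -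
        2 * t * ∑ w ∈ S, ((Bw H S w).card : ℝ) ^ 2 + t ^ 2 * ((Sᶜ.card : ℝ) ^ 2) := by
    rw [← kxy_sq, ← kxy_fst, mul_sum]
    have e0 : t ^ 2 * ((Sᶜ.card : ℝ) ^ 2) = ∑ _x ∈ Sᶜ, ∑ _y ∈ Sᶜ, t ^ 2 := by
      simp only [sum_const, nsmul_eq_mul]
      ring
    rw [e0, ← sum_sub_distrib, ← sum_add_distrib]
    refine sum_congr rfl fun x _ => ?_
    rw [mul_sum, ← sum_sub_distrib, ← sum_add_distrib]
    exact sum_congr rfl fun y _ => by ring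
  -- the diagonal and the rest
  have hBn : ∀ A : Finset V, (A.card : ℝ) ≤ (Fintype.card V : ℝ) := fun A => by
    exact_mod_cast card_le_univ A
  have h2 : ∀ w ∈ S, ∑ w' ∈ S, ((Bw H S w ∩ Bw H S w').card : ℝ) ^ 2 ≤
      (Fintype.card V : ℝ) ^ 2 +
        ∑ w' ∈ S.erase w, ((Bw H S w ∩ Bw H S w').card : ℝ) ^ 2 := by
    intro w hw
    rw [← add_sum_erase S _ hw]
    have h3 : ((Bw H S w ∩ Bw H S w).card : ℝ) ^ 2 ≤ (Fintype.card V : ℝ) ^ 2 :=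
      pow_le_pow_left₀ (Nat.cast_nonneg _) (hBn _) 2
    linarith
  have h3 := sum_le_sum h2
  rw [sum_add_distrib, sum_const, nsmul_eq_mul, hScR] at h3
  have h3' : ∑ w ∈ S, ∑ w' ∈ S.erase w, ((Bw H S w ∩ Bw H S w').card : ℝ) ^ 2 =
      ∑ w ∈ S, ∑ w' ∈ S.erase w, (((Bw H S w ∩ Bw H S w').card : ℝ) - φ) ^ 2 +
        2 * φ * ∑ w ∈ S, ∑ w' ∈ S.erase w, ((Bw H S w ∩ Bw H S w').card : ℝ) -
        ((s : ℝ) + 2) * (((s : ℝ) + 1) * φ ^ 2) := by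
    have e2 : ((s : ℝ) + 2) * (((s : ℝ) + 1) * φ ^ 2) = ∑ w ∈ S, ∑ _w' ∈ S.erase w, φ ^ 2 := by
      have h4 : ∀ w ∈ S, ∑ _w' ∈ S.erase w, φ ^ 2 = ((s : ℝ) + 1) * φ ^ 2 := by
        intro w hw
        rw [sum_const, nsmul_eq_mul, hcard w hw]
      rw [sum_congr rfl h4, sum_const, nsmul_eq_mul, hScR]
    rw [e2, mul_sum, ← sum_add_distrib, ← sum_sub_distrib]
    refine sum_congr rfl fun w _ => ?_
    rw [mul_sum, ← sum_add_distrib, ← sum_sub_distrib]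
    exact sum_congr rfl fun w' _ => by ring
  have h3'' : 2 * φ * ∑ w ∈ S, ∑ w' ∈ S.erase w, ((Bw H S w ∩ Bw H S w').card : ℝ) ≤
      2 * φ * (((s : ℝ) + 2) * ((s : ℝ) + 1) * φ) :=
    mul_le_mul_of_nonneg_left ((inter_sum_le hH hk hSI hE).trans hφP) (by positivity)
  -- the first moment from below
  have hT := kxy_def k hE
  rw [hScR] at hT
  have h4 := sq_sum_le_card_mul_sum_sq (s := S) (f := fun w => ((Bw H S w).card : ℝ))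
  rw [hT, hScR] at h4
  set d : ℝ := ∑ v ∈ bl H S, ((k : ℝ) - 1 - ((kap H S v).card : ℝ)) with hd
  set n : ℝ := (Fintype.card V : ℝ) with hn'
  set B : ℝ := ∑ w ∈ S, ((Bw H S w).card : ℝ) ^ 2 with hB
  have h5 : (n * k) ^ 2 - 2 * (n * k) * (n + ((s : ℝ) + 2) * ((k : ℝ) - 1) + d) ≤
      ((s : ℝ) + 2) * B := by
    refine le_trans ?_ h4
    have h6 := sq_nonneg (n + ((s : ℝ) + 2) * ((k : ℝ) - 1) + d)
    nlinarith
  have h6 : 2 * t * ((n * k) ^ 2 - 2 * (n * k) * (n + ((s : ℝ) + 2) * ((k : ℝ) - 1) + d)) /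
      ((s : ℝ) + 2) ≤ 2 * t * B := by
    rw [div_le_iff₀ hs2]
    have := mul_le_mul_of_nonneg_left h5 (show (0 : ℝ) ≤ 2 * t by positivity)
    linarith
  have h7 : (Sᶜ.card : ℝ) ^ 2 ≤ n ^ 2 := pow_le_pow_left₀ (Nat.cast_nonneg _) (hBn _) 2
  have h8 := mul_le_mul_of_nonneg_left h7 (sq_nonneg t)
  rw [e1]
  linarith

/-- the second moment, one set `S`: `m = s + 3`, `δ = k / m` -/
theorem kxl_point' {H : Finset (Finset V)} {k s : ℕ} (hH : ∀ e ∈ H, e.card = k) (hk : 2 ≤ k)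
    (hks : k ≤ s + 3) (hn1 : 0 < (Fintype.card V : ℝ)) {S : Finset V}
    (hS : S ∈ ind H (s + 2)) (hE : ext H S = ∅) {δ : ℝ}
    (hδ : δ = (k : ℝ) / ((s : ℝ) + 3)) :
    ∑ x ∈ Sᶜ, ∑ y ∈ Sᶜ, (((kap H S x ∩ kap H S y).card : ℝ) - δ * k) ^ 2 ≤
      ((s : ℝ) + 3) * (Fintype.card V : ℝ) ^ 2 +
      ∑ w ∈ S, ∑ w' ∈ S.erase w,
        (((Bw H S w ∩ Bw H S w').card : ℝ) - δ ^ 2 * (Fintype.card V : ℝ)) ^ 2 +
      6 * ((s : ℝ) + 3) * (Fintype.card V : ℝ) * ((Fintype.card V : ℝ) + ((s : ℝ) + 3) ^ 2 +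
        ∑ v ∈ bl H S, ((k : ℝ) - 1 - ((kap H S v).card : ℝ))) := by
  have hk2 : (2 : ℝ) ≤ k := by exact_mod_cast hk
  have hks2 : (k : ℝ) ≤ (s : ℝ) + 3 := by exact_mod_cast hks
  have hs : (0 : ℝ) ≤ s := Nat.cast_nonneg _
  have hδ0 : 0 < δ := by rw [hδ]; positivity
  have hδ1 : δ ≤ 1 := by rw [hδ, div_le_one (by linarith)]; exact hks2
  have hkM : (k : ℝ) = δ * ((s : ℝ) + 3) := by rw [hδ]; field_simp
  have hd : 0 ≤ ∑ v ∈ bl H S, ((k : ℝ) - 1 - ((kap H S v).card : ℝ)) := by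
    refine sum_nonneg fun v hv => ?_
    have h := kap_card_le hH (mem_ind.1 hS).2 hv
    have h' : ((kap H S v).card : ℝ) + 1 ≤ k := by exact_mod_cast h
    linarith
  have hφP := phi_le hk hks hn1.le
  rw [← hδ, add_zero] at hφP
  have h1 := kxl_point hH hk hS hE (t := δ * k) (φ := δ ^ 2 * (Fintype.card V : ℝ))
    (by positivity) (by positivity) hφP
  set Q : ℝ := ∑ w ∈ S, ∑ w' ∈ S.erase w,
        (((Bw H S w ∩ Bw H S w').card : ℝ) - δ ^ 2 * (Fintype.card V : ℝ)) ^ 2 with hQ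
  have h2 := kxy_arith (M := (s : ℝ) + 3) (δ := δ) (n := (Fintype.card V : ℝ))
    (E := Q / (2 * (Fintype.card V : ℝ)))
    (d := ∑ v ∈ bl H S, ((k : ℝ) - 1 - ((kap H S v).card : ℝ))) (k := (k : ℝ))
    (by linarith) hδ1 hn1.le hkM (by linarith) hd
  have e1 : (s : ℝ) + 3 - 1 = (s : ℝ) + 2 := by ring
  have e2 : (s : ℝ) + 3 - 2 = (s : ℝ) + 1 := by ring
  have e3 : 2 * (Fintype.card V : ℝ) * (Q / (2 * (Fintype.card V : ℝ))) = Q := by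
    field_simp
  rw [e1, e2, e3] at h2
  exact h1.trans h2

/-- the second moment, summed over the independent sets of size `s + 2`, linear form -/
theorem kxl_delta {H : Finset (Finset V)} {k s : ℕ} (hH : ∀ e ∈ H, e.card = k) (hk : 2 ≤ k)
    (hks : k ≤ s + 3) (h0 : NI H (s + 3) = 0) (hN2 : 0 < NI H (s + 2)) {δ η c : ℝ}
    (hδ : δ = (k : ℝ) / ((s : ℝ) + 3)) (hη : 0 ≤ η) (hc : 0 ≤ c)
    (hV : Sq H (s + 1) ≤ η * (Fintype.card V : ℝ) ^ 2 * NI H (s + 1))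
    (hV' : Sq H s ≤ η * (Fintype.card V : ℝ) ^ 2 * NI H s)
    (hA : δ / 2 * (Fintype.card V : ℝ) ≤ Av H (s + 1))
    (hA' : δ / 2 * (Fintype.card V : ℝ) ≤ Av H s)
    (hD : δ ^ 2 * (Fintype.card V : ℝ) - c * (Fintype.card V : ℝ) ≤
      2 * Av H (s + 1) - Av H s)
    (hDf : Df H k (s + 2) ≤ η * ((s : ℝ) + 3) * (Fintype.card V : ℝ) * NI H (s + 2))
    (hM : 1 ≤ η * ((s : ℝ) + 3)) (hMn : (s : ℝ) + 3 ≤ η * (Fintype.card V : ℝ)) :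
    ∑ S ∈ ind H (s + 2), ∑ x ∈ Sᶜ, ∑ y ∈ Sᶜ,
        (((kap H S x ∩ kap H S y).card : ℝ) - δ * k) ^ 2 ≤
      (19 * η + (208 / δ ^ 2 * η + 18 * c)) * ((s : ℝ) + 3) ^ 2 *
        (Fintype.card V : ℝ) ^ 2 * NI H (s + 2) := by
  have hk2 : (2 : ℝ) ≤ k := by exact_mod_cast hk
  have hs : (0 : ℝ) ≤ s := Nat.cast_nonneg _
  have hδ0 : 0 < δ := by rw [hδ]; positivity
  have hn1 : 0 < (Fintype.card V : ℝ) := by
    by_contra hcon
    have h1 : (Fintype.card V : ℝ) ≤ 0 := not_lt.1 hcon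
    have h2 : η * (Fintype.card V : ℝ) ≤ 0 := mul_nonpos_of_nonneg_of_nonpos hη h1
    linarith
  have h1 := sum_le_sum fun S (hS : S ∈ ind H (s + 2)) =>
    kxl_point' hH hk hks hn1 hS (ext_empty h0 hS) hδ
  refine h1.trans ?_
  have e1 : ∑ S ∈ ind H (s + 2), (((s : ℝ) + 3) * (Fintype.card V : ℝ) ^ 2 +
      ∑ w ∈ S, ∑ w' ∈ S.erase w,
        (((Bw H S w ∩ Bw H S w').card : ℝ) - δ ^ 2 * (Fintype.card V : ℝ)) ^ 2 +
      6 * ((s : ℝ) + 3) * (Fintype.card V : ℝ) * ((Fintype.card V : ℝ) + ((s : ℝ) + 3) ^ 2 +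
        ∑ v ∈ bl H S, ((k : ℝ) - 1 - ((kap H S v).card : ℝ)))) =
      NI H (s + 2) * (((s : ℝ) + 3) * (Fintype.card V : ℝ) ^ 2) +
      ∑ S ∈ ind H (s + 2), ∑ w ∈ S, ∑ w' ∈ S.erase w,
        (((Bw H S w ∩ Bw H S w').card : ℝ) - δ ^ 2 * (Fintype.card V : ℝ)) ^ 2 +
      6 * ((s : ℝ) + 3) * (Fintype.card V : ℝ) *
        (NI H (s + 2) * ((Fintype.card V : ℝ) + ((s : ℝ) + 3) ^ 2) + Df H k (s + 2)) := by
    rw [sum_add_distrib, sum_add_distrib, sum_const, nsmul_eq_mul, ← mul_sum,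
      sum_add_distrib, sum_const, nsmul_eq_mul]
    rfl
  rw [e1]
  obtain ⟨h2, -, -⟩ := two_sq hH hk hks h0 hN2 hδ hη hc hV hV' hA hA' hD
  set n : ℝ := (Fintype.card V : ℝ)
  set N : ℝ := NI H (s + 2)
  set M : ℝ := (s : ℝ) + 3 with hMdef
  have hM0 : 0 < M := by positivity
  have h3 : (208 / δ ^ 2 * η + 18 * c) * n ^ 2 * (((s : ℝ) + 2) * ((s : ℝ) + 1) * N) ≤
      (208 / δ ^ 2 * η + 18 * c) * M ^ 2 * n ^ 2 * N := by
    have h4 : ((s : ℝ) + 2) * ((s : ℝ) + 1) ≤ M ^ 2 := by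
      rw [hMdef]
      nlinarith
    have h5 := mul_le_mul_of_nonneg_left h4
      (show 0 ≤ (208 / δ ^ 2 * η + 18 * c) * n ^ 2 * N by positivity)
    linarith
  have h5 : N * (M * n ^ 2) ≤ η * M ^ 2 * n ^ 2 * N := by
    have := mul_le_mul_of_nonneg_right hM (show (0 : ℝ) ≤ M * n ^ 2 * N by positivity)
    linarith
  have h6 : N * M ^ 2 * (M * n) ≤ η * M ^ 2 * n ^ 2 * N * 1 := by
    have := mul_le_mul_of_nonneg_right hMn (show (0 : ℝ) ≤ N * M ^ 2 * n by positivity)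
    linarith
  have h7 : 6 * M * n * Df H k (s + 2) ≤ 6 * M * n * (η * M * n * N) :=
    mul_le_mul_of_nonneg_left hDf (by positivity)
  have h8 : 6 * M * n * (N * (n + M ^ 2) + Df H k (s + 2)) =
      6 * (N * (M * n ^ 2)) + 6 * (N * M ^ 2 * (M * n)) + 6 * M * n * Df H k (s + 2) := by ring
  rw [h8]
  have h9 : (19 * η + (208 / δ ^ 2 * η + 18 * c)) * M ^ 2 * n ^ 2 * N =
      19 * (η * M ^ 2 * n ^ 2 * N) + (208 / δ ^ 2 * η + 18 * c) * M ^ 2 * n ^ 2 * N := by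
    ring
  rw [h9]
  linarith

end Pool.Agent.DCS
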