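import Pool.Agent.DCS.Fin
import Pool.Agent.DCS.Core
import Pool.Agent.DCS.Bridge

/-!
The bound of de Caen is off by a constant factor which does not depend on `k`,
for all ratios `m / k` bounded away from `1` and from the numbers `q / (q - 1)`.
-/

namespace Pool.Agent.DCS

open Pool.Agent.Helper1.Turan

theorem final_S :
    (∀ ε : ℝ, 0 < ε → ∃ c : ℝ, 0 < c ∧ ∀ k m : ℕ, 3 ≤ k → (1 + ε) * (k : ℝ) ≤ (m : ℝ) →
      (∀ q : ℕ, 2 ≤ q → ε ≤ |(m : ℝ) / ((m : ℝ) - (k : ℝ)) - (q : ℝ)|) →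
      Filter.Tendsto (fun n : ℕ => (exNum k m n : ℝ) / (n.choose k : ℝ)) Filter.atTop
        (nhds (turanDensity k m)) ∧
      (1 + c) / ((m - 1).choose (k - 1) : ℝ) ≤ 1 - turanDensity k m) ∧
    (∀ ε : ℝ, 0 < ε → ∃ c : ℝ, 0 < c ∧ ∀ k m : ℕ, 3 ≤ k → (2 + ε) * (k : ℝ) ≤ (m : ℝ) →
      Filter.Tendsto (fun n : ℕ => (exNum k m n : ℝ) / (n.choose k : ℝ)) Filter.atTop
        (nhds (turanDensity k m)) ∧
      (1 + c) / ((m - 1).choose (k - 1) : ℝ) ≤ 1 - turanDensity k m) := by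
  have h := fin_of_core (fun ε α hε => by
    obtain ⟨c, hc, k₀, h⟩ := core ε α hε
    refine ⟨c, hc, max k₀ 2, fun k m hk hm hα hq => ?_⟩
    have hk2 : 2 ≤ k := (le_max_right _ _).trans hk
    have hkm : k < m := by
      have h0 : (2:ℝ) ≤ (k:ℝ) := by exact_mod_cast hk2
      have h1 : (k:ℝ) < (m:ℝ) := by nlinarith
      exact_mod_cast h1
    exact bridge (by omega) hkm (h k m ((le_max_left _ _).trans hk) hm hα hq))
  exact ⟨h, ratio_above_two h⟩

end Pool.Agent.DCS
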