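import Pool.Agent.DCS.Ident

/-!
The one-edge lemma: if `H` has few edges, then for most independent `M`-sets `S` and most vertices `v` the set
`insert v S` contains exactly one edge.

`nE H S v` is the number of edges `e` with `e \ S = {v}`, `ne H S` the number of edges with exactly one vertex
outside `S`, `Xs H s` the sum over the independent `s`-sets of `ne` minus the number of blocked vertices.
-/

namespace Pool.Agent.DCS

open Finset Pool.Agent.Helper2.DC

variable {V : Type} [Fintype V] [DecidableEq V]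

/-- number of the edges whose only vertex outside `S` is `v` -/
def nE (H : Finset (Finset V)) (S : Finset V) (v : V) : ℕ :=
  (H.filter (fun e => e \ S = {v})).card

/-- number of the edges with exactly one vertex outside `S` -/
def ne (H : Finset (Finset V)) (S : Finset V) : ℕ :=
  (H.filter (fun e => (e \ S).card = 1)).card

/-- total excess of the independent `s`-sets -/
noncomputable def Xs (H : Finset (Finset V)) (s : ℕ) : ℝ :=
  ∑ S ∈ ind H s, ((ne H S : ℝ) - ((bl H S).card : ℝ))

theorem mem_bl_of_edge {H : Finset (Finset V)} {S e : Finset V} {v : V} (he : e ∈ H)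
    (h : e \ S = {v}) : v ∈ bl H S := by
  have hv : v ∈ e \ S := by rw [h]; exact mem_singleton_self v
  rw [mem_sdiff] at hv
  refine mem_bl.2 ⟨hv.2, fun hI => hI e he ?_⟩
  intro y hy
  by_cases hyS : y ∈ S
  · exact mem_insert_of_mem hyS
  · have : y ∈ e \ S := mem_sdiff.2 ⟨hy, hyS⟩
    rw [h, mem_singleton] at this
    rw [this]; exact mem_insert_self _ _

theorem ne_eq (H : Finset (Finset V)) (S : Finset V) :
    ne H S = ∑ v ∈ bl H S, nE H S v := by
  classical
  unfold ne nE
  rw [← card_biUnion]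
  · congr 1
    ext e
    simp only [mem_filter, mem_biUnion]
    constructor
    · rintro ⟨h1, h2⟩
      obtain ⟨v, hv⟩ := card_eq_one.1 h2
      exact ⟨v, mem_bl_of_edge h1 hv, h1, hv⟩
    · rintro ⟨v, -, h1, h2⟩
      exact ⟨h1, by rw [h2, card_singleton]⟩
  · intro a _ b _ hab
    rw [Function.onFun, disjoint_left]
    intro e he he'
    have h1 := (mem_filter.1 he).2
    have h2 := (mem_filter.1 he').2
    rw [h1] at h2
    exact hab (singleton_injective h2)

theorem one_le_nE {H : Finset (Finset V)} {S : Finset V} (hS : Ind H S) {v : V}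
    (hv : v ∈ bl H S) : 1 ≤ nE H S v := by
  obtain ⟨hvS, hnI⟩ := mem_bl.1 hv
  have : ∃ e ∈ H, e ⊆ insert v S := by
    by_contra hcon; exact hnI (fun e he hes => hcon ⟨e, he, hes⟩)
  obtain ⟨e, he, hes⟩ := this
  have hve : v ∈ e := by
    by_contra hne
    apply hS e he
    intro y hy
    rcases mem_insert.1 (hes hy) with rfl | hyS
    · exact absurd hy hne
    · exact hyS
  apply card_pos.2
  refine ⟨e, mem_filter.2 ⟨he, ?_⟩⟩
  ext y
  rw [mem_sdiff, mem_singleton]
  constructor
  · rintro ⟨h1, h2⟩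
    rcases mem_insert.1 (hes h1) with h3 | h3
    · exact h3
    · exact absurd h3 h2
  · rintro rfl
    exact ⟨hve, hvS⟩

theorem bl_le_ne {H : Finset (Finset V)} {S : Finset V} (hS : Ind H S) :
    (bl H S).card ≤ ne H S := by
  rw [ne_eq]
  calc (bl H S).card = ∑ v ∈ bl H S, 1 := by simp
    _ ≤ ∑ v ∈ bl H S, nE H S v := sum_le_sum (fun v hv => one_le_nE hS hv)

theorem Xs_nonneg (H : Finset (Finset V)) (s : ℕ) : 0 ≤ Xs H s := by
  refine sum_nonneg (fun S hS => ?_)
  have h := bl_le_ne (mem_ind.1 hS).2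
  have h' : ((bl H S).card : ℝ) ≤ (ne H S : ℝ) := by exact_mod_cast h
  linarith

/-- removal of one vertex -/
theorem sum_ne_erase {H : Finset (Finset V)} {r : ℕ} (hH : ∀ e ∈ H, e.card = r)
    {S : Finset V} (hS : Ind H S) :
    ∑ w ∈ S, (ne H (S.erase w) : ℝ) = ((S.card : ℝ) + 1 - r) * ne H S := by
  classical
  have h1 : ∀ e ∈ H, ∀ w ∈ S, (e \ S.erase w).card = (e \ S).card + (if w ∈ e then 1 else 0) := by
    intro e _ w hw
    split_ifs with hwe
    · have : e \ S.erase w = insert w (e \ S) := by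
        ext y
        simp only [mem_sdiff, mem_erase, mem_insert]
        constructor
        · rintro ⟨h2, h3⟩
          by_cases hy : y = w
          · exact Or.inl hy
          · exact Or.inr ⟨h2, fun h4 => h3 ⟨hy, h4⟩⟩
        · rintro (rfl | ⟨h2, h3⟩)
          · exact ⟨hwe, fun h4 => h4.1 rfl⟩
          · exact ⟨h2, fun h4 => h3 h4.2⟩
      rw [this, card_insert_of_notMem]
      rw [mem_sdiff]; exact fun h => h.2 hw
    · have : e \ S.erase w = e \ S := by
        ext y
        simp only [mem_sdiff, mem_erase]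
        constructor
        · rintro ⟨h2, h3⟩
          exact ⟨h2, fun h4 => h3 ⟨fun h5 => hwe (h5 ▸ h2), h4⟩⟩
        · rintro ⟨h2, h3⟩
          exact ⟨h2, fun h4 => h3 h4.2⟩
      rw [this, add_zero]
  have hpos : ∀ e ∈ H, 1 ≤ (e \ S).card := by
    intro e he
    rw [Nat.one_le_iff_ne_zero, Ne, card_eq_zero, sdiff_eq_empty_iff_subset]
    exact hS e he
  have h2 : ∑ w ∈ S, (ne H (S.erase w) : ℝ) =
      ∑ e ∈ H, ∑ w ∈ S, (if (e \ S.erase w).card = 1 then (1:ℝ) else 0) := by
    rw [sum_comm]
    refine sum_congr rfl (fun w _ => ?_)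
    unfold ne
    rw [sum_boole]
  have h3 : (ne H S : ℝ) = ∑ e ∈ H, (if (e \ S).card = 1 then (1:ℝ) else 0) := by
    unfold ne
    rw [sum_boole]
  rw [h2, h3, mul_sum]
  refine sum_congr rfl (fun e he => ?_)
  have h4 := hpos e he
  by_cases h5 : (e \ S).card = 1
  · rw [if_pos h5, mul_one]
    have h6 : ∀ w ∈ S, (if (e \ S.erase w).card = 1 then (1:ℝ) else 0) =
        (if w ∈ S \ e then (1:ℝ) else 0) := by
      intro w hw
      rw [h1 e he w hw, h5]
      by_cases hwe : w ∈ e
      · simp [hwe]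
      · simp [hwe, hw]
    rw [sum_congr rfl h6, ← sum_filter, sum_const, nsmul_eq_mul, mul_one]
    have h7 : S.filter (fun w => w ∈ S \ e) = S \ e := by
      ext y
      simp only [mem_filter, mem_sdiff]
      tauto
    rw [h7]
    have h8 : (S \ e).card + (S ∩ e).card = S.card := by
      rw [card_sdiff_add_card_inter]
    have h9 : (e \ S).card + (e ∩ S).card = e.card := by
      rw [card_sdiff_add_card_inter]
    rw [inter_comm] at h9
    rw [h5, hH e he] at h9
    have h10 : ((S \ e).card : ℝ) + ((S ∩ e).card : ℝ) = S.card := by exact_mod_cast h8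
    have h11 : (1:ℝ) + ((S ∩ e).card : ℝ) = r := by exact_mod_cast h9
    linarith
  · rw [if_neg h5, mul_zero]
    refine sum_eq_zero (fun w hw => ?_)
    rw [if_neg]
    rw [h1 e he w hw]
    split_ifs <;> omega

/-- removal of one vertex, blocked vertices -/
theorem sum_bl_erase (H : Finset (Finset V)) (r : ℕ) {S : Finset V} (hS : Ind H S) :
    ∑ w ∈ S, ((bl H (S.erase w)).card : ℝ) = ((S.card : ℝ) + 1 - r) * (bl H S).card +
      ∑ v ∈ bl H S, ((r : ℝ) - 1 - ((kap H S v).card : ℝ)) := by
  have h1 := local_eq H hS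
  have h2 : ∑ w ∈ S, ((ext H (S.erase w)).card : ℝ) =
      (S.card : ℝ) + (S.card : ℝ) * ((ext H S).card : ℝ) +
        ∑ v ∈ bl H S, ((kap H S v).card : ℝ) := by exact_mod_cast h1
  have h3 : ∀ w ∈ S, ((bl H (S.erase w)).card : ℝ) =
      (Fintype.card V : ℝ) - ((S.card : ℝ) - 1) - ((ext H (S.erase w)).card : ℝ) := by
    intro w hw
    have h4 := card_split H (S.erase w)
    have h5 : (((S.erase w).card : ℕ) : ℝ) = (S.card : ℝ) - 1 := by
      have h6 := card_erase_add_one hw
      have h7 : ((S.erase w).card : ℝ) + 1 = (S.card : ℝ) := by exact_mod_cast h6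
      linarith
    rw [← h4]; push_cast; rw [h5]; ring
  rw [sum_congr rfl h3, sum_sub_distrib, sum_const, nsmul_eq_mul, h2, sum_sub_distrib, sum_const,
    nsmul_eq_mul]
  have h4 := card_split H S
  have h5 : (Fintype.card V : ℝ) = (S.card : ℝ) + ((ext H S).card : ℝ) + ((bl H S).card : ℝ) := by
    rw [← h4]; push_cast; ring
  rw [h5]
  ring

/-- one step of the recursion for the excess -/
theorem Xs_succ {H : Finset (Finset V)} {r : ℕ} (hH : ∀ e ∈ H, e.card = r) (j : ℕ) :
    ((j : ℝ) + 2 - r) * Xs H (j + 1) ≤ ((Fintype.card V : ℝ) - j) * Xs H j + Df H r (j + 1) := by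
  have h1 := sum_ext H j (fun Q _ => ((ne H Q : ℝ) - ((bl H Q).card : ℝ)))
  have h2 : ∑ S ∈ ind H (j + 1), ∑ a ∈ S, ((ne H (S.erase a) : ℝ) - ((bl H (S.erase a)).card : ℝ)) =
      ((j : ℝ) + 2 - r) * Xs H (j + 1) - Df H r (j + 1) := by
    unfold Xs Df
    rw [mul_sum, ← sum_sub_distrib]
    refine sum_congr rfl (fun S hS => ?_)
    obtain ⟨hc, hI⟩ := mem_ind.1 hS
    rw [sum_sub_distrib, sum_ne_erase hH hI, sum_bl_erase H r hI, hc]
    push_cast
    ring
  have h3 : ∑ Q ∈ ind H j, ∑ x ∈ ext H Q, ((ne H Q : ℝ) - ((bl H Q).card : ℝ)) ≤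
      ((Fintype.card V : ℝ) - j) * Xs H j := by
    unfold Xs
    rw [mul_sum]
    refine sum_le_sum (fun Q hQ => ?_)
    obtain ⟨hc, hI⟩ := mem_ind.1 hQ
    rw [sum_const, nsmul_eq_mul]
    have h4 := card_split H Q
    have h5 : ((ext H Q).card : ℝ) ≤ (Fintype.card V : ℝ) - j := by
      rw [← h4, ← hc]; push_cast
      have : (0:ℝ) ≤ ((bl H Q).card : ℝ) := Nat.cast_nonneg _
      linarith
    have h6 : ((bl H Q).card : ℝ) ≤ (ne H Q : ℝ) := by exact_mod_cast bl_le_ne hI
    exact mul_le_mul_of_nonneg_right h5 (by linarith)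
  rw [h1] at h3
  linarith [h2, h3]

/-- no excess at the bottom -/
theorem Xs_bot {H : Finset (Finset V)} {r : ℕ} (hr : 1 ≤ r) (hH : ∀ e ∈ H, e.card = r) :
    Xs H (r - 1) ≤ 0 := by
  refine sum_nonpos (fun S hS => ?_)
  obtain ⟨hc, hI⟩ := mem_ind.1 hS
  have h1 : ne H S ≤ (bl H S).card := by
    rw [ne_eq]
    calc ∑ v ∈ bl H S, nE H S v ≤ ∑ v ∈ bl H S, 1 := by
          refine sum_le_sum (fun v _ => ?_)
          unfold nE
          rw [card_le_one]
          intro a ha b hb
          obtain ⟨ha1, ha2⟩ := mem_filter.1 ha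
          obtain ⟨hb1, hb2⟩ := mem_filter.1 hb
          have key : ∀ e ∈ H, e \ S = {v} → e = insert v S := by
            intro e he hev
            have h2 : (e \ S).card + (e ∩ S).card = e.card := by
              rw [card_sdiff_add_card_inter]
            rw [hev, card_singleton, hH e he] at h2
            have h3 : e ∩ S = S := eq_of_subset_of_card_le inter_subset_right (by omega)
            have h4 : e = (e \ S) ∪ (e ∩ S) := by
              rw [sdiff_union_inter]
            rw [h4, hev, h3]; rfl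
          rw [key a ha1 ha2, key b hb1 hb2]
      _ = (bl H S).card := by simp
  have h2 : (ne H S : ℝ) ≤ ((bl H S).card : ℝ) := by exact_mod_cast h1
  linarith

/-- **The one-edge lemma.** -/
theorem one_edge {H : Finset (Finset V)} {r : ℕ} (hr : 1 ≤ r) (hH : ∀ e ∈ H, e.card = r)
    {M : ℕ} (hM : r - 1 ≤ M) (hN : 0 < NI H M) :
    Xs H M ≤ ((Fintype.card V).choose M : ℝ) * (M.choose (r - 1) : ℝ) *
      (Bl H (r - 1) - Bl H M / (M.choose (r - 1) : ℝ)) := by
  have key : ∀ M, r - 1 ≤ M → 0 < NI H M → M ≤ Fintype.card V →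
      Xs H M ≤ ((Fintype.card V).choose M : ℝ) * (M.choose (r - 1) : ℝ) *
        ∑ j ∈ Ico (r - 1) M, Ls H r j / (j.choose (r - 1) : ℝ) := by
    intro M hM
    induction M, hM using Nat.le_induction with
    | base =>
      intro _ _
      simp only [Ico_self, sum_empty, mul_zero]
      exact Xs_bot hr hH
    | succ M hM ih =>
      intro hN hMn
      have h0 := ih (ind_nonempty_of_succ hN).1 (by omega)
      have h1 := Xs_succ hH (r := r) (H := H) M
      have hpos : (0:ℝ) < (M : ℝ) + 2 - r := by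
        have : (r : ℝ) ≤ (M : ℝ) + 1 := by
          have : r ≤ M + 1 := by omega
          exact_mod_cast this
        linarith
      have hnM : (0:ℝ) < (Fintype.card V : ℝ) - M := by
        have : (M : ℝ) + 1 ≤ (Fintype.card V : ℝ) := by exact_mod_cast hMn
        linarith
      have hL : Df H r (M + 1) ≤ Ls H r M * (((M : ℝ) + 1) * NI H (M + 1)) := by
        have h2 := Sq_nonneg H M
        have h3 : Ls H r M * (((M : ℝ) + 1) * NI H (M + 1)) = Sq H M + Df H r (M + 1) := by
          unfold Ls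
          rw [div_mul_cancel₀]
          positivity
        linarith
      have hNc : NI H (M + 1) ≤ ((Fintype.card V).choose (M + 1) : ℝ) := by
        unfold NI
        have : (ind H (M + 1)).card ≤ (powersetCard (M + 1) (univ : Finset V)).card :=
          card_le_card (fun S hS => mem_powersetCard.2 ⟨subset_univ _, (mem_ind.1 hS).1⟩)
        rw [card_powersetCard, card_univ] at this
        exact_mod_cast this
      have hLn := Ls_nonneg hH (r := r) (H := H) M
      have hM1 : (0:ℝ) < (M:ℝ) + 1 := by positivity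
      have hL2 : Df H r (M + 1) ≤
          Ls H r M * (((M : ℝ) + 1) * ((Fintype.card V).choose (M + 1) : ℝ)) :=
        hL.trans (mul_le_mul_of_nonneg_left (mul_le_mul_of_nonneg_left hNc hM1.le) hLn)
      -- `(n - M) C(n, M) = (M + 1) C(n, M + 1)`
      have hid : ((Fintype.card V : ℝ) - M) * ((Fintype.card V).choose M : ℝ) =
          ((M : ℝ) + 1) * ((Fintype.card V).choose (M + 1) : ℝ) := by
        have h2 := Nat.choose_succ_right_eq (Fintype.card V) M
        have h3 : (((Fintype.card V).choose (M+1) * (M+1) : ℕ) : ℝ) =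
          (((Fintype.card V).choose M * (Fintype.card V-M) : ℕ) : ℝ) := by rw [h2]
        push_cast [Nat.cast_sub (show M ≤ Fintype.card V by omega)] at h3
        linarith
      -- `(M + 2 - r) C(M + 1, r - 1) = (M + 1) C(M, r - 1)`
      have hid2 : ((M+1).choose (r-1) : ℝ) * ((M:ℝ)+2-r) = ((M:ℝ)+1) * (M.choose (r-1) : ℝ) := by
        have h1 := Nat.choose_mul_succ_eq M (r-1)
        have h2 : ((M + 1 - (r-1) : ℕ) : ℝ) = (M:ℝ)+2-r := by
          rw [Nat.cast_sub (by omega), Nat.cast_sub hr]; push_cast; ring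
        rw [← h2]
        have h3 : ((M.choose (r-1) * (M+1) : ℕ) : ℝ) =
            (((M+1).choose (r-1) * (M+1-(r-1)) : ℕ) : ℝ) := by
          rw [h1]
        push_cast at h3 ⊢
        linarith
      have hcM : (0:ℝ) < (M.choose (r-1) : ℝ) := by exact_mod_cast Nat.choose_pos hM
      rw [sum_Ico_succ_top hM]
      obtain ⟨Λ, hΛ⟩ : ∃ Λ : ℝ, Λ = ∑ j ∈ Ico (r - 1) M, Ls H r j / (j.choose (r - 1) : ℝ) :=
        ⟨_, rfl⟩
      rw [← hΛ] at h0 ⊢
      have h4 : ((M : ℝ) + 2 - r) * Xs H (M + 1) ≤
          ((Fintype.card V : ℝ) - M) * (((Fintype.card V).choose M : ℝ) *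
            (M.choose (r - 1) : ℝ) * Λ) +
          Ls H r M * (((M : ℝ) + 1) * ((Fintype.card V).choose (M + 1) : ℝ)) := by
        have := mul_le_mul_of_nonneg_left h0 hnM.le
        linarith
      have h5 : ((M : ℝ) + 2 - r) * (((Fintype.card V).choose (M + 1) : ℝ) *
          ((M + 1).choose (r - 1) : ℝ) * (Λ + Ls H r M / (M.choose (r - 1) : ℝ))) =
          ((Fintype.card V : ℝ) - M) * (((Fintype.card V).choose M : ℝ) *
            (M.choose (r - 1) : ℝ) * Λ) +
          Ls H r M * (((M : ℝ) + 1) * ((Fintype.card V).choose (M + 1) : ℝ)) := by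
        have h6 : ((M : ℝ) + 2 - r) * (((Fintype.card V).choose (M + 1) : ℝ) *
          ((M + 1).choose (r - 1) : ℝ) * (Λ + Ls H r M / (M.choose (r - 1) : ℝ))) =
          (((M+1).choose (r-1) : ℝ) * ((M:ℝ)+2-r)) * ((Fintype.card V).choose (M + 1) : ℝ) *
            (Λ + Ls H r M / (M.choose (r - 1) : ℝ)) := by ring
        rw [h6, hid2]
        have h7 : ((Fintype.card V : ℝ) - M) * (((Fintype.card V).choose M : ℝ) *
            (M.choose (r - 1) : ℝ) * Λ) = (((Fintype.card V : ℝ) - M) *
            ((Fintype.card V).choose M : ℝ)) * ((M.choose (r - 1) : ℝ) * Λ) := by ring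
        rw [h7, hid]
        field_simp
      rw [← h5] at h4
      exact le_of_mul_le_mul_left h4 hpos
  have hMn : M ≤ Fintype.card V := by
    unfold NI at hN
    have h' : 0 < (ind H M).card := by exact_mod_cast hN
    obtain ⟨S, hS⟩ := card_pos.1 h'
    rw [← (mem_ind.1 hS).1]
    exact card_le_univ S
  refine (key M hM hN hMn).trans (le_of_eq ?_)
  congr 1
  have hu := unrolled (H := H) (r := r) hr (s := r - 1) (M := M) le_rfl hM hN
  rw [Nat.choose_self, Nat.cast_one, div_one] at hu
  linarith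

end Pool.Agent.DCS
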