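import Pool.Agent.DCS.Two
import Pool.Agent.DCS.Gra

/-!
# DCS: the relation on the free vertices

For an independent set `J` and `w ∈ J` two free vertices `x`, `y` are related if `J - w + x + y` is not independent.
`Ch H J w` is the number of the paths `x ~ z ~ y` with `x`, `y` not related.
-/

namespace Pool.Agent.DCS

open Finset Pool.Agent.Helper2.DC

variable {V : Type} [Fintype V] [DecidableEq V]

/-- `J - w + x + y` is not independent -/
def Rl (H : Finset (Finset V)) (J : Finset V) (w x y : V) : Prop :=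
  ¬ Ind H (insert x (insert y (J.erase w)))

theorem Rl_symm {H : Finset (Finset V)} {J : Finset V} {w x y : V} (h : Rl H J w x y) :
    Rl H J w y x := by
  unfold Rl at h ⊢
  rwa [Finset.insert_comm]

/-- the number of cherries -/
noncomputable def Ch (H : Finset (Finset V)) (J : Finset V) (w : V) : ℝ :=
  ∑ x ∈ ext H J, ∑ y ∈ nn (ext H J) (Rl H J w) x,
    (((nb (ext H J) (Rl H J w) x) ∩ (nb (ext H J) (Rl H J w) y)).card : ℝ)

theorem Ch_nonneg (H : Finset (Finset V)) (J : Finset V) (w : V) : 0 ≤ Ch H J w :=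
  sum_nonneg fun _ _ => sum_nonneg fun _ _ => Nat.cast_nonneg _

theorem mem_nb {X : Finset V} {R : V → V → Prop} {x y : V} :
    y ∈ nb X R x ↔ y ∈ X ∧ y ≠ x ∧ R x y := by
  classical
  unfold nb
  rw [mem_filter]

theorem mem_nn {X : Finset V} {R : V → V → Prop} {x y : V} :
    y ∈ nn X R x ↔ y ∈ X ∧ y ≠ x ∧ ¬ R x y := by
  classical
  unfold nn
  rw [mem_filter]

end Pool.Agent.DCS
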