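import Pool.Agent.DCS.Gra
import Pool.Agent.DCS.Grb

/-!
# DCS: the linear graph lemma

A symmetric relation `R` on `N` points with mean degree `p N`, with `∑ (deg x - p N)² = D` and `T` ordered
cherries (`x ~ y ~ z`, `x` and `z` not adjacent) has `|1 - q p| ≤ 74 (D + T) / (N³ p⁴)` for some natural
number `q`. Proof with the eigenvalues `μ` of the adjacency matrix, `l = μ / N`: `∑ l² = p`,
`∑ l² (l - p) = v - t`, `∑ l² (l - p)² ≤ 2 v + 3 t`, where `v = D / N³`, `t = T / N³`.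
-/

set_option linter.unusedSectionVars false
set_option linter.unusedVariables false

open Finset

namespace Pool.Agent.DCS

/-- the part about real numbers -/
private theorem spc_num {ι : Type} [Fintype ι] (l : ι → ℝ) {p u W : ℝ} (hp0 : 0 < p) (hp1 : p ≤ 1)
    (hu : 0 ≤ u) (hW : W ≤ 3 * u) (h2 : ∑ i, l i ^ 2 = p) (h3 : |∑ i, l i ^ 2 * (l i - p)| ≤ u)
    (h4 : ∑ i, l i ^ 2 * (l i - p) ^ 2 ≤ W) :
    ∃ q : ℕ, |1 - (q : ℝ) * p| ≤ 74 * u / p ^ 4 := by
  classical
  have hl1 : ∀ i, |l i| ≤ 1 := by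
    intro i
    have h5 : l i ^ 2 ≤ ∑ i, l i ^ 2 :=
      Finset.single_le_sum (f := fun i => l i ^ 2) (fun i _ => sq_nonneg _) (Finset.mem_univ i)
    rw [h2] at h5
    exact abs_le_one_iff_mul_self_le_one.2 (by nlinarith)
  set NE : Finset ι := Finset.univ.filter fun i => |l i - p| ≤ p / 2 with hNE
  set FA : Finset ι := Finset.univ.filter fun i => ¬ |l i - p| ≤ p / 2 with hFA
  have hsplit : ∀ f : ι → ℝ, ∑ i, f i = ∑ i ∈ NE, f i + ∑ i ∈ FA, f i := fun f =>
    (Finset.sum_filter_add_sum_filter_not _ _ _).symm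
  set F : ℝ := ∑ i ∈ FA, l i ^ 2 with hF
  set S2 : ℝ := ∑ i ∈ NE, (l i - p) ^ 2 with hS2
  set S1 : ℝ := ∑ i ∈ NE, (l i - p) with hS1
  have hF0 : 0 ≤ F := Finset.sum_nonneg fun i _ => sq_nonneg _
  have hS20 : 0 ≤ S2 := Finset.sum_nonneg fun i _ => sq_nonneg _
  -- `(p²/4) (F + S2) ≤ W`
  have hFS : p ^ 2 / 4 * (S2 + F) ≤ W := by
    rw [hsplit] at h4
    have h5 : p ^ 2 / 4 * S2 ≤ ∑ i ∈ NE, l i ^ 2 * (l i - p) ^ 2 := by
      rw [hS2, Finset.mul_sum]
      refine Finset.sum_le_sum fun i hi => ?_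
      have h6 := abs_le.1 (Finset.mem_filter.1 hi).2
      have h7 : p ^ 2 / 4 ≤ l i ^ 2 := by nlinarith [h6.1]
      exact mul_le_mul_of_nonneg_right h7 (sq_nonneg _)
    have h8 : p ^ 2 / 4 * F ≤ ∑ i ∈ FA, l i ^ 2 * (l i - p) ^ 2 := by
      rw [hF, Finset.mul_sum]
      refine Finset.sum_le_sum fun i hi => ?_
      have h6 := not_le.1 (Finset.mem_filter.1 hi).2
      have h7 : p ^ 2 / 4 ≤ (l i - p) ^ 2 := by
        rw [← sq_abs (l i - p)]
        nlinarith [abs_nonneg (l i - p)]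
      rw [mul_comm (l i ^ 2)]
      exact mul_le_mul_of_nonneg_right h7 (sq_nonneg _)
    linarith
  have hFSb : S2 + F ≤ 12 * u / p ^ 2 := by
    rw [le_div_iff₀ (by positivity)]
    nlinarith
  -- first relation
  have hA : p = (NE.card : ℝ) * p ^ 2 + 2 * p * S1 + S2 + F := by
    have h5 : ∑ i ∈ NE, l i ^ 2 = (NE.card : ℝ) * p ^ 2 + 2 * p * S1 + S2 := by
      rw [hS1, hS2, Finset.mul_sum, ← nsmul_eq_mul, ← Finset.sum_const, ← Finset.sum_add_distrib,
        ← Finset.sum_add_distrib]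
      exact Finset.sum_congr rfl fun i _ => by ring
    rw [← h5, ← hsplit, h2]
  -- second relation
  have hB : p ^ 2 * |S1| ≤ u + 5 / 2 * (S2 + F) := by
    have h5 : ∑ i ∈ NE, l i ^ 2 * (l i - p) = p ^ 2 * S1 + 2 * p * S2 + ∑ i ∈ NE, (l i - p) ^ 3 := by
      rw [hS1, hS2, Finset.mul_sum, Finset.mul_sum, ← Finset.sum_add_distrib,
        ← Finset.sum_add_distrib]
      exact Finset.sum_congr rfl fun i _ => by ring
    have h6 : |∑ i ∈ NE, (l i - p) ^ 3| ≤ p / 2 * S2 := by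
      refine (Finset.abs_sum_le_sum_abs _ _).trans ?_
      rw [hS2, Finset.mul_sum]
      refine Finset.sum_le_sum fun i hi => ?_
      have h7 := (Finset.mem_filter.1 hi).2
      have h8 : |(l i - p) ^ 3| = |l i - p| * (l i - p) ^ 2 := by
        rw [← sq_abs (l i - p), abs_pow]
        ring
      rw [h8]
      exact mul_le_mul_of_nonneg_right h7 (sq_nonneg _)
    have h9 : |∑ i ∈ FA, l i ^ 2 * (l i - p)| ≤ 2 * F := by
      refine (Finset.abs_sum_le_sum_abs _ _).trans ?_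
      rw [hF, Finset.mul_sum]
      refine Finset.sum_le_sum fun i hi => ?_
      rw [abs_mul, abs_of_nonneg (sq_nonneg (l i)), mul_comm]
      refine mul_le_mul_of_nonneg_right ?_ (sq_nonneg _)
      have h10 := abs_le.1 (hl1 i)
      exact abs_le.2 ⟨by linarith [h10.1], by linarith [h10.2]⟩
    have h11 : p ^ 2 * S1 = ∑ i, l i ^ 2 * (l i - p) - 2 * p * S2 - ∑ i ∈ NE, (l i - p) ^ 3 -
        ∑ i ∈ FA, l i ^ 2 * (l i - p) := by
      rw [hsplit, h5]
      ring
    have h12 : p ^ 2 * |S1| = |p ^ 2 * S1| := by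
      rw [abs_mul, abs_of_nonneg (by positivity : (0 : ℝ) ≤ p ^ 2)]
    have a1 := abs_le.1 h3
    have a2 := abs_le.1 h6
    have a3 := abs_le.1 h9
    have a4 : p * S2 ≤ S2 := by nlinarith
    have a5 : 0 ≤ p * S2 := by positivity
    rw [h12, h11]
    exact abs_le.2 ⟨by nlinarith [a1.1, a2.2, a3.2], by nlinarith [a1.2, a2.1, a3.1]⟩
  refine ⟨NE.card, ?_⟩
  have hC : p * |1 - (NE.card : ℝ) * p| ≤ 2 * p * |S1| + (S2 + F) := by
    have h5 : p * (1 - (NE.card : ℝ) * p) = 2 * p * S1 + (S2 + F) := by linarith [hA]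
    have h6 : p * |1 - (NE.card : ℝ) * p| = |p * (1 - (NE.card : ℝ) * p)| := by
      rw [abs_mul, abs_of_pos hp0]
    rw [h6, h5]
    refine (abs_add_le _ _).trans ?_
    rw [abs_of_nonneg (add_nonneg hS20 hF0), abs_mul, abs_of_nonneg (by positivity : (0 : ℝ) ≤ 2 * p)]
  rw [le_div_iff₀ (by positivity)]
  have hp2 : p ^ 2 ≤ 1 := by nlinarith
  have hFS2 : p ^ 2 * (S2 + F) ≤ 12 * u := by
    rw [le_div_iff₀ (by positivity)] at hFSb
    linarith
  -- `p^4 |1 - q p| ≤ p^3 (2 p |S1| + S2 + F) = 2 p^2 (p^2 |S1|) + p (p^2 (S2 + F))`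
  have h5 : |1 - (NE.card : ℝ) * p| * p ^ 4 ≤ p ^ 3 * (2 * p * |S1| + (S2 + F)) := by
    have := mul_le_mul_of_nonneg_left hC (by positivity : (0 : ℝ) ≤ p ^ 3)
    nlinarith [this]
  have h6 : p ^ 3 * (2 * p * |S1| + (S2 + F)) =
      2 * p ^ 2 * (p ^ 2 * |S1|) + p * (p ^ 2 * (S2 + F)) := by ring
  have h7 : 2 * p ^ 2 * (p ^ 2 * |S1|) ≤ 2 * p ^ 2 * (u + 5 / 2 * (S2 + F)) :=
    mul_le_mul_of_nonneg_left hB (by positivity)
  have h8 : 2 * p ^ 2 * (u + 5 / 2 * (S2 + F)) = 2 * (p ^ 2 * u) + 5 * (p ^ 2 * (S2 + F)) := by ring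
  have h9 : p ^ 2 * u ≤ u := by nlinarith
  have h10 : p * (p ^ 2 * (S2 + F)) ≤ 12 * u := by
    have : p * (p ^ 2 * (S2 + F)) ≤ 1 * (p ^ 2 * (S2 + F)) :=
      mul_le_mul_of_nonneg_right hp1 (by positivity)
    linarith
  rw [h6] at h5
  linarith

private theorem spc_tr {ι : Type} [Fintype ι] [DecidableEq ι] {A : Matrix ι ι ℝ} (hA : A.IsHermitian)
    (k : ℕ) : (A ^ k).trace = ∑ i, hA.eigenvalues i ^ k := by
  conv_lhs => rw [hA.spectral_theorem]
  rw [← map_pow, Unitary.conjStarAlgAut_apply, Matrix.trace_mul_cycle, Unitary.coe_star_mul_self,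
    Matrix.one_mul, Matrix.diagonal_pow, Matrix.trace_diagonal]
  simp

section
variable {ι : Type} [Fintype ι] [DecidableEq ι] (R : ι → ι → Prop)

/-- the adjacency function -/
private noncomputable def sa (x y : ι) : ℝ := open Classical in if R x y then 1 else 0

private theorem sa_sq (x y : ι) : sa R x y * sa R x y = sa R x y := by
  unfold sa
  split_ifs <;> simp

private theorem sa_nn (x y : ι) : 0 ≤ sa R x y := by
  unfold sa
  split_ifs <;> simp

private theorem sa_le (x y : ι) : sa R x y ≤ 1 := by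
  unfold sa
  split_ifs <;> simp

private theorem sa_comm (hR : ∀ x y, R x y → R y x) (x y : ι) : sa R x y = sa R y x := by
  unfold sa
  by_cases h : R x y
  · rw [if_pos h, if_pos (hR x y h)]
  · rw [if_neg h, if_neg fun h' => h (hR y x h')]

/-- the degree -/
private noncomputable def sd (x : ι) : ℝ := ∑ y, sa R x y

/-- the codegree -/
private noncomputable def sc (x z : ι) : ℝ := ∑ y, sa R x y * sa R y z

/-- the number of cherries -/
private noncomputable def sT : ℝ := ∑ x, ∑ z, (1 - sa R x z) * sc R x z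

private theorem sc_nn (x z : ι) : 0 ≤ sc R x z :=
  Finset.sum_nonneg fun y _ => mul_nonneg (sa_nn R x y) (sa_nn R y z)

private theorem sc_le (x z : ι) : sc R x z ≤ (Fintype.card ι : ℝ) := by
  unfold sc
  refine (Finset.sum_le_card_nsmul _ _ 1 fun y _ => ?_).trans (by simp)
  exact mul_le_one₀ (sa_le R x y) (sa_nn R y z) (sa_le R y z)

private theorem sd_nn (x : ι) : 0 ≤ sd R x := Finset.sum_nonneg fun y _ => sa_nn R x y

private theorem sd_le (x : ι) : sd R x ≤ (Fintype.card ι : ℝ) := by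
  unfold sd
  exact (Finset.sum_le_card_nsmul _ _ 1 fun y _ => sa_le R x y).trans (by simp)

private theorem sT_nn : 0 ≤ sT R :=
  Finset.sum_nonneg fun x _ => Finset.sum_nonneg fun z _ =>
    mul_nonneg (by linarith [sa_le R x z]) (sc_nn R x z)

private theorem sum_sc (hR : ∀ x y, R x y → R y x) :
    ∑ x, ∑ z, sc R x z = ∑ y, sd R y ^ 2 := by
  unfold sc
  have h1 : ∀ x : ι, ∑ z, ∑ y, sa R x y * sa R y z = ∑ y, sa R x y * sd R y := by
    intro x
    rw [Finset.sum_comm]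
    exact Finset.sum_congr rfl fun y _ => by rw [sd, Finset.mul_sum]
  rw [Finset.sum_congr rfl fun x _ => h1 x, Finset.sum_comm]
  refine Finset.sum_congr rfl fun y _ => ?_
  rw [← Finset.sum_mul, sq]
  congr 1
  rw [sd]
  exact Finset.sum_congr rfl fun x _ => sa_comm R hR x y

private theorem sc_comm (hR : ∀ x y, R x y → R y x) (x z : ι) : sc R x z = sc R z x := by
  unfold sc
  exact Finset.sum_congr rfl fun y _ => by rw [sa_comm R hR x y, sa_comm R hR y z, mul_comm]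

private theorem sum_cen (hR : ∀ x y, R x y → R y x) :
    ∑ x, ∑ z, sa R x z * (sd R x - sc R x z) = sT R := by
  have h1 : ∀ x z : ι, sa R x z * (sd R x - sc R x z) =
      ∑ y, sa R z x * sa R x y * (1 - sa R z y) := by
    intro x z
    rw [sd, sc, ← Finset.sum_sub_distrib, Finset.mul_sum]
    refine Finset.sum_congr rfl fun y _ => ?_
    rw [sa_comm R hR z x, sa_comm R hR z y]
    ring
  rw [Finset.sum_congr rfl fun x _ => Finset.sum_congr rfl fun z _ => h1 x z, Finset.sum_comm]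
  unfold sT sc
  refine Finset.sum_congr rfl fun z _ => ?_
  rw [Finset.sum_comm]
  refine Finset.sum_congr rfl fun y _ => ?_
  rw [Finset.mul_sum]
  exact Finset.sum_congr rfl fun x _ => by ring

private theorem sum_B (hR : ∀ x y, R x y → R y x) (m : ℝ) :
    ∑ x, ∑ z, (sc R x z - m * sa R x z) ^ 2 ≤
      (Fintype.card ι : ℝ) * (3 * sT R + 2 * ∑ x, (sd R x - m) ^ 2) := by
  set N : ℝ := (Fintype.card ι : ℝ) with hN
  have h1 : ∀ x z : ι, (sc R x z - m * sa R x z) ^ 2 ≤ N * ((1 - sa R x z) * sc R x z) +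
      2 * (sa R x z * (sd R x - m) ^ 2) + 2 * N * (sa R x z * (sd R x - sc R x z)) := by
    intro x z
    have hc0 := sc_nn R x z
    have hc1 := sc_le R x z
    have hd0 : sc R x z ≤ sd R x := by
      unfold sc sd
      exact Finset.sum_le_sum fun y _ => mul_le_of_le_one_right (sa_nn R x y) (sa_le R y z)
    have hd1 := sd_le R x
    rw [← hN] at hc1 hd1
    by_cases h : R x z
    · have ha : sa R x z = 1 := if_pos h
      rw [ha]
      have h2 : (sc R x z - m * 1) ^ 2 ≤ 2 * (sd R x - m) ^ 2 + 2 * (sd R x - sc R x z) ^ 2 := by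
        nlinarith [sq_nonneg ((sd R x - m) + (sd R x - sc R x z))]
      have h3 : (sd R x - sc R x z) ^ 2 ≤ N * (sd R x - sc R x z) := by
        rw [sq]
        exact mul_le_mul_of_nonneg_right (by linarith) (by linarith)
      linarith
    · have ha : sa R x z = 0 := if_neg h
      rw [ha]
      nlinarith
  have h2 : ∑ x, ∑ z, (sc R x z - m * sa R x z) ^ 2 ≤ ∑ x, ∑ z,
      (N * ((1 - sa R x z) * sc R x z) + 2 * (sa R x z * (sd R x - m) ^ 2) +
        2 * N * (sa R x z * (sd R x - sc R x z))) :=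
    Finset.sum_le_sum fun x _ => Finset.sum_le_sum fun z _ => h1 x z
  refine h2.trans ?_
  have h3 : ∑ x, ∑ z, (N * ((1 - sa R x z) * sc R x z) + 2 * (sa R x z * (sd R x - m) ^ 2) +
        2 * N * (sa R x z * (sd R x - sc R x z))) =
      N * sT R + 2 * (∑ x, sd R x * (sd R x - m) ^ 2) + 2 * N * sT R := by
    have e1 : ∑ x, ∑ z, N * ((1 - sa R x z) * sc R x z) = N * sT R := by
      rw [sT, Finset.mul_sum]
      exact Finset.sum_congr rfl fun x _ => by rw [Finset.mul_sum]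
    have e2 : ∑ x, ∑ z, 2 * (sa R x z * (sd R x - m) ^ 2) = 2 * (∑ x, sd R x * (sd R x - m) ^ 2) := by
      rw [Finset.mul_sum]
      refine Finset.sum_congr rfl fun x _ => ?_
      rw [← Finset.mul_sum, ← Finset.sum_mul]
      rfl
    have e3 : ∑ x, ∑ z, 2 * N * (sa R x z * (sd R x - sc R x z)) = 2 * N * sT R := by
      rw [← sum_cen R hR, Finset.mul_sum]
      exact Finset.sum_congr rfl fun x _ => by rw [Finset.mul_sum]
    rw [← e1, ← e2, ← e3, ← Finset.sum_add_distrib, ← Finset.sum_add_distrib]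
    exact Finset.sum_congr rfl fun x _ => by rw [Finset.sum_add_distrib, Finset.sum_add_distrib]
  rw [h3]
  have h4 : ∑ x, sd R x * (sd R x - m) ^ 2 ≤ N * ∑ x, (sd R x - m) ^ 2 := by
    rw [Finset.mul_sum]
    exact Finset.sum_le_sum fun x _ => mul_le_mul_of_nonneg_right (sd_le R x) (sq_nonneg _)
  linarith

private theorem lin_fin [Nonempty ι] (hR : ∀ x y, R x y → R y x) {p D : ℝ}
    (hp : p = (∑ x, sd R x) / (Fintype.card ι : ℝ) ^ 2) (hp0 : 0 < p)
    (hD : D = ∑ x, (sd R x - p * (Fintype.card ι : ℝ)) ^ 2) :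
    ∃ q : ℕ, |1 - (q : ℝ) * p| ≤ 74 * (D + sT R) / ((Fintype.card ι : ℝ) ^ 3 * p ^ 4) := by
  set N : ℝ := (Fintype.card ι : ℝ) with hN
  have hN0 : 0 < N := by
    rw [hN]
    exact_mod_cast Fintype.card_pos
  have hsum : ∑ x, sd R x = p * N ^ 2 := by
    rw [hp]
    field_simp
  have hp1 : p ≤ 1 := by
    have h1 : ∑ x, sd R x ≤ N * N := by
      refine (Finset.sum_le_card_nsmul _ _ N fun x _ => sd_le R x).trans ?_
      rw [nsmul_eq_mul, Finset.card_univ]
    rw [hsum] at h1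
    have h2 : p * N ^ 2 ≤ 1 * N ^ 2 := by nlinarith
    exact le_of_mul_le_mul_right h2 (by positivity)
  have hD0 : 0 ≤ D := by
    rw [hD]
    exact Finset.sum_nonneg fun x _ => sq_nonneg _
  have hT0 := sT_nn R
  set A : Matrix ι ι ℝ := Matrix.of (sa R) with hA'
  have hA : A.IsHermitian := by
    ext x y
    rw [Matrix.conjTranspose_apply, hA', Matrix.of_apply, Matrix.of_apply, star_trivial]
    exact sa_comm R hR y x
  have hA2 : A * A = Matrix.of (sc R) := by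
    ext x z
    rw [Matrix.mul_apply]
    rfl
  have hdeg2 : ∑ x, sd R x ^ 2 = D + p ^ 2 * N ^ 3 := by
    have h1 : D = ∑ x, sd R x ^ 2 - 2 * (p * N) * (∑ x, sd R x) + N * (p * N) ^ 2 := by
      have h2 : N * (p * N) ^ 2 = ∑ x : ι, (p * N) ^ 2 := by
        rw [Finset.sum_const, Finset.card_univ, nsmul_eq_mul]
      rw [hD, h2, Finset.mul_sum, ← Finset.sum_sub_distrib, ← Finset.sum_add_distrib]
      exact Finset.sum_congr rfl fun x _ => by ring
    rw [h1, hsum]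
    ring
  -- traces
  have t2 : ∑ i, hA.eigenvalues i ^ 2 = p * N ^ 2 := by
    rw [← spc_tr hA 2, pow_two, ← hsum, Matrix.trace]
    refine Finset.sum_congr rfl fun x _ => ?_
    rw [Matrix.diag_apply, hA2, Matrix.of_apply, sc, sd]
    exact Finset.sum_congr rfl fun y _ => by rw [sa_comm R hR y x, sa_sq]
  have t3 : ∑ i, hA.eigenvalues i ^ 3 = D + p ^ 2 * N ^ 3 - sT R := by
    rw [← spc_tr hA 3, pow_succ, pow_two, hA2, Matrix.trace, ← hdeg2, ← sum_sc R hR, sT,
      ← Finset.sum_sub_distrib]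
    refine Finset.sum_congr rfl fun x _ => ?_
    rw [Matrix.diag_apply, Matrix.mul_apply, ← Finset.sum_sub_distrib]
    refine Finset.sum_congr rfl fun z _ => ?_
    rw [Matrix.of_apply, hA', Matrix.of_apply, sa_comm R hR z x]
    ring
  have t4 : ∑ i, hA.eigenvalues i ^ 4 = ∑ x, ∑ z, sc R x z ^ 2 := by
    rw [← spc_tr hA 4, show (4 : ℕ) = 2 + 2 from rfl, pow_add, pow_two, hA2, Matrix.trace]
    refine Finset.sum_congr rfl fun x _ => ?_
    rw [Matrix.diag_apply, Matrix.mul_apply]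
    refine Finset.sum_congr rfl fun z _ => ?_
    rw [Matrix.of_apply, Matrix.of_apply, sc_comm R hR z x, sq]
  have t23 : ∑ x, ∑ z, sc R x z * sa R x z = D + p ^ 2 * N ^ 3 - sT R := by
    rw [← hdeg2, ← sum_sc R hR, sT, ← Finset.sum_sub_distrib]
    refine Finset.sum_congr rfl fun x _ => ?_
    rw [← Finset.sum_sub_distrib]
    exact Finset.sum_congr rfl fun z _ => by ring
  have hB : ∑ x, ∑ z, (sc R x z - (p * N) * sa R x z) ^ 2 =
      ∑ i, hA.eigenvalues i ^ 4 - 2 * (p * N) * ∑ i, hA.eigenvalues i ^ 3 +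
        (p * N) ^ 2 * ∑ i, hA.eigenvalues i ^ 2 := by
    rw [t4, t3, t2, ← t23, ← hsum]
    simp only [Finset.mul_sum, ← Finset.sum_sub_distrib, ← Finset.sum_add_distrib, sd]
    refine Finset.sum_congr rfl fun x _ => Finset.sum_congr rfl fun z _ => ?_
    have h1 := sa_sq R x z
    calc (sc R x z - p * N * sa R x z) ^ 2 = sc R x z ^ 2 - 2 * (p * N) * (sc R x z * sa R x z) +
        (p * N) ^ 2 * (sa R x z * sa R x z) := by ring
      _ = _ := by rw [h1]
  have hBle := sum_B R hR (p * N)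
  rw [hB, ← hN, ← hD] at hBle
  have key := spc_num (fun i => hA.eigenvalues i / N) (p := p) (u := (D + sT R) / N ^ 3)
    (W := (2 * D + 3 * sT R) / N ^ 3) hp0 hp1 (by positivity) ?_ ?_ ?_ ?_
  · obtain ⟨q, hq⟩ := key
    refine ⟨q, hq.trans (le_of_eq ?_)⟩
    field_simp
  · rw [← mul_div_assoc]
    exact div_le_div_of_nonneg_right (by linarith) (by positivity)
  · have h1 : ∑ i, (hA.eigenvalues i / N) ^ 2 = (∑ i, hA.eigenvalues i ^ 2) / N ^ 2 := by
      rw [Finset.sum_div]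
      exact Finset.sum_congr rfl fun i _ => div_pow _ _ _
    rw [h1, t2]
    field_simp
  · have h1 : ∑ i, (hA.eigenvalues i / N) ^ 2 * (hA.eigenvalues i / N - p) =
        (∑ i, hA.eigenvalues i ^ 3 - p * N * ∑ i, hA.eigenvalues i ^ 2) / N ^ 3 := by
      rw [Finset.mul_sum, ← Finset.sum_sub_distrib, Finset.sum_div]
      refine Finset.sum_congr rfl fun i _ => ?_
      field_simp
    rw [h1, t3, t2, abs_div, abs_of_pos (by positivity : (0 : ℝ) < N ^ 3)]
    refine div_le_div_of_nonneg_right (abs_le.2 ⟨?_, ?_⟩) (by positivity) <;> nlinarith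
  · have h1 : ∑ i, (hA.eigenvalues i / N) ^ 2 * (hA.eigenvalues i / N - p) ^ 2 =
        (∑ i, hA.eigenvalues i ^ 4 - 2 * (p * N) * ∑ i, hA.eigenvalues i ^ 3 +
        (p * N) ^ 2 * ∑ i, hA.eigenvalues i ^ 2) / N ^ 4 := by
      rw [Finset.mul_sum, Finset.mul_sum, ← Finset.sum_sub_distrib, ← Finset.sum_add_distrib,
        Finset.sum_div]
      refine Finset.sum_congr rfl fun i _ => ?_
      field_simp
      ring
    rw [h1, div_le_div_iff₀ (by positivity) (by positivity)]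
    have h2 := mul_le_mul_of_nonneg_right hBle (by positivity : (0 : ℝ) ≤ N ^ 3)
    refine h2.trans (le_of_eq ?_)
    ring

end

variable {V : Type} [Fintype V] [DecidableEq V]

private theorem spc_deg (X : Finset V) (R : V → V → Prop) (x : {x // x ∈ X}) :
    sd (fun a b : {x // x ∈ X} => R a b) x = ((nbl X R x).card : ℝ) := by
  classical
  unfold sd sa nbl
  rw [Finset.sum_coe_sort X fun y => if R x y then (1 : ℝ) else 0, Finset.sum_boole]

private theorem spc_cod (X : Finset V) (R : V → V → Prop) (hR : ∀ x y, R x y → R y x)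
    (x z : {x // x ∈ X}) :
    sc (fun a b : {x // x ∈ X} => R a b) x z = ((nbl X R x ∩ nbl X R z).card : ℝ) := by
  classical
  have h1 : sc (fun a b : {x // x ∈ X} => R a b) x z =
      ∑ y : {x // x ∈ X}, (fun y : V => if R x y ∧ R z y then (1 : ℝ) else 0) y := by
    unfold sc sa
    refine Finset.sum_congr rfl fun y _ => ?_
    by_cases h1 : R x y
    · by_cases h2 : R z y
      · rw [if_pos h1, if_pos (hR _ _ h2)]
        simp [h1, h2]
      · rw [if_pos h1, if_neg fun h3 => h2 (hR _ _ h3)]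
        simp [h2]
    · rw [if_neg h1]
      simp [h1]
  rw [h1, Finset.sum_coe_sort X fun y => if R x y ∧ R z y then (1 : ℝ) else 0, Finset.sum_boole]
  congr 2
  ext y
  simp only [nbl, Finset.mem_filter, Finset.mem_inter]
  tauto

private theorem spc_T (X : Finset V) (R : V → V → Prop) (hR : ∀ x y, R x y → R y x) :
    sT (fun a b : {x // x ∈ X} => R a b) =
      ∑ x ∈ X, ∑ y ∈ nnl X R x, ((nbl X R x ∩ nbl X R y).card : ℝ) := by
  classical
  have h1 : ∀ x : {x // x ∈ X}, (∑ z : {x // x ∈ X}, (1 - sa (fun a b : {x // x ∈ X} => R a b) x z) *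
      sc (fun a b : {x // x ∈ X} => R a b) x z) =
      (fun x : V => ∑ y ∈ nnl X R x, ((nbl X R x ∩ nbl X R y).card : ℝ)) x := by
    intro x
    have h2 : ∀ z : {x // x ∈ X}, (1 - sa (fun a b : {x // x ∈ X} => R a b) x z) *
        sc (fun a b : {x // x ∈ X} => R a b) x z =
        (fun z : V => if ¬ R x z then ((nbl X R x ∩ nbl X R z).card : ℝ) else 0) z := by
      intro z
      rw [spc_cod X R hR]
      unfold sa
      by_cases h3 : R x z
      · simp [h3]
      · simp [h3]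
    rw [Finset.sum_congr rfl fun z _ => h2 z,
      Finset.sum_coe_sort X fun z => if ¬ R x z then ((nbl X R x ∩ nbl X R z).card : ℝ) else 0,
      ← Finset.sum_filter]
    refine Finset.sum_congr ?_ fun _ _ => rfl
    ext z
    simp only [nnl, Finset.mem_filter]
  unfold sT
  rw [Finset.sum_congr rfl fun x _ => h1 x,
    Finset.sum_coe_sort X fun x => ∑ y ∈ nnl X R x, ((nbl X R x ∩ nbl X R y).card : ℝ)]

/-- **the linear graph lemma**, loops allowed: `p` is the exact density -/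
theorem lin_graph_loops (X : Finset V) (R : V → V → Prop) (hR : ∀ x y, R x y → R y x)
    (hX : 0 < X.card) {p D T : ℝ}
    (hp : ∑ x ∈ X, ((nbl X R x).card : ℝ) = p * (X.card : ℝ) ^ 2) (hp0 : 0 < p)
    (hD : ∑ x ∈ X, (((nbl X R x).card : ℝ) - p * (X.card : ℝ)) ^ 2 ≤ D)
    (hT : ∑ x ∈ X, ∑ y ∈ nnl X R x, ((nbl X R x ∩ nbl X R y).card : ℝ) ≤ T) :
    ∃ q : ℕ, |1 - (q : ℝ) * p| ≤ 74 * (D + T) / ((X.card : ℝ) ^ 3 * p ^ 4) := by
  classical
  have hne : Nonempty {x // x ∈ X} := by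
    obtain ⟨x, hx⟩ := Finset.card_pos.1 hX
    exact ⟨⟨x, hx⟩⟩
  have hc : (Fintype.card {x // x ∈ X} : ℝ) = (X.card : ℝ) := by
    rw [Fintype.card_coe]
  have hX0 : (0 : ℝ) < (X.card : ℝ) := by exact_mod_cast hX
  have hs : ∑ x, sd (fun a b : {x // x ∈ X} => R a b) x = p * (X.card : ℝ) ^ 2 := by
    rw [← hp, Finset.sum_congr rfl fun x _ => spc_deg X R x,
      Finset.sum_coe_sort X fun x => ((nbl X R x).card : ℝ)]
  have hd : ∑ x, (sd (fun a b : {x // x ∈ X} => R a b) x -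
      p * (Fintype.card {x // x ∈ X} : ℝ)) ^ 2 =
      ∑ x ∈ X, (((nbl X R x).card : ℝ) - p * (X.card : ℝ)) ^ 2 := by
    rw [hc, Finset.sum_congr rfl fun x _ => by rw [spc_deg X R x],
      Finset.sum_coe_sort X fun x => (((nbl X R x).card : ℝ) - p * (X.card : ℝ)) ^ 2]
  obtain ⟨q, hq⟩ := lin_fin (fun a b : {x // x ∈ X} => R a b) (fun a b => hR a b)
    (p := p) (by rw [hc, hs]; field_simp) hp0 rfl
  refine ⟨q, hq.trans ?_⟩
  rw [hc, spc_T X R hR, ← hc, hd, hc]
  exact div_le_div_of_nonneg_right (by linarith) (by positivity)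

/-- the linear graph lemma, loops allowed, around any density `p` -/
theorem lin_graph_loops_near (X : Finset V) (R : V → V → Prop) (hR : ∀ x y, R x y → R y x)
    (hX : 0 < X.card) {p δ D T : ℝ} (hp0 : 0 < p)
    (hδ : |∑ x ∈ X, ((nbl X R x).card : ℝ) - p * (X.card : ℝ) ^ 2| ≤ δ * (X.card : ℝ) ^ 2)
    (hD : ∑ x ∈ X, (((nbl X R x).card : ℝ) - p * (X.card : ℝ)) ^ 2 ≤ D)
    (hT : ∑ x ∈ X, ∑ y ∈ nnl X R x, ((nbl X R x ∩ nbl X R y).card : ℝ) ≤ T) :
    ∃ q : ℕ, |1 - (q : ℝ) * p| ≤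
      1184 * (D + T) / ((X.card : ℝ) ^ 3 * p ^ 4) + 4 * δ / p := by
  classical
  have hX0 : (0 : ℝ) < (X.card : ℝ) := by exact_mod_cast hX
  have hD0 : 0 ≤ D := le_trans (Finset.sum_nonneg fun x _ => sq_nonneg _) hD
  have hT0 : 0 ≤ T := le_trans (Finset.sum_nonneg fun x _ => Finset.sum_nonneg fun y _ =>
    Nat.cast_nonneg _) hT
  have hδ0 : 0 ≤ δ := by
    have h1 : 0 ≤ δ * (X.card : ℝ) ^ 2 := (abs_nonneg _).trans hδ
    exact nonneg_of_mul_nonneg_left h1 (by positivity)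
  have hE0' : 0 ≤ 1184 * (D + T) / ((X.card : ℝ) ^ 3 * p ^ 4) := by positivity
  obtain ⟨E, hE⟩ : ∃ E : ℝ, E = 1184 * (D + T) / ((X.card : ℝ) ^ 3 * p ^ 4) := ⟨_, rfl⟩
  rw [← hE] at hE0' ⊢
  have hδ1 : 0 ≤ 4 * δ / p := by positivity
  by_cases hE1 : 1 < E
  · exact ⟨0, by simp; linarith⟩
  by_cases hδ2 : p / 2 < δ
  · refine ⟨0, ?_⟩
    have h1 : 1 ≤ 4 * δ / p := by
      rw [le_div_iff₀ hp0]
      linarith
    simp
    linarith
  push Not at hE1 hδ2
  obtain ⟨p', hs⟩ : ∃ p' : ℝ, ∑ x ∈ X, ((nbl X R x).card : ℝ) = p' * (X.card : ℝ) ^ 2 :=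
    ⟨(∑ x ∈ X, ((nbl X R x).card : ℝ)) / (X.card : ℝ) ^ 2, by field_simp⟩
  have hpp : |p' - p| ≤ δ := by
    rw [hs, ← sub_mul, abs_mul, abs_of_pos (by positivity : (0 : ℝ) < (X.card : ℝ) ^ 2)] at hδ
    exact le_of_mul_le_mul_right hδ (by positivity)
  have h1 := abs_le.1 hpp
  have hp2 : p / 2 ≤ p' := by linarith [h1.1]
  have hp'0 : 0 < p' := by linarith
  have hD' : ∑ x ∈ X, (((nbl X R x).card : ℝ) - p' * (X.card : ℝ)) ^ 2 ≤ D := by
    refine le_trans ?_ hD
    have h2 : ∑ x ∈ X, (((nbl X R x).card : ℝ) - p * (X.card : ℝ)) ^ 2 =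
        ∑ x ∈ X, (((nbl X R x).card : ℝ) - p' * (X.card : ℝ)) ^ 2 +
          2 * ((p' - p) * (X.card : ℝ)) * (∑ x ∈ X, (((nbl X R x).card : ℝ) - p' * (X.card : ℝ))) +
          (X.card : ℝ) * ((p' - p) * (X.card : ℝ)) ^ 2 := by
      rw [← nsmul_eq_mul (X.card), ← Finset.sum_const, Finset.mul_sum, ← Finset.sum_add_distrib,
        ← Finset.sum_add_distrib]
      exact Finset.sum_congr rfl fun x _ => by ring
    have h3 : ∑ x ∈ X, (((nbl X R x).card : ℝ) - p' * (X.card : ℝ)) = 0 := by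
      rw [Finset.sum_sub_distrib, hs, Finset.sum_const, nsmul_eq_mul]
      ring
    rw [h2, h3]
    have : 0 ≤ (X.card : ℝ) * ((p' - p) * (X.card : ℝ)) ^ 2 := by positivity
    linarith
  obtain ⟨q, hq⟩ := lin_graph_loops X R hR hX hs hp'0 hD' hT
  have hq2 : |1 - (q : ℝ) * p'| ≤ E := by
    refine hq.trans ?_
    rw [hE, div_le_div_iff₀ (by positivity) (by positivity)]
    have h2 : p ^ 4 ≤ 16 * p' ^ 4 := by
      have h3 : p ≤ 2 * p' := by linarith
      calc p ^ 4 ≤ (2 * p') ^ 4 := pow_le_pow_left₀ hp0.le h3 4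
        _ = 16 * p' ^ 4 := by ring
    have h4 : 0 ≤ 74 * (D + T) * (X.card : ℝ) ^ 3 := by positivity
    calc 74 * (D + T) * ((X.card : ℝ) ^ 3 * p ^ 4) = 74 * (D + T) * (X.card : ℝ) ^ 3 * p ^ 4 := by
          ring
      _ ≤ 74 * (D + T) * (X.card : ℝ) ^ 3 * (16 * p' ^ 4) := mul_le_mul_of_nonneg_left h2 h4
      _ = 1184 * (D + T) * ((X.card : ℝ) ^ 3 * p' ^ 4) := by ring
  refine ⟨q, ?_⟩
  have h5 := abs_le.1 hq2
  have hqp : (q : ℝ) * p' ≤ 2 := by linarith [h5.1]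
  have hqb : (q : ℝ) ≤ 4 / p := by
    rw [le_div_iff₀ hp0]
    have : (q : ℝ) * (p / 2) ≤ q * p' := mul_le_mul_of_nonneg_left hp2 (Nat.cast_nonneg q)
    linarith
  have h6 : |(q : ℝ) * (p' - p)| ≤ 4 * δ / p := by
    rw [abs_mul, abs_of_nonneg (Nat.cast_nonneg q)]
    calc (q : ℝ) * |p' - p| ≤ 4 / p * δ := mul_le_mul hqb hpp (abs_nonneg _) (by positivity)
      _ = 4 * δ / p := by ring
  have h7 : 1 - (q : ℝ) * p = (1 - (q : ℝ) * p') + (q : ℝ) * (p' - p) := by ring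
  rw [h7]
  exact (abs_add_le _ _).trans (add_le_add hq2 h6)

/-- the linear graph lemma without loops: an additional `N²` in the number of cherries -/
theorem lin_graph_near (X : Finset V) (R : V → V → Prop) (hR : ∀ x y, R x y → R y x)
    (hX : 0 < X.card) {p δ D T : ℝ} (hp0 : 0 < p)
    (hδ : |∑ x ∈ X, ((nb X R x).card : ℝ) - p * (X.card : ℝ) ^ 2| ≤ δ * (X.card : ℝ) ^ 2)
    (hD : ∑ x ∈ X, (((nb X R x).card : ℝ) - p * (X.card : ℝ)) ^ 2 ≤ D)
    (hT : ∑ x ∈ X, ∑ y ∈ nn X R x, ((nb X R x ∩ nb X R y).card : ℝ) ≤ T) :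
    ∃ q : ℕ, |1 - (q : ℝ) * p| ≤
      1184 * (D + (T + (X.card : ℝ) ^ 2)) / ((X.card : ℝ) ^ 3 * p ^ 4) + 4 * δ / p := by
  classical
  have e1 : ∀ x, nbl X (fun a b => b ≠ a ∧ R a b) x = nb X R x := by
    intro x
    ext y
    simp only [nbl, nb, Finset.mem_filter]
  refine lin_graph_loops_near X (fun a b => b ≠ a ∧ R a b)
    (fun x y h => ⟨h.1.symm, hR x y h.2⟩) hX hp0 (by simpa only [e1] using hδ)
    (by simpa only [e1] using hD) ?_
  have e2 : ∀ x ∈ X, ∑ y ∈ nnl X (fun a b => b ≠ a ∧ R a b) x, ((nb X R x ∩ nb X R y).card : ℝ) ≤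
      (∑ y ∈ nn X R x, ((nb X R x ∩ nb X R y).card : ℝ)) + (X.card : ℝ) := by
    intro x hx
    have h1 : nnl X (fun a b => b ≠ a ∧ R a b) x ⊆ insert x (nn X R x) := by
      intro y hy
      simp only [nnl, nn, Finset.mem_filter, Finset.mem_insert] at hy ⊢
      tauto
    refine (Finset.sum_le_sum_of_subset_of_nonneg h1 fun _ _ _ => Nat.cast_nonneg _).trans ?_
    rw [Finset.sum_insert (by simp [nn])]
    have h2 : ((nb X R x ∩ nb X R x).card : ℝ) ≤ (X.card : ℝ) := by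
      exact_mod_cast Finset.card_le_card (Finset.inter_subset_left.trans (Finset.filter_subset _ _))
    linarith
  simp only [e1]
  calc ∑ x ∈ X, ∑ y ∈ nnl X (fun a b => b ≠ a ∧ R a b) x, ((nb X R x ∩ nb X R y).card : ℝ)
      ≤ ∑ x ∈ X, ((∑ y ∈ nn X R x, ((nb X R x ∩ nb X R y).card : ℝ)) + (X.card : ℝ)) :=
        Finset.sum_le_sum e2
    _ = (∑ x ∈ X, ∑ y ∈ nn X R x, ((nb X R x ∩ nb X R y).card : ℝ)) + (X.card : ℝ) ^ 2 := by
        rw [Finset.sum_add_distrib, Finset.sum_const, nsmul_eq_mul, sq]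
    _ ≤ T + (X.card : ℝ) ^ 2 := by linarith

end Pool.Agent.DCS
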