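import Pool.Agent.DCS.Two

/-!
# DCS-Sqr: linear bounds for the second moments

`f = |Bw w ∩ Bw w'|` is at least `h = d (S - w) + d (S - w') - d (S - w - w')`; both have nearly the same mean, so
`∑ (f - h)` is linear in the loss, and so is the second moment of `f - φ`.
-/

open Finset Pool.Agent.Helper2.DC

namespace Pool.Agent.DCS

variable {V : Type} [Fintype V] [DecidableEq V]

theorem sum_dev_zero {H : Finset (Finset V)} {s : ℕ} (hN : 0 < NI H s) :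
    ∑ Q ∈ ind H s, (((ext H Q).card : ℝ) - Av H s) = 0 := by
  rw [sum_sub_distrib, sum_const, nsmul_eq_mul]
  change _ - NI H s * Av H s = 0
  unfold Av
  field_simp
  ring

theorem Av_le {H : Finset (Finset V)} {s : ℕ} (hN : 0 < NI H s) :
    Av H s ≤ (Fintype.card V : ℝ) := by
  unfold Av
  rw [div_le_iff₀ hN]
  calc ∑ S ∈ ind H s, ((ext H S).card : ℝ) ≤
        ∑ _S ∈ ind H s, (Fintype.card V : ℝ) := sum_le_sum fun S _ => ext_card_le H S
    _ = (Fintype.card V : ℝ) * NI H s := by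
        rw [sum_const, nsmul_eq_mul]
        unfold NI
        ring

theorem Av_nonneg (H : Finset (Finset V)) (s : ℕ) : 0 ≤ Av H s :=
  div_nonneg (sum_nonneg fun _ _ => Nat.cast_nonneg _) (NI_nonneg H s)

/-- first moment, one vertex removed -/
theorem fst_one {H : Finset (Finset V)} {s : ℕ} (hN : 0 < NI H s) :
    ∑ S ∈ ind H (s + 1), ∑ w ∈ S, (((ext H (S.erase w)).card : ℝ) - Av H s) = Sq H s := by
  rw [← sum_ext H s (fun Q _ => ((ext H Q).card : ℝ) - Av H s)]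
  have h1 : ∀ Q ∈ ind H s, ∑ _x ∈ ext H Q, (((ext H Q).card : ℝ) - Av H s) =
      (((ext H Q).card : ℝ) - Av H s) ^ 2 + Av H s * (((ext H Q).card : ℝ) - Av H s) := by
    intro Q _
    rw [sum_const, nsmul_eq_mul]
    ring
  rw [sum_congr rfl h1, sum_add_distrib, ← mul_sum, sum_dev_zero hN, mul_zero, add_zero]
  rfl

/-- second moment, one vertex removed -/
theorem sq_one (H : Finset (Finset V)) (s : ℕ) :
    ∑ S ∈ ind H (s + 1), ∑ w ∈ S, (((ext H (S.erase w)).card : ℝ) - Av H s) ^ 2 ≤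
      (Fintype.card V : ℝ) * Sq H s := by
  rw [← sum_ext H s (fun Q _ => (((ext H Q).card : ℝ) - Av H s) ^ 2)]
  unfold Sq
  rw [mul_sum]
  refine sum_le_sum fun Q _ => ?_
  rw [sum_const, nsmul_eq_mul]
  exact mul_le_mul_of_nonneg_right (ext_card_le H Q) (sq_nonneg _)

/-- second moment, two vertices removed -/
theorem sq_two (H : Finset (Finset V)) (s : ℕ) :
    ∑ S ∈ ind H (s + 2), ∑ w ∈ S, ∑ w' ∈ S.erase w,
        (((ext H ((S.erase w).erase w')).card : ℝ) - Av H s) ^ 2 ≤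
      (Fintype.card V : ℝ) ^ 2 * Sq H s := by
  rw [← sum_ext H (s + 1) (fun Q _ => ∑ w' ∈ Q, (((ext H (Q.erase w')).card : ℝ) - Av H s) ^ 2)]
  have h1 : ∑ Q ∈ ind H (s + 1), ∑ _x ∈ ext H Q,
        ∑ w' ∈ Q, (((ext H (Q.erase w')).card : ℝ) - Av H s) ^ 2 ≤
      ∑ Q ∈ ind H (s + 1), (Fintype.card V : ℝ) *
        ∑ w' ∈ Q, (((ext H (Q.erase w')).card : ℝ) - Av H s) ^ 2 := by
    refine sum_le_sum fun Q _ => ?_
    rw [sum_const, nsmul_eq_mul]
    exact mul_le_mul_of_nonneg_right (ext_card_le H Q) (sum_nonneg fun _ _ => sq_nonneg _)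
  refine h1.trans ?_
  rw [← mul_sum]
  refine (mul_le_mul_of_nonneg_left (sq_one H s) (Nat.cast_nonneg _)).trans (le_of_eq ?_)
  ring

/-- first moment, two vertices removed -/
theorem fst_two {H : Finset (Finset V)} {s : ℕ} (hN : 0 < NI H s) (hN1 : 0 < NI H (s + 1)) :
    ∑ S ∈ ind H (s + 2), ∑ w ∈ S, ∑ w' ∈ S.erase w,
        (((ext H ((S.erase w).erase w')).card : ℝ) - Av H s) ≤
      3 / 2 * (Fintype.card V : ℝ) * Sq H s + ((s : ℝ) + 1) / 2 * Sq H (s + 1) := by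
  rw [← sum_ext H (s + 1) (fun Q _ => ∑ w' ∈ Q, (((ext H (Q.erase w')).card : ℝ) - Av H s))]
  have h1 : ∀ Q ∈ ind H (s + 1), ∑ _x ∈ ext H Q,
        ∑ w' ∈ Q, (((ext H (Q.erase w')).card : ℝ) - Av H s) ≤
      Av H (s + 1) * ∑ w' ∈ Q, (((ext H (Q.erase w')).card : ℝ) - Av H s) +
        (((s : ℝ) + 1) / 2 * (((ext H Q).card : ℝ) - Av H (s + 1)) ^ 2 +
          1 / 2 * ∑ w' ∈ Q, (((ext H (Q.erase w')).card : ℝ) - Av H s) ^ 2) := by
    intro Q hQ
    have hQc : ((Q.card : ℕ) : ℝ) = (s : ℝ) + 1 := by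
      rw [(mem_ind.1 hQ).1]
      push_cast
      ring
    rw [sum_const, nsmul_eq_mul]
    have h2 : (((ext H Q).card : ℝ) - Av H (s + 1)) *
        ∑ w' ∈ Q, (((ext H (Q.erase w')).card : ℝ) - Av H s) ≤
        ∑ w' ∈ Q, (1 / 2 * (((ext H Q).card : ℝ) - Av H (s + 1)) ^ 2 +
          1 / 2 * (((ext H (Q.erase w')).card : ℝ) - Av H s) ^ 2) := by
      rw [mul_sum]
      refine sum_le_sum fun w' _ => ?_
      nlinarith [sq_nonneg ((((ext H Q).card : ℝ) - Av H (s + 1)) -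
        (((ext H (Q.erase w')).card : ℝ) - Av H s))]
    rw [sum_add_distrib, sum_const, nsmul_eq_mul, hQc, ← mul_sum] at h2
    linarith
  refine (sum_le_sum h1).trans ?_
  rw [sum_add_distrib, sum_add_distrib, ← mul_sum, ← mul_sum, ← mul_sum, fst_one hN]
  have h3 := sq_one H s
  have h4 := mul_le_mul_of_nonneg_right (Av_le hN1) (Sq_nonneg H s)
  have h5 : ∑ Q ∈ ind H (s + 1), (((ext H Q).card : ℝ) - Av H (s + 1)) ^ 2 = Sq H (s + 1) := rfl
  rw [h5]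
  linarith

theorem inter_le {H : Finset (Finset V)} {S : Finset V} {w w' : V} (hS : Ind H S)
    (hw : w ∈ S) : ((Bw H S w ∩ Bw H S w').card : ℝ) ≤ ((ext H (S.erase w)).card : ℝ) := by
  have h1 := ext_erase_card hS hw
  have h2 : (Bw H S w ∩ Bw H S w').card ≤ (Bw H S w).card := card_le_card inter_subset_left
  exact_mod_cast (show (Bw H S w ∩ Bw H S w').card ≤ (ext H (S.erase w)).card by omega)

/-- linear bounds: `e n` bounds the mean of `f - h`, the distance of `2 D2 - D3` from `φ`; the second moment -/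
theorem two_sq {H : Finset (Finset V)} {k s : ℕ} (hH : ∀ e ∈ H, e.card = k) (hk : 2 ≤ k)
    (hks : k ≤ s + 3) (h0 : NI H (s + 3) = 0) (hN2 : 0 < NI H (s + 2)) {δ η c : ℝ}
    (hδ : δ = (k : ℝ) / ((s : ℝ) + 3)) (hη : 0 ≤ η) (hc : 0 ≤ c)
    (hV : Sq H (s + 1) ≤ η * (Fintype.card V : ℝ) ^ 2 * NI H (s + 1))
    (hV' : Sq H s ≤ η * (Fintype.card V : ℝ) ^ 2 * NI H s)
    (hA : δ / 2 * (Fintype.card V : ℝ) ≤ Av H (s + 1))
    (hA' : δ / 2 * (Fintype.card V : ℝ) ≤ Av H s)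
    (hD : δ ^ 2 * (Fintype.card V : ℝ) - c * (Fintype.card V : ℝ) ≤
      2 * Av H (s + 1) - Av H s) :
    (∑ S ∈ ind H (s + 2), ∑ w ∈ S, ∑ w' ∈ S.erase w,
        (((Bw H S w ∩ Bw H S w').card : ℝ) - δ ^ 2 * (Fintype.card V : ℝ)) ^ 2 ≤
      (208 / δ ^ 2 * η + 18 * c) * (Fintype.card V : ℝ) ^ 2 *
        (((s : ℝ) + 2) * ((s : ℝ) + 1) * NI H (s + 2))) ∧
    (-((8 / δ ^ 2 * η + c) * (Fintype.card V : ℝ) *
        (((s : ℝ) + 2) * ((s : ℝ) + 1) * NI H (s + 2))) ≤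
      ∑ S ∈ ind H (s + 2), ∑ w ∈ S, ∑ w' ∈ S.erase w,
        (((Bw H S w ∩ Bw H S w').card : ℝ) - δ ^ 2 * (Fintype.card V : ℝ))) ∧
    (∑ S ∈ ind H (s + 2), ∑ w ∈ S, ∑ w' ∈ S.erase w,
        (((Bw H S w ∩ Bw H S w').card : ℝ) - δ ^ 2 * (Fintype.card V : ℝ)) ≤ 0) := by
  have hk2 : (2 : ℝ) ≤ k := by exact_mod_cast hk
  have hks2 : (k : ℝ) ≤ (s : ℝ) + 3 := by exact_mod_cast hks
  have hs : (0 : ℝ) ≤ s := Nat.cast_nonneg _
  have hδ0 : 0 < δ := by rw [hδ]; positivity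
  have hδ1 : δ ≤ 1 := by rw [hδ, div_le_one (by linarith)]; exact hks2
  have hn : (0 : ℝ) ≤ (Fintype.card V : ℝ) := Nat.cast_nonneg _
  obtain ⟨hN1, -⟩ := ind_nonempty_of_succ hN2
  obtain ⟨hN0, -⟩ := ind_nonempty_of_succ hN1
  have hφP := phi_le hk hks hn
  rw [← hδ] at hφP
  have hL1 := level_le H (s + 1) hδ0 hA
  have hL0 := level_le H s hδ0 hA'
  have hA1n := Av_le hN1
  have hA0n := Av_le hN0
  have hA1p := Av_nonneg H (s + 1)
  have hA0p := Av_nonneg H s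
  have hf1 := fst_one (H := H) (s := s + 1) hN1
  have hf2 := fst_two hN0 hN1
  have hq1 := sq_one H (s + 1)
  have hq2 := sq_two H s
  set n : ℝ := (Fintype.card V : ℝ) with hn'
  set D2 : ℝ := Av H (s + 1) with hD2
  set D3 : ℝ := Av H s with hD3
  set φ : ℝ := δ ^ 2 * n with hφ
  set P : ℝ := ((s : ℝ) + 2) * ((s : ℝ) + 1) * NI H (s + 2) with hP
  have hP0 : 0 < P := by positivity
  have hφn : φ ≤ n := by
    rw [hφ]
    have : δ ^ 2 ≤ 1 := pow_le_one₀ hδ0.le hδ1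
    nlinarith
  have hφ0 : 0 ≤ φ := by positivity
  -- the levels
  have hL1' : n * NI H (s + 1) ≤ 2 / δ * (((s : ℝ) + 2) * NI H (s + 2)) := by
    refine hL1.trans (le_of_eq ?_)
    push_cast
    ring
  have hLP1 : n * (((s : ℝ) + 1) * NI H (s + 1)) ≤ 2 / δ * P := by
    have := mul_le_mul_of_nonneg_left hL1' (show 0 ≤ (s : ℝ) + 1 by positivity)
    rw [hP]
    linarith
  have hLP0 : n ^ 2 * NI H s ≤ 4 / δ ^ 2 * P := by
    have h1 := mul_le_mul_of_nonneg_left hL0 hn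
    have h2 := mul_le_mul_of_nonneg_left hLP1 (show 0 ≤ 2 / δ by positivity)
    have e : 2 / δ * (2 / δ * P) = 4 / δ ^ 2 * P := by field_simp; ring
    rw [e] at h2
    linarith
  have hδδ : 2 / δ ≤ 2 / δ ^ 2 := by
    apply div_le_div_of_nonneg_left (by norm_num) (by positivity)
    nlinarith
  -- first moments
  have hcardS : ∀ S ∈ ind H (s + 2), ∀ w ∈ S, ((S.erase w).card : ℝ) = (s : ℝ) + 1 := by
    intro S hS w hw
    have h := card_erase_add_one hw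
    rw [(mem_ind.1 hS).1] at h
    have h' : (S.erase w).card = s + 1 := by omega
    rw [h']
    push_cast
    ring
  have hScard : ∀ S ∈ ind H (s + 2), ((S.card : ℕ) : ℝ) = (s : ℝ) + 2 := by
    intro S hS
    rw [(mem_ind.1 hS).1]
    push_cast
    ring
  have hswap : ∀ (S : Finset V) (F : V → ℝ), ∑ w ∈ S, ∑ w' ∈ S.erase w, F w' =
      ∑ w ∈ S, ∑ _w' ∈ S.erase w, F w := by
    intro S F
    refine sum_comm' fun x y => ?_
    simp only [mem_erase]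
    constructor
    · rintro ⟨h1, h2, h3⟩
      exact ⟨⟨h2.symm, h1⟩, h3⟩
    · rintro ⟨⟨h2, h1⟩, h3⟩
      exact ⟨h1, h2.symm, h3⟩
  have hconst : ∀ (F : Finset V → V → ℝ), ∑ S ∈ ind H (s + 2), ∑ w ∈ S, ∑ _w' ∈ S.erase w, F S w =
      ((s : ℝ) + 1) * ∑ S ∈ ind H (s + 2), ∑ w ∈ S, F S w := by
    intro F
    rw [mul_sum]
    refine sum_congr rfl fun S hS => ?_
    rw [mul_sum]
    refine sum_congr rfl fun w hw => ?_
    rw [sum_const, nsmul_eq_mul, hcardS S hS w hw]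
  have hnum : ∀ a : ℝ, ∑ S ∈ ind H (s + 2), ∑ w ∈ S, ∑ _w' ∈ S.erase w, a = a * P := by
    intro a
    have h1 : ∀ S ∈ ind H (s + 2), ∑ w ∈ S, ∑ _w' ∈ S.erase w, a =
        ((s : ℝ) + 2) * (((s : ℝ) + 1) * a) := by
      intro S hS
      have h2 : ∀ w ∈ S, ∑ _w' ∈ S.erase w, a = ((s : ℝ) + 1) * a := by
        intro w hw
        rw [sum_const, nsmul_eq_mul, hcardS S hS w hw]
      rw [sum_congr rfl h2, sum_const, nsmul_eq_mul, hScard S hS]
    rw [sum_congr rfl h1, sum_const, nsmul_eq_mul]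
    change NI H (s + 2) * _ = _
    rw [hP]
    ring
  set a1 : ℝ := ∑ S ∈ ind H (s + 2), ∑ w ∈ S, (((ext H (S.erase w)).card : ℝ) - D2) with ha1
  have ha1' : a1 = Sq H (s + 1) := hf1
  have ha1p : 0 ≤ a1 := by rw [ha1']; exact Sq_nonneg H _
  set a2 : ℝ := ∑ S ∈ ind H (s + 2), ∑ w ∈ S, ∑ w' ∈ S.erase w,
        (((ext H ((S.erase w).erase w')).card : ℝ) - D3) with ha2
  have ha2' : a2 ≤ 8 / δ ^ 2 * η * n * P := by
    refine hf2.trans ?_
    have h1 := mul_le_mul_of_nonneg_left hV' (show 0 ≤ 3 / 2 * n by positivity)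
    have h2 := mul_le_mul_of_nonneg_left hV (show 0 ≤ ((s : ℝ) + 1) / 2 by positivity)
    have h3 := mul_le_mul_of_nonneg_left hLP0 (show 0 ≤ 3 / 2 * η * n by positivity)
    have h4 := mul_le_mul_of_nonneg_left hLP1 (show 0 ≤ 1 / 2 * η * n by positivity)
    have h5 : 2 / δ * P ≤ 4 / δ ^ 2 * P := by
      refine mul_le_mul_of_nonneg_right ?_ hP0.le
      refine hδδ.trans ?_
      gcongr
      norm_num
    have h6 := mul_le_mul_of_nonneg_left h5 (show 0 ≤ 1 / 2 * η * n by positivity)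
    have e : 8 / δ ^ 2 * η * n * P =
        3 / 2 * η * n * (4 / δ ^ 2 * P) + 1 / 2 * η * n * (4 / δ ^ 2 * P) := by ring
    rw [e]
    linarith
  -- `f` and `h`
  set a3 : ℝ := ∑ S ∈ ind H (s + 2), ∑ w ∈ S, ∑ w' ∈ S.erase w,
        (((Bw H S w ∩ Bw H S w').card : ℝ) - φ) with ha3
  have ha3' : a3 ≤ 0 := by
    refine sum_nonpos fun S hS => ?_
    have h1 := inter_sum_le hH hk (mem_ind.1 hS).2 (ext_empty h0 hS)
    have h2 : ∑ w ∈ S, ∑ w' ∈ S.erase w, (((Bw H S w ∩ Bw H S w').card : ℝ) - φ) =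
        ∑ w ∈ S, ∑ w' ∈ S.erase w, ((Bw H S w ∩ Bw H S w').card : ℝ) -
          ((s : ℝ) + 2) * (((s : ℝ) + 1) * φ) := by
      have h3 : ∑ w ∈ S, ∑ _w' ∈ S.erase w, φ = ((s : ℝ) + 2) * (((s : ℝ) + 1) * φ) := by
        have h4 : ∀ w ∈ S, ∑ _w' ∈ S.erase w, φ = ((s : ℝ) + 1) * φ := by
          intro w hw
          rw [sum_const, nsmul_eq_mul, hcardS S hS w hw]
        rw [sum_congr rfl h4, sum_const, nsmul_eq_mul, hScard S hS]
      rw [← h3, ← sum_sub_distrib]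
      exact sum_congr rfl fun w _ => sum_sub_distrib _ _
    rw [h2]
    linarith
  set g : Finset V → V → V → ℝ := fun S w w' => ((Bw H S w ∩ Bw H S w').card : ℝ) -
    (((ext H (S.erase w)).card : ℝ) + (ext H (S.erase w')).card -
      (ext H ((S.erase w).erase w')).card) with hg
  have hgsum : ∑ S ∈ ind H (s + 2), ∑ w ∈ S, ∑ w' ∈ S.erase w, g S w w' =
      a3 - 2 * ((s : ℝ) + 1) * a1 + a2 - (2 * D2 - D3 - φ) * P := by
    have h1 : ∀ S : Finset V, ∀ w w' : V, g S w w' =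
        (((Bw H S w ∩ Bw H S w').card : ℝ) - φ) - (((ext H (S.erase w)).card : ℝ) - D2) -
          (((ext H (S.erase w')).card : ℝ) - D2) +
          (((ext H ((S.erase w).erase w')).card : ℝ) - D3) - (2 * D2 - D3 - φ) := by
      intro S w w'
      rw [hg]
      ring
    have hlin : ∀ (F1 F2 F3 F4 F5 : Finset V → V → V → ℝ),
        ∑ S ∈ ind H (s + 2), ∑ w ∈ S, ∑ w' ∈ S.erase w,
          (F1 S w w' - F2 S w w' - F3 S w w' + F4 S w w' - F5 S w w') =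
        ∑ S ∈ ind H (s + 2), ∑ w ∈ S, ∑ w' ∈ S.erase w, F1 S w w' -
        ∑ S ∈ ind H (s + 2), ∑ w ∈ S, ∑ w' ∈ S.erase w, F2 S w w' -
        ∑ S ∈ ind H (s + 2), ∑ w ∈ S, ∑ w' ∈ S.erase w, F3 S w w' +
        ∑ S ∈ ind H (s + 2), ∑ w ∈ S, ∑ w' ∈ S.erase w, F4 S w w' -
        ∑ S ∈ ind H (s + 2), ∑ w ∈ S, ∑ w' ∈ S.erase w, F5 S w w' := by
      intro F1 F2 F3 F4 F5
      simp only [sum_add_distrib, sum_sub_distrib]
    have e1 : ∑ S ∈ ind H (s + 2), ∑ w ∈ S, ∑ w' ∈ S.erase w,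
        (((ext H (S.erase w')).card : ℝ) - D2) = ((s : ℝ) + 1) * a1 := by
      have h2 : ∀ S ∈ ind H (s + 2), ∑ w ∈ S, ∑ w' ∈ S.erase w,
          (((ext H (S.erase w')).card : ℝ) - D2) =
          ∑ w ∈ S, ∑ _w' ∈ S.erase w, (((ext H (S.erase w)).card : ℝ) - D2) :=
        fun S _ => hswap S fun w => ((ext H (S.erase w)).card : ℝ) - D2
      rw [sum_congr rfl h2, hconst fun S w => ((ext H (S.erase w)).card : ℝ) - D2]
    have e2 := hconst fun S w => ((ext H (S.erase w)).card : ℝ) - D2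
    have e3 := hnum (2 * D2 - D3 - φ)
    have e4 := hlin (fun S w w' => ((Bw H S w ∩ Bw H S w').card : ℝ) - φ)
      (fun S w _ => ((ext H (S.erase w)).card : ℝ) - D2)
      (fun S _ w' => ((ext H (S.erase w')).card : ℝ) - D2)
      (fun S w w' => ((ext H ((S.erase w).erase w')).card : ℝ) - D3)
      (fun _ _ _ => 2 * D2 - D3 - φ)
    have e5 : ∑ S ∈ ind H (s + 2), ∑ w ∈ S, ∑ w' ∈ S.erase w, g S w w' =
        ∑ S ∈ ind H (s + 2), ∑ w ∈ S, ∑ w' ∈ S.erase w,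
          ((((Bw H S w ∩ Bw H S w').card : ℝ) - φ) - (((ext H (S.erase w)).card : ℝ) - D2) -
          (((ext H (S.erase w')).card : ℝ) - D2) +
          (((ext H ((S.erase w).erase w')).card : ℝ) - D3) - (2 * D2 - D3 - φ)) :=
      sum_congr rfl fun S _ => sum_congr rfl fun w _ => sum_congr rfl fun w' _ => h1 S w w'
    rw [e5, e4, e1, e2, e3]
    ring
  have hgpos : ∀ S ∈ ind H (s + 2), ∀ w ∈ S, ∀ w' ∈ S.erase w, 0 ≤ g S w w' := by
    intro S _ w _ w' hw'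
    have h1 := inter_ge (H := H) (S := S) (ne_of_mem_erase hw').symm
    simp only [hg]
    linarith
  have hg0 : 0 ≤ ∑ S ∈ ind H (s + 2), ∑ w ∈ S, ∑ w' ∈ S.erase w, g S w w' :=
    sum_nonneg fun S hS => sum_nonneg fun w hw => sum_nonneg fun w' hw' => hgpos S hS w hw w' hw'
  have hsa1 : 0 ≤ ((s : ℝ) + 1) * a1 := by positivity
  have hup : (2 * D2 - D3 - φ) * P ≤ 8 / δ ^ 2 * η * n * P := by
    rw [hgsum] at hg0
    linarith
  have hup' : 2 * D2 - D3 - φ ≤ (8 / δ ^ 2 * η + c) * n := by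
    have h1 : 2 * D2 - D3 - φ ≤ 8 / δ ^ 2 * η * n := le_of_mul_le_mul_right hup hP0
    have h2 : 0 ≤ c * n := by positivity
    linarith
  have hlow' : -((8 / δ ^ 2 * η + c) * n) ≤ 2 * D2 - D3 - φ := by
    have h2 : 0 ≤ 8 / δ ^ 2 * η * n := by positivity
    linarith
  have hgle : ∑ S ∈ ind H (s + 2), ∑ w ∈ S, ∑ w' ∈ S.erase w, g S w w' ≤
      (8 / δ ^ 2 * η + c) * n * P := by
    rw [hgsum]
    have h1 : -(c * n) * P ≤ (2 * D2 - D3 - φ) * P :=
      mul_le_mul_of_nonneg_right (by linarith) hP0.le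
    linarith
  refine ⟨?_, ?_, ha3'⟩
  swap
  · rw [hgsum] at hg0
    have h1 : -(c * n) * P ≤ (2 * D2 - D3 - φ) * P :=
      mul_le_mul_of_nonneg_right (by linarith) hP0.le
    linarith
  -- the second moment
  have hpt : ∀ S ∈ ind H (s + 2), ∀ w ∈ S, ∀ w' ∈ S.erase w,
      (((Bw H S w ∩ Bw H S w').card : ℝ) - φ) ^ 2 ≤
      2 * n * g S w w' + 8 * (((ext H (S.erase w)).card : ℝ) - D2) ^ 2 +
        8 * (((ext H (S.erase w')).card : ℝ) - D2) ^ 2 +
        8 * (((ext H ((S.erase w).erase w')).card : ℝ) - D3) ^ 2 +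
        16 * (8 / δ ^ 2 * η + c) * n ^ 2 := by
    intro S hS w hw w' hw'
    have h1 := hgpos S hS w hw w' hw'
    have h2 := inter_le (w' := w') (mem_ind.1 hS).2 hw
    have h3 : g S w w' ≤ n := by
      have h4 := ext_card_le H ((S.erase w).erase w')
      have h5 : (0 : ℝ) ≤ ((ext H (S.erase w')).card : ℝ) := Nat.cast_nonneg _
      simp only [hg]
      linarith
    have h4 : (2 * D2 - D3 - φ) ^ 2 ≤ 2 * (8 / δ ^ 2 * η + c) * n ^ 2 := by
      have h5 : |2 * D2 - D3 - φ| ≤ (8 / δ ^ 2 * η + c) * n := abs_le.2 ⟨hlow', hup'⟩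
      have h6 : |2 * D2 - D3 - φ| ≤ 2 * n := abs_le.2 ⟨by linarith, by linarith⟩
      have h7 := mul_le_mul h5 h6 (abs_nonneg _) (by positivity)
      have h8 : |2 * D2 - D3 - φ| * |2 * D2 - D3 - φ| = (2 * D2 - D3 - φ) ^ 2 := by
        rw [← sq, sq_abs]
      rw [h8] at h7
      linarith
    have e1 : ((Bw H S w ∩ Bw H S w').card : ℝ) - φ = g S w w' +
        ((((ext H (S.erase w)).card : ℝ) - D2) + (((ext H (S.erase w')).card : ℝ) - D2) -
        (((ext H ((S.erase w).erase w')).card : ℝ) - D3) + (2 * D2 - D3 - φ)) := by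
      simp only [hg]
      ring
    rw [e1]
    generalize (((ext H (S.erase w)).card : ℝ) - D2) = A at *
    generalize (((ext H (S.erase w')).card : ℝ) - D2) = B at *
    generalize (((ext H ((S.erase w).erase w')).card : ℝ) - D3) = C at *
    generalize 2 * D2 - D3 - φ = E at *
    have h5 : (g S w w' + (A + B - C + E)) ^ 2 ≤
        2 * (g S w w') ^ 2 + 8 * (A ^ 2 + B ^ 2 + C ^ 2 + E ^ 2) := by
      have q1 : (g S w w' + (A + B - C + E)) ^ 2 ≤
          2 * (g S w w') ^ 2 + 2 * (A + B - C + E) ^ 2 := by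
        nlinarith only [sq_nonneg (g S w w' - (A + B - C + E))]
      have q2 : (A + B - C + E) ^ 2 ≤ 2 * (A + B) ^ 2 + 2 * (E - C) ^ 2 := by
        nlinarith only [sq_nonneg ((A + B) - (E - C))]
      have q3 : (A + B) ^ 2 ≤ 2 * A ^ 2 + 2 * B ^ 2 := by nlinarith only [sq_nonneg (A - B)]
      have q4 : (E - C) ^ 2 ≤ 2 * E ^ 2 + 2 * C ^ 2 := by nlinarith only [sq_nonneg (E + C)]
      linarith only [q1, q2, q3, q4]
    have h6 : (g S w w') ^ 2 ≤ n * g S w w' := by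
      rw [sq]
      exact mul_le_mul_of_nonneg_right h3 h1
    have h7 := mul_le_mul_of_nonneg_left h6 (show (0 : ℝ) ≤ 2 by norm_num)
    linarith only [h5, h7, h4]
  have hsum := sum_le_sum fun S hS => sum_le_sum fun w hw => sum_le_sum (hpt S hS w hw)
  refine hsum.trans ?_
  have e1 : ∑ S ∈ ind H (s + 2), ∑ w ∈ S, ∑ w' ∈ S.erase w,
      (2 * n * g S w w' + 8 * (((ext H (S.erase w)).card : ℝ) - D2) ^ 2 +
        8 * (((ext H (S.erase w')).card : ℝ) - D2) ^ 2 +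
        8 * (((ext H ((S.erase w).erase w')).card : ℝ) - D3) ^ 2 +
        16 * (8 / δ ^ 2 * η + c) * n ^ 2) =
      2 * n * ∑ S ∈ ind H (s + 2), ∑ w ∈ S, ∑ w' ∈ S.erase w, g S w w' +
      8 * ∑ S ∈ ind H (s + 2), ∑ w ∈ S, ∑ w' ∈ S.erase w,
        (((ext H (S.erase w)).card : ℝ) - D2) ^ 2 +
      8 * ∑ S ∈ ind H (s + 2), ∑ w ∈ S, ∑ w' ∈ S.erase w,
        (((ext H (S.erase w')).card : ℝ) - D2) ^ 2 +
      8 * ∑ S ∈ ind H (s + 2), ∑ w ∈ S, ∑ w' ∈ S.erase w,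
        (((ext H ((S.erase w).erase w')).card : ℝ) - D3) ^ 2 +
      ∑ S ∈ ind H (s + 2), ∑ w ∈ S, ∑ _w' ∈ S.erase w,
        16 * (8 / δ ^ 2 * η + c) * n ^ 2 := by
    simp only [sum_add_distrib, mul_sum]
  have e2 : ∑ S ∈ ind H (s + 2), ∑ w ∈ S, ∑ w' ∈ S.erase w,
        (((ext H (S.erase w')).card : ℝ) - D2) ^ 2 =
      ∑ S ∈ ind H (s + 2), ∑ w ∈ S, ∑ _w' ∈ S.erase w,
        (((ext H (S.erase w)).card : ℝ) - D2) ^ 2 :=
    sum_congr rfl fun S _ => hswap S fun w => (((ext H (S.erase w)).card : ℝ) - D2) ^ 2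
  rw [e1, e2, hnum, hconst fun S w => (((ext H (S.erase w)).card : ℝ) - D2) ^ 2]
  have h1 := mul_le_mul_of_nonneg_left hgle (show 0 ≤ 2 * n by positivity)
  have h2 : ((s : ℝ) + 1) * ∑ S ∈ ind H (s + 2), ∑ w ∈ S,
      (((ext H (S.erase w)).card : ℝ) - D2) ^ 2 ≤ 2 / δ ^ 2 * η * n ^ 2 * P := by
    have h3 := mul_le_mul_of_nonneg_left hq1 (show 0 ≤ (s : ℝ) + 1 by positivity)
    have h4 := mul_le_mul_of_nonneg_left hV (show 0 ≤ ((s : ℝ) + 1) * n by positivity)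
    have h5 := mul_le_mul_of_nonneg_left hLP1 (show 0 ≤ η * n ^ 2 by positivity)
    have h6 : η * n ^ 2 * (2 / δ * P) ≤ η * n ^ 2 * (2 / δ ^ 2 * P) :=
      mul_le_mul_of_nonneg_left (mul_le_mul_of_nonneg_right hδδ hP0.le) (by positivity)
    linarith
  have h3 : ∑ S ∈ ind H (s + 2), ∑ w ∈ S, ∑ w' ∈ S.erase w,
        (((ext H ((S.erase w).erase w')).card : ℝ) - D3) ^ 2 ≤ 4 / δ ^ 2 * η * n ^ 2 * P := by
    have h4 := mul_le_mul_of_nonneg_left hV' (show 0 ≤ n ^ 2 by positivity)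
    have h5 := mul_le_mul_of_nonneg_left hLP0 (show 0 ≤ η * n ^ 2 by positivity)
    linarith
  have e4 : (208 / δ ^ 2 * η + 18 * c) * n ^ 2 * P =
      2 * n * ((8 / δ ^ 2 * η + c) * n * P) + 8 * (2 / δ ^ 2 * η * n ^ 2 * P) +
        8 * (2 / δ ^ 2 * η * n ^ 2 * P) + 8 * (4 / δ ^ 2 * η * n ^ 2 * P) +
        16 * (8 / δ ^ 2 * η + c) * n ^ 2 * P := by ring
  rw [e4]
  linarith

end Pool.Agent.DCS
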