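import Pool.Agent.DCS.Var

/-!
# DCS-Two: the sizes of the intersections of two exchange sets

`Bw H S w` is the set of the vertices outside `S` which can be exchanged for `w ∈ S`. If no independent set has
`s + 3` elements then, on average over the independent sets `S` of size `s + 2` and over the pairs `w ≠ w'` of
elements of `S`, the number `|Bw w ∩ Bw w'|` is close to `φ`, where `φ` is close to `2 D2 - D3`.
-/

open Finset Pool.Agent.Helper2.DC

namespace Pool.Agent.DCS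

variable {V : Type} [Fintype V] [DecidableEq V]

/-- the vertices outside `S` which can be exchanged for `w` -/
def Bw (H : Finset (Finset V)) (S : Finset V) (w : V) : Finset V :=
  univ.filter (fun v => v ∉ S ∧ Ind H (insert v (S.erase w)))

theorem mem_Bw {H : Finset (Finset V)} {S : Finset V} {w v : V} :
    v ∈ Bw H S w ↔ v ∉ S ∧ Ind H (insert v (S.erase w)) := by simp [Bw]

theorem mem_Bw_kap {H : Finset (Finset V)} {S : Finset V} {w v : V} (hw : w ∈ S) :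
    v ∈ Bw H S w ↔ v ∉ S ∧ w ∈ kap H S v := by
  rw [mem_Bw, mem_kap]
  exact ⟨fun h => ⟨h.1, hw, h.2⟩, fun h => ⟨h.1, h.2.2⟩⟩

theorem notMem_Bw {H : Finset (Finset V)} {S : Finset V} {w v : V} (hv : v ∈ S) :
    v ∉ Bw H S w := fun h => (mem_Bw.1 h).1 hv

theorem ext_erase {H : Finset (Finset V)} {S : Finset V} {w : V} (hS : Ind H S) (hw : w ∈ S) :
    ext H (S.erase w) = insert w (Bw H S w) := by
  ext v
  rw [mem_ext, mem_insert, mem_Bw]
  constructor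
  · rintro ⟨h1, h2⟩
    by_cases hvw : v = w
    · exact Or.inl hvw
    · exact Or.inr ⟨fun h => h1 (mem_erase.2 ⟨hvw, h⟩), h2⟩
  · rintro (rfl | ⟨h1, h2⟩)
    · refine ⟨notMem_erase _ _, ?_⟩
      rw [insert_erase hw]
      exact hS
    · exact ⟨fun h => h1 (mem_of_mem_erase h), h2⟩

theorem ext_erase_card {H : Finset (Finset V)} {S : Finset V} {w : V} (hS : Ind H S)
    (hw : w ∈ S) : (ext H (S.erase w)).card = (Bw H S w).card + 1 := by
  rw [ext_erase hS hw, card_insert_of_notMem (notMem_Bw hw)]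

theorem ext_mono {H : Finset (Finset V)} {S T : Finset V} {v : V} (hST : S ⊆ T)
    (hv : v ∈ ext H T) : v ∈ ext H S := by
  rw [mem_ext] at hv ⊢
  exact ⟨fun h => hv.1 (hST h), hv.2.mono (insert_subset_insert _ hST)⟩

/-- the number of the common exchange vertices, from below -/
theorem inter_ge {H : Finset (Finset V)} {S : Finset V} {w w' : V} (hww : w ≠ w') :
    ((ext H (S.erase w)).card : ℝ) + (ext H (S.erase w')).card -
        (ext H ((S.erase w).erase w')).card ≤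
      ((Bw H S w ∩ Bw H S w').card : ℝ) := by
  have h1 : ext H (S.erase w) ∪ ext H (S.erase w') ⊆ ext H ((S.erase w).erase w') := by
    intro v hv
    rcases mem_union.1 hv with h | h
    · exact ext_mono (erase_subset _ _) h
    · refine ext_mono ?_ h
      rw [erase_right_comm]
      exact erase_subset _ _
  have h2 : ext H (S.erase w) ∩ ext H (S.erase w') ⊆ Bw H S w ∩ Bw H S w' := by
    intro v hv
    obtain ⟨ha, hb⟩ := mem_inter.1 hv
    rw [mem_ext] at ha hb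
    have hvS : v ∉ S := by
      intro hvS
      by_cases hvw : v = w
      · exact hb.1 (mem_erase.2 ⟨fun h => hww (hvw.symm.trans h), hvS⟩)
      · exact ha.1 (mem_erase.2 ⟨hvw, hvS⟩)
    exact mem_inter.2 ⟨mem_Bw.2 ⟨hvS, ha.2⟩, mem_Bw.2 ⟨hvS, hb.2⟩⟩
  have h3 := card_union_add_card_inter (ext H (S.erase w)) (ext H (S.erase w'))
  have h4 := card_le_card h1
  have h5 := card_le_card h2
  have h6 : (ext H (S.erase w)).card + (ext H (S.erase w')).card ≤
      (Bw H S w ∩ Bw H S w').card + (ext H ((S.erase w).erase w')).card := by omega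
  have h7 : ((ext H (S.erase w)).card : ℝ) + (ext H (S.erase w')).card ≤
      ((Bw H S w ∩ Bw H S w').card : ℝ) + (ext H ((S.erase w).erase w')).card := by
    exact_mod_cast h6
  linarith

theorem kap_subset (H : Finset (Finset V)) (S : Finset V) (v : V) : kap H S v ⊆ S :=
  filter_subset _ _

/-- indicator form of the number of common exchange vertices -/
theorem inter_card {H : Finset (Finset V)} {S : Finset V} {w w' : V} (hw : w ∈ S)
    (hw' : w' ∈ S) : ((Bw H S w ∩ Bw H S w').card : ℝ) =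
      ∑ v ∈ Sᶜ, (if w ∈ kap H S v then (1 : ℝ) else 0) * (if w' ∈ kap H S v then 1 else 0) := by
  have h1 : Bw H S w ∩ Bw H S w' =
      Sᶜ.filter (fun v => w ∈ kap H S v ∧ w' ∈ kap H S v) := by
    ext v
    rw [mem_inter, mem_Bw_kap hw, mem_Bw_kap hw', mem_filter, mem_compl]
    tauto
  rw [h1, card_filter]
  push_cast
  refine sum_congr rfl fun v _ => ?_
  by_cases ha : w ∈ kap H S v <;> by_cases hb : w' ∈ kap H S v <;> simp [ha, hb]

omit [Fintype V] in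
theorem pair_sum {S K : Finset V} (hK : K ⊆ S) :
    ∑ w ∈ S, ∑ w' ∈ S.erase w, (if w ∈ K then (1 : ℝ) else 0) * (if w' ∈ K then 1 else 0) =
      (K.card : ℝ) * ((K.card : ℝ) - 1) := by
  have h1 : ∀ w ∈ S, ∑ w' ∈ S.erase w,
      (if w ∈ K then (1 : ℝ) else 0) * (if w' ∈ K then 1 else 0) =
      (if w ∈ K then (1 : ℝ) else 0) * ((K.card : ℝ) - 1) := by
    intro w hw
    rw [← mul_sum]
    by_cases hwK : w ∈ K
    · congr 1
      rw [← sum_filter, sum_const, nsmul_eq_mul, mul_one]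
      have h2 : (S.erase w).filter (fun w' => w' ∈ K) = K.erase w := by
        ext x
        simp only [mem_filter, mem_erase]
        constructor
        · rintro ⟨⟨ha, _⟩, hb⟩
          exact ⟨ha, hb⟩
        · rintro ⟨ha, hb⟩
          exact ⟨⟨ha, hK hb⟩, hb⟩
      have h3 := card_erase_add_one hwK
      have h4 : ((K.erase w).card : ℝ) + 1 = K.card := by exact_mod_cast h3
      rw [h2]
      linarith
    · simp [hwK]
  rw [sum_congr rfl h1, ← sum_mul]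
  congr 1
  rw [← sum_filter, sum_const, nsmul_eq_mul, mul_one]
  congr 2
  ext x
  simp only [mem_filter]
  exact ⟨fun h => h.2, fun h => ⟨hK h, h⟩⟩

/-- the sum over the pairs of the number of the common exchange vertices -/
theorem inter_sum (H : Finset (Finset V)) (S : Finset V) :
    ∑ w ∈ S, ∑ w' ∈ S.erase w, ((Bw H S w ∩ Bw H S w').card : ℝ) =
      ∑ v ∈ Sᶜ, ((kap H S v).card : ℝ) * (((kap H S v).card : ℝ) - 1) := by
  have h1 : ∀ w ∈ S, ∑ w' ∈ S.erase w, ((Bw H S w ∩ Bw H S w').card : ℝ) =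
      ∑ w' ∈ S.erase w, ∑ v ∈ Sᶜ,
        (if w ∈ kap H S v then (1 : ℝ) else 0) * (if w' ∈ kap H S v then 1 else 0) :=
    fun w hw => sum_congr rfl fun w' hw' => inter_card hw (mem_of_mem_erase hw')
  rw [sum_congr rfl h1]
  have h2 : ∀ w ∈ S, ∑ w' ∈ S.erase w, ∑ v ∈ Sᶜ,
        (if w ∈ kap H S v then (1 : ℝ) else 0) * (if w' ∈ kap H S v then 1 else 0) =
      ∑ v ∈ Sᶜ, ∑ w' ∈ S.erase w,
        (if w ∈ kap H S v then (1 : ℝ) else 0) * (if w' ∈ kap H S v then 1 else 0) :=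
    fun w _ => sum_comm
  rw [sum_congr rfl h2, sum_comm]
  exact sum_congr rfl fun v _ => pair_sum (kap_subset H S v)

/-- if there is no independent set of size `s + 3` then every vertex outside an independent set of size
`s + 2` is blocked -/
theorem ext_empty {H : Finset (Finset V)} {s : ℕ} (h0 : NI H (s + 1) = 0) {S : Finset V}
    (hS : S ∈ ind H s) : ext H S = ∅ := by
  by_contra hne
  obtain ⟨v, hv⟩ := nonempty_iff_ne_empty.2 hne
  obtain ⟨h1, h2⟩ := mem_ext.1 hv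
  obtain ⟨h3, h4⟩ := mem_ind.1 hS
  have h5 : insert v S ∈ ind H (s + 1) := by
    rw [mem_ind, card_insert_of_notMem h1, h3]
    exact ⟨rfl, h2⟩
  have h6 : (0 : ℝ) < NI H (s + 1) := by
    unfold NI
    exact_mod_cast card_pos.2 ⟨_, h5⟩
  exact absurd h0 h6.ne'

theorem mem_bl_of_compl {H : Finset (Finset V)} {S : Finset V} (hE : ext H S = ∅) {v : V}
    (hv : v ∈ Sᶜ) : v ∈ bl H S := by
  rw [mem_compl] at hv
  rw [mem_bl]
  refine ⟨hv, fun h => ?_⟩
  have : v ∈ ext H S := mem_ext.2 ⟨hv, h⟩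
  rw [hE] at this
  exact notMem_empty _ this

theorem inter_sum_le {H : Finset (Finset V)} {k : ℕ} (hH : ∀ e ∈ H, e.card = k) (hk : 2 ≤ k)
    {S : Finset V} (hS : Ind H S) (hE : ext H S = ∅) :
    ∑ w ∈ S, ∑ w' ∈ S.erase w, ((Bw H S w ∩ Bw H S w').card : ℝ) ≤
      (Fintype.card V : ℝ) * (((k : ℝ) - 1) * ((k : ℝ) - 2)) := by
  rw [inter_sum]
  have hk2 : (2 : ℝ) ≤ k := by exact_mod_cast hk
  have h1 : ∀ v ∈ Sᶜ, ((kap H S v).card : ℝ) * (((kap H S v).card : ℝ) - 1) ≤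
      ((k : ℝ) - 1) * ((k : ℝ) - 2) := by
    intro v hv
    have h2 := kap_card_le hH hS (mem_bl_of_compl hE hv)
    rcases Nat.eq_zero_or_pos (kap H S v).card with h3 | h3
    · rw [h3]
      push_cast
      nlinarith
    · have h4 : (1 : ℝ) ≤ (kap H S v).card := by exact_mod_cast h3
      have h5 : ((kap H S v).card : ℝ) + 1 ≤ k := by exact_mod_cast h2
      nlinarith
  refine (sum_le_sum h1).trans ?_
  rw [sum_const, nsmul_eq_mul]
  refine mul_le_mul_of_nonneg_right ?_ (by nlinarith)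
  exact_mod_cast card_le_univ _

/-- the pairs, one set `S` -/
theorem two_point {H : Finset (Finset V)} {k s : ℕ} (hH : ∀ e ∈ H, e.card = k) (hk : 2 ≤ k)
    {S : Finset V} (hS : S ∈ ind H (s + 2)) (hE : ext H S = ∅) {D2 D3 φ c c' : ℝ} (hc : 0 ≤ c)
    (hD : φ - c ≤ 2 * D2 - D3)
    (hφ : (Fintype.card V : ℝ) * (((k : ℝ) - 1) * ((k : ℝ) - 2)) ≤
      ((s : ℝ) + 2) * ((s : ℝ) + 1) * (φ + c')) :
    ∑ w ∈ S, ∑ w' ∈ S.erase w, |((Bw H S w ∩ Bw H S w').card : ℝ) - φ| ≤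
      4 * ((s : ℝ) + 1) * ∑ w ∈ S, |((ext H (S.erase w)).card : ℝ) - D2| +
      2 * ∑ w ∈ S, ∑ w' ∈ S.erase w, |((ext H ((S.erase w).erase w')).card : ℝ) - D3| +
      ((s : ℝ) + 2) * ((s : ℝ) + 1) * (2 * c + c') := by
  obtain ⟨hSc, hSI⟩ := mem_ind.1 hS
  have hcard : ∀ w ∈ S, ((S.erase w).card : ℝ) = (s : ℝ) + 1 := by
    intro w hw
    have h := card_erase_add_one hw
    rw [hSc] at h
    have h' : (S.erase w).card = s + 1 := by omega
    rw [h']
    push_cast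
    ring
  have hScR : (S.card : ℝ) = (s : ℝ) + 2 := by
    rw [hSc]
    push_cast
    ring
  have hpt : ∀ w ∈ S, ∀ w' ∈ S.erase w, |((Bw H S w ∩ Bw H S w').card : ℝ) - φ| ≤
      ((Bw H S w ∩ Bw H S w').card : ℝ) + 2 * |((ext H (S.erase w)).card : ℝ) - D2| +
        2 * |((ext H (S.erase w')).card : ℝ) - D2| +
        2 * |((ext H ((S.erase w).erase w')).card : ℝ) - D3| + (2 * c - φ) := by
    intro w _ w' hw'
    have h1 := inter_ge (H := H) (S := S) (ne_of_mem_erase hw').symm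
    have h2 := neg_abs_le (((ext H (S.erase w)).card : ℝ) - D2)
    have h3 := neg_abs_le (((ext H (S.erase w')).card : ℝ) - D2)
    have h4 := le_abs_self (((ext H ((S.erase w).erase w')).card : ℝ) - D3)
    have h5 := abs_nonneg (((ext H (S.erase w)).card : ℝ) - D2)
    have h6 := abs_nonneg (((ext H (S.erase w')).card : ℝ) - D2)
    have h7 := abs_nonneg (((ext H ((S.erase w).erase w')).card : ℝ) - D3)
    rw [abs_le]
    constructor <;> linarith
  have hsum := sum_le_sum fun w hw => sum_le_sum (hpt w hw)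
  refine hsum.trans ?_
  have e1 : ∑ w ∈ S, ∑ w' ∈ S.erase w, (((Bw H S w ∩ Bw H S w').card : ℝ) +
        2 * |((ext H (S.erase w)).card : ℝ) - D2| +
        2 * |((ext H (S.erase w')).card : ℝ) - D2| +
        2 * |((ext H ((S.erase w).erase w')).card : ℝ) - D3| + (2 * c - φ)) =
      ∑ w ∈ S, ∑ w' ∈ S.erase w, ((Bw H S w ∩ Bw H S w').card : ℝ) +
        2 * ∑ w ∈ S, ∑ w' ∈ S.erase w, |((ext H (S.erase w)).card : ℝ) - D2| +
        2 * ∑ w ∈ S, ∑ w' ∈ S.erase w, |((ext H (S.erase w')).card : ℝ) - D2| +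
        2 * ∑ w ∈ S, ∑ w' ∈ S.erase w, |((ext H ((S.erase w).erase w')).card : ℝ) - D3| +
        ∑ w ∈ S, ∑ _w' ∈ S.erase w, (2 * c - φ) := by
    simp only [sum_add_distrib, mul_sum]
  rw [e1]
  have e2 : ∑ w ∈ S, ∑ w' ∈ S.erase w, |((ext H (S.erase w)).card : ℝ) - D2| =
      ((s : ℝ) + 1) * ∑ w ∈ S, |((ext H (S.erase w)).card : ℝ) - D2| := by
    rw [mul_sum]
    refine sum_congr rfl fun w hw => ?_
    rw [sum_const, nsmul_eq_mul, hcard w hw]
  have e3 : ∑ w ∈ S, ∑ w' ∈ S.erase w, |((ext H (S.erase w')).card : ℝ) - D2| =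
      ((s : ℝ) + 1) * ∑ w ∈ S, |((ext H (S.erase w)).card : ℝ) - D2| := by
    rw [← e2]
    refine sum_comm' fun x y => ?_
    simp only [mem_erase]
    constructor
    · rintro ⟨h1, h2, h3⟩
      exact ⟨⟨h2.symm, h1⟩, h3⟩
    · rintro ⟨⟨h2, h1⟩, h3⟩
      exact ⟨h1, h2.symm, h3⟩
  have e4 : ∑ w ∈ S, ∑ _w' ∈ S.erase w, (2 * c - φ) =
      ((s : ℝ) + 2) * ((s : ℝ) + 1) * (2 * c - φ) := by
    have : ∀ w ∈ S, ∑ _w' ∈ S.erase w, (2 * c - φ) = ((s : ℝ) + 1) * (2 * c - φ) := by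
      intro w hw
      rw [sum_const, nsmul_eq_mul, hcard w hw]
    rw [sum_congr rfl this, sum_const, nsmul_eq_mul, hScR]
    ring
  have h8 := inter_sum_le hH hk hSI hE
  rw [e2, e3, e4]
  nlinarith

/-- the pairs, summed over the independent sets of size `s + 2` -/
theorem two_sum {H : Finset (Finset V)} {k s : ℕ} (hH : ∀ e ∈ H, e.card = k) (hk : 2 ≤ k)
    (h0 : NI H (s + 3) = 0) {D2 D3 φ c c' : ℝ} (hc : 0 ≤ c)
    (hD : φ - c ≤ 2 * D2 - D3)
    (hφ : (Fintype.card V : ℝ) * (((k : ℝ) - 1) * ((k : ℝ) - 2)) ≤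
      ((s : ℝ) + 2) * ((s : ℝ) + 1) * (φ + c')) :
    ∑ S ∈ ind H (s + 2), ∑ w ∈ S, ∑ w' ∈ S.erase w, |((Bw H S w ∩ Bw H S w').card : ℝ) - φ| ≤
      4 * ((s : ℝ) + 1) *
        ∑ S ∈ ind H (s + 2), ∑ w ∈ S, |((ext H (S.erase w)).card : ℝ) - D2| +
      2 * ∑ S ∈ ind H (s + 2), ∑ w ∈ S, ∑ w' ∈ S.erase w,
        |((ext H ((S.erase w).erase w')).card : ℝ) - D3| +
      NI H (s + 2) * (((s : ℝ) + 2) * ((s : ℝ) + 1) * (2 * c + c')) := by
  have h1 := sum_le_sum fun S (hS : S ∈ ind H (s + 2)) =>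
    two_point hH hk hS (ext_empty h0 hS) hc hD hφ
  refine h1.trans (le_of_eq ?_)
  rw [sum_add_distrib, sum_add_distrib, ← mul_sum, ← mul_sum, sum_const, nsmul_eq_mul]
  rfl

theorem phi_le {k s : ℕ} (hk : 2 ≤ k) (hks : k ≤ s + 3) {n : ℝ} (hn : 0 ≤ n) :
    n * (((k : ℝ) - 1) * ((k : ℝ) - 2)) ≤
      ((s : ℝ) + 2) * ((s : ℝ) + 1) * (((k : ℝ) / ((s : ℝ) + 3)) ^ 2 * n + 0) := by
  have hk2 : (2 : ℝ) ≤ k := by exact_mod_cast hk
  have hks2 : (k : ℝ) ≤ (s : ℝ) + 3 := by exact_mod_cast hks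
  have hs : (0 : ℝ) ≤ s := Nat.cast_nonneg _
  have h1 : ((s : ℝ) + 3) * ((k : ℝ) - 1) ≤ ((s : ℝ) + 2) * k := by nlinarith
  have h2 : ((s : ℝ) + 3) * ((k : ℝ) - 2) ≤ ((s : ℝ) + 1) * k := by nlinarith
  have h3 : (((s : ℝ) + 3) * ((k : ℝ) - 1)) * (((s : ℝ) + 3) * ((k : ℝ) - 2)) ≤
      (((s : ℝ) + 2) * k) * (((s : ℝ) + 1) * k) :=
    mul_le_mul h1 h2 (mul_nonneg (by linarith) (by linarith)) (by positivity)
  have h4 : ((k : ℝ) - 1) * ((k : ℝ) - 2) ≤
      ((s : ℝ) + 2) * ((s : ℝ) + 1) * ((k : ℝ) / ((s : ℝ) + 3)) ^ 2 := by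
    rw [div_pow, mul_div_assoc', le_div_iff₀ (by positivity)]
    nlinarith
  calc n * (((k : ℝ) - 1) * ((k : ℝ) - 2))
      ≤ n * (((s : ℝ) + 2) * ((s : ℝ) + 1) * ((k : ℝ) / ((s : ℝ) + 3)) ^ 2) :=
        mul_le_mul_of_nonneg_left h4 hn
    _ = _ := by ring

/-- the pairs: `δ = k / m`, `m = s + 3`, `φ = δ² n` -/
theorem two_delta {H : Finset (Finset V)} {k s : ℕ} (hH : ∀ e ∈ H, e.card = k) (hk : 2 ≤ k)
    (hks : k ≤ s + 3) (h0 : NI H (s + 3) = 0) {δ η c : ℝ} (hδ : δ = (k : ℝ) / ((s : ℝ) + 3))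
    (hη : 0 ≤ η) (hc : 0 ≤ c)
    (hV : Sq H (s + 1) ≤ η * (Fintype.card V : ℝ) ^ 2 * NI H (s + 1))
    (hV' : Sq H s ≤ η * (Fintype.card V : ℝ) ^ 2 * NI H s)
    (hA : δ / 2 * (Fintype.card V : ℝ) ≤ Av H (s + 1))
    (hA' : δ / 2 * (Fintype.card V : ℝ) ≤ Av H s)
    (hD : δ ^ 2 * (Fintype.card V : ℝ) - c * (Fintype.card V : ℝ) ≤
      2 * Av H (s + 1) - Av H s) :
    ∑ S ∈ ind H (s + 2), ∑ w ∈ S, ∑ w' ∈ S.erase w,
        |((Bw H S w ∩ Bw H S w').card : ℝ) - δ ^ 2 * (Fintype.card V : ℝ)| ≤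
      (16 / δ ^ 2 * √η + 2 * c) * (((s : ℝ) + 2) * ((s : ℝ) + 1)) * (Fintype.card V : ℝ) *
        NI H (s + 2) := by
  have hk2 : (2 : ℝ) ≤ k := by exact_mod_cast hk
  have hks2 : (k : ℝ) ≤ (s : ℝ) + 3 := by exact_mod_cast hks
  have hs : (0 : ℝ) ≤ s := Nat.cast_nonneg _
  have hδ0 : 0 < δ := by rw [hδ]; positivity
  have hδ1 : δ ≤ 1 := by rw [hδ, div_le_one (by linarith)]; exact hks2
  have hn : (0 : ℝ) ≤ (Fintype.card V : ℝ) := Nat.cast_nonneg _
  have hN := NI_nonneg H (s + 2)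
  have h1 := two_sum hH hk h0 (c := c * (Fintype.card V : ℝ)) (c' := 0) (by positivity) hD
    (by rw [hδ]; exact phi_le hk hks hn)
  refine h1.trans ?_
  have h2 := var_one_N H s hη hδ0 hV hA
  have h3 := var_two_N H s hη hδ0 hV' hA hA'
  have h4 := mul_le_mul_of_nonneg_left h2 (show (0 : ℝ) ≤ 4 * ((s : ℝ) + 1) by positivity)
  have h5 : 2 / δ ≤ 2 / δ ^ 2 := by
    apply div_le_div_of_nonneg_left (by norm_num) (by positivity)
    nlinarith
  have h6 : 4 * ((s : ℝ) + 1) *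
      (2 / δ * √η * ((s : ℝ) + 2) * (Fintype.card V : ℝ) * NI H (s + 2)) ≤
      4 * ((s : ℝ) + 1) *
      (2 / δ ^ 2 * √η * ((s : ℝ) + 2) * (Fintype.card V : ℝ) * NI H (s + 2)) := by
    gcongr
  have h7 : 4 * ((s : ℝ) + 1) *
      (2 / δ ^ 2 * √η * ((s : ℝ) + 2) * (Fintype.card V : ℝ) * NI H (s + 2)) +
      2 * (4 / δ ^ 2 * √η * (((s : ℝ) + 2) * ((s : ℝ) + 1)) * (Fintype.card V : ℝ) *
        NI H (s + 2)) + NI H (s + 2) *
        (((s : ℝ) + 2) * ((s : ℝ) + 1) * (2 * (c * (Fintype.card V : ℝ)) + 0)) =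
      (16 / δ ^ 2 * √η + 2 * c) * (((s : ℝ) + 2) * ((s : ℝ) + 1)) * (Fintype.card V : ℝ) *
        NI H (s + 2) := by ring
  rw [← h7]
  linarith

end Pool.Agent.DCS
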