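import Pool.Agent.DCS.Ident

/-!
# DCS-Var: concentration of the number of free vertices after the removal of one or two vertices

`Sq H s ≤ η n² NI H s` (small variance of the number of extensions of the independent `s`-sets) gives that, on
average over the independent sets `S` of size `s + 1` or `s + 2` and over the vertices of `S`, the number of
extensions of `S - w` or `S - w - w'` is close to the mean value.
-/

open Finset Pool.Agent.Helper2.DC

namespace Pool.Agent.DCS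

variable {V : Type} [Fintype V] [DecidableEq V]

theorem var_cs (H : Finset (Finset V)) (s : ℕ) {η : ℝ} (hη : 0 ≤ η)
    (h : Sq H s ≤ η * (Fintype.card V : ℝ) ^ 2 * NI H s) :
    ∑ Q ∈ ind H s, |((ext H Q).card : ℝ) - Av H s| ≤
      √η * (Fintype.card V : ℝ) * NI H s := by
  have h1 := sq_sum_le_card_mul_sum_sq (s := ind H s)
    (f := fun Q => |((ext H Q).card : ℝ) - Av H s|)
  simp only [sq_abs] at h1
  have h2 : (∑ Q ∈ ind H s, |((ext H Q).card : ℝ) - Av H s|) ^ 2 ≤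
      (√η * (Fintype.card V : ℝ) * NI H s) ^ 2 := by
    refine h1.trans ?_
    have h3 : (√η * (Fintype.card V : ℝ) * NI H s) ^ 2 =
        NI H s * (η * (Fintype.card V : ℝ) ^ 2 * NI H s) := by
      rw [mul_pow, mul_pow, Real.sq_sqrt hη]; ring
    rw [h3]
    exact mul_le_mul_of_nonneg_left h (NI_nonneg H s)
  have h4 := NI_nonneg H s
  exact le_of_abs_le (abs_le_of_sq_le_sq h2 (by positivity))

theorem ext_card_le (H : Finset (Finset V)) (Q : Finset V) :
    ((ext H Q).card : ℝ) ≤ Fintype.card V := by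
  exact_mod_cast Finset.card_le_univ _

/-- one vertex removed -/
theorem var_one (H : Finset (Finset V)) (s : ℕ) {η : ℝ} (hη : 0 ≤ η)
    (h : Sq H s ≤ η * (Fintype.card V : ℝ) ^ 2 * NI H s) :
    ∑ S ∈ ind H (s + 1), ∑ w ∈ S, |((ext H (S.erase w)).card : ℝ) - Av H s| ≤
      √η * (Fintype.card V : ℝ) ^ 2 * NI H s := by
  rw [← sum_ext H s (fun Q _ => |((ext H Q).card : ℝ) - Av H s|)]
  have h1 : ∑ Q ∈ ind H s, ∑ _x ∈ ext H Q, |((ext H Q).card : ℝ) - Av H s| ≤
      ∑ Q ∈ ind H s, (Fintype.card V : ℝ) * |((ext H Q).card : ℝ) - Av H s| := by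
    refine sum_le_sum fun Q _ => ?_
    rw [sum_const, nsmul_eq_mul]
    exact mul_le_mul_of_nonneg_right (ext_card_le H Q) (abs_nonneg _)
  refine h1.trans ?_
  rw [← mul_sum]
  refine (mul_le_mul_of_nonneg_left (var_cs H s hη h) (Nat.cast_nonneg _)).trans (le_of_eq ?_)
  ring

/-- two vertices removed -/
theorem var_two (H : Finset (Finset V)) (s : ℕ) {η : ℝ} (hη : 0 ≤ η)
    (h : Sq H s ≤ η * (Fintype.card V : ℝ) ^ 2 * NI H s) :
    ∑ S ∈ ind H (s + 2), ∑ w ∈ S, ∑ w' ∈ S.erase w,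
      |((ext H ((S.erase w).erase w')).card : ℝ) - Av H s| ≤
      √η * (Fintype.card V : ℝ) ^ 3 * NI H s := by
  rw [← sum_ext H (s + 1) (fun Q _ => ∑ w' ∈ Q, |((ext H (Q.erase w')).card : ℝ) - Av H s|)]
  have h1 : ∑ Q ∈ ind H (s + 1), ∑ _x ∈ ext H Q,
        ∑ w' ∈ Q, |((ext H (Q.erase w')).card : ℝ) - Av H s| ≤
      ∑ Q ∈ ind H (s + 1), (Fintype.card V : ℝ) *
        ∑ w' ∈ Q, |((ext H (Q.erase w')).card : ℝ) - Av H s| := by
    refine sum_le_sum fun Q _ => ?_
    rw [sum_const, nsmul_eq_mul]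
    exact mul_le_mul_of_nonneg_right (ext_card_le H Q) (sum_nonneg fun _ _ => abs_nonneg _)
  refine h1.trans ?_
  rw [← mul_sum]
  refine (mul_le_mul_of_nonneg_left (var_one H s hη h) (Nat.cast_nonneg _)).trans (le_of_eq ?_)
  ring

/-- the number of independent `s`-sets in terms of the number of independent `(s+1)`-sets -/
theorem level_le (H : Finset (Finset V)) (s : ℕ) {δ : ℝ} (hδ : 0 < δ)
    (hA : δ / 2 * (Fintype.card V : ℝ) ≤ Av H s) :
    (Fintype.card V : ℝ) * NI H s ≤ 2 / δ * (((s : ℝ) + 1) * NI H (s + 1)) := by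
  have h0 := NI_nonneg H s
  have h1 : Av H s * NI H s ≤ ((s : ℝ) + 1) * NI H (s + 1) := by
    rcases h0.eq_or_lt with h | h
    · rw [← h, mul_zero]
      have := NI_nonneg H (s + 1)
      positivity
    · exact le_of_eq (Av_mul h)
  have h2 : δ / 2 * (Fintype.card V : ℝ) * NI H s ≤ ((s : ℝ) + 1) * NI H (s + 1) :=
    (mul_le_mul_of_nonneg_right hA h0).trans h1
  have h3 := mul_le_mul_of_nonneg_left h2 (show (0 : ℝ) ≤ 2 / δ by positivity)
  refine le_trans (le_of_eq ?_) h3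
  field_simp

/-- one vertex removed, in terms of the number of the independent `(s+2)`-sets -/
theorem var_one_N (H : Finset (Finset V)) (s : ℕ) {η δ : ℝ} (hη : 0 ≤ η) (hδ : 0 < δ)
    (h : Sq H (s + 1) ≤ η * (Fintype.card V : ℝ) ^ 2 * NI H (s + 1))
    (hA : δ / 2 * (Fintype.card V : ℝ) ≤ Av H (s + 1)) :
    ∑ S ∈ ind H (s + 2), ∑ w ∈ S, |((ext H (S.erase w)).card : ℝ) - Av H (s + 1)| ≤
      2 / δ * √η * ((s : ℝ) + 2) * (Fintype.card V : ℝ) * NI H (s + 2) := by
  refine (var_one H (s + 1) hη h).trans ?_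
  have h1 := level_le H (s + 1) hδ hA
  have h2 := mul_le_mul_of_nonneg_left h1
    (show (0 : ℝ) ≤ √η * (Fintype.card V : ℝ) by positivity)
  refine le_trans (le_of_eq ?_) (h2.trans (le_of_eq ?_))
  · ring
  · push_cast
    ring

/-- two vertices removed, in terms of the number of the independent `(s+2)`-sets -/
theorem var_two_N (H : Finset (Finset V)) (s : ℕ) {η δ : ℝ} (hη : 0 ≤ η) (hδ : 0 < δ)
    (h : Sq H s ≤ η * (Fintype.card V : ℝ) ^ 2 * NI H s)
    (hA : δ / 2 * (Fintype.card V : ℝ) ≤ Av H (s + 1))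
    (hA' : δ / 2 * (Fintype.card V : ℝ) ≤ Av H s) :
    ∑ S ∈ ind H (s + 2), ∑ w ∈ S, ∑ w' ∈ S.erase w,
      |((ext H ((S.erase w).erase w')).card : ℝ) - Av H s| ≤
      4 / δ ^ 2 * √η * (((s : ℝ) + 2) * ((s : ℝ) + 1)) * (Fintype.card V : ℝ) *
        NI H (s + 2) := by
  refine (var_two H s hη h).trans ?_
  have h1 := level_le H (s + 1) hδ hA
  have h1' := level_le H s hδ hA'
  have h2 := mul_le_mul_of_nonneg_left h1'
    (show (0 : ℝ) ≤ √η * (Fintype.card V : ℝ) ^ 2 by positivity)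
  have h3 := mul_le_mul_of_nonneg_left h1
    (show (0 : ℝ) ≤ √η * (Fintype.card V : ℝ) * (2 / δ * ((s : ℝ) + 1)) by positivity)
  have h4 : √η * (Fintype.card V : ℝ) ^ 3 * NI H s =
      √η * (Fintype.card V : ℝ) ^ 2 * ((Fintype.card V : ℝ) * NI H s) := by ring
  have h5 : √η * (Fintype.card V : ℝ) ^ 2 * (2 / δ * (((s : ℝ) + 1) * NI H (s + 1))) =
      √η * (Fintype.card V : ℝ) * (2 / δ * ((s : ℝ) + 1)) *
        ((Fintype.card V : ℝ) * NI H (s + 1)) := by ring
  rw [h4]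
  rw [h5] at h2
  refine h2.trans (h3.trans (le_of_eq ?_))
  push_cast
  field_simp
  ring

end Pool.Agent.DCS
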